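import Mathlib
import Pool.Agent.H91.EHA.Defs

/-!
# PROJECT L1 (MP_a78e8f_nt): level of distribution one, definitions

`L = log x`, `R = ⌊L^B⌋`, `hR R = Λ - Λ_R` (`Pool/Agent/H91/EHA/Defs.lean`).

* `fz R n` is `hR R n` for `n ≥ 1` and `0` for `n ≤ 0` (`n` an integer);
* `Wd h d H w = ∑_{w < n ≤ w + H, n ≡ w (d)} h(n)`;
* `GG h a0 H Q d k n = ∑_{Q < q ≤ 2Q, a0 < n - q k ≤ a0 + H} h(n + q d)`;
* `TT R a0 H Q k k' = ∑_{Q < q ≤ 2Q} ∑_{a0 < a ≤ a0 + H} fz(a + q k) fz(a + q k')`;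
* `HuxProp`: primes in almost all intervals of length `X^(1/6+e)`, in residue classes modulo `d ≤ (log X)^B`
  (project PSI of helper88).
-/

set_option autoImplicit false

namespace Pool.Agent.H91.L1

open Finset
open Pool.Agent.H91.EHA (Lam lamR hR psiA err)

/-- `hR` on the integers, zero on `n ≤ 0` -/
noncomputable def fz (R : ℕ) (n : ℤ) : ℝ := if 1 ≤ n then hR R n.toNat else 0

/-- the sum over the window `(w, w + H]` in the class of `w` -/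
noncomputable def Wd (h : ℕ → ℝ) (d H w : ℕ) : ℝ :=
  ∑ n ∈ (Ioc w (w + H)).filter (fun n => n ≡ w [MOD d]), h n

/-- the inner sum -/
noncomputable def GG (h : ℕ → ℝ) (a0 H Q d : ℕ) (k : ℤ) (n : ℕ) : ℝ :=
  ∑ q ∈ (Ioc Q (2 * Q)).filter
    (fun q : ℕ => (a0 : ℤ) < (n : ℤ) - q * k ∧ (n : ℤ) - q * k ≤ a0 + H), h (n + q * d)

/-- the pair sum -/
noncomputable def TT (R a0 H Q : ℕ) (k k' : ℤ) : ℝ :=
  ∑ q ∈ Ioc Q (2 * Q), ∑ a ∈ Ioc a0 (a0 + H), fz R ((a : ℤ) + q * k) * fz R ((a : ℤ) + q * k')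

/-- primes in almost all short intervals, in residue classes -/
def HuxProp : Prop := ∀ e : ℝ, 0 < e → ∀ A B : ℕ, ∃ X0 : ℕ, ∀ X : ℕ, X0 ≤ X → ∀ d u H : ℕ, 1 ≤ d →
  (d : ℝ) ≤ Real.log X ^ B → Nat.Coprime u d →
  (X : ℝ) ^ (1 / 6 + e) ≤ H → (H : ℝ) ≤ (X : ℝ) ^ (1 / 3 : ℝ) →
  ∑ w ∈ Ico X (2 * X), ((∑ n ∈ (Ioc w (w + H)).filter (fun n => n ≡ u [MOD d]), Lam n)
    - (H : ℝ) / (d.totient : ℝ)) ^ 2 ≤ X * (H : ℝ) ^ 2 / Real.log X ^ A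

end Pool.Agent.H91.L1
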