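import Mathlib
import Pool.Agent.H91.L1.Defs
import Pool.Agent.H91.EHA.Lam1
import Pool.Agent.H91.EHA.Lam2
import Pool.Agent.H91.EHA.T1fin

/-!
# L1 PsiS: from `hR` to `ψ(y;q,a) - y/φ(q)`, selections of residues (adapted from `Psi` by helper31)

Copy of the second half of `T1fin` (`Pool/Agent/H91/EHA/T1fin.lean`), with `y` depending on `(q,a)` and `Q L^(3B+c+1) ≤ x` instead of `Q ≤ x^θ`:
`psiA = ∑ hR + ∑ lamR`, `lamR_ap`, `lamR_avg`: the second part is `≤ Q H R³ + H x C(1+log Q)²/R`.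
-/

set_option autoImplicit false

namespace Pool.Agent.H91.L1

open Finset
open Pool.Agent.H91.EHA (Lam lamR hR psiA err)

theorem psiS_of_hR (B c : ℕ) (hB : c + 4 ≤ B) : ∃ x0 : ℕ, ∀ x : ℕ, x0 ≤ x →
    ∀ Q H : ℕ, ∀ y : ℕ → ℕ → ℕ, ∀ S : ℕ → Finset ℕ, (∀ q, (S q).card ≤ H) →
      (∀ q a, y q a ≤ x) → 1 ≤ Q →
      (Q : ℝ) * Real.log x ^ (3 * B + c + 1) ≤ x →
      ∑ q ∈ Ioc Q (2 * Q), ∑ a ∈ S q,
        |∑ n ∈ (Icc 1 (y q a)).filter (fun n => n ≡ a [MOD q]), hR ⌊Real.log x ^ B⌋₊ n|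
          ≤ H * x / Real.log x ^ (c + 2) →
      ∑ q ∈ Ioc Q (2 * Q), ∑ a ∈ (S q).filter (fun a => Nat.Coprime a q),
        |psiA (y q a) q a - (y q a : ℝ) / (q.totient : ℝ)| ≤ H * x / Real.log x ^ c := by
  obtain ⟨C, hC, hCav⟩ := Pool.Agent.H91.EHA.lamR_avg
  obtain ⟨x3, hx3⟩ := Pool.Agent.H91.EHA.log_ge (max 8 (8 * C))
  refine ⟨max x3 3, fun x hx Q H y S hS hy hQ1 hQ h1 => ?_⟩
  have hxx3 : x3 ≤ x := le_trans (le_max_left _ _) hx
  have hxx4 : 3 ≤ x := le_trans (le_max_right _ _) hx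
  have hlog := hx3 x hxx3
  have hlog8 : 8 ≤ Real.log x := (le_max_left _ _).trans hlog
  have hlogC : 8 * C ≤ Real.log x := (le_max_right _ _).trans hlog
  set L : ℝ := Real.log x with hL
  have hLpos : 0 < L := by linarith
  have hL1 : 1 ≤ L := by linarith
  set R : ℕ := ⌊L ^ B⌋₊ with hR'
  have hxpos : (0 : ℝ) < x := by
    have : (3 : ℝ) ≤ x := by exact_mod_cast hxx4
    linarith
  have hQpos : (0 : ℝ) < Q := by exact_mod_cast hQ1
  have hHnn : (0 : ℝ) ≤ H := Nat.cast_nonneg H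
  have hLB : 1 ≤ L ^ B := one_le_pow₀ hL1
  have hR1 : 1 ≤ R := by
    rw [hR']
    exact Nat.le_floor (by simpa using hLB)
  have hRpos : (0 : ℝ) < R := by exact_mod_cast hR1
  have hRle : (R : ℝ) ≤ L ^ B := Nat.floor_le (by positivity)
  have hRge : L ^ B / 2 ≤ R := by
    have h1 : L ^ B < R + 1 := Nat.lt_floor_add_one _
    have h2 : (1 : ℝ) ≤ R := by exact_mod_cast hR1
    linarith
  -- the second part
  have h2 : ∑ q ∈ Ioc Q (2 * Q), ∑ a ∈ (S q).filter (fun a => Nat.Coprime a q),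
      |(∑ n ∈ (Icc 1 (y q a)).filter (fun n => n ≡ a [MOD q]), lamR R n)
        - (y q a : ℝ) / (q.totient : ℝ)|
        ≤ Q * H * (R : ℝ) ^ 3 + H * x * (C * (1 + Real.log Q) ^ 2 / R) := by
    have h3 : ∀ q ∈ Ioc Q (2 * Q),
        ∑ a ∈ (S q).filter (fun a => Nat.Coprime a q),
      |(∑ n ∈ (Icc 1 (y q a)).filter (fun n => n ≡ a [MOD q]), lamR R n)
        - (y q a : ℝ) / (q.totient : ℝ)|
        ≤ H * (R : ℝ) ^ 3 + H * x * |1 / (q : ℝ) * (∑ c ∈ q.divisors.filter (fun c => c ≤ R),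
        (ArithmeticFunction.moebius c : ℝ) ^ 2 / (c.totient : ℝ)) - 1 / (q.totient : ℝ)| := by
      intro q hq
      have hq1 : 1 ≤ q := by
        have := (mem_Ioc.1 hq).1
        omega
      have h4 : ∀ a ∈ (S q).filter (fun a => Nat.Coprime a q),
          |(∑ n ∈ (Icc 1 (y q a)).filter (fun n => n ≡ a [MOD q]), lamR R n)
            - (y q a : ℝ) / (q.totient : ℝ)|
          ≤ (R : ℝ) ^ 3 + x * |1 / (q : ℝ) * (∑ c ∈ q.divisors.filter (fun c => c ≤ R),
        (ArithmeticFunction.moebius c : ℝ) ^ 2 / (c.totient : ℝ)) - 1 / (q.totient : ℝ)| := by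
        intro a ha
        have hcop : Nat.Coprime a q := (mem_filter.1 ha).2
        have h5 := Pool.Agent.H91.EHA.lamR_ap R (y q a) q a hq1 hcop
        set T : ℝ := ∑ c ∈ q.divisors.filter (fun c => c ≤ R),
          (ArithmeticFunction.moebius c : ℝ) ^ 2 / (c.totient : ℝ) with hT'
        set U : ℝ := ∑ n ∈ (Icc 1 (y q a)).filter (fun n => n ≡ a [MOD q]), lamR R n with hU
        have h6 : U - (y q a : ℝ) / (q.totient : ℝ)
            = (U - (y q a : ℝ) / q * T) + (y q a : ℝ) * (1 / (q : ℝ) * T - 1 / (q.totient : ℝ)) := by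
          ring
        rw [h6]
        refine (abs_add_le _ _).trans ?_
        apply add_le_add h5
        rw [abs_mul, abs_of_nonneg (by positivity : (0 : ℝ) ≤ (y q a : ℝ))]
        apply mul_le_mul_of_nonneg_right _ (abs_nonneg _)
        exact_mod_cast hy q a
      refine (Finset.sum_le_sum h4).trans ?_
      rw [Finset.sum_const, nsmul_eq_mul]
      have h7 : (((S q).filter (fun a => Nat.Coprime a q)).card : ℝ) ≤ H := by
        have := (Finset.card_filter_le (S q) (fun a => Nat.Coprime a q)).trans (hS q)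
        exact_mod_cast this
      have h9 := mul_le_mul_of_nonneg_right h7
        (show 0 ≤ (R : ℝ) ^ 3 + x * |1 / (q : ℝ) * (∑ c ∈ q.divisors.filter (fun c => c ≤ R),
        (ArithmeticFunction.moebius c : ℝ) ^ 2 / (c.totient : ℝ)) - 1 / (q.totient : ℝ)|
          by positivity)
      refine h9.trans (le_of_eq ?_)
      ring
    refine (Finset.sum_le_sum h3).trans ?_
    rw [Finset.sum_add_distrib, Finset.sum_const, Nat.card_Ioc, ← Finset.mul_sum, nsmul_eq_mul]
    have h8 : 2 * Q - Q = Q := by omega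
    rw [h8]
    have h10 := hCav R Q hR1 hQ1
    have h11 := mul_le_mul_of_nonneg_left h10 (show (0 : ℝ) ≤ H * x by positivity)
    have h12 : (Q : ℝ) * (H * (R : ℝ) ^ 3) = Q * H * (R : ℝ) ^ 3 := by ring
    rw [h12]
    exact add_le_add le_rfl h11
  -- numerical bounds
  have h3 : (Q : ℝ) * H * (R : ℝ) ^ 3 ≤ H * x / L ^ (c + 1) := by
    rw [le_div_iff₀ (by positivity)]
    have h4 : (R : ℝ) ^ 3 ≤ L ^ (3 * B) := by
      calc (R : ℝ) ^ 3 ≤ (L ^ B) ^ 3 := pow_le_pow_left₀ (by positivity) hRle 3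
        _ = L ^ (3 * B) := by rw [← pow_mul]; ring_nf
    have h5 : L ^ (3 * B) * L ^ (c + 1) = L ^ (3 * B + c + 1) := by ring
    calc (Q : ℝ) * H * (R : ℝ) ^ 3 * L ^ (c + 1)
        = H * (Q * ((R : ℝ) ^ 3 * L ^ (c + 1))) := by ring
      _ ≤ H * (Q * L ^ (3 * B + c + 1)) := by
          apply mul_le_mul_of_nonneg_left _ hHnn
          apply mul_le_mul_of_nonneg_left _ hQpos.le
          calc (R : ℝ) ^ 3 * L ^ (c + 1) ≤ L ^ (3 * B) * L ^ (c + 1) := by
                apply mul_le_mul_of_nonneg_right h4 (by positivity)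
            _ = L ^ (3 * B + c + 1) := h5
      _ ≤ H * x := mul_le_mul_of_nonneg_left hQ hHnn
  have h4 : (H : ℝ) * x * (C * (1 + Real.log Q) ^ 2 / R) ≤ H * x / L ^ (c + 1) := by
    have hQx : (Q : ℝ) ≤ x := by
      have h5 : (Q : ℝ) * 1 ≤ Q * L ^ (3 * B + c + 1) :=
        mul_le_mul_of_nonneg_left (one_le_pow₀ hL1) hQpos.le
      linarith
    have hlogQ : Real.log Q ≤ L := Real.log_le_log hQpos hQx
    have hlogQ0 : 0 ≤ Real.log Q := Real.log_nonneg (by exact_mod_cast hQ1)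
    have h5 : (1 + Real.log Q) ^ 2 ≤ 4 * L ^ 2 := by
      calc (1 + Real.log Q) ^ 2 ≤ (2 * L) ^ 2 := by
            apply pow_le_pow_left₀ (by positivity)
            linarith
        _ = 4 * L ^ 2 := by ring
    have h6 : C * (1 + Real.log Q) ^ 2 / R ≤ 1 / L ^ (c + 1) := by
      rw [div_le_div_iff₀ hRpos (by positivity), one_mul]
      have h7 : L ^ (c + 4) ≤ L ^ B := pow_le_pow_right₀ hL1 hB
      calc C * (1 + Real.log Q) ^ 2 * L ^ (c + 1)
          ≤ C * (4 * L ^ 2) * L ^ (c + 1) := by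
            apply mul_le_mul_of_nonneg_right _ (by positivity)
            apply mul_le_mul_of_nonneg_left h5 hC.le
        _ = (8 * C) * L ^ (c + 3) / 2 := by ring
        _ ≤ L * L ^ (c + 3) / 2 := by
            apply div_le_div_of_nonneg_right _ (by norm_num)
            apply mul_le_mul_of_nonneg_right hlogC (by positivity)
        _ = L ^ (c + 4) / 2 := by ring
        _ ≤ L ^ B / 2 := by linarith
        _ ≤ R := hRge
    calc (H : ℝ) * x * (C * (1 + Real.log Q) ^ 2 / R) ≤ H * x * (1 / L ^ (c + 1)) :=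
          mul_le_mul_of_nonneg_left h6 (by positivity)
      _ = H * x / L ^ (c + 1) := by ring
  -- conclusion
  have h5 : ∑ q ∈ Ioc Q (2 * Q), ∑ a ∈ (S q).filter (fun a => Nat.Coprime a q),
      |psiA (y q a) q a - (y q a : ℝ) / (q.totient : ℝ)|
      ≤ (∑ q ∈ Ioc Q (2 * Q), ∑ a ∈ S q,
          |∑ n ∈ (Icc 1 (y q a)).filter (fun n => n ≡ a [MOD q]), hR R n|)
        + ∑ q ∈ Ioc Q (2 * Q), ∑ a ∈ (S q).filter (fun a => Nat.Coprime a q),
          |(∑ n ∈ (Icc 1 (y q a)).filter (fun n => n ≡ a [MOD q]), lamR R n)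
            - (y q a : ℝ) / (q.totient : ℝ)| := by
    rw [← Finset.sum_add_distrib]
    apply Finset.sum_le_sum
    intro q _
    have h6 : ∑ a ∈ (S q).filter (fun a => Nat.Coprime a q),
        |∑ n ∈ (Icc 1 (y q a)).filter (fun n => n ≡ a [MOD q]), hR R n|
        ≤ ∑ a ∈ S q,
          |∑ n ∈ (Icc 1 (y q a)).filter (fun n => n ≡ a [MOD q]), hR R n| := by
      apply Finset.sum_le_sum_of_subset_of_nonneg (Finset.filter_subset _ _)
      intro a _ _
      exact abs_nonneg _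
    refine le_trans ?_ (add_le_add h6 le_rfl)
    rw [← Finset.sum_add_distrib]
    apply Finset.sum_le_sum
    intro a _
    have h7 : psiA (y q a) q a = (∑ n ∈ (Icc 1 (y q a)).filter (fun n => n ≡ a [MOD q]), hR R n)
        + ∑ n ∈ (Icc 1 (y q a)).filter (fun n => n ≡ a [MOD q]), lamR R n := by
      rw [← Finset.sum_add_distrib]
      apply Finset.sum_congr rfl
      intro n _
      unfold hR
      ring
    rw [h7, add_sub_assoc]
    exact abs_add_le _ _
  refine h5.trans ?_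
  have h8 : 0 ≤ (H : ℝ) * x := by positivity
  have h7 : (H : ℝ) * x / L ^ (c + 1) ≤ H * x / L ^ c / 8 := by
    rw [div_div]
    apply div_le_div_of_nonneg_left h8 (by positivity)
    calc L ^ c * 8 ≤ L ^ c * L := by
          apply mul_le_mul_of_nonneg_left hlog8 (by positivity)
      _ = L ^ (c + 1) := by ring
  have h6 : (H : ℝ) * x / L ^ (c + 2) ≤ H * x / L ^ c / 8 := by
    refine le_trans ?_ h7
    apply div_le_div_of_nonneg_left h8 (by positivity)
    exact pow_le_pow_right₀ hL1 (by omega)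
  have h9 : 0 ≤ (H : ℝ) * x / L ^ c := by positivity
  linarith [h1, h2, h3, h4]

end Pool.Agent.H91.L1
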