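import Mathlib
import Pool.Agent.H91.L1.Defs

/-!
# L1 PairG: the inner sums are window sums (combinatorics, arbitrary `h`)

Put `κ = |k| ≥ 2d`.  For an integer `n` the integers `q` with `a0 < n - q k ≤ a0 + H` form an interval `(q0, q1]`:
`k > 0`: `q0 = ⌈(n - a0 - H)/k⌉ - 1`, `q1 = ⌈(n - a0)/k⌉ - 1`; `k < 0`: `q0 = ⌊(a0 - n)/κ⌋`, `q1 = ⌊(a0 + H - n)/κ⌋`; in both cases
`q1 - q0` is `⌊H/κ⌋` or `⌊H/κ⌋ + 1`.
`n` is bad if `a0 < n - Q k ≤ a0 + H` or `a0 < n - 2 Q k ≤ a0 + H`: at most `2H` bad `n`, for these `|GG| ≤ (H/κ + 1) M`.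
If `n` is not bad then `(q0, q1]` and `(Q, 2Q]` are disjoint (`GG = 0`) or `(q0, q1] ⊆ (Q, 2Q]` (the end points `Q`, `2Q` do not belong to
`(q0, q1]`).  In the second case the `n + q d`, `q0 < q ≤ q1`, are exactly the `n' ≡ n (mod d)` with `w < n' ≤ n + q1 d`,
`w = w(n) = n + q0 d ≥ 0`, `w ≡ n (mod d)`, so `GG = Wd h d (⌊H/κ⌋ d) w` plus at most one term `≤ M`: `GG² ≤ 2 Wd² + 2 M²`,
`w ≤ N + 2 Q d`.
At most three `n` have the same `w(n)`: `n ≡ w (mod d)`, and if `w(n) = w(m)`, `n < m`, then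
`m - n = (q0(n) - q0(m)) d`; for `k > 0` `q0` is nondecreasing: impossible; for `k < 0` `q0(n) - q0(m) ≤ (m-n)/κ + 1`, so
`(m-n)(1 - d/κ) ≤ d`, `m - n ≤ 2d`, `m - n ∈ {d, 2d}`.
-/

set_option autoImplicit false

namespace Pool.Agent.H91.L1

open Finset
open Pool.Agent.H91.EHA (Lam lamR hR psiA err)

/-- the left end point, multiplied by `|k|` -/
private def pairG_z (a0 H : ℕ) (k n : ℤ) : ℤ := if 0 < k then n - a0 - H - 1 else a0 - n

private lemma pairG_iff (a0 H : ℕ) (k n q : ℤ) (hk : k ≠ 0) :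
    ((a0 : ℤ) < n - q * k ∧ n - q * k ≤ a0 + H) ↔
      (pairG_z a0 H k n / |k| < q ∧ q ≤ (pairG_z a0 H k n + H) / |k|) := by
  have hpos : 0 < |k| := abs_pos.mpr hk
  rw [Int.ediv_lt_iff_lt_mul hpos, Int.le_ediv_iff_mul_le hpos]
  unfold pairG_z
  split_ifs with h0
  · rw [abs_of_pos h0]
    constructor <;> rintro ⟨h1, h2⟩ <;> constructor <;> linarith
  · have h1 : k < 0 := lt_of_le_of_ne (not_lt.mp h0) hk
    rw [abs_of_neg h1, mul_neg]
    constructor <;> rintro ⟨h1, h2⟩ <;> constructor <;> linarith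

private lemma pairG_len (z H K : ℤ) (hK : 0 < K) :
    (z + H) / K = z / K + H / K ∨ (z + H) / K = z / K + H / K + 1 := by
  have h1 : K * (z / K) + z % K = z := Int.mul_ediv_add_emod z K
  have h2 : K * (H / K) + H % K = H := Int.mul_ediv_add_emod H K
  have h3 := Int.emod_nonneg z hK.ne'
  have h4 := Int.emod_lt_of_pos z hK
  have h5 := Int.emod_nonneg H hK.ne'
  have h6 := Int.emod_lt_of_pos H hK
  have e : (z + H) / K = z / K + H / K + (z % K + H % K) / K := by
    have : z + H = (z % K + H % K) + K * (z / K + H / K) := by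
      rw [mul_add]; linarith
    rw [this, Int.add_mul_ediv_left _ _ hK.ne']
    have h7 : (z % K + H % K + K * (z / K + H / K)) = z + H := by
      rw [mul_add]; linarith
    ring
  rw [e]
  by_cases hc : z % K + H % K < K
  · left
    rw [Int.ediv_eq_zero_of_lt (by linarith) hc, add_zero]
  · right
    have : (z % K + H % K) / K = 1 := by
      rw [Int.ediv_eq_iff_of_pos hK]
      constructor <;> linarith
    rw [this]

/-- the window sum as a sum over an arithmetic progression -/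
private lemma pairG_Wd (h : ℕ → ℝ) (d m w : ℕ) (hd : 1 ≤ d) :
    Wd h d (m * d) w = ∑ i ∈ Ioc 0 m, h (w + i * d) := by
  unfold Wd
  symm
  apply Finset.sum_nbij (fun i => w + i * d)
  · intro i hi
    rw [mem_Ioc] at hi
    rw [mem_filter, mem_Ioc]
    refine ⟨⟨?_, ?_⟩, ?_⟩
    · have : 0 < i * d := Nat.mul_pos hi.1 hd
      omega
    · have : i * d ≤ m * d := Nat.mul_le_mul_right d hi.2
      omega
    · have : w + i * d ≡ w + 0 [MOD d] := by
        apply Nat.ModEq.add_left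
        exact (Nat.modEq_zero_iff_dvd.mpr (Dvd.intro_left i rfl))
      exact this
  · intro a _ b _ hab
    have : a * d = b * d := by simpa using hab
    exact Nat.eq_of_mul_eq_mul_right hd this
  · intro n hn
    rw [mem_coe, mem_filter, mem_Ioc] at hn
    obtain ⟨⟨h1, h2⟩, h3⟩ := hn
    have h4 : d ∣ n - w := (Nat.modEq_iff_dvd' h1.le).mp h3.symm
    obtain ⟨c, hc⟩ := h4
    refine ⟨c, ?_, ?_⟩
    · rw [mem_coe, mem_Ioc]
      constructor
      · rcases Nat.eq_zero_or_pos c with h0 | h0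
        · subst h0
          simp at hc
          omega
        · exact h0
      · by_contra hcon
        have : m * d < c * d := by
          apply Nat.mul_lt_mul_of_pos_right (by omega) hd
        rw [mul_comm d c] at hc
        omega
    · show w + c * d = n
      rw [mul_comm d c] at hc
      omega
  · intro i _
    rfl

private lemma pairG_card1 (a0 H N : ℕ) (c : ℤ) :
    ((Icc 1 N).filter (fun n : ℕ => (a0 : ℤ) < (n : ℤ) - c ∧ (n : ℤ) - c ≤ a0 + H)).card ≤ H := by
  have h1 : ((Icc 1 N).filter (fun n : ℕ => (a0 : ℤ) < (n : ℤ) - c ∧ (n : ℤ) - c ≤ a0 + H)).card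
      ≤ (Ioc ((a0 : ℤ) + c) (a0 + c + H)).card := by
    apply Finset.card_le_card_of_injOn (fun n : ℕ => (n : ℤ))
    · intro n hn
      have hn' := (mem_filter.mp (mem_coe.mp hn)).2
      rw [mem_coe, mem_Ioc]
      constructor <;> linarith [hn'.1, hn'.2]
    · intro a _ b _ hab
      exact Int.ofNat_inj.mp hab
  rw [Int.card_Ioc] at h1
  have h2 : ((a0 : ℤ) + c + H - (a0 + c)).toNat = H := by
    have : (a0 : ℤ) + c + H - (a0 + c) = (H : ℤ) := by ring
    rw [this, Int.toNat_natCast]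
  rwa [h2] at h1

/-- the bad points -/
private def pairG_P (a0 H : ℕ) (k : ℤ) (n q : ℕ) : Prop :=
  (a0 : ℤ) < (n : ℤ) - q * k ∧ (n : ℤ) - q * k ≤ a0 + H

private lemma pairG_ends (a0 H Q : ℕ) (k : ℤ) (n q : ℕ) (hk : k ≠ 0)
    (h1 : ¬ pairG_P a0 H k n Q) (h2 : ¬ pairG_P a0 H k n (2 * Q))
    (hq : q ∈ Ioc Q (2 * Q)) (hP : pairG_P a0 H k n q) :
    (Q : ℤ) ≤ pairG_z a0 H k n / |k| ∧ (pairG_z a0 H k n + H) / |k| ≤ 2 * Q := by
  unfold pairG_P at h1 h2 hP
  rw [pairG_iff a0 H k n _ hk] at h1 h2 hP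
  rw [mem_Ioc] at hq
  push_cast at h1 h2
  obtain ⟨hq1, hq2⟩ := hq
  have hq1' : (Q : ℤ) < q := by exact_mod_cast hq1
  have hq2' : (q : ℤ) ≤ 2 * Q := by exact_mod_cast hq2
  constructor
  · by_contra hc
    exact h1 ⟨not_le.mp hc, by linarith [hP.2]⟩
  · by_contra hc
    exact h2 ⟨by linarith [hP.1], (not_le.mp hc).le⟩

private lemma pairG_GG (h : ℕ → ℝ) (a0 H Q d : ℕ) (k : ℤ) (n q0 q1 : ℕ) (hk : k ≠ 0)
    (h0 : (q0 : ℤ) = pairG_z a0 H k n / |k|) (h1 : (q1 : ℤ) = (pairG_z a0 H k n + H) / |k|)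
    (hQ0 : Q ≤ q0) (hQ1 : q1 ≤ 2 * Q) :
    GG h a0 H Q d k n = ∑ i ∈ Ioc 0 (q1 - q0), h (n + q0 * d + i * d) := by
  unfold GG
  symm
  apply Finset.sum_nbij (fun i => q0 + i)
  · intro i hi
    rw [mem_Ioc] at hi
    rw [mem_filter, mem_Ioc, pairG_iff a0 H k n _ hk, ← h0, ← h1]
    refine ⟨⟨by omega, by omega⟩, ?_, ?_⟩
    · push_cast; omega
    · push_cast; omega
  · intro a _ b _ hab
    have : q0 + a = q0 + b := hab
    omega
  · intro q hq
    rw [mem_coe, mem_filter, mem_Ioc, pairG_iff a0 H k n _ hk, ← h0, ← h1] at hq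
    obtain ⟨_, h3, h4⟩ := hq
    refine ⟨q - q0, ?_, ?_⟩
    · rw [mem_coe, mem_Ioc]
      omega
    · show q0 + (q - q0) = q
      omega
  · intro i _
    congr 1
    ring

private lemma pairG_good (h : ℕ → ℝ) (M : ℝ) (N a0 H Q d : ℕ) (k : ℤ) (n q0 q1 : ℕ) (hk : k ≠ 0)
    (hd : 1 ≤ d) (hM : ∀ n : ℕ, n ≤ N + 2 * Q * d → |h n| ≤ M) (hn : n ≤ N)
    (h0 : (q0 : ℤ) = pairG_z a0 H k n / |k|) (h1 : (q1 : ℤ) = (pairG_z a0 H k n + H) / |k|)
    (hQ0 : Q ≤ q0) (hQ1 : q1 ≤ 2 * Q) :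
    GG h a0 H Q d k n ^ 2 ≤ 2 * Wd h d (H / k.natAbs * d) (n + q0 * d) ^ 2 + 2 * M ^ 2 := by
  rw [pairG_GG h a0 H Q d k n q0 q1 hk h0 h1 hQ0 hQ1, pairG_Wd h d _ _ hd]
  have hlen := pairG_len (pairG_z a0 H k n) H |k| (abs_pos.mpr hk)
  rw [← h0, ← h1] at hlen
  have hm : (H : ℤ) / |k| = ((H / k.natAbs : ℕ) : ℤ) := by
    rw [Int.abs_eq_natAbs]
    push_cast
    rfl
  rw [hm] at hlen
  clear hm
  generalize H / k.natAbs = m at *
  rcases hlen with h2 | h2
  · have : q1 - q0 = m := by omega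
    rw [this]
    nlinarith [sq_nonneg M]
  · have : q1 - q0 = m + 1 := by omega
    rw [this, Finset.sum_Ioc_succ_top (Nat.zero_le _)]
    have hb : |h (n + q0 * d + (m + 1) * d)| ≤ M := by
      apply hM
      have e1 : n + q0 * d + (m + 1) * d = n + q1 * d := by
        have : q1 = q0 + (m + 1) := by omega
        rw [this]; ring
      rw [e1]
      have : q1 * d ≤ 2 * Q * d := Nat.mul_le_mul_right d hQ1
      omega
    have hb2 : h (n + q0 * d + (m + 1) * d) ^ 2 ≤ M ^ 2 := by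
      rw [← sq_abs]
      exact pow_le_pow_left₀ (abs_nonneg _) hb 2
    nlinarith [sq_nonneg (∑ i ∈ Ioc 0 (m), h (n + q0 * d + i * d)
      - h (n + q0 * d + (m + 1) * d))]

private lemma pairG_all (h : ℕ → ℝ) (M : ℝ) (N a0 H Q d : ℕ) (k : ℤ) (n : ℕ) (hk : k ≠ 0)
    (hM : ∀ n : ℕ, n ≤ N + 2 * Q * d → |h n| ≤ M) (hM0 : 0 ≤ M) (hn : n ≤ N) :
    GG h a0 H Q d k n ^ 2 ≤ (((H / k.natAbs : ℕ) : ℝ) + 1) ^ 2 * M ^ 2 := by
  have hc : ((Ioc Q (2 * Q)).filter
      (fun q : ℕ => (a0 : ℤ) < (n : ℤ) - q * k ∧ (n : ℤ) - q * k ≤ a0 + H)).card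
      ≤ H / k.natAbs + 1 := by
    have h1 : ((Ioc Q (2 * Q)).filter
        (fun q : ℕ => (a0 : ℤ) < (n : ℤ) - q * k ∧ (n : ℤ) - q * k ≤ a0 + H)).card
        ≤ (Ioc (pairG_z a0 H k n / |k|) ((pairG_z a0 H k n + H) / |k|)).card := by
      apply Finset.card_le_card_of_injOn (fun n : ℕ => (n : ℤ))
      · intro q hq
        have hq' := (mem_filter.mp (mem_coe.mp hq)).2
        rw [pairG_iff a0 H k n _ hk] at hq'
        rw [mem_coe, mem_Ioc]
        exact hq'
      · intro a _ b _ hab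
        exact Int.ofNat_inj.mp hab
    rw [Int.card_Ioc] at h1
    refine h1.trans ?_
    have hlen := pairG_len (pairG_z a0 H k n) H |k| (abs_pos.mpr hk)
    have hm : (H : ℤ) / |k| = ((H / k.natAbs : ℕ) : ℤ) := by
      rw [Int.abs_eq_natAbs]
      push_cast
      rfl
    rw [hm] at hlen
    clear hm
    generalize H / k.natAbs = m at *
    omega
  have h2 : |GG h a0 H Q d k n| ≤ (((H / k.natAbs : ℕ) : ℝ) + 1) * M := by
    unfold GG
    refine (Finset.abs_sum_le_sum_abs _ _).trans ?_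
    refine (Finset.sum_le_card_nsmul _ _ M ?_).trans ?_
    · intro q hq
      rw [mem_filter, mem_Ioc] at hq
      apply hM
      have : q * d ≤ 2 * Q * d := Nat.mul_le_mul_right d hq.1.2
      omega
    · rw [nsmul_eq_mul]
      apply mul_le_mul_of_nonneg_right _ hM0
      exact_mod_cast hc
  rw [← sq_abs, ← mul_pow]
  exact pow_le_pow_left₀ (abs_nonneg _) h2 2

/-- at most three `n` have the same starting point -/
private lemma pairG_fib (a0 H d w : ℕ) (k : ℤ) (hd : 1 ≤ d) (hk : 2 * (d : ℤ) ≤ |k|)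
    (S : Finset ℕ) (f : ℕ → ℕ)
    (hf : ∀ n ∈ S, (f n : ℤ) = pairG_z a0 H k n / |k|) (hw : ∀ n ∈ S, n + f n * d = w) :
    S.card ≤ 3 := by
  rcases S.eq_empty_or_nonempty with h0 | h0
  · rw [h0]; simp
  have hdZ : (1 : ℤ) ≤ d := by exact_mod_cast hd
  have hpos : 0 < |k| := by linarith
  set n := S.min' h0 with hn
  have hnS : n ∈ S := S.min'_mem h0
  have hsub : S ⊆ {n, n + d, n + 2 * d} := by
    intro m hm
    have hnm : n ≤ m := S.min'_le m hm
    have e1 := hw n hnS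
    have e2 := hw m hm
    have hfn := hf n hnS
    have hfm := hf m hm
    have a1 : |k| * (pairG_z a0 H k n / |k|) + pairG_z a0 H k n % |k| = pairG_z a0 H k n :=
      Int.mul_ediv_add_emod _ _
    have a2 : |k| * (pairG_z a0 H k m / |k|) + pairG_z a0 H k m % |k| = pairG_z a0 H k m :=
      Int.mul_ediv_add_emod _ _
    have b1 := Int.emod_nonneg (pairG_z a0 H k n) hpos.ne'
    have b2 := Int.emod_lt_of_pos (pairG_z a0 H k n) hpos
    have b3 := Int.emod_nonneg (pairG_z a0 H k m) hpos.ne'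
    have b4 := Int.emod_lt_of_pos (pairG_z a0 H k m) hpos
    rw [← hfn] at a1
    rw [← hfm] at a2
    have hz : pairG_z a0 H k n - pairG_z a0 H k m ≤ (m : ℤ) - n := by
      unfold pairG_z
      split_ifs <;> omega
    -- the difference
    have e3 : (n : ℤ) + f n * d = m + f m * d := by exact_mod_cast e1.trans e2.symm
    set t : ℤ := (f n : ℤ) - f m with ht
    have e4 : (m : ℤ) - n = t * d := by rw [ht, sub_mul]; linarith
    have ht0 : 0 ≤ t := by
      by_contra hc
      have : t * d < 0 := mul_neg_of_neg_of_pos (not_le.mp hc) (by linarith)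
      have : (n : ℤ) ≤ m := by exact_mod_cast hnm
      linarith
    have ht2 : t < 2 := by
      by_contra hc
      have hc' : 2 ≤ t := not_lt.mp hc
      have c1 : (t - 1) * |k| < t * d := by
        have : |k| * (f n : ℤ) - |k| * (f m : ℤ) = t * |k| := by rw [ht]; ring
        have c2 : (t - 1) * |k| = t * |k| - |k| := by ring
        linarith
      have c3 : (t - 1) * (2 * (d : ℤ)) ≤ (t - 1) * |k| :=
        mul_le_mul_of_nonneg_left hk (by linarith)
      nlinarith
    rw [mem_insert, mem_insert, mem_singleton]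
    have : t = 0 ∨ t = 1 := by omega
    rcases this with h | h
    · left
      rw [h] at e4
      simp at e4
      omega
    · right; left
      rw [h, one_mul] at e4
      omega
  refine (Finset.card_le_card hsub).trans ?_
  exact Finset.card_le_three

theorem pairG (h : ℕ → ℝ) (M : ℝ) (N a0 H Q d : ℕ) (k : ℤ) (hd : 1 ≤ d)
    (hk : 2 * (d : ℤ) ≤ |k|) (hM0 : 0 ≤ M) (hM : ∀ n : ℕ, n ≤ N + 2 * Q * d → |h n| ≤ M) :
    ∑ n ∈ Icc 1 N, GG h a0 H Q d k n ^ 2
      ≤ 6 * ∑ w ∈ range (N + 2 * Q * d + 1), Wd h d (H / k.natAbs * d) w ^ 2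
        + 2 * N * M ^ 2 + 2 * H * (((H / k.natAbs : ℕ) : ℝ) + 1) ^ 2 * M ^ 2 := by
  classical
  have hdZ : (1 : ℤ) ≤ d := by exact_mod_cast hd
  have hpos : 0 < |k| := by linarith
  have hk0 : k ≠ 0 := abs_pos.mp hpos
  set m := H / k.natAbs with hm
  set C : ℝ := ((m : ℝ) + 1) ^ 2 * M ^ 2 with hC
  have hC0 : 0 ≤ C := by positivity
  let f : ℕ → ℕ := fun n => (pairG_z a0 H k n / |k|).toNat
  let Bd : ℕ → Prop := fun n => pairG_P a0 H k n Q ∨ pairG_P a0 H k n (2 * Q)
  let Gd : ℕ → Prop := fun n => ¬ Bd n ∧ ∃ q ∈ Ioc Q (2 * Q), pairG_P a0 H k n q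
  have hGd : ∀ n, Gd n → (Q : ℤ) ≤ pairG_z a0 H k n / |k| ∧ (pairG_z a0 H k n + H) / |k| ≤ 2 * Q := by
    rintro n ⟨h1, q, hq, hP⟩
    exact pairG_ends a0 H Q k n q hk0 (fun h => h1 (Or.inl h)) (fun h => h1 (Or.inr h)) hq hP
  have hmono : ∀ n : ℕ, pairG_z a0 H k n / |k| ≤ (pairG_z a0 H k n + H) / |k| := by
    intro n
    apply Int.ediv_le_ediv hpos
    have : (0 : ℤ) ≤ H := Int.natCast_nonneg H
    linarith
  have hf : ∀ n, Gd n → (f n : ℤ) = pairG_z a0 H k n / |k| := by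
    intro n hn
    apply Int.toNat_of_nonneg
    have := (hGd n hn).1
    have : (0 : ℤ) ≤ Q := Int.natCast_nonneg Q
    linarith
  -- pointwise
  have hpt : ∀ n ∈ Icc 1 N, GG h a0 H Q d k n ^ 2
      ≤ (if Gd n then 2 * Wd h d (m * d) (n + f n * d) ^ 2 else 0) + 2 * M ^ 2
        + (if Bd n then C else 0) := by
    intro n hn
    rw [mem_Icc] at hn
    by_cases hB : Bd n
    · rw [if_pos hB]
      have h1 := pairG_all h M N a0 H Q d k n hk0 hM hM0 hn.2
      have h2 : 0 ≤ (if Gd n then 2 * Wd h d (m * d) (n + f n * d) ^ 2 else 0) := by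
        split_ifs
        · positivity
        · exact le_refl _
      have h3 : 0 ≤ 2 * M ^ 2 := by positivity
      linarith
    · rw [if_neg hB]
      by_cases hG : Gd n
      · rw [if_pos hG, add_zero]
        obtain ⟨g1, g2⟩ := hGd n hG
        have hq1 : (((pairG_z a0 H k n + H) / |k|).toNat : ℤ) = (pairG_z a0 H k n + H) / |k| := by
          apply Int.toNat_of_nonneg
          have h1 := hmono n
          have : (0 : ℤ) ≤ Q := Int.natCast_nonneg Q
          linarith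
        exact pairG_good h M N a0 H Q d k n (f n) (((pairG_z a0 H k n + H) / |k|).toNat) hk0 hd hM
          hn.2 (hf n hG) hq1 (by have := hf n hG; omega) (by omega)
      · rw [if_neg hG]
        have : GG h a0 H Q d k n = 0 := by
          unfold GG
          apply Finset.sum_eq_zero
          intro q hq
          exfalso
          rw [mem_filter] at hq
          exact hG ⟨hB, q, hq.1, hq.2⟩
        rw [this]
        have : 0 ≤ 2 * M ^ 2 := by positivity
        simp only [ne_eq, OfNat.ofNat_ne_zero, not_false_eq_true, zero_pow, zero_add, add_zero]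
        exact this
  refine (Finset.sum_le_sum hpt).trans ?_
  rw [Finset.sum_add_distrib, Finset.sum_add_distrib]
  have hS1 : ∑ n ∈ Icc 1 N, (if Gd n then 2 * Wd h d (m * d) (n + f n * d) ^ 2 else 0)
      ≤ 6 * ∑ w ∈ range (N + 2 * Q * d + 1), Wd h d (m * d) w ^ 2 := by
    rw [← Finset.sum_filter]
    rw [← Finset.sum_fiberwise_of_maps_to (s := (Icc 1 N).filter Gd)
      (t := range (N + 2 * Q * d + 1)) (g := fun n => n + f n * d)]
    · rw [Finset.mul_sum]
      apply Finset.sum_le_sum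
      intro w _
      have hcard : (((Icc 1 N).filter Gd).filter (fun n => n + f n * d = w)).card ≤ 3 := by
        apply pairG_fib a0 H d w k hd hk _ f
        · intro n hn
          rw [mem_filter, mem_filter] at hn
          exact hf n hn.1.2
        · intro n hn
          rw [mem_filter, mem_filter] at hn
          exact hn.2
      calc ∑ n ∈ ((Icc 1 N).filter Gd).filter (fun n => n + f n * d = w),
            2 * Wd h d (m * d) (n + f n * d) ^ 2
          = ∑ n ∈ ((Icc 1 N).filter Gd).filter (fun n => n + f n * d = w),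
            2 * Wd h d (m * d) w ^ 2 := by
            apply Finset.sum_congr rfl
            intro n hn
            rw [mem_filter] at hn
            rw [hn.2]
        _ = ((((Icc 1 N).filter Gd).filter (fun n => n + f n * d = w)).card : ℝ)
            * (2 * Wd h d (m * d) w ^ 2) := by
            rw [Finset.sum_const, nsmul_eq_mul]
        _ ≤ 3 * (2 * Wd h d (m * d) w ^ 2) := by
            apply mul_le_mul_of_nonneg_right _ (by positivity)
            exact_mod_cast hcard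
        _ = 6 * Wd h d (m * d) w ^ 2 := by ring
    · intro n hn
      rw [mem_filter, mem_Icc] at hn
      rw [mem_range]
      obtain ⟨g1, g2⟩ := hGd n hn.2
      have h1 := hmono n
      have h2 := hf n hn.2
      have h3 : f n ≤ 2 * Q := by omega
      have h4 : f n * d ≤ 2 * Q * d := Nat.mul_le_mul_right d h3
      show n + f n * d < N + 2 * Q * d + 1
      omega
  have hS2 : ∑ n ∈ Icc 1 N, 2 * M ^ 2 = 2 * N * M ^ 2 := by
    rw [Finset.sum_const, nsmul_eq_mul, Nat.card_Icc]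
    simp
    ring
  have hS3 : ∑ n ∈ Icc 1 N, (if Bd n then C else 0) ≤ 2 * H * ((m : ℝ) + 1) ^ 2 * M ^ 2 := by
    rw [← Finset.sum_filter, Finset.sum_const, nsmul_eq_mul]
    have hcard : ((Icc 1 N).filter Bd).card ≤ 2 * H := by
      have e : (Icc 1 N).filter Bd ⊆
          (Icc 1 N).filter (fun n : ℕ => (a0 : ℤ) < (n : ℤ) - (Q : ℤ) * k
            ∧ (n : ℤ) - (Q : ℤ) * k ≤ a0 + H)
          ∪ (Icc 1 N).filter (fun n : ℕ => (a0 : ℤ) < (n : ℤ) - ((2 * Q : ℕ) : ℤ) * k
            ∧ (n : ℤ) - ((2 * Q : ℕ) : ℤ) * k ≤ a0 + H) := by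
        intro n hn
        rw [mem_filter] at hn
        rw [mem_union, mem_filter, mem_filter]
        rcases hn.2 with h | h
        · left; exact ⟨hn.1, h⟩
        · right; exact ⟨hn.1, h⟩
      refine (Finset.card_le_card e).trans ((Finset.card_union_le _ _).trans ?_)
      have h1 := pairG_card1 a0 H N ((Q : ℤ) * k)
      have h2 := pairG_card1 a0 H N (((2 * Q : ℕ) : ℤ) * k)
      omega
    have hcard' : ((((Icc 1 N).filter Bd).card : ℕ) : ℝ) ≤ 2 * H := by exact_mod_cast hcard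
    calc ((((Icc 1 N).filter Bd).card : ℕ) : ℝ) * C ≤ 2 * H * C :=
          mul_le_mul_of_nonneg_right hcard' hC0
      _ = 2 * H * ((m : ℝ) + 1) ^ 2 * M ^ 2 := by rw [hC]; ring
  rw [hS2]
  linarith

end Pool.Agent.H91.L1
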