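import Mathlib
import Pool.Agent.H91.L1.Defs
import Pool.Agent.H76.EHB.HRe
import Pool.Agent.H91.EHA.T1fin
import Pool.Agent.H91.EHA.ChB
import Pool.Agent.H92.EH.Totient

/-!
# L1 HSq: size of `hR`, pointwise and in mean square over short windows

`hR_bd`: `|hR R n| ≤ log n + R` (`Pool.Agent.H76.EHB.hR_abs` in `Pool/Agent/H76/EHB/HRe.lean`); `log(9x) + L^B ≤ L^(B+1)` for
`B ≥ 1` and large `x` (`n = 0`: `Lam 0 = 0`, `|lamR R 0| ≤ R` as well; `ramS c 0 = ∑_{d | c} d μ(c/d) = φ(c)`; treat it separately).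
`hsq`: `hR² ≤ 2 Lam² + 2 lamR²`, `Lam n ≤ log(9x)`.  `|lamR R n| ≤ ∑_{c ≤ R} (1/φ(c)) ∑_{e | (c,n)} e
≤ ∑_{e | n, e ≤ R} (e/φ(e)) ∑_{m ≤ R} 1/φ(m)` (`c = e m`, `φ(em) ≥ φ(e) φ(m)`), and `e/φ(e) ≤ 1 + log₂ e`, `1/φ(m) ≤ τ(m)/m`
(`chB_inv_totient_le`, `chB_sum_inv_totient` in `EHA/ChB.lean`; `H92/EH/Totient.lean`), so
`|lamR R n| ≤ C (1 + log R)^3 #{e ≤ R : e | n}`, and `log R ≤ B log log x`, so the factor is at most any power of `L`.
`∑_{n in the window} #{e ≤ R : e|n}² = ∑_{e1,e2 ≤ R} #{n : lcm(e1,e2) | n} ≤ ∑ (H/lcm(e1,e2) + 1) ≤ H (1+log R)^3 + R²`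
(`1/lcm(e1,e2) = gcd/(e1 e2) ≤ ∑_{g | e1, g | e2} g/(e1 e2)`).
-/

set_option autoImplicit false

namespace Pool.Agent.H91.L1

open Finset
open Pool.Agent.H91.EHA (Lam lamR hR psiA err)

private theorem HSq_div_totient (R e : ℕ) (he : 1 ≤ e) (heR : e ≤ R) :
    (e : ℝ) / (e.totient : ℝ) ≤ 2 * (1 + Real.log R) := by
  have hφ : (0 : ℝ) < e.totient := by exact_mod_cast Nat.totient_pos.mpr he
  have h1 := Pool.Agent.H92.EH.le_totient_mul e
  have h2 : (e.primeFactors.card : ℝ) ≤ (Nat.log 2 e : ℝ) := by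
    exact_mod_cast Pool.Agent.H92.EH.card_primeFactors_le e
  have he0 : (0 : ℝ) < e := by exact_mod_cast he
  have h3 : (Nat.log 2 e : ℝ) * Real.log 2 ≤ Real.log e := by
    have h4 : ((2 : ℝ)) ^ (Nat.log 2 e) ≤ e := by
      exact_mod_cast Nat.pow_log_le_self 2 (by omega)
    have h5 := Real.log_le_log (by positivity) h4
    rwa [Real.log_pow] at h5
  have h4 : Real.log e ≤ Real.log R := Real.log_le_log he0 (by exact_mod_cast heR)
  have h5 : (0.6931471803 : ℝ) < Real.log 2 := Real.log_two_gt_d9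
  have h6 : (0 : ℝ) ≤ (Nat.log 2 e : ℝ) := by positivity
  have h7 : (Nat.log 2 e : ℝ) ≤ 2 * Real.log R := by nlinarith
  rw [div_le_iff₀ hφ]
  calc (e : ℝ) ≤ e.totient * (e.primeFactors.card + 1) := h1
    _ ≤ e.totient * (2 * (1 + Real.log R)) := by
        refine mul_le_mul_of_nonneg_left ?_ hφ.le
        linarith
    _ = 2 * (1 + Real.log R) * e.totient := by ring

private theorem HSq_ramS (c n : ℕ) :
    |Pool.Agent.H91.EHA.ramS c n| ≤ ∑ e ∈ (Nat.gcd c n).divisors, (e : ℝ) := by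
  unfold Pool.Agent.H91.EHA.ramS
  refine (abs_sum_le_sum_abs _ _).trans (sum_le_sum fun e _ => ?_)
  rw [abs_mul, Nat.abs_cast]
  have h : |((ArithmeticFunction.moebius (c / e) : ℤ) : ℝ)| ≤ 1 := by
    exact_mod_cast ArithmeticFunction.abs_moebius_le_one
  have he : (0 : ℝ) ≤ e := by positivity
  calc (e : ℝ) * |((ArithmeticFunction.moebius (c / e) : ℤ) : ℝ)| ≤ (e : ℝ) * 1 :=
        mul_le_mul_of_nonneg_left h he
    _ = e := mul_one _

private theorem HSq_lamR (R n : ℕ) :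
    |lamR R n| ≤ 2 * (1 + Real.log R) ^ 3 * (((Icc 1 R).filter (fun e => e ∣ n)).card : ℝ) := by
  have hP : 0 ≤ 1 + Real.log (R : ℝ) := by
    have := Real.log_natCast_nonneg R
    linarith
  calc |lamR R n| ≤ ∑ c ∈ Icc 1 R, (1 / (c.totient : ℝ)) * ∑ e ∈ (Nat.gcd c n).divisors, (e : ℝ) := by
        unfold Pool.Agent.H91.EHA.lamR
        refine (abs_sum_le_sum_abs _ _).trans (sum_le_sum fun c hc => ?_)
        rw [abs_mul]
        refine mul_le_mul ?_ (HSq_ramS c n) (abs_nonneg _) (by positivity)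
        rw [abs_div, Nat.abs_cast]
        apply div_le_div_of_nonneg_right _ (by positivity)
        exact_mod_cast ArithmeticFunction.abs_moebius_le_one
    _ = ∑ c ∈ Icc 1 R, ∑ e ∈ (Icc 1 R).filter (fun e => e ∣ n),
          (if e ∣ c then (e : ℝ) * (1 / (c.totient : ℝ)) else 0) := by
        refine sum_congr rfl fun c hc => ?_
        rw [mem_Icc] at hc
        have hset : (Nat.gcd c n).divisors = ((Icc 1 R).filter (fun e => e ∣ n)).filter (fun e => e ∣ c) := by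
          ext e
          rw [Nat.mem_divisors, mem_filter, mem_filter, mem_Icc, Nat.dvd_gcd_iff]
          constructor
          · rintro ⟨⟨h1, h2⟩, h3⟩
            exact ⟨⟨⟨Nat.pos_of_dvd_of_pos h1 hc.1, (Nat.le_of_dvd hc.1 h1).trans hc.2⟩, h2⟩, h1⟩
          · rintro ⟨⟨_, h2⟩, h3⟩
            exact ⟨⟨h3, h2⟩, (Nat.gcd_pos_of_pos_left n hc.1).ne'⟩
        rw [hset, sum_filter, mul_sum]
        refine sum_congr rfl fun e _ => ?_
        split_ifs
        · ring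
        · ring
    _ = ∑ e ∈ (Icc 1 R).filter (fun e => e ∣ n), (e : ℝ) *
          ∑ c ∈ (Icc 1 R).filter (fun c => e ∣ c), 1 / (c.totient : ℝ) := by
        rw [sum_comm]
        refine sum_congr rfl fun e _ => ?_
        rw [mul_sum, sum_filter]
    _ ≤ ∑ e ∈ (Icc 1 R).filter (fun e => e ∣ n), 2 * (1 + Real.log R) ^ 3 := by
        refine sum_le_sum fun e he => ?_
        rw [mem_filter, mem_Icc] at he
        have hφe : (0 : ℝ) < e.totient := by exact_mod_cast Nat.totient_pos.mpr he.1.1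
        have h1 : ∑ c ∈ (Icc 1 R).filter (fun c => e ∣ c), 1 / (c.totient : ℝ)
            ≤ (1 / (e.totient : ℝ)) * ∑ c ∈ (Icc 1 R).filter (fun c => e ∣ c), 1 / ((c / e).totient : ℝ) := by
          rw [mul_sum]
          refine sum_le_sum fun c hc => ?_
          rw [mem_filter, mem_Icc] at hc
          obtain ⟨⟨hc1, hc2⟩, m, rfl⟩ := hc
          have hm : 1 ≤ m := by
            rcases Nat.eq_zero_or_pos m with h | h
            · subst h
              simp at hc1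
            · exact h
          rw [Nat.mul_div_cancel_left m (by omega)]
          have hφm : (0 : ℝ) < m.totient := by exact_mod_cast Nat.totient_pos.mpr hm
          have h2 : (e.totient : ℝ) * m.totient ≤ (e * m).totient := by
            exact_mod_cast Nat.totient_super_multiplicative e m
          calc 1 / ((e * m).totient : ℝ) ≤ 1 / ((e.totient : ℝ) * m.totient) :=
                one_div_le_one_div_of_le (by positivity) h2
            _ = 1 / (e.totient : ℝ) * (1 / (m.totient : ℝ)) := by field_simp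
        have h3 : ∑ c ∈ (Icc 1 R).filter (fun c => e ∣ c), 1 / ((c / e).totient : ℝ) ≤ (1 + Real.log R) ^ 2 :=
          (Pool.Agent.H91.EHA.chB_sum_multiples R e he.1.1 (fun m => 1 / (m.totient : ℝ))
            (fun m => by positivity)).trans (Pool.Agent.H91.EHA.chB_sum_inv_totient R)
        have h4 := HSq_div_totient R e he.1.1 he.1.2
        calc (e : ℝ) * ∑ c ∈ (Icc 1 R).filter (fun c => e ∣ c), 1 / (c.totient : ℝ)
            ≤ (e : ℝ) * ((1 / (e.totient : ℝ)) * (1 + Real.log R) ^ 2) := by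
              refine mul_le_mul_of_nonneg_left (h1.trans ?_) (by positivity)
              exact mul_le_mul_of_nonneg_left h3 (by positivity)
          _ = ((e : ℝ) / e.totient) * (1 + Real.log R) ^ 2 := by ring
          _ ≤ (2 * (1 + Real.log R)) * (1 + Real.log R) ^ 2 :=
              mul_le_mul_of_nonneg_right h4 (by positivity)
          _ = 2 * (1 + Real.log R) ^ 3 := by ring
    _ = 2 * (1 + Real.log R) ^ 3 * (((Icc 1 R).filter (fun e => e ∣ n)).card : ℝ) := by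
        rw [sum_const, nsmul_eq_mul, mul_comm]

private theorem HSq_card_mult (u H l : ℕ) (hl : 1 ≤ l) :
    (((Ioc u (u + H)).filter (fun n => l ∣ n)).card : ℝ) ≤ (H : ℝ) / l + 1 := by
  have h1 : ((Ioc u (u + H)).filter (fun n => l ∣ n)).card ≤ (Ioc (u / l) ((u + H) / l)).card := by
    refine card_le_card_of_injOn (fun n => n / l) ?_ ?_
    · intro n hn
      rw [mem_coe, mem_filter, mem_Ioc] at hn
      obtain ⟨⟨h1, h2⟩, m, rfl⟩ := hn
      rw [mem_coe, mem_Ioc]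
      simp only
      rw [Nat.mul_div_cancel_left m (by omega)]
      constructor
      · rw [Nat.div_lt_iff_lt_mul (by omega)]
        rw [mul_comm]; exact h1
      · rw [Nat.le_div_iff_mul_le (by omega)]
        rw [mul_comm]; exact h2
    · intro a ha b hb hab
      rw [mem_coe, mem_filter] at ha hb
      obtain ⟨_, m, rfl⟩ := ha
      obtain ⟨_, k, rfl⟩ := hb
      simp only at hab
      rw [Nat.mul_div_cancel_left m (by omega), Nat.mul_div_cancel_left k (by omega)] at hab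
      rw [hab]
  rw [Nat.card_Ioc] at h1
  have hl0 : (0 : ℝ) < l := by exact_mod_cast hl
  have h2 : ((u + H) / l : ℕ) ≤ u / l + H / l + 1 := by
    rw [Nat.add_div (by omega)]
    split_ifs <;> omega
  have h3 : ((Ioc u (u + H)).filter (fun n => l ∣ n)).card ≤ H / l + 1 := by
    refine h1.trans ?_
    rw [Nat.sub_le_iff_le_add]
    calc (u + H) / l ≤ u / l + H / l + 1 := h2
      _ = H / l + 1 + u / l := by ring
  calc (((Ioc u (u + H)).filter (fun n => l ∣ n)).card : ℝ) ≤ ((H / l + 1 : ℕ) : ℝ) := by exact_mod_cast h3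
    _ = ((H / l : ℕ) : ℝ) + 1 := by push_cast; ring
    _ ≤ (H : ℝ) / l + 1 := by
        have := @Nat.cast_div_le ℝ _ _ _ H l
        linarith

private theorem HSq_sum_inv_mult (R g : ℕ) (hg : 1 ≤ g) :
    ∑ e ∈ (Icc 1 R).filter (fun e => g ∣ e), 1 / (e : ℝ) ≤ (1 / (g : ℝ)) * (1 + Real.log R) := by
  have hg0 : (0 : ℝ) < g := by exact_mod_cast hg
  calc ∑ e ∈ (Icc 1 R).filter (fun e => g ∣ e), 1 / (e : ℝ)
      = (1 / (g : ℝ)) * ∑ e ∈ (Icc 1 R).filter (fun e => g ∣ e), 1 / ((e / g : ℕ) : ℝ) := by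
        rw [mul_sum]
        refine sum_congr rfl fun e he => ?_
        rw [mem_filter, mem_Icc] at he
        obtain ⟨⟨h1, h2⟩, m, rfl⟩ := he
        have hm : 1 ≤ m := by
          rcases Nat.eq_zero_or_pos m with h | h
          · subst h
            simp at h1
          · exact h
        have hm0 : (0 : ℝ) < m := by exact_mod_cast hm
        rw [Nat.mul_div_cancel_left m (by omega)]
        push_cast
        field_simp
    _ ≤ (1 / (g : ℝ)) * ∑ m ∈ Icc 1 R, 1 / (m : ℝ) := by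
        refine mul_le_mul_of_nonneg_left ?_ (by positivity)
        exact Pool.Agent.H91.EHA.chB_sum_multiples R g hg (fun m => 1 / (m : ℝ)) (fun m => by positivity)
    _ ≤ (1 / (g : ℝ)) * (1 + Real.log R) :=
        mul_le_mul_of_nonneg_left (Pool.Agent.H91.EHA.chB_harm R) (by positivity)

private theorem HSq_sum_inv_lcm (R : ℕ) :
    ∑ a ∈ Icc 1 R, ∑ b ∈ Icc 1 R, 1 / ((Nat.lcm a b : ℕ) : ℝ) ≤ (1 + Real.log R) ^ 3 := by
  have hP : 0 ≤ 1 + Real.log (R : ℝ) := by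
    have := Real.log_natCast_nonneg R
    linarith
  calc ∑ a ∈ Icc 1 R, ∑ b ∈ Icc 1 R, 1 / ((Nat.lcm a b : ℕ) : ℝ)
      ≤ ∑ a ∈ Icc 1 R, ∑ b ∈ Icc 1 R, ∑ g ∈ Icc 1 R,
          (g : ℝ) * ((if g ∣ a then 1 / (a : ℝ) else 0) * (if g ∣ b then 1 / (b : ℝ) else 0)) := by
        refine sum_le_sum fun a ha => sum_le_sum fun b hb => ?_
        rw [mem_Icc] at ha hb
        have ha0 : (0 : ℝ) < a := by exact_mod_cast ha.1
        have hb0 : (0 : ℝ) < b := by exact_mod_cast hb.1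
        have hga : Nat.gcd a b ∣ a := Nat.gcd_dvd_left a b
        have hgb : Nat.gcd a b ∣ b := Nat.gcd_dvd_right a b
        have hg1 : 1 ≤ Nat.gcd a b := Nat.gcd_pos_of_pos_left b ha.1
        have hgR : Nat.gcd a b ≤ R := (Nat.le_of_dvd ha.1 hga).trans ha.2
        have h1 := single_le_sum (s := Icc 1 R) (f := fun g : ℕ =>
          (g : ℝ) * ((if g ∣ a then 1 / (a : ℝ) else 0) * (if g ∣ b then 1 / (b : ℝ) else 0)))
          (fun g _ => by positivity) (mem_Icc.mpr ⟨hg1, hgR⟩)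
        refine le_trans (le_of_eq ?_) h1
        simp only [if_pos hga, if_pos hgb]
        have h2 : (Nat.gcd a b : ℝ) * (Nat.lcm a b : ℝ) = (a : ℝ) * b := by
          exact_mod_cast Nat.gcd_mul_lcm a b
        have hl : (0 : ℝ) < (Nat.lcm a b : ℝ) := by
          exact_mod_cast Nat.lcm_pos ha.1 hb.1
        rw [one_div_mul_one_div, ← mul_div_assoc, mul_one, div_eq_div_iff hl.ne' (by positivity), one_mul]
        linarith
    _ = ∑ g ∈ Icc 1 R, (g : ℝ) * (∑ a ∈ (Icc 1 R).filter (fun e => g ∣ e), 1 / (a : ℝ)) ^ 2 := by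
        have hstep : ∀ a ∈ Icc 1 R, ∑ b ∈ Icc 1 R, ∑ g ∈ Icc 1 R,
            (g : ℝ) * ((if g ∣ a then 1 / (a : ℝ) else 0) * (if g ∣ b then 1 / (b : ℝ) else 0))
            = ∑ g ∈ Icc 1 R, ∑ b ∈ Icc 1 R,
            (g : ℝ) * ((if g ∣ a then 1 / (a : ℝ) else 0) * (if g ∣ b then 1 / (b : ℝ) else 0)) :=
          fun a _ => sum_comm
        rw [sum_congr rfl hstep, sum_comm]
        refine sum_congr rfl fun g _ => ?_
        rw [sum_filter, sq, sum_mul_sum, mul_sum]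
        refine sum_congr rfl fun a _ => ?_
        rw [mul_sum]
    _ ≤ ∑ g ∈ Icc 1 R, (1 / (g : ℝ)) * (1 + Real.log R) ^ 2 := by
        refine sum_le_sum fun g hg => ?_
        rw [mem_Icc] at hg
        have hg0 : (0 : ℝ) < g := by exact_mod_cast hg.1
        have h0 : 0 ≤ ∑ a ∈ (Icc 1 R).filter (fun e => g ∣ e), 1 / (a : ℝ) :=
          sum_nonneg fun a _ => by positivity
        calc (g : ℝ) * (∑ a ∈ (Icc 1 R).filter (fun e => g ∣ e), 1 / (a : ℝ)) ^ 2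
            ≤ (g : ℝ) * ((1 / (g : ℝ)) * (1 + Real.log R)) ^ 2 := by
              refine mul_le_mul_of_nonneg_left ?_ hg0.le
              exact pow_le_pow_left₀ h0 (HSq_sum_inv_mult R g hg.1) 2
          _ = (1 / (g : ℝ)) * (1 + Real.log R) ^ 2 := by field_simp
    _ = (∑ g ∈ Icc 1 R, 1 / (g : ℝ)) * (1 + Real.log R) ^ 2 := by rw [sum_mul]
    _ ≤ (1 + Real.log R) * (1 + Real.log R) ^ 2 :=
        mul_le_mul_of_nonneg_right (Pool.Agent.H91.EHA.chB_harm R) (by positivity)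
    _ = (1 + Real.log R) ^ 3 := by ring

private theorem HSq_sum_card_sq (R u H : ℕ) :
    ∑ n ∈ Ioc u (u + H), (((Icc 1 R).filter (fun e => e ∣ n)).card : ℝ) ^ 2
      ≤ H * (1 + Real.log R) ^ 3 + (R : ℝ) ^ 2 := by
  calc ∑ n ∈ Ioc u (u + H), (((Icc 1 R).filter (fun e => e ∣ n)).card : ℝ) ^ 2
      = ∑ n ∈ Ioc u (u + H), ∑ a ∈ Icc 1 R, ∑ b ∈ Icc 1 R,
          (if Nat.lcm a b ∣ n then (1 : ℝ) else 0) := by
        refine sum_congr rfl fun n _ => ?_
        have h1 : (((Icc 1 R).filter (fun e => e ∣ n)).card : ℝ) = ∑ a ∈ Icc 1 R, (if a ∣ n then (1 : ℝ) else 0) := by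
          rw [card_filter]
          push_cast
          rfl
        rw [h1, sq, sum_mul_sum]
        refine sum_congr rfl fun a _ => sum_congr rfl fun b _ => ?_
        by_cases ha : a ∣ n
        · by_cases hb : b ∣ n
          · rw [if_pos ha, if_pos hb, if_pos (Nat.lcm_dvd ha hb), mul_one]
          · rw [if_neg hb, if_neg (fun h => hb ((Nat.dvd_lcm_right a b).trans h)), mul_zero]
        · rw [if_neg ha, if_neg (fun h => ha ((Nat.dvd_lcm_left a b).trans h)), zero_mul]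
    _ = ∑ a ∈ Icc 1 R, ∑ b ∈ Icc 1 R, ∑ n ∈ Ioc u (u + H), (if Nat.lcm a b ∣ n then (1 : ℝ) else 0) := by
        rw [sum_comm]
        refine sum_congr rfl fun a _ => ?_
        rw [sum_comm]
    _ ≤ ∑ a ∈ Icc 1 R, ∑ b ∈ Icc 1 R, ((H : ℝ) * (1 / ((Nat.lcm a b : ℕ) : ℝ)) + 1) := by
        refine sum_le_sum fun a ha => sum_le_sum fun b hb => ?_
        rw [mem_Icc] at ha hb
        have h1 := HSq_card_mult u H (Nat.lcm a b) (Nat.lcm_pos ha.1 hb.1)
        rw [card_filter] at h1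
        push_cast at h1
        rw [mul_one_div]
        exact h1
    _ = H * (∑ a ∈ Icc 1 R, ∑ b ∈ Icc 1 R, 1 / ((Nat.lcm a b : ℕ) : ℝ)) + (R : ℝ) ^ 2 := by
        simp only [sum_add_distrib, ← mul_sum, sum_const, Nat.card_Icc, nsmul_eq_mul, mul_one,
          Nat.add_sub_cancel]
        ring
    _ ≤ H * (1 + Real.log R) ^ 3 + (R : ℝ) ^ 2 := by
        have := mul_le_mul_of_nonneg_left (HSq_sum_inv_lcm R) (Nat.cast_nonneg (α := ℝ) H)
        linarith

/-- the asymptotics -/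
private theorem HSq_asym (B : ℕ) : ∃ x0 : ℕ, ∀ x : ℕ, x0 ≤ x →
    4 ≤ Real.log x ∧ 1 ≤ x ∧ 16 * (1 + Real.log (⌊Real.log x ^ B⌋₊ : ℕ)) ^ 9 ≤ Real.log x := by
  have hlog : Filter.Tendsto (fun x : ℕ => Real.log (x : ℝ)) Filter.atTop Filter.atTop :=
    Real.tendsto_log_atTop.comp tendsto_natCast_atTop_atTop
  have h1 : ∀ᶠ L : ℝ in Filter.atTop, Real.log L ^ 9 ≤ (1 / (16 * (1 + B) ^ 9)) * L := by
    have h := (Real.isLittleO_pow_log_id_atTop (n := 9)).bound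
      (c := 1 / (16 * (1 + (B : ℝ)) ^ 9)) (by positivity)
    filter_upwards [h, Filter.eventually_ge_atTop (1 : ℝ)] with L hL hL1
    have h2 : ‖Real.log L ^ 9‖ = Real.log L ^ 9 := by
      rw [Real.norm_of_nonneg (pow_nonneg (Real.log_nonneg hL1) 9)]
    have h3 : ‖id L‖ = L := by
      rw [id, Real.norm_of_nonneg (by linarith)]
    rw [h2, h3] at hL
    exact hL
  have h2 : ∀ᶠ L : ℝ in Filter.atTop, 4 ≤ L ∧ 1 ≤ Real.log L ∧ Real.log L ^ 9 ≤ (1 / (16 * (1 + B) ^ 9)) * L := by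
    filter_upwards [h1, Filter.eventually_ge_atTop (4 : ℝ),
      Real.tendsto_log_atTop.eventually_ge_atTop 1] with L a b c
    exact ⟨b, c, a⟩
  obtain ⟨x0, hx0⟩ := Filter.eventually_atTop.mp ((hlog.eventually h2).and (Filter.eventually_ge_atTop 1))
  refine ⟨x0, fun x hx => ?_⟩
  obtain ⟨⟨hL4, hl1, hL9⟩, hx1⟩ := hx0 x hx
  refine ⟨hL4, hx1, ?_⟩
  set L := Real.log (x : ℝ) with hLdef
  have hL0 : 0 < L := by linarith
  have hpos : (1 : ℝ) ≤ L ^ B := one_le_pow₀ (by linarith)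
  have hR1 : 1 ≤ ⌊L ^ B⌋₊ := by
    rw [Nat.one_le_floor_iff]
    exact hpos
  have hRle : ((⌊L ^ B⌋₊ : ℕ) : ℝ) ≤ L ^ B := Nat.floor_le (by positivity)
  have hlogR : Real.log (⌊L ^ B⌋₊ : ℕ) ≤ B * Real.log L := by
    have := Real.log_le_log (by exact_mod_cast hR1) hRle
    rwa [Real.log_pow] at this
  have hlogR0 : 0 ≤ Real.log (⌊L ^ B⌋₊ : ℕ) := Real.log_natCast_nonneg _
  have hB : (0 : ℝ) ≤ B := Nat.cast_nonneg B
  calc 16 * (1 + Real.log (⌊L ^ B⌋₊ : ℕ)) ^ 9 ≤ 16 * ((1 + B) * Real.log L) ^ 9 := by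
        refine mul_le_mul_of_nonneg_left ?_ (by norm_num)
        refine pow_le_pow_left₀ (by linarith) ?_ 9
        nlinarith
    _ = 16 * (1 + B) ^ 9 * Real.log L ^ 9 := by ring
    _ ≤ 16 * (1 + B) ^ 9 * ((1 / (16 * (1 + B) ^ 9)) * L) :=
        mul_le_mul_of_nonneg_left hL9 (by positivity)
    _ = L := by field_simp

private theorem HSq_Lam (n x : ℕ) (hx1 : 1 ≤ x) (hL : 4 ≤ Real.log x) (hx : n ≤ 9 * x) :
    0 ≤ Lam n ∧ Lam n ≤ 2 * Real.log x := by
  unfold Pool.Agent.H91.EHA.Lam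
  refine ⟨ArithmeticFunction.vonMangoldt_nonneg, ?_⟩
  rcases Nat.eq_zero_or_pos n with h | h
  · subst h
    simp only [ArithmeticFunction.map_zero]
    linarith
  · refine ArithmeticFunction.vonMangoldt_le_log.trans ?_
    have hx0 : (0 : ℝ) < x := by exact_mod_cast hx1
    have h1 : Real.log n ≤ Real.log (9 * x) :=
      Real.log_le_log (by exact_mod_cast h) (by exact_mod_cast hx)
    rw [Real.log_mul (by norm_num) hx0.ne'] at h1
    have h9 : Real.log 9 ≤ 4 := by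
      have h10 : Real.log 9 ≤ Real.log (2 ^ 4) := Real.log_le_log (by norm_num) (by norm_num)
      rw [Real.log_pow] at h10
      have := Real.log_two_lt_d9
      push_cast at h10
      linarith
    linarith

theorem hR_bd (B : ℕ) (hB : 1 ≤ B) : ∃ x0 : ℕ, ∀ x : ℕ, x0 ≤ x → ∀ n : ℕ, n ≤ 9 * x →
    |hR ⌊Real.log x ^ B⌋₊ n| ≤ Real.log x ^ (B + 1) := by
  obtain ⟨x0, hx0⟩ := HSq_asym B
  refine ⟨x0, fun x hx n hn => ?_⟩
  obtain ⟨hL4, hx1, h9⟩ := hx0 x hx
  set L := Real.log (x : ℝ) with hLdef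
  have hL0 : 0 < L := by linarith
  have hRle : ((⌊L ^ B⌋₊ : ℕ) : ℝ) ≤ L ^ B := Nat.floor_le (by positivity)
  have hLB : L ≤ L ^ B := le_self_pow₀ (by linarith) (by omega)
  have hpow : L ^ (B + 1) = L * L ^ B := by rw [pow_succ]; ring
  rcases Nat.eq_zero_or_pos n with h | h
  · subst h
    have h1 := HSq_lamR ⌊L ^ B⌋₊ 0
    have h2 : (((Icc 1 ⌊L ^ B⌋₊).filter (fun e => e ∣ 0)).card : ℝ) ≤ L ^ B := by
      refine le_trans ?_ hRle
      have := card_filter_le (Icc 1 ⌊L ^ B⌋₊) (fun e => e ∣ 0)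
      rw [Nat.card_Icc, Nat.add_sub_cancel] at this
      exact_mod_cast this
    have hP : 1 ≤ 1 + Real.log (⌊L ^ B⌋₊ : ℕ) := by
      have := Real.log_natCast_nonneg ⌊L ^ B⌋₊
      linarith
    have h3 : 2 * (1 + Real.log (⌊L ^ B⌋₊ : ℕ)) ^ 3 ≤ L := by
      have h4 : (1 + Real.log (⌊L ^ B⌋₊ : ℕ)) ^ 3 ≤ (1 + Real.log (⌊L ^ B⌋₊ : ℕ)) ^ 9 :=
        pow_le_pow_right₀ hP (by norm_num)
      have h5 : 0 ≤ (1 + Real.log (⌊L ^ B⌋₊ : ℕ)) ^ 3 := by positivity
      linarith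
    have h4 : Lam 0 = 0 := by
      unfold Pool.Agent.H91.EHA.Lam
      simp
    unfold Pool.Agent.H91.EHA.hR
    rw [h4, zero_sub, abs_neg, hpow]
    exact h1.trans (mul_le_mul h3 h2 (by positivity) hL0.le)
  · have h1 := Pool.Agent.H76.EHB.hR_abs ⌊L ^ B⌋₊ n (9 * x) h hn
    have hx0 : (0 : ℝ) < x := by exact_mod_cast hx1
    have h2 : Real.log ((9 * x : ℕ) : ℝ) ≤ 2 * L := by
      push_cast
      rw [Real.log_mul (by norm_num) hx0.ne']
      have h9 : Real.log 9 ≤ 4 := by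
        have h10 : Real.log 9 ≤ Real.log (2 ^ 4) := Real.log_le_log (by norm_num) (by norm_num)
        rw [Real.log_pow] at h10
        have := Real.log_two_lt_d9
        push_cast at h10
        linarith
      linarith
    rw [hpow]
    calc |hR ⌊L ^ B⌋₊ n| ≤ Real.log ((9 * x : ℕ) : ℝ) + (⌊L ^ B⌋₊ : ℕ) := h1
      _ ≤ 2 * L + L ^ B := add_le_add h2 hRle
      _ ≤ 4 * L ^ B := by linarith
      _ ≤ L * L ^ B := mul_le_mul_of_nonneg_right hL4 (by positivity)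

theorem hsq (B : ℕ) (hB : 1 ≤ B) : ∃ x0 : ℕ, ∀ x : ℕ, x0 ≤ x → ∀ u H : ℕ, u + H ≤ 9 * x →
    ∑ n ∈ Ioc u (u + H), hR ⌊Real.log x ^ B⌋₊ n ^ 2
      ≤ (H + Real.log x ^ (2 * B)) * Real.log x ^ 4 := by
  obtain ⟨x0, hx0⟩ := HSq_asym B
  refine ⟨x0, fun x hx u H huH => ?_⟩
  obtain ⟨hL4, hx1, h9⟩ := hx0 x hx
  set L := Real.log (x : ℝ) with hLdef
  have hL0 : 0 < L := by linarith
  have hRle : ((⌊L ^ B⌋₊ : ℕ) : ℝ) ≤ L ^ B := Nat.floor_le (by positivity)
  set R := ⌊L ^ B⌋₊ with hRdef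
  have hP : 1 ≤ 1 + Real.log (R : ℝ) := by
    have := Real.log_natCast_nonneg R
    linarith
  set P := 1 + Real.log (R : ℝ) with hPdef
  have hP0 : 0 ≤ P := by linarith
  have hH0 : (0 : ℝ) ≤ H := Nat.cast_nonneg H
  have h1 : ∀ n ∈ Ioc u (u + H), hR R n ^ 2
      ≤ 8 * L ^ 2 + 8 * P ^ 6 * (((Icc 1 R).filter (fun e => e ∣ n)).card : ℝ) ^ 2 := by
    intro n hn
    rw [mem_Ioc] at hn
    obtain ⟨hΛ0, hΛ⟩ := HSq_Lam n x hx1 hL4 (by omega)
    have h2 := HSq_lamR R n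
    have h3 : lamR R n ^ 2 ≤ (2 * P ^ 3 * (((Icc 1 R).filter (fun e => e ∣ n)).card : ℝ)) ^ 2 := by
      rw [← sq_abs (lamR R n)]
      exact pow_le_pow_left₀ (abs_nonneg _) h2 2
    have h4 : Lam n ^ 2 ≤ (2 * L) ^ 2 := pow_le_pow_left₀ hΛ0 hΛ 2
    unfold Pool.Agent.H91.EHA.hR
    have h5 : (Lam n - lamR R n) ^ 2 ≤ 2 * Lam n ^ 2 + 2 * lamR R n ^ 2 := by
      nlinarith [sq_nonneg (Lam n + lamR R n)]
    calc (Lam n - lamR R n) ^ 2 ≤ 2 * Lam n ^ 2 + 2 * lamR R n ^ 2 := h5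
      _ ≤ 2 * (2 * L) ^ 2 + 2 * (2 * P ^ 3 * (((Icc 1 R).filter (fun e => e ∣ n)).card : ℝ)) ^ 2 := by
          linarith
      _ = 8 * L ^ 2 + 8 * P ^ 6 * (((Icc 1 R).filter (fun e => e ∣ n)).card : ℝ) ^ 2 := by ring
  have hP9 : P ^ 9 ≤ L / 16 := by linarith
  have hP6 : P ^ 6 ≤ L / 16 := (pow_le_pow_right₀ hP (by norm_num : 6 ≤ 9)).trans hP9
  have hL2 : (16 : ℝ) ≤ L ^ 2 := by nlinarith
  have hL4' : L ^ 4 = L ^ 2 * L ^ 2 := by ring
  have hLL4 : L ≤ L ^ 4 := le_self_pow₀ (by linarith) (by norm_num)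
  have hR2 : (R : ℝ) ^ 2 ≤ L ^ (2 * B) := by
    calc (R : ℝ) ^ 2 ≤ (L ^ B) ^ 2 := pow_le_pow_left₀ (Nat.cast_nonneg R) hRle 2
      _ = L ^ (2 * B) := by rw [← pow_mul, mul_comm]
  have hLB0 : 0 ≤ L ^ (2 * B) := by positivity
  calc ∑ n ∈ Ioc u (u + H), hR R n ^ 2
      ≤ ∑ n ∈ Ioc u (u + H), (8 * L ^ 2 + 8 * P ^ 6 * (((Icc 1 R).filter (fun e => e ∣ n)).card : ℝ) ^ 2) :=
        sum_le_sum h1
    _ = H * (8 * L ^ 2) + 8 * P ^ 6 * ∑ n ∈ Ioc u (u + H), (((Icc 1 R).filter (fun e => e ∣ n)).card : ℝ) ^ 2 := by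
        rw [sum_add_distrib, sum_const, Nat.card_Ioc, ← mul_sum, nsmul_eq_mul, Nat.add_sub_cancel_left]
    _ ≤ H * (8 * L ^ 2) + 8 * P ^ 6 * (H * P ^ 3 + (R : ℝ) ^ 2) := by
        have := mul_le_mul_of_nonneg_left (HSq_sum_card_sq R u H) (by positivity : 0 ≤ 8 * P ^ 6)
        linarith
    _ = H * (8 * L ^ 2) + 8 * P ^ 9 * H + 8 * P ^ 6 * (R : ℝ) ^ 2 := by ring
    _ ≤ H * (L ^ 4 / 2) + (L ^ 4 / 2) * H + (L ^ 4 / 2) * L ^ (2 * B) := by
        have e1 : 8 * L ^ 2 ≤ L ^ 4 / 2 := by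
          rw [hL4']
          nlinarith
        have e2 : 8 * P ^ 9 ≤ L ^ 4 / 2 := by linarith
        have e3 : 8 * P ^ 6 ≤ L ^ 4 / 2 := by linarith
        have e4 := mul_le_mul_of_nonneg_left e1 hH0
        have e5 := mul_le_mul_of_nonneg_right e2 hH0
        have e6 : 8 * P ^ 6 * (R : ℝ) ^ 2 ≤ (L ^ 4 / 2) * L ^ (2 * B) :=
          mul_le_mul e3 hR2 (by positivity) (by positivity)
        linarith
    _ ≤ (H + L ^ (2 * B)) * L ^ 4 := by
        have : 0 ≤ L ^ 4 * L ^ (2 * B) := by positivity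
        nlinarith

end Pool.Agent.H91.L1
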