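import Mathlib
import Pool.Agent.H91.L1.Defs
import Pool.Agent.H91.EHA.Lam1

/-!
# L1 LamC: `lamR` in residue classes modulo `d ≤ R`

`lamR R n = ∑_{c ≤ R} μ(c)/φ(c) ∑_{e | (c, n)} e μ(c/e)`.  The number of `n ≤ y`, `n ≡ u (d)`, `e | n` is `0` if
`gcd(d,e)` does not divide `u`, otherwise `y/lcm(d,e)` up to an error at most `1`; total error
`∑_{c ≤ R} (1/φ(c)) ∑_{e|c} e ≤ ∑_{c ≤ R} c² ≤ R³` (as in `EHA/Lam1.lean`, whose lemmas may help).
Main term: `(y/d) ∑_{c ≤ R} μ(c)/φ(c) ∑_{e|c} μ(c/e) g(e)`, `g(e) = gcd(e,d)` if `gcd(e,d) | u`, else `0`; `c` squarefree: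
the inner sum is `∏_{p|c} (g(p) - 1)`, zero if some `p | c` does not divide `d` (`g(p) = 1`); so `c | d`, and
`g(p) = p` for `p | u`, `0` otherwise.  As `d ≤ R` all `c | d` occur:
`∑_{c|d} μ(c)/φ(c) ∏_{p|c}(p 1_{p|u} - 1) = ∏_{p|d} (1 - (p 1_{p|u} - 1)/(p-1)) = (d/φ(d)) 1_{(u,d)=1}`.
(Alternatively: `ramS c n = ∑_{b mod c, (b,c)=1} e(nb/c)` (`EHA/SwK2.lean: ramS_eq`), sums over a class mod `d` of `e(nb/c)`
are `O(c)` unless `c | d`.)
-/

set_option autoImplicit false

namespace Pool.Agent.H91.L1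

open Finset
open Pool.Agent.H91.EHA (Lam lamR hR psiA err)

/-- Number of `n ≤ y` in a residue class. -/
private theorem LamC_count (y m b : ℕ) (hm : 0 < m) :
    |(((Icc 1 y).filter (fun n => n ≡ b [MOD m])).card : ℝ) - (y : ℝ) / m| ≤ 1 := by
  have h0 : Icc 1 y = Ioc 0 y := by
    ext n
    simp only [mem_Icc, mem_Ioc]
    omega
  have h1 := Nat.Ioc_filter_modEq_card 0 y hm b
  rw [h0]
  have hmq : (0 : ℚ) < (m : ℚ) := by exact_mod_cast hm
  set A : ℚ := ((y : ℚ) - b) / m with hA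
  set B : ℚ := (((0 : ℕ) : ℚ) - b) / m with hB
  have hAB : A = B + (y : ℚ) / m := by
    rw [hA, hB]
    push_cast
    ring
  have hy : (0 : ℚ) ≤ (y : ℚ) / m := by positivity
  have hle : ⌊B⌋ ≤ ⌊A⌋ := Int.floor_le_floor (by rw [hAB]; linarith)
  rw [max_eq_left (by linarith)] at h1
  have h2 : ((((Ioc 0 y).filter (fun n => n ≡ b [MOD m])).card : ℤ) : ℚ) = (⌊A⌋ : ℚ) - (⌊B⌋ : ℚ) := by
    rw [h1]
    push_cast
    ring
  have a1 := Int.floor_le A
  have a2 := Int.lt_floor_add_one A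
  have b1 := Int.floor_le B
  have b2 := Int.lt_floor_add_one B
  have h3 : |((((Ioc 0 y).filter (fun n => n ≡ b [MOD m])).card : ℤ) : ℚ) - (y : ℚ) / m| ≤ 1 := by
    rw [h2, abs_le]
    constructor <;> linarith
  have h4 : ((|((((Ioc 0 y).filter (fun n => n ≡ b [MOD m])).card : ℤ) : ℚ) - (y : ℚ) / m| : ℚ) : ℝ)
      ≤ ((1 : ℚ) : ℝ) := by
    exact_mod_cast h3
  push_cast at h4
  simpa using h4

/-- Number of `n ≤ y`, `n ≡ u mod d`, divisible by `e`. -/
private noncomputable def LamC_N (y d u e : ℕ) : ℕ :=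
  (((Icc 1 y).filter (fun n => n ≡ u [MOD d])).filter (fun n => e ∣ n)).card

/-- `gcd(e,d)` if it divides `u`, otherwise `0` -/
private noncomputable def LamC_g (d u : ℕ) : ArithmeticFunction ℝ :=
  ⟨fun e => if e = 0 then 0 else if Nat.gcd e d ∣ u then (Nat.gcd e d : ℝ) else 0, by simp⟩

private theorem LamC_g_apply (d u e : ℕ) (he : e ≠ 0) :
    LamC_g d u e = if Nat.gcd e d ∣ u then (Nat.gcd e d : ℝ) else 0 := by
  simp [LamC_g, he]

private theorem LamC_g_mult (d u : ℕ) : (LamC_g d u).IsMultiplicative := by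
  rw [ArithmeticFunction.IsMultiplicative.iff_ne_zero]
  refine ⟨?_, fun {m n} hm hn hmn => ?_⟩
  · rw [LamC_g_apply _ _ _ one_ne_zero]
    simp
  · rw [LamC_g_apply _ _ _ hm, LamC_g_apply _ _ _ hn, LamC_g_apply _ _ _ (mul_ne_zero hm hn)]
    have h1 : Nat.gcd (m * n) d = Nat.gcd m d * Nat.gcd n d := by
      rw [Nat.gcd_comm (m * n) d, Nat.Coprime.gcd_mul d hmn, Nat.gcd_comm d m, Nat.gcd_comm d n]
    have h2 : Nat.Coprime (Nat.gcd m d) (Nat.gcd n d) :=
      Nat.Coprime.coprime_dvd_left (Nat.gcd_dvd_left m d)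
        (Nat.Coprime.coprime_dvd_right (Nat.gcd_dvd_left n d) hmn)
    rw [h1]
    by_cases a : Nat.gcd m d ∣ u
    · by_cases b : Nat.gcd n d ∣ u
      · rw [if_pos a, if_pos b, if_pos (h2.mul_dvd_of_dvd_of_dvd a b)]
        push_cast
        ring
      · rw [if_neg b, if_neg (fun h => b ((Dvd.intro_left _ rfl).trans h)), mul_zero]
    · rw [if_neg a, if_neg (fun h => a ((Dvd.intro _ rfl).trans h)), zero_mul]

private theorem LamC_N_bound (y d u e : ℕ) (hd : 1 ≤ d) (he : 1 ≤ e) :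
    |(LamC_N y d u e : ℝ) - (y : ℝ) / d * (LamC_g d u e / e)| ≤ 1 := by
  rw [LamC_g_apply _ _ _ (by omega)]
  by_cases h : Nat.gcd e d ∣ u
  · rw [if_pos h]
    have h0 : u ≡ 0 [MOD Nat.gcd d e] := by
      rw [Nat.modEq_zero_iff_dvd, Nat.gcd_comm]
      exact h
    obtain ⟨b, hb1, hb2⟩ := Nat.chineseRemainder' h0
    have h1 : ((Icc 1 y).filter (fun n => n ≡ u [MOD d])).filter (fun n => e ∣ n)
        = (Icc 1 y).filter (fun n => n ≡ b [MOD (Nat.lcm d e)]) := by
      rw [filter_filter]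
      apply filter_congr
      intro n _
      constructor
      · rintro ⟨h, h'⟩
        exact Nat.mod_lcm (h.trans hb1.symm) (((Nat.modEq_zero_iff_dvd).2 h').trans hb2.symm)
      · intro h
        exact ⟨(h.of_dvd (Nat.dvd_lcm_left d e)).trans hb1,
          (Nat.modEq_zero_iff_dvd).1 ((h.of_dvd (Nat.dvd_lcm_right d e)).trans hb2)⟩
    unfold LamC_N
    rw [h1]
    have h2 := LamC_count y (Nat.lcm d e) b (Nat.lcm_pos hd he)
    have h3 : (y : ℝ) / (Nat.lcm d e : ℝ) = (y : ℝ) / d * ((Nat.gcd e d : ℝ) / e) := by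
      have h4 : Nat.gcd d e * Nat.lcm d e = d * e := Nat.gcd_mul_lcm d e
      have h5 : (Nat.gcd d e : ℝ) * (Nat.lcm d e : ℝ) = (d : ℝ) * e := by exact_mod_cast h4
      have hl : (0 : ℝ) < (Nat.lcm d e : ℝ) := by exact_mod_cast Nat.lcm_pos hd he
      have hd0 : (0 : ℝ) < d := by exact_mod_cast hd
      have he0 : (0 : ℝ) < e := by exact_mod_cast he
      rw [Nat.gcd_comm e d]
      field_simp
      linear_combination (-(y : ℝ)) * h5
    rw [h3] at h2
    exact h2
  · rw [if_neg h]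
    have h1 : LamC_N y d u e = 0 := by
      unfold LamC_N
      rw [card_eq_zero, filter_eq_empty_iff]
      intro n hn hdn
      rw [mem_filter] at hn
      apply h
      have h1 : Nat.gcd e d ∣ n := (Nat.gcd_dvd_left e d).trans hdn
      have h2 : Nat.gcd e d ∣ d := Nat.gcd_dvd_right e d
      exact ((hn.2.of_dvd h2).dvd_iff dvd_rfl).1 h1
    rw [h1]
    simp

private theorem LamC_ramS (c n : ℕ) (hc : c ≠ 0) : Pool.Agent.H91.EHA.ramS c n =
    ∑ e ∈ c.divisors, if e ∣ n then (e : ℝ) * (ArithmeticFunction.moebius (c / e) : ℝ) else 0 := by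
  rw [← sum_filter]
  unfold Pool.Agent.H91.EHA.ramS
  apply sum_congr _ (fun _ _ => rfl)
  ext d
  simp only [mem_filter, Nat.mem_divisors, Nat.dvd_gcd_iff, ne_eq, Nat.gcd_eq_zero_iff]
  constructor
  · rintro ⟨⟨h, h'⟩, _⟩
    exact ⟨⟨h, hc⟩, h'⟩
  · rintro ⟨⟨h, _⟩, h'⟩
    exact ⟨⟨h, h'⟩, fun h => hc h.1⟩

private theorem LamC_swap (y d u c : ℕ) (hc : c ≠ 0) :
    ∑ n ∈ (Icc 1 y).filter (fun n => n ≡ u [MOD d]), Pool.Agent.H91.EHA.ramS c n
      = ∑ e ∈ c.divisors, (e : ℝ) * (ArithmeticFunction.moebius (c / e) : ℝ) * (LamC_N y d u e : ℝ) := by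
  rw [sum_congr rfl (fun n _ => LamC_ramS c n hc), sum_comm]
  apply sum_congr rfl
  intro d _
  rw [← sum_filter, sum_const, nsmul_eq_mul]
  unfold LamC_N
  ring

/-- the main term of one `c` -/
private noncomputable def LamC_G (d u : ℕ) : ArithmeticFunction ℝ :=
  LamC_g d u * (ArithmeticFunction.moebius : ArithmeticFunction ℝ)

private theorem LamC_G_mult (d u : ℕ) : (LamC_G d u).IsMultiplicative :=
  (LamC_g_mult d u).mul ArithmeticFunction.isMultiplicative_moebius.intCast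

private theorem LamC_G_apply (d u c : ℕ) : LamC_G d u c =
    ∑ e ∈ c.divisors, LamC_g d u e * (ArithmeticFunction.moebius (c / e) : ℝ) := by
  unfold LamC_G
  rw [ArithmeticFunction.mul_apply]
  rw [Nat.sum_divisorsAntidiagonal (f := fun a b : ℕ =>
    LamC_g d u a * (ArithmeticFunction.moebius : ArithmeticFunction ℝ) b)]
  rfl

/-- One `c`. -/
private theorem LamC_term (R y d u c : ℕ) (hd : 1 ≤ d) (hc : c ∈ Icc 1 R) :
    |(ArithmeticFunction.moebius c : ℝ) / (c.totient : ℝ) *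
        ∑ n ∈ (Icc 1 y).filter (fun n => n ≡ u [MOD d]), Pool.Agent.H91.EHA.ramS c n
      - (y : ℝ) / d * ((ArithmeticFunction.moebius c : ℝ) / (c.totient : ℝ) * LamC_G d u c)|
      ≤ (R : ℝ) ^ 2 := by
  have hc1 : 1 ≤ c := (mem_Icc.1 hc).1
  have hcR : c ≤ R := (mem_Icc.1 hc).2
  have hc0 : c ≠ 0 := by omega
  have hmain : (y : ℝ) / d * ((ArithmeticFunction.moebius c : ℝ) / (c.totient : ℝ) * LamC_G d u c)
      = (ArithmeticFunction.moebius c : ℝ) / (c.totient : ℝ) *
        ∑ e ∈ c.divisors, (e : ℝ) * (ArithmeticFunction.moebius (c / e) : ℝ) *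
          ((y : ℝ) / d * (LamC_g d u e / e)) := by
    rw [LamC_G_apply, mul_left_comm, mul_sum]
    congr 1
    apply sum_congr rfl
    intro e he
    have he0 : (e : ℝ) ≠ 0 := by
      have := Nat.pos_of_mem_divisors he
      positivity
    field_simp
  rw [hmain, LamC_swap y d u c hc0, ← mul_sub, ← sum_sub_distrib, abs_mul]
  have hφ : (1 : ℝ) ≤ (c.totient : ℝ) := by
    exact_mod_cast Nat.totient_pos.2 hc1
  have hμ : |(ArithmeticFunction.moebius c : ℝ) / (c.totient : ℝ)| ≤ 1 := by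
    rw [abs_div, abs_of_nonneg (by positivity : (0 : ℝ) ≤ (c.totient : ℝ))]
    rw [div_le_one (by positivity)]
    have : |(ArithmeticFunction.moebius c : ℝ)| ≤ 1 := by
      exact_mod_cast ArithmeticFunction.abs_moebius_le_one
    linarith
  have hsum : |∑ e ∈ c.divisors, ((e : ℝ) * (ArithmeticFunction.moebius (c / e) : ℝ) * (LamC_N y d u e : ℝ)
      - (e : ℝ) * (ArithmeticFunction.moebius (c / e) : ℝ) *
          ((y : ℝ) / d * (LamC_g d u e / e)))| ≤ (R : ℝ) ^ 2 := by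
    refine (abs_sum_le_sum_abs _ _).trans ?_
    have hb : ∀ e ∈ c.divisors, |(e : ℝ) * (ArithmeticFunction.moebius (c / e) : ℝ) * (LamC_N y d u e : ℝ)
      - (e : ℝ) * (ArithmeticFunction.moebius (c / e) : ℝ) *
          ((y : ℝ) / d * (LamC_g d u e / e))| ≤ (R : ℝ) := by
      intro e he
      have he1 : 1 ≤ e := Nat.pos_of_mem_divisors he
      have hec : e ≤ c := Nat.divisor_le he
      rw [← mul_sub, abs_mul, abs_mul]
      have hμd : |(ArithmeticFunction.moebius (c / e) : ℝ)| ≤ 1 := by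
        exact_mod_cast ArithmeticFunction.abs_moebius_le_one
      have hN := LamC_N_bound y d u e hd he1
      have hdR : |(e : ℝ)| ≤ (R : ℝ) := by
        rw [abs_of_nonneg (by positivity)]
        exact_mod_cast hec.trans hcR
      calc |(e : ℝ)| * |(ArithmeticFunction.moebius (c / e) : ℝ)| * _
          ≤ (R : ℝ) * 1 * 1 := by
            apply mul_le_mul _ hN (abs_nonneg _) (by positivity)
            exact mul_le_mul hdR hμd (abs_nonneg _) (by positivity)
        _ = (R : ℝ) := by ring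
    refine (sum_le_card_nsmul _ _ _ hb).trans ?_
    rw [nsmul_eq_mul, pow_two]
    apply mul_le_mul_of_nonneg_right _ (by positivity)
    have : c.divisors.card ≤ c := Nat.card_divisors_le_self c
    exact_mod_cast this.trans hcR
  calc _ ≤ 1 * (R : ℝ) ^ 2 := mul_le_mul hμ hsum (abs_nonneg _) zero_le_one
    _ = _ := one_mul _

private theorem LamC_G_dvd (d u c : ℕ) (hcd : c ∣ d) : LamC_G d u c = LamC_G 0 u c := by
  rw [LamC_G_apply, LamC_G_apply]
  apply sum_congr rfl
  intro e he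
  have he0 : e ≠ 0 := (Nat.pos_of_mem_divisors he).ne'
  have h1 : Nat.gcd e d = e := Nat.gcd_eq_left ((Nat.dvd_of_mem_divisors he).trans hcd)
  rw [LamC_g_apply _ _ _ he0, LamC_g_apply _ _ _ he0, h1, Nat.gcd_zero_right]

private theorem LamC_G_prime (d u p : ℕ) (hp : p.Prime) :
    LamC_G d u p = (if Nat.gcd p d ∣ u then (Nat.gcd p d : ℝ) else 0) - 1 := by
  rw [LamC_G_apply, hp.divisors, Finset.sum_pair hp.one_lt.ne, LamC_g_apply _ _ _ one_ne_zero,
    LamC_g_apply _ _ _ hp.ne_zero, Nat.div_one, Nat.div_self hp.pos,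
    ArithmeticFunction.moebius_apply_prime hp]
  simp
  ring

private theorem LamC_G_not_dvd (d u c : ℕ) (hc : Squarefree c) (hcd : ¬ c ∣ d) :
    LamC_G d u c = 0 := by
  have hc0 : c ≠ 0 := hc.ne_zero
  obtain ⟨p, hp, hpc, hpd⟩ : ∃ p, p.Prime ∧ p ∣ c ∧ ¬ p ∣ d := by
    by_contra hcon
    push Not at hcon
    apply hcd
    rw [← Nat.prod_primeFactors_of_squarefree hc]
    apply Finset.prod_primes_dvd
    · intro p hp
      exact (Nat.prime_of_mem_primeFactors hp).prime
    · intro p hp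
      exact hcon p (Nat.prime_of_mem_primeFactors hp) (Nat.dvd_of_mem_primeFactors hp)
  obtain ⟨e, rfl⟩ := hpc
  have hcop : Nat.Coprime p e := Nat.coprime_of_squarefree_mul hc
  rw [(LamC_G_mult d u).map_mul_of_coprime hcop, LamC_G_prime d u p hp]
  have h1 : Nat.gcd p d = 1 := (Nat.Prime.coprime_iff_not_dvd hp).2 hpd
  rw [h1]
  simp

private noncomputable def LamC_F (u : ℕ) : ArithmeticFunction ℝ :=
  ⟨fun c => (ArithmeticFunction.moebius c : ℝ) / (c.totient : ℝ) * LamC_G 0 u c, by simp⟩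

private theorem LamC_F_apply (u c : ℕ) :
    LamC_F u c = (ArithmeticFunction.moebius c : ℝ) / (c.totient : ℝ) * LamC_G 0 u c := rfl

private theorem LamC_F_mult (u : ℕ) : (LamC_F u).IsMultiplicative := by
  rw [ArithmeticFunction.IsMultiplicative.iff_ne_zero]
  refine ⟨?_, fun {m n} hm hn hmn => ?_⟩
  · rw [LamC_F_apply, (LamC_G_mult 0 u).map_one]
    simp
  · rw [LamC_F_apply, LamC_F_apply, LamC_F_apply, (LamC_G_mult 0 u).map_mul_of_coprime hmn,
      ArithmeticFunction.isMultiplicative_moebius.map_mul_of_coprime hmn, Nat.totient_mul hmn]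
    push_cast
    rw [mul_div_mul_comm]
    ring

private noncomputable def LamC_T (u : ℕ) : ArithmeticFunction ℝ :=
  ⟨fun d => if d = 0 then 0 else if Nat.Coprime u d then (d : ℝ) / (d.totient : ℝ) else 0, by simp⟩

private theorem LamC_T_apply (u d : ℕ) (hd : d ≠ 0) :
    LamC_T u d = if Nat.Coprime u d then (d : ℝ) / (d.totient : ℝ) else 0 := by
  simp [LamC_T, hd]

private theorem LamC_T_mult (u : ℕ) : (LamC_T u).IsMultiplicative := by
  rw [ArithmeticFunction.IsMultiplicative.iff_ne_zero]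
  refine ⟨?_, fun {m n} hm hn hmn => ?_⟩
  · rw [LamC_T_apply _ _ one_ne_zero]
    simp
  · rw [LamC_T_apply _ _ hm, LamC_T_apply _ _ hn, LamC_T_apply _ _ (mul_ne_zero hm hn),
      Nat.totient_mul hmn]
    by_cases a : Nat.Coprime u m
    · by_cases b : Nat.Coprime u n
      · rw [if_pos a, if_pos b, if_pos (Nat.Coprime.mul_right a b)]
        push_cast
        rw [mul_div_mul_comm]
      · rw [if_neg b, if_neg (fun h => b (Nat.Coprime.coprime_dvd_right (Dvd.intro_left _ rfl) h)),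
          mul_zero]
    · rw [if_neg a, if_neg (fun h => a (Nat.Coprime.coprime_dvd_right (Dvd.intro _ rfl) h)), zero_mul]

private theorem LamC_FT (u : ℕ) :
    LamC_F u * (ArithmeticFunction.zeta : ArithmeticFunction ℝ) = LamC_T u := by
  rw [((LamC_F_mult u).mul ArithmeticFunction.isMultiplicative_zeta.natCast).eq_iff_eq_on_prime_powers
    _ _ (LamC_T_mult u)]
  intro p i hp
  rw [ArithmeticFunction.coe_mul_zeta_apply, Nat.sum_divisors_prime_pow hp,
    LamC_T_apply _ _ (pow_ne_zero i hp.ne_zero)]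
  have hF1 : LamC_F u 1 = 1 := (LamC_F_mult u).map_one
  rcases Nat.eq_zero_or_pos i with hi | hi
  · subst hi
    simp [hF1]
  · obtain ⟨j, rfl⟩ : ∃ j, i = j + 1 := ⟨i - 1, by omega⟩
    rw [sum_range_succ', pow_zero, hF1, sum_range_succ', zero_add, pow_one]
    have h0 : ∑ k ∈ range j, LamC_F u (p ^ (k + 1 + 1)) = 0 := by
      apply sum_eq_zero
      intro k _
      rw [LamC_F_apply, ArithmeticFunction.moebius_apply_prime_pow hp (by omega), if_neg (by omega)]
      simp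
    rw [h0, zero_add, LamC_F_apply, ArithmeticFunction.moebius_apply_prime hp, Nat.totient_prime hp,
      LamC_G_prime 0 u p hp, Nat.gcd_zero_right, Nat.totient_prime_pow_succ hp]
    have hp1 : (1 : ℝ) < p := by exact_mod_cast hp.one_lt
    have hpc : ((p - 1 : ℕ) : ℝ) = (p : ℝ) - 1 := by
      rw [Nat.cast_sub hp.one_lt.le, Nat.cast_one]
    have hp1' : (p : ℝ) - 1 ≠ 0 := by linarith
    have hcop : Nat.Coprime u (p ^ (j + 1)) ↔ ¬ p ∣ u := by
      rw [Nat.coprime_pow_right_iff (by omega), Nat.coprime_comm, Nat.Prime.coprime_iff_not_dvd hp]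
    by_cases h : p ∣ u
    · rw [if_pos h, if_neg (fun h' => (hcop.1 h') h), hpc]
      push_cast
      field_simp
      ring
    · rw [if_neg h, if_pos (hcop.2 h)]
      push_cast
      rw [hpc, pow_succ]
      have hpj : (p : ℝ) ^ j ≠ 0 := by positivity
      field_simp
      ring

private theorem LamC_main (R d u : ℕ) (hd : 1 ≤ d) (hdR : d ≤ R) :
    ∑ c ∈ Icc 1 R, (ArithmeticFunction.moebius c : ℝ) / (c.totient : ℝ) * LamC_G d u c =
      if Nat.Coprime u d then (d : ℝ) / (d.totient : ℝ) else 0 := by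
  rw [← LamC_T_apply u d (by omega), ← LamC_FT u, ArithmeticFunction.coe_mul_zeta_apply]
  have hsub : d.divisors ⊆ Icc 1 R := by
    intro c hc
    rw [mem_Icc]
    exact ⟨Nat.pos_of_mem_divisors hc, (Nat.divisor_le hc).trans hdR⟩
  rw [← sum_subset hsub]
  · apply sum_congr rfl
    intro c hc
    rw [LamC_F_apply, LamC_G_dvd d u c (Nat.dvd_of_mem_divisors hc)]
  · intro c hc1 hc2
    by_cases hsq : Squarefree c
    · rw [LamC_G_not_dvd d u c hsq, mul_zero]
      intro h
      exact hc2 (Nat.mem_divisors.2 ⟨h, by omega⟩)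
    · rw [ArithmeticFunction.moebius_eq_zero_of_not_squarefree hsq]
      simp

theorem lamC (R d u y : ℕ) (hd : 1 ≤ d) (hdR : d ≤ R) :
    |(∑ n ∈ (Icc 1 y).filter (fun n => n ≡ u [MOD d]), lamR R n)
      - (if Nat.Coprime u d then (y : ℝ) / (d.totient : ℝ) else 0)| ≤ (R : ℝ) ^ 3 := by
  have h1 : (∑ n ∈ (Icc 1 y).filter (fun n => n ≡ u [MOD d]), lamR R n)
      = ∑ c ∈ Icc 1 R, (ArithmeticFunction.moebius c : ℝ) / (c.totient : ℝ) *
        ∑ n ∈ (Icc 1 y).filter (fun n => n ≡ u [MOD d]), Pool.Agent.H91.EHA.ramS c n := by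
    unfold lamR
    rw [sum_comm]
    apply sum_congr rfl
    intro c _
    rw [mul_sum]
  have h2 : (if Nat.Coprime u d then (y : ℝ) / (d.totient : ℝ) else 0) =
      ∑ c ∈ Icc 1 R, (y : ℝ) / d *
        ((ArithmeticFunction.moebius c : ℝ) / (c.totient : ℝ) * LamC_G d u c) := by
    rw [← mul_sum, LamC_main R d u hd hdR]
    have hd0 : (0 : ℝ) < d := by exact_mod_cast hd
    split_ifs
    · field_simp
    · simp
  rw [h1, h2, ← sum_sub_distrib]
  refine (abs_sum_le_sum_abs _ _).trans ?_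
  refine (sum_le_card_nsmul _ _ _ (fun c hc => LamC_term R y d u c hd hc)).trans ?_
  rw [nsmul_eq_mul, Nat.card_Icc]
  apply le_of_eq
  simp only [Nat.add_sub_cancel]
  ring

/-- the same for windows (difference of two values of `y`) -/
theorem lamC_win (R d u w H : ℕ) (hd : 1 ≤ d) (hdR : d ≤ R) :
    |(∑ n ∈ (Ioc w (w + H)).filter (fun n => n ≡ u [MOD d]), lamR R n)
      - (if Nat.Coprime u d then (H : ℝ) / (d.totient : ℝ) else 0)| ≤ 2 * (R : ℝ) ^ 3 := by
  have h1 := lamC R d u (w + H) hd hdR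
  have h2 := lamC R d u w hd hdR
  have h3 : (∑ n ∈ (Icc 1 (w + H)).filter (fun n => n ≡ u [MOD d]), lamR R n) =
      (∑ n ∈ (Icc 1 w).filter (fun n => n ≡ u [MOD d]), lamR R n) +
        ∑ n ∈ (Ioc w (w + H)).filter (fun n => n ≡ u [MOD d]), lamR R n := by
    rw [← sum_union]
    · rw [← filter_union]
      congr 2
      ext n
      simp only [mem_Icc, mem_union, mem_Ioc]
      omega
    · rw [disjoint_left]
      intro n hn hn'
      rw [mem_filter, mem_Icc] at hn
      rw [mem_filter, mem_Ioc] at hn'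
      omega
  have h4 : (if Nat.Coprime u d then ((w + H : ℕ) : ℝ) / (d.totient : ℝ) else 0) =
      (if Nat.Coprime u d then (w : ℝ) / (d.totient : ℝ) else 0) +
        (if Nat.Coprime u d then (H : ℝ) / (d.totient : ℝ) else 0) := by
    split_ifs
    · push_cast
      ring
    · simp
  rw [h3, h4] at h1
  rw [abs_le] at h1 h2 ⊢
  constructor <;> linarith [h1.1, h1.2, h2.1, h2.2]

end Pool.Agent.H91.L1
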