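import Mathlib
import Pool.Agent.H91.L1.LamC
import Pool.Agent.H91.L1.HSq

/-!
# L1 Var: `hR` in almost all short windows, in classes

`L = log x`, `R = ⌊L^B⌋`, so `d ≤ R`.  Windows with `w < x/L^D`, `D = A + 2B + 4`: `|Wd| ≤ H L^(B+1)` (`hR_bd`,
`w + H ≤ 9x`... use `x ≤ 9x` generously: `w + H ≤ 2x` here), total `≤ (x/L^D + 1) H² L^(2B+2)`.  The other `w` lie in the `[X, 2X)`,
`X = ⌈x/L^D⌉ 2^i`, `i < L` (at most `L` blocks: `2^i ≤ 9 L^D`).  There `Wd h d H w` is the sum over the class `u = w mod d`, so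
`∑_w Wd² ≤ ∑_{u < d} ∑_w (∑_{n ∈ (w, w+H], n ≡ u (d)} hR)²`.
`(u,d) = 1`: `hR = (Lam - main) - (lamR - main)`, `HuxProp` with `e/2`, `A' = A + 3B + 10`, `B + 1` (`log X ≥ L/2`,
`d ≤ L^B ≤ (log X)^(B+1)`, `X^(1/6+e/2) ≤ (9x)^(1/6+e/2) ≤ x^(1/6+e) ≤ H ≤ x^(1/4) ≤ X^(1/3)`) and `lamC_win` (`2R³ ≤ 2L^(3B)`).
`(u,d) > 1`: `Lam n ≠ 0`, `n ≡ u (d)` only for powers of primes dividing `d`: at most `(log₂(19x)) (log₂ d)` values of `n ≤ 19x`, each `≤ 2L`;
`lamC_win`.  So each such sum is at most `L^(3B+4)` in absolute value, negligible against `H ≥ x^(1/6)`.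
-/

set_option autoImplicit false

namespace Pool.Agent.H91.L1

open Finset
open Pool.Agent.H91.EHA (Lam lamR hR psiA err)

private theorem Var_log (K : ℕ) {δ : ℝ} (hδ : 0 < δ) :
    ∀ᶠ x : ℕ in Filter.atTop, Real.log x ^ K ≤ (x : ℝ) ^ δ := by
  have h := (isLittleO_log_rpow_rpow_atTop (K : ℝ) hδ).bound zero_lt_one
  have h2 := tendsto_natCast_atTop_atTop.eventually h
  filter_upwards [h2] with x hx
  rw [Real.rpow_natCast, one_mul] at hx
  have h3 : 0 ≤ (x : ℝ) ^ δ := Real.rpow_nonneg (Nat.cast_nonneg x) δ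
  rw [Real.norm_eq_abs, Real.norm_eq_abs, abs_of_nonneg h3] at hx
  exact (le_abs_self _).trans hx

private theorem Var_L (C : ℝ) : ∀ᶠ x : ℕ in Filter.atTop, C ≤ Real.log x :=
  (Real.tendsto_log_atTop.comp tendsto_natCast_atTop_atTop).eventually_ge_atTop C

private theorem Var_pow (C : ℝ) {δ : ℝ} (hδ : 0 < δ) :
    ∀ᶠ x : ℕ in Filter.atTop, C ≤ (x : ℝ) ^ δ :=
  ((tendsto_rpow_atTop hδ).comp tendsto_natCast_atTop_atTop).eventually_ge_atTop C

/-- the sum over the window in the class `u` -/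
private noncomputable def Var_S (h : ℕ → ℝ) (d H u w : ℕ) : ℝ :=
  ∑ n ∈ (Ioc w (w + H)).filter (fun n => n ≡ u [MOD d]), h n

private theorem Var_Wd_le (h : ℕ → ℝ) {d : ℕ} (hd : 1 ≤ d) (H w : ℕ) :
    Wd h d H w ^ 2 ≤ ∑ u ∈ range d, Var_S h d H u w ^ 2 := by
  have h1 : Wd h d H w = Var_S h d H (w % d) w := by
    unfold Wd Var_S
    refine Finset.sum_congr (Finset.filter_congr fun n _ => ?_) fun _ _ => rfl
    exact ⟨fun h => h.trans (Nat.mod_modEq w d).symm, fun h => h.trans (Nat.mod_modEq w d)⟩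
  rw [h1]
  exact Finset.single_le_sum (f := fun u => Var_S h d H u w ^ 2) (fun _ _ => sq_nonneg _)
    (Finset.mem_range.2 (Nat.mod_lt w (by omega)))

private theorem Var_S_hR (R d H u w : ℕ) :
    Var_S (hR R) d H u w = Var_S Lam d H u w - Var_S (lamR R) d H u w := by
  unfold Var_S
  rw [← Finset.sum_sub_distrib]
  rfl

private theorem Var_noncop {d N u w H : ℕ} (hd : 1 ≤ d) (hcop : ¬ Nat.Coprime u d)
    (hN : w + H ≤ N) :
    |Var_S Lam d H u w| ≤ d * (2 * Real.log N) * Real.log N := by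
  classical
  have hlogN : 0 ≤ Real.log N := Real.log_natCast_nonneg N
  unfold Var_S
  set S := (Ioc w (w + H)).filter (fun n => n ≡ u [MOD d]) with hS
  have h0 : ∀ n, 0 ≤ Lam n := fun n => ArithmeticFunction.vonMangoldt_nonneg
  rw [abs_of_nonneg (Finset.sum_nonneg fun n _ => h0 n)]
  have h1 : ∑ n ∈ S, Lam n = ∑ n ∈ S.filter (fun n => Lam n ≠ 0), Lam n := by
    exact (Finset.sum_filter_ne_zero S).symm
  have h2 : S.filter (fun n => Lam n ≠ 0) ⊆
      (d.primeFactors ×ˢ Icc 1 (Nat.log 2 N)).image (fun t => t.1 ^ t.2) := by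
    intro n hn
    rw [Finset.mem_filter, hS, Finset.mem_filter, Finset.mem_Ioc] at hn
    obtain ⟨⟨⟨h3, h4⟩, h5⟩, h6⟩ := hn
    have h7 : IsPrimePow n := ArithmeticFunction.vonMangoldt_ne_zero_iff.1 h6
    obtain ⟨p, k, hp, hk, rfl⟩ := (isPrimePow_nat_iff n).1 h7
    rw [Finset.mem_image]
    refine ⟨(p, k), Finset.mem_product.2 ⟨?_, ?_⟩, rfl⟩
    · rw [Nat.mem_primeFactors]
      refine ⟨hp, ?_, by omega⟩
      by_contra hpd
      have h8 : Nat.Coprime (p ^ k) d := Nat.Coprime.pow_left k ((Nat.Prime.coprime_iff_not_dvd hp).2 hpd)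
      apply hcop
      have h9 := h5.gcd_eq
      unfold Nat.Coprime at h8 ⊢
      rw [← h9]
      exact h8
    · rw [Finset.mem_Icc]
      refine ⟨hk, Nat.le_log_of_pow_le (by norm_num) ?_⟩
      exact (Nat.pow_le_pow_left hp.two_le k).trans (h4.trans hN)
  have h3 : ((S.filter (fun n => Lam n ≠ 0)).card : ℝ) ≤ d * (2 * Real.log N) := by
    have h4 : (S.filter (fun n => Lam n ≠ 0)).card ≤ d * Nat.log 2 N := by
      refine (Finset.card_le_card h2).trans (Finset.card_image_le.trans ?_)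
      rw [Finset.card_product, Nat.card_Icc, Nat.add_sub_cancel]
      refine Nat.mul_le_mul_right _ ?_
      have h5 : d.primeFactors ⊆ Icc 1 d := by
        intro p hp
        rw [Nat.mem_primeFactors] at hp
        exact Finset.mem_Icc.2 ⟨hp.1.pos, Nat.le_of_dvd (by omega) hp.2.1⟩
      have h6 := Finset.card_le_card h5
      rwa [Nat.card_Icc, Nat.add_sub_cancel] at h6
    have h5 : (Nat.log 2 N : ℝ) ≤ 2 * Real.log N := by
      refine (Real.natLog_le_logb N 2).trans ?_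
      rw [Real.logb, Nat.cast_ofNat, div_le_iff₀ (Real.log_pos (by norm_num))]
      have h6 : (1 / 2 : ℝ) ≤ Real.log 2 := by
        have := Real.log_two_gt_d9
        linarith
      nlinarith
    have h6 : ((S.filter (fun n => Lam n ≠ 0)).card : ℝ) ≤ d * (Nat.log 2 N : ℝ) := by
      exact_mod_cast h4
    exact h6.trans (mul_le_mul_of_nonneg_left h5 (Nat.cast_nonneg d))
  rw [h1]
  calc ∑ n ∈ S.filter (fun n => Lam n ≠ 0), Lam n
      ≤ ∑ _n ∈ S.filter (fun n => Lam n ≠ 0), Real.log N := by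
        refine Finset.sum_le_sum fun n hn => ?_
        rw [Finset.mem_filter, hS, Finset.mem_filter, Finset.mem_Ioc] at hn
        refine (ArithmeticFunction.vonMangoldt_le_log).trans ?_
        refine Real.log_le_log ?_ ?_
        · have : 0 < n := by omega
          exact_mod_cast this
        · have : n ≤ N := by omega
          exact_mod_cast this
    _ = ((S.filter (fun n => Lam n ≠ 0)).card : ℝ) * Real.log N := by
        rw [Finset.sum_const, nsmul_eq_mul]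
    _ ≤ _ := mul_le_mul_of_nonneg_right h3 hlogN

/-- one class in one block -/
private theorem Var_class {R X d u H : ℕ} {Q T : ℝ} (hd : 1 ≤ d) (hdR : d ≤ R)
    (hcop : Nat.Coprime u d → ∑ w ∈ Ico X (2 * X),
      (Var_S Lam d H u w - (H : ℝ) / (d.totient : ℝ)) ^ 2 ≤ X * T / 4)
    (hncop : ¬ Nat.Coprime u d → ∀ w ∈ Ico X (2 * X), |Var_S Lam d H u w| ≤ Q)
    (hR6 : 8 * (R : ℝ) ^ 6 ≤ T / 2) (hQ : (Q + 2 * (R : ℝ) ^ 3) ^ 2 ≤ T) :
    ∑ w ∈ Ico X (2 * X), Var_S (hR R) d H u w ^ 2 ≤ X * T := by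
  have hcard : ((Ico X (2 * X)).card : ℝ) = X := by
    rw [Nat.card_Ico]
    congr 1
    omega
  have hlam : ∀ w, |Var_S (lamR R) d H u w -
      (if Nat.Coprime u d then (H : ℝ) / (d.totient : ℝ) else 0)| ≤ 2 * (R : ℝ) ^ 3 :=
    fun w => lamC_win R d u w H hd hdR
  by_cases hc : Nat.Coprime u d
  · simp only [if_pos hc] at hlam
    have h1 : ∀ w ∈ Ico X (2 * X), Var_S (hR R) d H u w ^ 2 ≤
        2 * (Var_S Lam d H u w - (H : ℝ) / (d.totient : ℝ)) ^ 2 + T / 2 := by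
      intro w _
      have h2 := hlam w
      have h3 : (Var_S (lamR R) d H u w - (H : ℝ) / (d.totient : ℝ)) ^ 2 ≤ (2 * (R : ℝ) ^ 3) ^ 2 := by
        rw [← sq_abs]
        exact pow_le_pow_left₀ (abs_nonneg _) h2 2
      have h4 : (2 * (R : ℝ) ^ 3) ^ 2 = 4 * (R : ℝ) ^ 6 := by ring
      rw [h4] at h3
      have h5 : Var_S (hR R) d H u w = (Var_S Lam d H u w - (H : ℝ) / (d.totient : ℝ)) -
          (Var_S (lamR R) d H u w - (H : ℝ) / (d.totient : ℝ)) := by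
        rw [Var_S_hR]
        ring
      rw [h5]
      generalize Var_S Lam d H u w - (H : ℝ) / (d.totient : ℝ) = a
      generalize Var_S (lamR R) d H u w - (H : ℝ) / (d.totient : ℝ) = b at h3
      nlinarith [sq_nonneg (a + b)]
    calc ∑ w ∈ Ico X (2 * X), Var_S (hR R) d H u w ^ 2
        ≤ ∑ w ∈ Ico X (2 * X), (2 * (Var_S Lam d H u w - (H : ℝ) / (d.totient : ℝ)) ^ 2 + T / 2) :=
          Finset.sum_le_sum h1
      _ = 2 * ∑ w ∈ Ico X (2 * X), (Var_S Lam d H u w - (H : ℝ) / (d.totient : ℝ)) ^ 2 +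
          X * (T / 2) := by
          rw [Finset.sum_add_distrib, ← Finset.mul_sum, Finset.sum_const, nsmul_eq_mul, hcard]
      _ ≤ X * T := by
          have := hcop hc
          linarith
  · simp only [if_neg hc, sub_zero] at hlam
    have h1 : ∀ w ∈ Ico X (2 * X), Var_S (hR R) d H u w ^ 2 ≤ T := by
      intro w hw
      refine le_trans ?_ hQ
      rw [← sq_abs, Var_S_hR]
      refine pow_le_pow_left₀ (abs_nonneg _) ?_ 2
      exact (abs_sub _ _).trans (add_le_add (hncop hc w hw) (hlam w))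
    calc ∑ w ∈ Ico X (2 * X), Var_S (hR R) d H u w ^ 2 ≤ ∑ _w ∈ Ico X (2 * X), T :=
          Finset.sum_le_sum h1
      _ = X * T := by rw [Finset.sum_const, nsmul_eq_mul, hcard]

/-- dyadic blocks -/
private theorem Var_blocks {F : ℕ → ℝ} (hF : ∀ w, 0 ≤ F w) {M N : ℕ} {c : ℝ} (hc : 0 ≤ c)
    (h : ∀ X, M ≤ X → X < N → ∑ w ∈ Ico X (2 * X), F w ≤ c) (I : ℕ) :
    ∑ w ∈ range (min N (M * 2 ^ I)), F w ≤ ∑ w ∈ range M, F w + I * c := by
  induction I with
  | zero =>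
    rw [pow_zero, mul_one, Nat.cast_zero, zero_mul, add_zero]
    exact Finset.sum_le_sum_of_subset_of_nonneg
      (Finset.range_subset_range.2 (min_le_right _ _)) fun w _ _ => hF w
  | succ I ih =>
    push_cast
    rcases Nat.lt_or_ge (M * 2 ^ I) N with h1 | h1
    · rw [min_eq_right h1.le] at ih
      have h2 := h (M * 2 ^ I) (Nat.le_mul_of_pos_right M (by positivity)) h1
      have h3 : ∑ w ∈ range (min N (M * 2 ^ (I + 1))), F w ≤
          ∑ w ∈ range (M * 2 ^ I), F w + ∑ w ∈ Ico (M * 2 ^ I) (2 * (M * 2 ^ I)), F w := by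
        rw [Finset.sum_range_add_sum_Ico _ (by omega)]
        refine Finset.sum_le_sum_of_subset_of_nonneg
          (Finset.range_subset_range.2 ?_) fun w _ _ => hF w
        refine (min_le_right _ _).trans (le_of_eq ?_)
        ring
      linarith
    · have h2 : N ≤ M * 2 ^ (I + 1) := by
        refine h1.trans ?_
        rw [pow_succ]
        nlinarith [Nat.zero_le (M * 2 ^ I)]
      rw [min_eq_left h1] at ih
      rw [min_eq_left h2]
      linarith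

/-- the size conditions for one block -/
private theorem Var_num {e : ℝ} (he : 0 < e) {x X d H : ℕ} {A B E D K : ℕ} {L : ℝ}
    (hL : Real.log x = L) (hE : E = A + B + 2) (hD : D = A + 2 * B + 4)
    (hK : K = 10 * A + 10 * B + 40) (f1 : 2 ^ (E + B + 10) ≤ L) (f2 : L ^ K ≤ (x : ℝ) ^ (1 / 8 : ℝ))
    (f3 : (9 : ℝ) ^ (1 / 6 + e / 2) ≤ (x : ℝ) ^ (e / 2)) (hx : 19 ≤ x)
    (hdL : (d : ℝ) ≤ L ^ B) (hH1 : (x : ℝ) ^ (1 / 6 + e) ≤ H)
    (hH2 : (H : ℝ) ≤ (x : ℝ) ^ (1 / 4 : ℝ)) (hX1 : (x : ℝ) / L ^ D ≤ X) (hX2 : X < 9 * x) :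
    (x : ℝ) ^ (3 / 4 : ℝ) ≤ X ∧ L / 2 ≤ Real.log X ∧ (d : ℝ) ≤ Real.log X ^ (B + 1) ∧
    (X : ℝ) ^ (1 / 6 + e / 2) ≤ H ∧ (H : ℝ) ≤ (X : ℝ) ^ (1 / 3 : ℝ) := by
  have hx19 : (19 : ℝ) ≤ x := by exact_mod_cast hx
  have hx0 : (0 : ℝ) < x := by linarith
  have hx1 : (1 : ℝ) ≤ x := by linarith
  have hL1 : (1 : ℝ) ≤ L := by
    refine le_trans ?_ f1
    exact one_le_pow₀ (by norm_num)
  have hL0 : 0 < L := by linarith
  have g1 : L ^ D ≤ (x : ℝ) ^ (1 / 4 : ℝ) := by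
    calc L ^ D ≤ L ^ K := pow_le_pow_right₀ hL1 (by omega)
      _ ≤ (x : ℝ) ^ (1 / 8 : ℝ) := f2
      _ ≤ (x : ℝ) ^ (1 / 4 : ℝ) := Real.rpow_le_rpow_of_exponent_le hx1 (by norm_num)
  have g2 : (x : ℝ) ^ (3 / 4 : ℝ) ≤ X := by
    refine le_trans ?_ hX1
    rw [le_div_iff₀ (by positivity)]
    calc (x : ℝ) ^ (3 / 4 : ℝ) * L ^ D ≤ (x : ℝ) ^ (3 / 4 : ℝ) * (x : ℝ) ^ (1 / 4 : ℝ) :=
          mul_le_mul_of_nonneg_left g1 (by positivity)
      _ = x := by
          rw [← Real.rpow_add hx0]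
          norm_num
  have g3 : (0 : ℝ) < (x : ℝ) ^ (3 / 4 : ℝ) := by positivity
  have hX0 : (0 : ℝ) < X := by linarith
  have g4 : L / 2 ≤ Real.log X := by
    have h1 : Real.log ((x : ℝ) ^ (3 / 4 : ℝ)) ≤ Real.log X := Real.log_le_log g3 g2
    rw [Real.log_rpow hx0, hL] at h1
    linarith
  refine ⟨g2, g4, ?_, ?_, ?_⟩
  · refine hdL.trans ?_
    calc L ^ B ≤ (L / 2) ^ (B + 1) := by
          rw [div_pow, le_div_iff₀ (by positivity), pow_succ L B]
          refine mul_le_mul_of_nonneg_left ?_ (by positivity)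
          refine le_trans ?_ f1
          exact pow_le_pow_right₀ (by norm_num) (by omega)
      _ ≤ _ := pow_le_pow_left₀ (by positivity) g4 _
  · have h1 : (X : ℝ) ≤ 9 * x := by exact_mod_cast hX2.le
    calc (X : ℝ) ^ (1 / 6 + e / 2) ≤ (9 * x) ^ (1 / 6 + e / 2) :=
          Real.rpow_le_rpow hX0.le h1 (by positivity)
      _ = (9 : ℝ) ^ (1 / 6 + e / 2) * (x : ℝ) ^ (1 / 6 + e / 2) :=
          Real.mul_rpow (by norm_num) hx0.le
      _ ≤ (x : ℝ) ^ (e / 2) * (x : ℝ) ^ (1 / 6 + e / 2) :=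
          mul_le_mul_of_nonneg_right f3 (by positivity)
      _ = (x : ℝ) ^ (1 / 6 + e) := by
          rw [← Real.rpow_add hx0]
          congr 1
          ring
      _ ≤ H := hH1
  · refine hH2.trans ?_
    calc (x : ℝ) ^ (1 / 4 : ℝ) = ((x : ℝ) ^ (3 / 4 : ℝ)) ^ (1 / 3 : ℝ) := by
          rw [← Real.rpow_mul hx0.le]
          norm_num
      _ ≤ (X : ℝ) ^ (1 / 3 : ℝ) := Real.rpow_le_rpow g3.le g2 (by norm_num)

private theorem Var_t1 {A B D K : ℕ} {x L M : ℝ} {H : ℕ} (hL : 1024 ≤ L) (hx1' : 1 ≤ x)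
    (hD : D = A + 2 * B + 4) (hK : K = 10 * A + 10 * B + 40) (f2 : L ^ K ≤ x ^ (1 / 8 : ℝ))
    (hMx : M ≤ x / L ^ D + 1) :
    M * (H * L ^ (B + 1)) ^ 2 ≤ (1 / 2) * (x * (H : ℝ) ^ 2 / L ^ A) := by
  have hL1 : 1 ≤ L := by linarith
  have hL0 : 0 < L := by linarith
  have hx0 : 0 < x := by linarith
  have h1 : M * L ^ (2 * B + 2) ≤ 2 * (x / L ^ (A + 2)) := by
    have h2 : x / L ^ D * L ^ (2 * B + 2) = x / L ^ (A + 2) := by
      rw [hD, show A + 2 * B + 4 = (A + 2) + (2 * B + 2) by ring, pow_add L (A + 2) (2 * B + 2)]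
      field_simp
    have h3 : L ^ (2 * B + 2) ≤ x / L ^ (A + 2) := by
      rw [le_div_iff₀ (by positivity), ← pow_add]
      calc L ^ (2 * B + 2 + (A + 2)) ≤ L ^ K := pow_le_pow_right₀ hL1 (by omega)
        _ ≤ x ^ (1 / 8 : ℝ) := f2
        _ ≤ x ^ (1 : ℝ) := Real.rpow_le_rpow_of_exponent_le hx1' (by norm_num)
        _ = x := Real.rpow_one _
    calc M * L ^ (2 * B + 2) ≤ (x / L ^ D + 1) * L ^ (2 * B + 2) :=
          mul_le_mul_of_nonneg_right hMx (by positivity)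
      _ = x / L ^ D * L ^ (2 * B + 2) + L ^ (2 * B + 2) := by ring
      _ ≤ _ := by rw [h2]; linarith
  have h4 : x / L ^ (A + 2) ≤ (1 / 4) * (x / L ^ A) := by
    have h5 : x / L ^ (A + 2) = x / L ^ A * (1 / L ^ 2) := by
      rw [pow_add]
      field_simp
    rw [h5, mul_comm]
    refine mul_le_mul_of_nonneg_right ?_ (by positivity)
    refine div_le_div_of_nonneg_left (by norm_num) (by norm_num) ?_
    nlinarith
  calc M * (H * L ^ (B + 1)) ^ 2 = (M * L ^ (2 * B + 2)) * (H : ℝ) ^ 2 := by ring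
    _ ≤ (2 * ((1 / 4) * (x / L ^ A))) * (H : ℝ) ^ 2 := by
        refine mul_le_mul_of_nonneg_right ?_ (by positivity)
        linarith
    _ = _ := by ring

private theorem Var_t2 {A B E : ℕ} {x L I : ℝ} {H : ℕ} (hL : 1024 ≤ L) (hx0 : 0 < x)
    (hE : E = A + B + 2) (hI : I ≤ L) :
    I * (L ^ B * (9 * x * ((H : ℝ) ^ 2 / L ^ E))) ≤ (1 / 2) * (x * (H : ℝ) ^ 2 / L ^ A) := by
  have hL0 : 0 < L := by linarith
  have h1 : I * (L ^ B * (9 * x * ((H : ℝ) ^ 2 / L ^ E))) ≤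
      L * (L ^ B * (9 * x * ((H : ℝ) ^ 2 / L ^ E))) :=
    mul_le_mul_of_nonneg_right hI (by positivity)
  refine h1.trans ?_
  have h2 : L * (L ^ B * (9 * x * ((H : ℝ) ^ 2 / L ^ E))) =
      9 * (x * (H : ℝ) ^ 2 / L ^ A) * (1 / L) := by
    rw [hE, show A + B + 2 = A + B + 1 + 1 by ring, pow_add L (A + B + 1) 1,
      pow_add L (A + B) 1, pow_add L A B]
    field_simp
  rw [h2]
  have h3 : 1 / L ≤ 1 / 18 := div_le_div_of_nonneg_left (by norm_num) (by norm_num) (by linarith)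
  have h4 : 0 ≤ 9 * (x * (H : ℝ) ^ 2 / L ^ A) := by positivity
  nlinarith

/-- the number of dyadic blocks -/
private theorem Var_two {x : ℕ} {L : ℝ} (hL : Real.log x = L) (hL1 : 1 ≤ L) (hx : 1 ≤ x) :
    (x : ℝ) ^ (1 / 2 : ℝ) / 2 ≤ (2 : ℝ) ^ ⌊L⌋₊ := by
  have hx0 : (0 : ℝ) < x := by exact_mod_cast hx
  have h1 : L - 1 ≤ ⌊L⌋₊ := (Nat.sub_one_lt_floor L).le
  have h2 : (2 : ℝ) ^ (L - 1) ≤ (2 : ℝ) ^ ((⌊L⌋₊ : ℕ) : ℝ) :=
    Real.rpow_le_rpow_of_exponent_le (by norm_num) h1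
  rw [Real.rpow_natCast] at h2
  refine le_trans ?_ h2
  rw [Real.rpow_sub (by norm_num), Real.rpow_one]
  refine div_le_div_of_nonneg_right ?_ (by norm_num)
  rw [Real.rpow_def_of_pos hx0, Real.rpow_def_of_pos (by norm_num : (0 : ℝ) < 2), hL]
  refine Real.exp_le_exp.2 ?_
  have h6 : (1 / 2 : ℝ) ≤ Real.log 2 := by
    have := Real.log_two_gt_d9
    linarith
  nlinarith

theorem var (hH : HuxProp) (e : ℝ) (he : 0 < e) (B : ℕ) (hB : 1 ≤ B) (A : ℕ) : ∃ x0 : ℕ,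
    ∀ x : ℕ, x0 ≤ x → ∀ d H : ℕ, 1 ≤ d → (d : ℝ) ≤ Real.log x ^ B →
      (x : ℝ) ^ (1 / 6 + e) ≤ H → (H : ℝ) ≤ (x : ℝ) ^ (1 / 4 : ℝ) →
      ∑ w ∈ range (9 * x), Wd (hR ⌊Real.log x ^ B⌋₊) d H w ^ 2
        ≤ x * (H : ℝ) ^ 2 / Real.log x ^ A := by
  set E := A + B + 2 with hE
  set D := A + 2 * B + 4 with hD
  set K := 10 * A + 10 * B + 40 with hK
  obtain ⟨X0, hX0⟩ := hH (e / 2) (by positivity) (E + 1) (B + 1)
  obtain ⟨x1, hx1⟩ := hR_bd B hB
  have hev : ∀ᶠ x : ℕ in Filter.atTop, 2 ^ (E + B + 10) ≤ Real.log x ∧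
      Real.log x ^ K ≤ (x : ℝ) ^ (1 / 8 : ℝ) ∧
      (9 : ℝ) ^ (1 / 6 + e / 2) ≤ (x : ℝ) ^ (e / 2) ∧ (X0 : ℝ) ≤ (x : ℝ) ^ (3 / 4 : ℝ) ∧
      19 ≤ x ∧ x1 ≤ x := by
    filter_upwards [Var_L (2 ^ (E + B + 10)), Var_log K (show (0 : ℝ) < 1 / 8 by norm_num),
      Var_pow ((9 : ℝ) ^ (1 / 6 + e / 2)) (show (0 : ℝ) < e / 2 by positivity),
      Var_pow (X0 : ℝ) (show (0 : ℝ) < 3 / 4 by norm_num), Filter.eventually_ge_atTop 19,
      Filter.eventually_ge_atTop x1] with x a1 a2 a3 a4 a5 a6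
    exact ⟨a1, a2, a3, a4, a5, a6⟩
  obtain ⟨x0, hx0⟩ := Filter.eventually_atTop.1 hev
  refine ⟨x0, fun x hx d H hd hdL hH1 hH2 => ?_⟩
  obtain ⟨f1, f2, f3, f4, f5, f6⟩ := hx0 x hx
  have hbd := hx1 x f6
  obtain ⟨L, hL⟩ : ∃ L, Real.log x = L := ⟨_, rfl⟩
  rw [hL] at f1 f2 hdL hbd ⊢
  set R := ⌊L ^ B⌋₊ with hRdef
  have hx19 : (19 : ℝ) ≤ x := by exact_mod_cast f5
  have hxpos : (0 : ℝ) < x := by linarith
  have hx1' : (1 : ℝ) ≤ x := by linarith
  have hL1024 : (1024 : ℝ) ≤ L := by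
    refine le_trans ?_ f1
    calc (1024 : ℝ) = 2 ^ 10 := by norm_num
      _ ≤ 2 ^ (E + B + 10) := pow_le_pow_right₀ (by norm_num) (by omega)
  have hL1 : 1 ≤ L := by linarith
  have hL0 : 0 < L := by linarith
  have hdR : d ≤ R := Nat.le_floor hdL
  have hRL : (R : ℝ) ≤ L ^ B := Nat.floor_le (by positivity)
  have hHx : (H : ℝ) ≤ x := by
    refine hH2.trans ?_
    calc (x : ℝ) ^ (1 / 4 : ℝ) ≤ (x : ℝ) ^ (1 : ℝ) :=
          Real.rpow_le_rpow_of_exponent_le hx1' (by norm_num)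
      _ = x := Real.rpow_one _
  have hHx' : H ≤ x := by exact_mod_cast hHx
  -- `H ^ 2` is large
  have hHK : L ^ K ≤ (H : ℝ) ^ 2 := by
    calc L ^ K ≤ (x : ℝ) ^ (1 / 8 : ℝ) := f2
      _ ≤ (x : ℝ) ^ (1 / 3 + 2 * e) :=
          Real.rpow_le_rpow_of_exponent_le hx1' (by linarith)
      _ = ((x : ℝ) ^ (1 / 6 + e)) ^ 2 := by
          rw [← Real.rpow_natCast, ← Real.rpow_mul hxpos.le]
          congr 1
          push_cast
          ring
      _ ≤ (H : ℝ) ^ 2 := pow_le_pow_left₀ (by positivity) hH1 2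
  set T : ℝ := (H : ℝ) ^ 2 / L ^ E with hT
  have hT0 : 0 ≤ T := by positivity
  have hTK : L ^ (6 * B + 5) ≤ T := by
    rw [hT, le_div_iff₀ (by positivity), ← pow_add]
    refine le_trans ?_ hHK
    exact pow_le_pow_right₀ hL1 (by omega)
  have hL6 : (R : ℝ) ^ 6 ≤ L ^ (6 * B) := by
    calc (R : ℝ) ^ 6 ≤ (L ^ B) ^ 6 := pow_le_pow_left₀ (Nat.cast_nonneg R) hRL 6
      _ = L ^ (6 * B) := by rw [← pow_mul, mul_comm]
  have hR6 : 8 * (R : ℝ) ^ 6 ≤ T / 2 := by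
    have h1 : 16 * L ^ (6 * B) ≤ L ^ (6 * B + 5) := by
      rw [pow_add]
      have h2 : (16 : ℝ) ≤ L ^ 5 := by
        calc (16 : ℝ) ≤ L ^ 1 := by rw [pow_one]; linarith
          _ ≤ L ^ 5 := pow_le_pow_right₀ hL1 (by norm_num)
      have h3 : 0 ≤ L ^ (6 * B) := by positivity
      nlinarith
    linarith
  set Q : ℝ := d * (2 * Real.log (19 * x : ℕ)) * Real.log (19 * x : ℕ) with hQdef
  have hlog19 : Real.log (19 * x : ℕ) ≤ 2 * L := by
    push_cast
    rw [Real.log_mul (by norm_num) (by positivity), hL]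
    have : Real.log 19 ≤ Real.log x := Real.log_le_log (by norm_num) hx19
    linarith
  have hlog19' : 0 ≤ Real.log (19 * x : ℕ) := Real.log_natCast_nonneg _
  have hQ : (Q + 2 * (R : ℝ) ^ 3) ^ 2 ≤ T := by
    have h1 : Q ≤ 8 * L ^ (B + 2) := by
      rw [hQdef]
      calc (d : ℝ) * (2 * Real.log (19 * x : ℕ)) * Real.log (19 * x : ℕ)
          ≤ L ^ B * (2 * (2 * L)) * (2 * L) := by
            refine mul_le_mul (mul_le_mul hdL (by linarith) (by positivity) (by positivity))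
              hlog19 hlog19' (by positivity)
        _ = 8 * L ^ (B + 2) := by ring
    have h2 : (R : ℝ) ^ 3 ≤ L ^ (3 * B) := by
      calc (R : ℝ) ^ 3 ≤ (L ^ B) ^ 3 := pow_le_pow_left₀ (Nat.cast_nonneg R) hRL 3
        _ = L ^ (3 * B) := by rw [← pow_mul, mul_comm]
    have h3 : L ^ (B + 2) ≤ L ^ (3 * B + 2) := pow_le_pow_right₀ hL1 (by omega)
    have h4 : L ^ (3 * B) ≤ L ^ (3 * B + 2) := pow_le_pow_right₀ hL1 (by omega)
    have h5 : Q + 2 * (R : ℝ) ^ 3 ≤ 10 * L ^ (3 * B + 2) := by linarith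
    have h6 : 0 ≤ Q + 2 * (R : ℝ) ^ 3 := by positivity
    refine le_trans (pow_le_pow_left₀ h6 h5 2) (le_trans ?_ hTK)
    have h7 : (10 * L ^ (3 * B + 2)) ^ 2 = 100 * L ^ (6 * B + 4) := by ring
    have h8 : L ^ (6 * B + 5) = L * L ^ (6 * B + 4) := by ring
    rw [h7, h8]
    exact mul_le_mul_of_nonneg_right (by linarith) (by positivity)
  -- one block
  set M := ⌈(x : ℝ) / L ^ D⌉₊ with hM
  have hMle : (x : ℝ) / L ^ D ≤ M := Nat.le_ceil _
  have hblock : ∀ X, M ≤ X → X < 9 * x →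
      ∑ w ∈ Ico X (2 * X), Wd (hR R) d H w ^ 2 ≤ L ^ B * (9 * x * T) := by
    intro X hX1 hX2
    have hX1' : (x : ℝ) / L ^ D ≤ X := hMle.trans (by exact_mod_cast hX1)
    obtain ⟨g1, g2, g3, g4, g5⟩ := Var_num he hL hE hD hK f1 f2 f3 f5 hdL hH1 hH2 hX1' hX2
    have hX0X : X0 ≤ X := by exact_mod_cast f4.trans g1
    have hcls : ∀ u ∈ range d, ∑ w ∈ Ico X (2 * X), Var_S (hR R) d H u w ^ 2 ≤ X * T := by
      intro u _
      refine Var_class (Q := Q) hd hdR (fun hc => ?_) (fun hc w hw => ?_) hR6 hQ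
      · have h1 := hX0 X hX0X d u H hd g3 hc g4 g5
        refine (show _ ≤ _ from h1).trans ?_
        have h2 : 4 * L ^ E ≤ Real.log X ^ (E + 1) := by
          calc 4 * L ^ E ≤ (L / 2) ^ (E + 1) := by
                rw [div_pow, le_div_iff₀ (by positivity), pow_succ L E]
                have h3 : (4 : ℝ) * 2 ^ (E + 1) ≤ L := by
                  refine le_trans ?_ f1
                  calc (4 : ℝ) * 2 ^ (E + 1) = 2 ^ (E + 3) := by ring
                    _ ≤ 2 ^ (E + B + 10) := pow_le_pow_right₀ (by norm_num) (by omega)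
                have h4 : 0 ≤ L ^ E := by positivity
                nlinarith
            _ ≤ _ := pow_le_pow_left₀ (by positivity) g2 _
        have h3 : (X : ℝ) * (H : ℝ) ^ 2 / Real.log X ^ (E + 1) ≤
            (X : ℝ) * (H : ℝ) ^ 2 / (4 * L ^ E) :=
          div_le_div_of_nonneg_left (by positivity) (by positivity) h2
        refine h3.trans (le_of_eq ?_)
        rw [hT]
        field_simp
      · rw [hQdef]
        refine Var_noncop hd hc ?_
        rw [Finset.mem_Ico] at hw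
        omega
    calc ∑ w ∈ Ico X (2 * X), Wd (hR R) d H w ^ 2
        ≤ ∑ w ∈ Ico X (2 * X), ∑ u ∈ range d, Var_S (hR R) d H u w ^ 2 :=
          Finset.sum_le_sum fun w _ => Var_Wd_le _ hd H w
      _ = ∑ u ∈ range d, ∑ w ∈ Ico X (2 * X), Var_S (hR R) d H u w ^ 2 := Finset.sum_comm
      _ ≤ ∑ _u ∈ range d, (X : ℝ) * T := Finset.sum_le_sum hcls
      _ = d * (X * T) := by rw [Finset.sum_const, nsmul_eq_mul, Finset.card_range]
      _ ≤ L ^ B * (9 * x * T) := by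
          refine mul_le_mul hdL ?_ (by positivity) (by positivity)
          refine mul_le_mul_of_nonneg_right ?_ hT0
          exact_mod_cast hX2.le
  have hfin := Var_blocks (F := fun w => Wd (hR R) d H w ^ 2) (fun w => sq_nonneg _)
    (show 0 ≤ L ^ B * (9 * x * T) by positivity) hblock ⌊L⌋₊
  have hcover : 9 * x ≤ M * 2 ^ ⌊L⌋₊ := by
    have h1 := Var_two hL hL1 (by omega)
    have h2 : (18 : ℝ) * L ^ D ≤ (x : ℝ) ^ (1 / 2 : ℝ) := by
      calc (18 : ℝ) * L ^ D ≤ L * L ^ D := mul_le_mul_of_nonneg_right (by linarith) (by positivity)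
        _ = L ^ (D + 1) := by ring
        _ ≤ L ^ K := pow_le_pow_right₀ hL1 (by omega)
        _ ≤ (x : ℝ) ^ (1 / 8 : ℝ) := f2
        _ ≤ (x : ℝ) ^ (1 / 2 : ℝ) := Real.rpow_le_rpow_of_exponent_le hx1' (by norm_num)
    have h3 : (9 : ℝ) * x ≤ M * 2 ^ ⌊L⌋₊ := by
      calc (9 : ℝ) * x = (x : ℝ) / L ^ D * (9 * L ^ D) := by field_simp
        _ ≤ M * 2 ^ ⌊L⌋₊ := by
            refine mul_le_mul hMle ?_ (by positivity) (Nat.cast_nonneg M)
            linarith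
    exact_mod_cast h3
  rw [min_eq_left hcover] at hfin
  refine hfin.trans ?_
  -- the small windows
  have hMx : (M : ℝ) ≤ x / L ^ D + 1 := (Nat.ceil_lt_add_one (by positivity)).le
  have hMx2 : (M : ℝ) ≤ 2 * x := by
    have : (x : ℝ) / L ^ D ≤ x := div_le_self hxpos.le (one_le_pow₀ hL1)
    linarith
  have hMx3 : M ≤ 2 * x := by exact_mod_cast hMx2
  have hsmall : ∑ w ∈ range M, Wd (hR R) d H w ^ 2 ≤ M * (H * L ^ (B + 1)) ^ 2 := by
    calc ∑ w ∈ range M, Wd (hR R) d H w ^ 2 ≤ ∑ _w ∈ range M, (H * L ^ (B + 1)) ^ 2 := by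
          refine Finset.sum_le_sum fun w hw => ?_
          rw [Finset.mem_range] at hw
          rw [← sq_abs]
          refine pow_le_pow_left₀ (abs_nonneg _) ?_ 2
          unfold Wd
          calc |∑ n ∈ (Ioc w (w + H)).filter (fun n => n ≡ w [MOD d]), hR R n|
              ≤ ∑ n ∈ (Ioc w (w + H)).filter (fun n => n ≡ w [MOD d]), |hR R n| :=
                Finset.abs_sum_le_sum_abs _ _
            _ ≤ ∑ _n ∈ (Ioc w (w + H)).filter (fun n => n ≡ w [MOD d]), L ^ (B + 1) := by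
                refine Finset.sum_le_sum fun n hn => ?_
                rw [Finset.mem_filter, Finset.mem_Ioc] at hn
                exact hbd n (by omega)
            _ = (((Ioc w (w + H)).filter (fun n => n ≡ w [MOD d])).card : ℝ) * L ^ (B + 1) := by
                rw [Finset.sum_const, nsmul_eq_mul]
            _ ≤ H * L ^ (B + 1) := by
                refine mul_le_mul_of_nonneg_right ?_ (by positivity)
                have h1 := Finset.card_filter_le (Ioc w (w + H)) (fun n => n ≡ w [MOD d])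
                rw [Nat.card_Ioc, Nat.add_sub_cancel_left] at h1
                exact_mod_cast h1
      _ = M * (H * L ^ (B + 1)) ^ 2 := by
          rw [Finset.sum_const, nsmul_eq_mul, Finset.card_range]
  have hLfl : (⌊L⌋₊ : ℝ) ≤ L := Nat.floor_le hL0.le
  have t1 := Var_t1 (H := H) hL1024 hx1' hD hK f2 hMx
  have t2 := Var_t2 (H := H) hL1024 hxpos hE hLfl
  rw [← hT] at t2
  linarith

end Pool.Agent.H91.L1
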