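import Mathlib
import Pool.Agent.H91.L1.Var
import Pool.Agent.H91.L1.PairG

/-!
# L1 Pair: the pair sums

`TT_eq`: `fz(a + q k) ≠ 0` only if `n = a + q k ≥ 1`; then `n ≤ N`, `a = n - q k`, and `a + q (k + d) = n + q d ≥ 1`.
`pair`: Cauchy, `TT² ≤ (∑_{n ≤ N} hR²)(∑_{n ≤ N} GG²)`, `N = 4x`.  First factor `≤ (4x + L^(2B)) L^4 ≤ 5 x L^4` (`hsq`).  Second factor:
`pairG` with `M = L^(B+1)` (`hR_bd`; `N + 2Qd ≤ 7x` since `2d ≤ |k|`, `2Q|k| ≤ 3x`), windows of length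
`H'' = ⌊H/κ⌋ d ∈ [x^(1/6+e/2), x^(1/4)]` (`⌊H/κ⌋ ≥ x^(1/6+e) - 1`), `var` with `e/2` and `A' = 2A + 2B + 10`:
`≤ 6 x (H d/κ)² / L^(A') + 8 x L^(2B+2) + 8 H (H/κ)² L^(2B+2)`, and `d ≤ L^B`, `H/κ ≥ x^(1/6)`, `H ≤ x^(1/2)`.
-/

set_option autoImplicit false

namespace Pool.Agent.H91.L1

open Finset
open Pool.Agent.H91.EHA (Lam lamR hR psiA err)

private lemma pair_ev (p : ℕ) (δ C : ℝ) (hδ : 0 < δ) (hC : 0 < C) : ∃ x0 : ℕ, ∀ x : ℕ, x0 ≤ x →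
    C * Real.log x ^ p ≤ (x : ℝ) ^ δ := by
  have h := isLittleO_log_rpow_rpow_atTop (p : ℝ) hδ
  have h1 := h.bound (show (0 : ℝ) < 1 / C by positivity)
  have h2 : ∀ᶠ n : ℕ in Filter.atTop, ‖Real.log (n : ℝ) ^ (p : ℝ)‖ ≤ 1 / C * ‖((n : ℝ)) ^ δ‖ :=
    tendsto_natCast_atTop_atTop.eventually h1
  obtain ⟨x0, hx0⟩ := Filter.eventually_atTop.mp h2
  refine ⟨x0, fun x hx => ?_⟩
  have h3 := hx0 x hx
  rw [Real.rpow_natCast] at h3
  have h4 : Real.log (x : ℝ) ^ p ≤ 1 / C * (x : ℝ) ^ δ := by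
    calc Real.log (x : ℝ) ^ p ≤ ‖Real.log (x : ℝ) ^ p‖ := le_abs_self _
      _ ≤ 1 / C * ‖(x : ℝ) ^ δ‖ := h3
      _ = 1 / C * (x : ℝ) ^ δ := by
        rw [Real.norm_of_nonneg (Real.rpow_nonneg (Nat.cast_nonneg x) δ)]
  calc C * Real.log x ^ p ≤ C * (1 / C * (x : ℝ) ^ δ) := mul_le_mul_of_nonneg_left h4 hC.le
    _ = (x : ℝ) ^ δ := by field_simp

private lemma pair_log (c : ℝ) : ∃ x0 : ℕ, ∀ x : ℕ, x0 ≤ x → c ≤ Real.log x := by
  have h : Filter.Tendsto (fun n : ℕ => Real.log (n : ℝ)) Filter.atTop Filter.atTop :=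
    Real.tendsto_log_atTop.comp tendsto_natCast_atTop_atTop
  obtain ⟨x0, hx0⟩ := Filter.eventually_atTop.mp (h.eventually_ge_atTop c)
  exact ⟨x0, hx0⟩

theorem TT_eq (R a0 H Q N d : ℕ) (k : ℤ)
    (hN : ∀ q ∈ Ioc Q (2 * Q), ∀ a ∈ Ioc a0 (a0 + H), (a : ℤ) + q * k ≤ N) :
    TT R a0 H Q k (k + d) = ∑ n ∈ Icc 1 N, hR R n * GG (hR R) a0 H Q d k n := by
  unfold GG TT
  have e1 : ∑ n ∈ Icc 1 N, hR R n * ∑ q ∈ (Ioc Q (2 * Q)).filter
      (fun q : ℕ => (a0 : ℤ) < (n : ℤ) - q * k ∧ (n : ℤ) - q * k ≤ a0 + H), hR R (n + q * d)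
      = ∑ q ∈ Ioc Q (2 * Q), ∑ n ∈ (Icc 1 N).filter
        (fun n : ℕ => (a0 : ℤ) < (n : ℤ) - q * k ∧ (n : ℤ) - q * k ≤ a0 + H),
          hR R n * hR R (n + q * d) := by
    simp_rw [Finset.mul_sum, Finset.sum_filter]
    rw [Finset.sum_comm]
  rw [e1]
  apply Finset.sum_congr rfl
  intro q hq
  have e2 : ∑ a ∈ Ioc a0 (a0 + H), fz R ((a : ℤ) + q * k) * fz R ((a : ℤ) + q * (k + d))
      = ∑ a ∈ (Ioc a0 (a0 + H)).filter (fun a : ℕ => 1 ≤ (a : ℤ) + q * k),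
        fz R ((a : ℤ) + q * k) * fz R ((a : ℤ) + q * (k + d)) := by
    symm
    apply Finset.sum_filter_of_ne
    intro a _ ha
    by_contra hc
    apply ha
    unfold fz
    rw [if_neg hc, zero_mul]
  rw [e2]
  apply Finset.sum_nbij' (fun a : ℕ => ((a : ℤ) + q * k).toNat)
    (fun n : ℕ => ((n : ℤ) - q * k).toNat)
  · intro a ha
    rw [mem_filter] at ha
    obtain ⟨h1, h2⟩ := ha
    have h3 := hN q hq a h1
    rw [mem_Ioc] at h1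
    have h5 : ((((a : ℤ) + q * k).toNat : ℕ) : ℤ) = (a : ℤ) + q * k :=
      Int.toNat_of_nonneg (by linarith)
    rw [mem_filter, mem_Icc, h5]
    omega
  · intro n hn
    rw [mem_filter, mem_Icc] at hn
    have h0 : (0 : ℤ) ≤ a0 := Int.natCast_nonneg a0
    have h5 : ((((n : ℤ) - q * k).toNat : ℕ) : ℤ) = (n : ℤ) - q * k :=
      Int.toNat_of_nonneg (by linarith [hn.2.1])
    rw [mem_filter, mem_Ioc, h5]
    omega
  · intro a ha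
    rw [mem_filter] at ha
    obtain ⟨h1, h2⟩ := ha
    have h5 : ((((a : ℤ) + q * k).toNat : ℕ) : ℤ) = (a : ℤ) + q * k :=
      Int.toNat_of_nonneg (by linarith)
    show (((((a : ℤ) + q * k).toNat : ℕ) : ℤ) - q * k).toNat = a
    rw [h5]
    have : (a : ℤ) + q * k - q * k = a := by ring
    rw [this, Int.toNat_natCast]
  · intro n hn
    rw [mem_filter, mem_Icc] at hn
    have h0 : (0 : ℤ) ≤ a0 := Int.natCast_nonneg a0
    have h5 : ((((n : ℤ) - q * k).toNat : ℕ) : ℤ) = (n : ℤ) - q * k :=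
      Int.toNat_of_nonneg (by linarith [hn.2.1])
    show (((((n : ℤ) - q * k).toNat : ℕ) : ℤ) + q * k).toNat = n
    rw [h5]
    have : (n : ℤ) - q * k + q * k = n := by ring
    rw [this, Int.toNat_natCast]
  · intro a ha
    rw [mem_filter] at ha
    obtain ⟨h1, h2⟩ := ha
    have h5 : ((((a : ℤ) + q * k).toNat : ℕ) : ℤ) = (a : ℤ) + q * k :=
      Int.toNat_of_nonneg (by linarith)
    have h6 : (a : ℤ) + q * (k + d) = ((((a : ℤ) + q * k).toNat + q * d : ℕ) : ℤ) := by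
      push_cast
      rw [h5]
      ring
    have h7 : (1 : ℤ) ≤ ((((a : ℤ) + q * k).toNat + q * d : ℕ) : ℤ) := by
      push_cast
      rw [h5]
      have : (0 : ℤ) ≤ (q : ℤ) * d := by positivity
      linarith
    rw [h6]
    unfold fz
    rw [if_pos h2, if_pos h7, Int.toNat_natCast]

theorem pair (hH : HuxProp) (e : ℝ) (he : 0 < e) (B : ℕ) (hB : 1 ≤ B) (A : ℕ) : ∃ x0 : ℕ,
    ∀ x : ℕ, x0 ≤ x → ∀ a0 H Q d : ℕ, ∀ k : ℤ, a0 + H ≤ x → 1 ≤ d → (d : ℝ) ≤ Real.log x ^ B →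
      2 * (d : ℤ) ≤ |k| → (2 * Q : ℤ) * |k| ≤ 3 * x → (H : ℝ) ≤ (x : ℝ) ^ (1 / 2 : ℝ) →
      (k.natAbs : ℝ) * (x : ℝ) ^ (1 / 6 + e) ≤ H →
      (H : ℝ) * Real.log x ^ B ≤ (k.natAbs : ℝ) * (x : ℝ) ^ (1 / 4 : ℝ) →
      |TT ⌊Real.log x ^ B⌋₊ a0 H Q k (k + d)| ≤ x * ((H : ℝ) / k.natAbs) / Real.log x ^ A := by
  obtain ⟨x1, h1⟩ := hR_bd B hB
  obtain ⟨x2, h2⟩ := hsq B hB
  obtain ⟨x3, h3⟩ := var hH (e / 2) (by linarith) B hB (2 * A + 2 * B + 10)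
  obtain ⟨x4, h4⟩ := pair_log 100
  obtain ⟨x5, h5⟩ := pair_ev (2 * A + 2 * B + 6) (1 / 3) 120 (by norm_num) (by norm_num)
  obtain ⟨x6, h6⟩ := pair_ev (2 * B) 1 1 (by norm_num) (by norm_num)
  obtain ⟨x7, h7⟩ := pair_ev 1 (e / 2) 1 (by linarith) (by norm_num)
  refine ⟨max (max (max x1 x2) (max x3 x4)) (max (max x5 x6) (max x7 1)), ?_⟩
  intro x hx a0 H Q d k haH hd hdL hdk hQk hHx hHlo hHhi
  simp only [max_le_iff] at hx
  obtain ⟨⟨⟨hx1, hx2⟩, hx3, hx4⟩, ⟨hx5, hx6⟩, hx7, hx8⟩ := hx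
  set L := Real.log x with hL
  set R := ⌊L ^ B⌋₊ with hR'
  have hL100 : 100 ≤ L := h4 x hx4
  have hL0 : 0 < L := by linarith
  have hx0 : (0 : ℝ) < x := by exact_mod_cast hx8
  have hx1R : (1 : ℝ) ≤ x := by exact_mod_cast hx8
  have hdZ : (1 : ℤ) ≤ d := by exact_mod_cast hd
  have hkpos : 0 < |k| := by linarith
  have hkN : ((k.natAbs : ℕ) : ℤ) = |k| := (Int.abs_eq_natAbs k).symm
  have hkNpos : 0 < k.natAbs := by omega
  have hkR : (0 : ℝ) < k.natAbs := by exact_mod_cast hkNpos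
  set K := k.natAbs with hKdef
  set Y : ℝ := (H : ℝ) / K with hY
  have hYlo : (x : ℝ) ^ (1 / 6 + e) ≤ Y := by
    rw [hY, le_div_iff₀ hkR, mul_comm]
    exact hHlo
  have hYhi : Y * L ^ B ≤ (x : ℝ) ^ (1 / 4 : ℝ) := by
    rw [hY, div_mul_eq_mul_div, div_le_iff₀ hkR, mul_comm ((x : ℝ) ^ (1 / 4 : ℝ))]
    exact hHhi
  have hY6 : (x : ℝ) ^ (1 / 6 : ℝ) ≤ Y :=
    (Real.rpow_le_rpow_of_exponent_le hx1R (by linarith)).trans hYlo
  have hY1 : 1 ≤ Y := (Real.one_le_rpow hx1R (by norm_num)).trans hY6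
  have hY0 : 0 < Y := by linarith
  -- N
  have hN : ∀ q ∈ Ioc Q (2 * Q), ∀ a ∈ Ioc a0 (a0 + H), (a : ℤ) + q * k ≤ (4 * x : ℕ) := by
    intro q hq a ha
    rw [mem_Ioc] at hq ha
    have ha' : (a : ℤ) ≤ x := by exact_mod_cast ha.2.trans haH
    have hq' : (q : ℤ) ≤ 2 * Q := by exact_mod_cast hq.2
    have hq0 : (0 : ℤ) ≤ q := Int.natCast_nonneg q
    have c1 : (q : ℤ) * k ≤ q * |k| := mul_le_mul_of_nonneg_left (le_abs_self k) hq0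
    have c2 : (q : ℤ) * |k| ≤ 2 * Q * |k| := mul_le_mul_of_nonneg_right hq' hkpos.le
    push_cast
    linarith
  have hNQ : 4 * x + 2 * Q * d + 1 ≤ 9 * x := by
    have c1 : (2 * (d : ℤ)) * Q ≤ |k| * Q := mul_le_mul_of_nonneg_right hdk (Int.natCast_nonneg Q)
    have c3 : ((2 * Q * d : ℕ) : ℤ) = (2 * (d : ℤ)) * Q := by push_cast; ring
    have c2 : (2 : ℤ) * ((2 * Q * d : ℕ) : ℤ) ≤ 3 * x := by
      rw [c3]; nlinarith
    omega
  rw [TT_eq R a0 H Q (4 * x) d k hN]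
  -- Cauchy
  have hCS := Finset.sum_mul_sq_le_sq_mul_sq (Icc 1 (4 * x)) (fun n => hR R n)
    (fun n => GG (hR R) a0 H Q d k n)
  have hF1 : ∑ n ∈ Icc 1 (4 * x), hR R n ^ 2 ≤ 5 * x * L ^ 4 := by
    have c1 := h2 x hx2 0 (4 * x) (by omega)
    have c2 : Ioc 0 (0 + 4 * x) = Icc 1 (4 * x) := by
      ext n
      rw [mem_Ioc, mem_Icc]
      omega
    rw [c2] at c1
    refine c1.trans ?_
    have c3 := h6 x hx6
    rw [Real.rpow_one, one_mul] at c3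
    push_cast
    apply mul_le_mul_of_nonneg_right _ (by positivity)
    linarith
  -- second factor
  set m := H / K with hm
  have hmY : (m : ℝ) ≤ Y := Nat.cast_div_le
  have hmY2 : Y < m + 1 := by
    rw [hY, hm, div_lt_iff₀ hkR]
    have c1 := Nat.div_add_mod H K
    have c2 := Nat.mod_lt H hkNpos
    have c3 : H < (H / K + 1) * K := by
      rw [add_mul, one_mul, mul_comm]
      omega
    exact_mod_cast c3
  have hM : ∀ n : ℕ, n ≤ 4 * x + 2 * Q * d → |hR R n| ≤ L ^ (B + 1) := by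
    intro n hn
    exact h1 x hx1 n (by omega)
  have hF2 := pairG (hR R) (L ^ (B + 1)) (4 * x) a0 H Q d k hd hdk (by positivity) hM
  have hdR : (1 : ℝ) ≤ d := by exact_mod_cast hd
  have hvar : ∑ w ∈ range (4 * x + 2 * Q * d + 1), Wd (hR R) d (m * d) w ^ 2
      ≤ x * (Y * L ^ B) ^ 2 / L ^ (2 * A + 2 * B + 10) := by
    have c1 : ∑ w ∈ range (4 * x + 2 * Q * d + 1), Wd (hR R) d (m * d) w ^ 2
        ≤ ∑ w ∈ range (9 * x), Wd (hR R) d (m * d) w ^ 2 := by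
      apply Finset.sum_le_sum_of_subset_of_nonneg
      · exact Finset.range_subset_range.mpr hNQ
      · intro _ _ _
        positivity
    have hmd : ((m * d : ℕ) : ℝ) ≤ Y * L ^ B := by
      push_cast
      exact mul_le_mul hmY hdL (by linarith) hY0.le
    have hmd2 : (x : ℝ) ^ (1 / 6 + e / 2) ≤ ((m * d : ℕ) : ℝ) := by
      have c2 : (x : ℝ) ^ (1 / 6 + e / 2) + 1 ≤ (x : ℝ) ^ (1 / 6 + e) := by
        have c3 : (x : ℝ) ^ (1 / 6 + e) = (x : ℝ) ^ (1 / 6 + e / 2) * (x : ℝ) ^ (e / 2) := by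
          rw [← Real.rpow_add hx0]
          congr 1
          ring
        have c4 : L ≤ (x : ℝ) ^ (e / 2) := by
          have := h7 x hx7
          rw [pow_one, one_mul] at this
          exact this
        have c5 : (1 : ℝ) ≤ (x : ℝ) ^ (1 / 6 + e / 2) := Real.one_le_rpow hx1R (by linarith)
        rw [c3]
        nlinarith
      push_cast
      have c6 : (x : ℝ) ^ (1 / 6 + e / 2) ≤ m := by linarith
      have c7 : (0 : ℝ) ≤ m := Nat.cast_nonneg m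
      nlinarith
    refine c1.trans ((h3 x hx3 d (m * d) hd hdL hmd2 (hmd.trans hYhi)).trans ?_)
    apply div_le_div_of_nonneg_right _ (by positivity)
    apply mul_le_mul_of_nonneg_left _ hx0.le
    exact pow_le_pow_left₀ (Nat.cast_nonneg _) hmd 2
  have hF2' : ∑ n ∈ Icc 1 (4 * x), GG (hR R) a0 H Q d k n ^ 2
      ≤ 6 * (x * (Y * L ^ B) ^ 2 / L ^ (2 * A + 2 * B + 10)) + 8 * x * (L ^ (B + 1)) ^ 2
        + 8 * (x : ℝ) ^ (1 / 2 : ℝ) * Y ^ 2 * (L ^ (B + 1)) ^ 2 := by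
    refine hF2.trans ?_
    have c1 : 2 * (H : ℝ) * ((m : ℝ) + 1) ^ 2 * (L ^ (B + 1)) ^ 2
        ≤ 8 * (x : ℝ) ^ (1 / 2 : ℝ) * Y ^ 2 * (L ^ (B + 1)) ^ 2 := by
      apply mul_le_mul_of_nonneg_right _ (by positivity)
      have c2 : ((m : ℝ) + 1) ^ 2 ≤ 4 * Y ^ 2 := by
        have : (m : ℝ) + 1 ≤ 2 * Y := by linarith
        calc ((m : ℝ) + 1) ^ 2 ≤ (2 * Y) ^ 2 := pow_le_pow_left₀ (by positivity) this 2
          _ = 4 * Y ^ 2 := by ring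
      calc 2 * (H : ℝ) * ((m : ℝ) + 1) ^ 2 ≤ 2 * (x : ℝ) ^ (1 / 2 : ℝ) * (4 * Y ^ 2) := by
            apply mul_le_mul _ c2 (by positivity) (by positivity)
            linarith
        _ = 8 * (x : ℝ) ^ (1 / 2 : ℝ) * Y ^ 2 := by ring
    have c3 : 2 * ((4 * x : ℕ) : ℝ) * (L ^ (B + 1)) ^ 2 = 8 * x * (L ^ (B + 1)) ^ 2 := by
      push_cast; ring
    rw [c3]
    linarith
  -- final inequality
  have hfin : (∑ n ∈ Icc 1 (4 * x), hR R n * GG (hR R) a0 H Q d k n) ^ 2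
      ≤ (x * Y / L ^ A) ^ 2 := by
    refine hCS.trans ?_
    have hG0 : 0 ≤ ∑ n ∈ Icc 1 (4 * x), GG (hR R) a0 H Q d k n ^ 2 :=
      Finset.sum_nonneg (fun _ _ => sq_nonneg _)
    refine (mul_le_mul hF1 hF2' hG0 (by positivity)).trans ?_
    -- the three terms
    have t1 : 5 * (x : ℝ) * L ^ 4 * (6 * (x * (Y * L ^ B) ^ 2 / L ^ (2 * A + 2 * B + 10)))
        ≤ (x * Y / L ^ A) ^ 2 / 3 := by
      have c1 : L ^ (2 * A + 2 * B + 10) = (L ^ A) ^ 2 * (L ^ B) ^ 2 * L ^ 4 * L ^ 6 := by ring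
      rw [c1]
      have hLA : 0 < L ^ A := by positivity
      have hLB : 0 < L ^ B := by positivity
      have c2 : 5 * (x : ℝ) * L ^ 4 * (6 * (x * (Y * L ^ B) ^ 2
          / ((L ^ A) ^ 2 * (L ^ B) ^ 2 * L ^ 4 * L ^ 6))) = (x * Y / L ^ A) ^ 2 * (30 / L ^ 6) := by
        field_simp
        ring
      rw [c2]
      have c3 : 30 / L ^ 6 ≤ 1 / 3 := by
        rw [div_le_div_iff₀ (by positivity) (by norm_num)]
        have : L ≤ L ^ 6 := le_self_pow₀ (by linarith) (by norm_num)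
        linarith
      have c4 := mul_le_mul_of_nonneg_left c3 (sq_nonneg (x * Y / L ^ A))
      linarith
    have hP := h5 x hx5
    have hP' : 120 * (L ^ A) ^ 2 * (L ^ (B + 1)) ^ 2 * L ^ 4 ≤ (x : ℝ) ^ (1 / 3 : ℝ) := by
      refine le_trans (le_of_eq ?_) hP
      ring
    have t2 : 5 * (x : ℝ) * L ^ 4 * (8 * x * (L ^ (B + 1)) ^ 2)
        ≤ (x * Y / L ^ A) ^ 2 / 3 := by
      have hLA : 0 < L ^ A := by positivity
      have c1 : (x * Y / L ^ A) ^ 2 / 3 = x ^ 2 * Y ^ 2 / (3 * (L ^ A) ^ 2) := by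
        field_simp
      rw [c1, le_div_iff₀ (by positivity)]
      have c2 : (x : ℝ) ^ (1 / 3 : ℝ) ≤ Y ^ 2 := by
        have : (x : ℝ) ^ (1 / 3 : ℝ) = ((x : ℝ) ^ (1 / 6 : ℝ)) ^ 2 := by
          rw [← Real.rpow_natCast, ← Real.rpow_mul hx0.le]
          norm_num
        rw [this]
        exact pow_le_pow_left₀ (by positivity) hY6 2
      have c3 : 5 * (x : ℝ) * L ^ 4 * (8 * x * (L ^ (B + 1)) ^ 2) * (3 * (L ^ A) ^ 2)
          = x ^ 2 * (120 * (L ^ A) ^ 2 * (L ^ (B + 1)) ^ 2 * L ^ 4) := by ring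
      rw [c3]
      exact mul_le_mul_of_nonneg_left (hP'.trans c2) (by positivity)
    have t3 : 5 * (x : ℝ) * L ^ 4 * (8 * (x : ℝ) ^ (1 / 2 : ℝ) * Y ^ 2 * (L ^ (B + 1)) ^ 2)
        ≤ (x * Y / L ^ A) ^ 2 / 3 := by
      have hLA : 0 < L ^ A := by positivity
      have c1 : (x * Y / L ^ A) ^ 2 / 3 = x ^ 2 * Y ^ 2 / (3 * (L ^ A) ^ 2) := by
        field_simp
      rw [c1, le_div_iff₀ (by positivity)]
      have c2 : (x : ℝ) ^ (1 / 3 : ℝ) ≤ (x : ℝ) ^ (1 / 2 : ℝ) :=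
        Real.rpow_le_rpow_of_exponent_le hx1R (by norm_num)
      have c4 : (x : ℝ) ^ (1 / 2 : ℝ) * (x : ℝ) ^ (1 / 2 : ℝ) = x := by
        rw [← Real.rpow_add hx0]
        norm_num
      have c3 : 5 * (x : ℝ) * L ^ 4 * (8 * (x : ℝ) ^ (1 / 2 : ℝ) * Y ^ 2 * (L ^ (B + 1)) ^ 2)
          * (3 * (L ^ A) ^ 2)
          = x * Y ^ 2 * ((x : ℝ) ^ (1 / 2 : ℝ) * (120 * (L ^ A) ^ 2 * (L ^ (B + 1)) ^ 2 * L ^ 4)) := by
        ring
      rw [c3]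
      have c5 : (x : ℝ) ^ (1 / 2 : ℝ) * (120 * (L ^ A) ^ 2 * (L ^ (B + 1)) ^ 2 * L ^ 4) ≤ x := by
        calc (x : ℝ) ^ (1 / 2 : ℝ) * (120 * (L ^ A) ^ 2 * (L ^ (B + 1)) ^ 2 * L ^ 4)
            ≤ (x : ℝ) ^ (1 / 2 : ℝ) * (x : ℝ) ^ (1 / 2 : ℝ) :=
              mul_le_mul_of_nonneg_left (hP'.trans c2) (by positivity)
          _ = x := c4
      calc x * Y ^ 2 * ((x : ℝ) ^ (1 / 2 : ℝ) * (120 * (L ^ A) ^ 2 * (L ^ (B + 1)) ^ 2 * L ^ 4))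
          ≤ x * Y ^ 2 * x := mul_le_mul_of_nonneg_left c5 (by positivity)
        _ = x ^ 2 * Y ^ 2 := by ring
    linarith [t1, t2, t3]
  have hnn : 0 ≤ x * Y / L ^ A := by positivity
  exact abs_le_of_sq_le_sq hfin hnn

end Pool.Agent.H91.L1
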