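import Mathlib
import Pool.Agent.H91.L1.Defs

/-!
# L1 Seg: one segment of `k`

`seg`: open the square; `k = k'` gives at most `l Dg`; the ordered pairs `k ≠ k'` give `TT k k'` (symmetric: `TT R a0 H Q k k' = TT R a0 H Q k' k`),
at most `l²` of them, each at most `T` (write the larger one as the smaller one plus `d`, `1 ≤ d < l`).
`cut`: fixed `q ≥ 1`, `a`, `y`.  The `n ∈ [1,y]`, `n ≡ a (q)` are the `a + q k ≥ 1` with `k ≤ kp = ⌊(y - a)/q⌋` (integer division, floor), and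
`fz = 0` on `a + q k ≤ 0`; so the sum is `∑_{k ∈ Ico (-J l) (kp + 1)} fz(a + q k)` if `a - q (J l + 1) ≤ 0`, that is all `k < -J l` have
`a + q k ≤ 0` (follows from `hJ`: `a ≤ x`, `x < q J l`), and `kp + 1 ≤ J l` (`y ≤ x < q J l`, `a ≥ 0`).  Let `jp = ⌊(kp+1)/l⌋`; the sum over
`k ∈ Ico (-J l) (jp l)` is the sum of the complete segments `j ∈ Ico (-J) jp`, the rest has fewer than `l` terms, each `a + q k ≤ y ≤ x` so `≤ M`.
The segments with `-j0 ≤ j < j0` are bounded by the sum of `|fz|` over `Ico (-j0 l) (j0 l)`, the others by their absolute values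
(all `j ∈ Ico (-J) J`).
-/

set_option autoImplicit false

namespace Pool.Agent.H91.L1

open Finset
open Pool.Agent.H91.EHA (Lam lamR hR psiA err)

private lemma seg_symm (R a0 H Q : ℕ) (k k' : ℤ) : TT R a0 H Q k k' = TT R a0 H Q k' k := by
  unfold TT
  apply Finset.sum_congr rfl
  intro q _
  apply Finset.sum_congr rfl
  intro a _
  exact mul_comm _ _

private lemma seg_TT (R a0 H Q l : ℕ) (j : ℤ) (Dg T : ℝ) (hT0 : 0 ≤ T)
    (hD : ∀ k ∈ Ico j (j + l),
      ∑ q ∈ Ioc Q (2 * Q), ∑ a ∈ Ioc a0 (a0 + H), fz R ((a : ℤ) + q * k) ^ 2 ≤ Dg)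
    (hT : ∀ k : ℤ, ∀ d : ℕ, j ≤ k → 1 ≤ d → k + d < j + l → |TT R a0 H Q k (k + d)| ≤ T)
    (k k' : ℤ) (hk : k ∈ Ico j (j + l)) (hk' : k' ∈ Ico j (j + l)) :
    TT R a0 H Q k k' ≤ (if k = k' then Dg else 0) + T := by
  rcases lt_trichotomy k k' with h | h | h
  · rw [if_neg h.ne, zero_add]
    rw [mem_Ico] at hk hk'
    obtain ⟨d, hd⟩ := Int.le.dest h.le
    rw [← hd]
    exact (le_abs_self _).trans (hT k d hk.1 (by omega) (by omega))
  · subst h
    rw [if_pos rfl]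
    have : TT R a0 H Q k k ≤ Dg := by
      refine le_trans (le_of_eq ?_) (hD k hk)
      unfold TT
      apply Finset.sum_congr rfl
      intro q _
      apply Finset.sum_congr rfl
      intro a _
      exact (sq _).symm
    linarith
  · rw [if_neg h.ne', zero_add, seg_symm]
    rw [mem_Ico] at hk hk'
    obtain ⟨d, hd⟩ := Int.le.dest h.le
    rw [← hd]
    exact (le_abs_self _).trans (hT k' d hk'.1 (by omega) (by omega))

theorem seg (R a0 H Q l : ℕ) (j : ℤ) (Dg T : ℝ) (hT0 : 0 ≤ T)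
    (hD : ∀ k ∈ Ico j (j + l),
      ∑ q ∈ Ioc Q (2 * Q), ∑ a ∈ Ioc a0 (a0 + H), fz R ((a : ℤ) + q * k) ^ 2 ≤ Dg)
    (hT : ∀ k : ℤ, ∀ d : ℕ, j ≤ k → 1 ≤ d → k + d < j + l → |TT R a0 H Q k (k + d)| ≤ T) :
    ∑ q ∈ Ioc Q (2 * Q), ∑ a ∈ Ioc a0 (a0 + H), (∑ k ∈ Ico j (j + l), fz R ((a : ℤ) + q * k)) ^ 2
      ≤ l * Dg + (l : ℝ) ^ 2 * T := by
  have e1 : ∑ q ∈ Ioc Q (2 * Q), ∑ a ∈ Ioc a0 (a0 + H),
      (∑ k ∈ Ico j (j + l), fz R ((a : ℤ) + q * k)) ^ 2
      = ∑ k ∈ Ico j (j + l), ∑ k' ∈ Ico j (j + l), TT R a0 H Q k k' := by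
    unfold TT
    have : ∀ q ∈ Ioc Q (2 * Q), ∑ a ∈ Ioc a0 (a0 + H),
        (∑ k ∈ Ico j (j + l), fz R ((a : ℤ) + q * k)) ^ 2
        = ∑ k ∈ Ico j (j + l), ∑ k' ∈ Ico j (j + l), ∑ a ∈ Ioc a0 (a0 + H),
          fz R ((a : ℤ) + q * k) * fz R ((a : ℤ) + q * k') := by
      intro q _
      have : ∀ a ∈ Ioc a0 (a0 + H), (∑ k ∈ Ico j (j + l), fz R ((a : ℤ) + q * k)) ^ 2
          = ∑ k ∈ Ico j (j + l), ∑ k' ∈ Ico j (j + l),
            fz R ((a : ℤ) + q * k) * fz R ((a : ℤ) + q * k') := by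
        intro a _
        rw [sq, Finset.sum_mul_sum]
      rw [Finset.sum_congr rfl this, Finset.sum_comm]
      apply Finset.sum_congr rfl
      intro k _
      rw [Finset.sum_comm]
    rw [Finset.sum_congr rfl this, Finset.sum_comm]
    apply Finset.sum_congr rfl
    intro k _
    rw [Finset.sum_comm]
  rw [e1]
  have hcard : (Ico j (j + l)).card = l := by
    rw [Int.card_Ico]
    have : j + (l : ℤ) - j = l := by ring
    rw [this, Int.toNat_natCast]
  calc ∑ k ∈ Ico j (j + l), ∑ k' ∈ Ico j (j + l), TT R a0 H Q k k'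
      ≤ ∑ k ∈ Ico j (j + l), ∑ k' ∈ Ico j (j + l), ((if k = k' then Dg else 0) + T) := by
        apply Finset.sum_le_sum
        intro k hk
        apply Finset.sum_le_sum
        intro k' hk'
        exact seg_TT R a0 H Q l j Dg T hT0 hD hT k k' hk hk'
    _ = ∑ k ∈ Ico j (j + l), (Dg + l * T) := by
        apply Finset.sum_congr rfl
        intro k hk
        rw [Finset.sum_add_distrib, Finset.sum_ite_eq, if_pos hk, Finset.sum_const, hcard,
          nsmul_eq_mul]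
    _ = l * Dg + (l : ℝ) ^ 2 * T := by
        rw [Finset.sum_const, hcard, nsmul_eq_mul]
        ring

private lemma cut_seg (g : ℤ → ℝ) (l : ℕ) (a b : ℤ) (hab : a ≤ b) :
    ∑ k ∈ Ico (a * l) (b * l), g k = ∑ j ∈ Ico a b, ∑ k ∈ Ico (j * l) (j * l + l), g k := by
  induction b, hab using Int.leInduction with
  | base => simp
  | succ n hn ih =>
    have h1 : a * (l : ℤ) ≤ n * l := mul_le_mul_of_nonneg_right hn (Int.natCast_nonneg l)
    have h2 : n * (l : ℤ) ≤ n * l + l := by have := Int.natCast_nonneg l; linarith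
    have e1 : (n + 1) * (l : ℤ) = n * l + l := by ring
    have e2 : Ico a (n + 1) = insert n (Ico a n) := by
      ext x
      rw [mem_insert, mem_Ico, mem_Ico]
      omega
    rw [e1, e2, Finset.sum_insert (by simp), ← ih,
      ← Finset.Ico_union_Ico_eq_Ico h1 h2, Finset.sum_union]
    · ring
    · exact Finset.Ico_disjoint_Ico_consecutive _ _ _

private lemma cut_sum (R q a x y : ℕ) (K : ℤ) (hq : 1 ≤ q) (ha : a ≤ x)
    (hK : (x : ℤ) < q * K) :
    ∑ n ∈ (Icc 1 y).filter (fun n => n ≡ a [MOD q]), hR R n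
      = ∑ k ∈ Ico (-K) (((y : ℤ) - a) / q + 1), fz R ((a : ℤ) + q * k) := by
  have hqZ : (0 : ℤ) < q := by exact_mod_cast hq
  have haZ : (a : ℤ) ≤ x := by exact_mod_cast ha
  have e1 : ∑ k ∈ Ico (-K) (((y : ℤ) - a) / q + 1), fz R ((a : ℤ) + q * k)
      = ∑ k ∈ (Ico (-K) (((y : ℤ) - a) / q + 1)).filter (fun k => 1 ≤ (a : ℤ) + q * k),
        fz R ((a : ℤ) + q * k) := by
    symm
    apply Finset.sum_filter_of_ne
    intro k _ hk
    by_contra hc
    apply hk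
    unfold fz
    rw [if_neg hc]
  rw [e1]
  apply Finset.sum_nbij' (fun n : ℕ => ((n : ℤ) - a) / q) (fun k : ℤ => ((a : ℤ) + q * k).toNat)
  · intro n hn
    rw [mem_filter, mem_Icc] at hn
    obtain ⟨⟨h1, h2⟩, h3⟩ := hn
    have h4 : (q : ℤ) ∣ (n : ℤ) - a := by
      have := (Nat.modEq_iff_dvd.mp h3.symm)
      exact this
    have h5 : (q : ℤ) * (((n : ℤ) - a) / q) = n - a := Int.mul_ediv_cancel' h4
    rw [mem_filter, mem_Ico]
    refine ⟨⟨?_, ?_⟩, ?_⟩
    · have h6 : -((q : ℤ) * K) < (q : ℤ) * (((n : ℤ) - a) / q) := by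
        rw [h5]; have := Int.natCast_nonneg n; linarith
      have h7 : (q : ℤ) * (-K) < (q : ℤ) * (((n : ℤ) - a) / q) := by linarith
      exact (lt_of_mul_lt_mul_left h7 hqZ.le).le
    · apply Int.lt_add_one_of_le
      apply Int.ediv_le_ediv hqZ
      have : (n : ℤ) ≤ y := by exact_mod_cast h2
      linarith
    · show 1 ≤ (a : ℤ) + q * (((n : ℤ) - a) / q)
      rw [h5]
      have : (1 : ℤ) ≤ n := by exact_mod_cast h1
      linarith
  · intro k hk
    rw [mem_filter, mem_Ico] at hk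
    obtain ⟨⟨h1, h2⟩, h3⟩ := hk
    have h4 : k ≤ ((y : ℤ) - a) / q := Int.lt_add_one_iff.mp h2
    rw [Int.le_ediv_iff_mul_le hqZ] at h4
    have h5 : ((((a : ℤ) + q * k).toNat : ℕ) : ℤ) = (a : ℤ) + q * k :=
      Int.toNat_of_nonneg (by linarith)
    rw [mem_filter, mem_Icc]
    refine ⟨⟨?_, ?_⟩, ?_⟩
    · omega
    · have : ((((a : ℤ) + q * k).toNat : ℕ) : ℤ) ≤ y := by rw [h5]; linarith
      exact_mod_cast this
    · have : (a : ℤ) ≡ (((a : ℤ) + q * k).toNat : ℕ) [ZMOD q] := by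
        rw [h5, Int.modEq_iff_dvd]
        exact ⟨k, by ring⟩
      exact (Int.natCast_modEq_iff.mp this).symm
  · intro n hn
    rw [mem_filter, mem_Icc] at hn
    obtain ⟨⟨h1, h2⟩, h3⟩ := hn
    have h4 : (q : ℤ) ∣ (n : ℤ) - a := (Nat.modEq_iff_dvd.mp h3.symm)
    have h5 : (q : ℤ) * (((n : ℤ) - a) / q) = n - a := Int.mul_ediv_cancel' h4
    show ((a : ℤ) + q * (((n : ℤ) - a) / q)).toNat = n
    rw [h5]
    have : (a : ℤ) + (n - a) = n := by ring
    rw [this, Int.toNat_natCast]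
  · intro k hk
    rw [mem_filter, mem_Ico] at hk
    obtain ⟨⟨h1, h2⟩, h3⟩ := hk
    have h5 : ((((a : ℤ) + q * k).toNat : ℕ) : ℤ) = (a : ℤ) + q * k :=
      Int.toNat_of_nonneg (by linarith)
    show (((((a : ℤ) + q * k).toNat : ℕ) : ℤ) - a) / q = k
    rw [h5]
    have : (a : ℤ) + q * k - a = q * k := by ring
    rw [this, Int.mul_ediv_cancel_left _ hqZ.ne']
  · intro n hn
    rw [mem_filter, mem_Icc] at hn
    obtain ⟨⟨h1, h2⟩, h3⟩ := hn
    have h4 : (q : ℤ) ∣ (n : ℤ) - a := (Nat.modEq_iff_dvd.mp h3.symm)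
    have h5 : (q : ℤ) * (((n : ℤ) - a) / q) = n - a := Int.mul_ediv_cancel' h4
    show hR R n = fz R ((a : ℤ) + q * (((n : ℤ) - a) / q))
    rw [h5]
    have : (a : ℤ) + (n - a) = n := by ring
    rw [this]
    unfold fz
    rw [if_pos (by exact_mod_cast h1), Int.toNat_natCast]

theorem cut (R q a x y l J j0 : ℕ) (M : ℝ) (hM0 : 0 ≤ M) (hM : ∀ n : ℕ, n ≤ x → |hR R n| ≤ M)
    (hq : 1 ≤ q) (hl : 1 ≤ l) (ha : a ≤ x) (hy : y ≤ x) (hJ : x < q * (J * l)) (hj : j0 ≤ J) :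
    |∑ n ∈ (Icc 1 y).filter (fun n => n ≡ a [MOD q]), hR R n|
      ≤ l * M + (∑ k ∈ Ico (-(j0 * l : ℤ)) (j0 * l), |fz R ((a : ℤ) + q * k)|)
        + ∑ j ∈ (Ico (-(J : ℤ)) J).filter (fun j => j < -(j0 : ℤ) ∨ (j0 : ℤ) ≤ j),
            |∑ k ∈ Ico (j * l) (j * l + l), fz R ((a : ℤ) + q * k)| := by
  have hqZ : (0 : ℤ) < q := by exact_mod_cast hq
  have hlZ : (0 : ℤ) < l := by exact_mod_cast hl
  have haZ : (a : ℤ) ≤ x := by exact_mod_cast ha
  have hyZ : (y : ℤ) ≤ x := by exact_mod_cast hy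
  have hJZ : (x : ℤ) < q * (J * l) := by exact_mod_cast hJ
  have ha0 : (0 : ℤ) ≤ a := Int.natCast_nonneg a
  have hy0 : (0 : ℤ) ≤ y := Int.natCast_nonneg y
  rw [cut_sum R q a x y (J * l) hq ha hJZ]
  set g : ℤ → ℝ := fun k => fz R ((a : ℤ) + q * k) with hg
  set K : ℤ := ((y : ℤ) - a) / q + 1 with hK
  have hK1 : K ≤ J * l := by
    apply Int.add_one_le_of_lt
    rw [Int.ediv_lt_iff_lt_mul hqZ]
    have : (J : ℤ) * l * q = q * (J * l) := by ring
    rw [this]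
    linarith
  have hK2 : -((J : ℤ) * l) ≤ K := by
    have : -((J : ℤ) * l) ≤ ((y : ℤ) - a) / q := by
      rw [Int.le_ediv_iff_mul_le hqZ]
      have : -((J : ℤ) * l) * q = -(q * (J * l)) := by ring
      rw [this]
      linarith
    rw [hK]
    linarith
  set P : ℤ := K / l with hP
  have hP1 : P * l ≤ K := by
    have := Int.mul_ediv_add_emod K l
    have h2 := Int.emod_nonneg K hlZ.ne'
    have h3 : P * (l : ℤ) = l * (K / l) := by rw [hP]; ring
    linarith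
  have hP2 : K < P * l + l := by
    have := Int.mul_ediv_add_emod K l
    have h2 := Int.emod_lt_of_pos K hlZ
    have h3 : P * (l : ℤ) = l * (K / l) := by rw [hP]; ring
    linarith
  have hP3 : -(J : ℤ) ≤ P := by
    rw [hP, Int.le_ediv_iff_mul_le hlZ]
    linarith
  have hP4 : P ≤ J := by
    by_contra hc
    have h1 : (J : ℤ) + 1 ≤ P := Int.add_one_le_of_lt (not_le.mp hc)
    have h2 : ((J : ℤ) + 1) * l ≤ P * l := mul_le_mul_of_nonneg_right h1 hlZ.le
    have h3 : ((J : ℤ) + 1) * l = J * l + l := by ring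
    linarith
  -- split
  have hPl : -((J : ℤ) * l) ≤ P * l := by
    have := mul_le_mul_of_nonneg_right hP3 hlZ.le
    linarith
  have e1 : ∑ k ∈ Ico (-((J : ℤ) * l)) K, g k
      = ∑ k ∈ Ico (-((J : ℤ) * l)) (P * l), g k + ∑ k ∈ Ico (P * l) K, g k := by
    rw [← Finset.Ico_union_Ico_eq_Ico hPl hP1, Finset.sum_union]
    exact Finset.Ico_disjoint_Ico_consecutive _ _ _
  have e2 : ∑ k ∈ Ico (-((J : ℤ) * l)) (P * l), g k
      = ∑ j ∈ Ico (-(J : ℤ)) P, ∑ k ∈ Ico (j * l) (j * l + l), g k := by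
    rw [← cut_seg g l (-(J : ℤ)) P hP3, neg_mul]
  have hgM : ∀ k : ℤ, k < K → |g k| ≤ M := by
    intro k hk
    rw [hg]
    show |fz R ((a : ℤ) + q * k)| ≤ M
    unfold fz
    split_ifs with h0
    · apply hM
      have h4 : k ≤ ((y : ℤ) - a) / q := Int.lt_add_one_iff.mp hk
      rw [Int.le_ediv_iff_mul_le hqZ] at h4
      have : (((a : ℤ) + q * k).toNat : ℤ) ≤ x := by
        rw [Int.toNat_of_nonneg (by linarith)]
        linarith
      exact_mod_cast this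
    · rw [abs_zero]; exact hM0
  have e3 : |∑ k ∈ Ico (P * l) K, g k| ≤ l * M := by
    refine (Finset.abs_sum_le_sum_abs _ _).trans ?_
    refine (Finset.sum_le_card_nsmul _ _ M ?_).trans ?_
    · intro k hk
      rw [mem_Ico] at hk
      exact hgM k hk.2
    · rw [nsmul_eq_mul, Int.card_Ico]
      apply mul_le_mul_of_nonneg_right _ hM0
      have : (K - P * l).toNat ≤ l := by omega
      exact_mod_cast this
  have e4 : |∑ j ∈ Ico (-(J : ℤ)) P, ∑ k ∈ Ico (j * l) (j * l + l), g k|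
      ≤ (∑ k ∈ Ico (-(j0 * l : ℤ)) (j0 * l), |g k|)
        + ∑ j ∈ (Ico (-(J : ℤ)) J).filter (fun j => j < -(j0 : ℤ) ∨ (j0 : ℤ) ≤ j),
            |∑ k ∈ Ico (j * l) (j * l + l), g k| := by
    have f1 : |∑ j ∈ Ico (-(J : ℤ)) P, ∑ k ∈ Ico (j * l) (j * l + l), g k|
        ≤ ∑ j ∈ Ico (-(J : ℤ)) J, |∑ k ∈ Ico (j * l) (j * l + l), g k| := by
      refine (Finset.abs_sum_le_sum_abs _ _).trans ?_
      apply Finset.sum_le_sum_of_subset_of_nonneg
      · apply Finset.Ico_subset_Ico_right hP4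
      · intro j _ _
        exact abs_nonneg _
    refine f1.trans ?_
    rw [← Finset.sum_filter_add_sum_filter_not (Ico (-(J : ℤ)) J)
      (fun j => j < -(j0 : ℤ) ∨ (j0 : ℤ) ≤ j), add_comm]
    apply add_le_add_left
    have f2 : (Ico (-(J : ℤ)) J).filter (fun j => ¬ (j < -(j0 : ℤ) ∨ (j0 : ℤ) ≤ j))
        = Ico (-(j0 : ℤ)) j0 := by
      ext j
      rw [mem_filter, mem_Ico, mem_Ico]
      have : (j0 : ℤ) ≤ J := by exact_mod_cast hj
      omega
    rw [f2]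
    have f3 : ∑ k ∈ Ico (-(j0 * l : ℤ)) (j0 * l), |g k|
        = ∑ j ∈ Ico (-(j0 : ℤ)) j0, ∑ k ∈ Ico (j * l) (j * l + l), |g k| := by
      rw [← cut_seg (fun k => |g k|) l (-(j0 : ℤ)) j0 (by have := Int.natCast_nonneg j0; linarith),
        neg_mul]
    rw [f3]
    apply Finset.sum_le_sum
    intro j _
    exact Finset.abs_sum_le_sum_abs _ _
  rw [e1, e2]
  refine (abs_add_le _ _).trans ?_
  linarith

end Pool.Agent.H91.L1
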