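import Mathlib
import Pool.Agent.H91.L1.Pair
import Pool.Agent.H91.L1.Seg

/-!
# L1 MomS: the second moment of one segment of `k`, all `H` with `Q H ≥ x^(7/6+3e)`
-/

set_option autoImplicit false

namespace Pool.Agent.H91.L1

open Finset
open Pool.Agent.H91.EHA (Lam lamR hR psiA err)

/-- large powers beat logarithms -/
theorem momS_large (κ : ℝ) (hκ : 0 < κ) (m : ℕ) (K : ℝ) : ∃ x0 : ℕ, ∀ x : ℕ, x0 ≤ x →
    K * Real.log x ^ m ≤ (x : ℝ) ^ κ := by
  obtain ⟨x1, hx1⟩ := Pool.Agent.H91.EHA.log_pow_le_rpow (m + 1) κ hκ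
  obtain ⟨x2, hx2⟩ := Pool.Agent.H91.EHA.log_ge (max K 1)
  refine ⟨max x1 x2, fun x hx => ?_⟩
  have h1 := hx1 x (le_trans (le_max_left _ _) hx)
  have h2 := hx2 x (le_trans (le_max_right _ _) hx)
  have h3 : K ≤ Real.log x := (le_max_left _ _).trans h2
  have h4 : (1 : ℝ) ≤ Real.log x := (le_max_right _ _).trans h2
  calc K * Real.log x ^ m ≤ Real.log x * Real.log x ^ m :=
        mul_le_mul_of_nonneg_right h3 (by positivity)
    _ = Real.log x ^ (m + 1) := by ring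
    _ ≤ _ := h1

/-- the positive values of `a + m` form a window -/
private theorem momS_win (R a0 H : ℕ) (m : ℤ) : ∃ u H' : ℕ, H' ≤ H ∧
    ((u + H' : ℕ) : ℤ) ≤ max 0 (a0 + H + m) ∧
    ∑ a ∈ Ioc a0 (a0 + H), fz R ((a : ℤ) + m) ^ 2 ≤ ∑ n ∈ Ioc u (u + H'), hR R n ^ 2 := by
  refine ⟨((a0 : ℤ) + m).toNat, ((a0 : ℤ) + H + m).toNat - ((a0 : ℤ) + m).toNat, by omega,
    by omega, ?_⟩
  have h1 : ∑ a ∈ Ioc a0 (a0 + H), fz R ((a : ℤ) + m) ^ 2
      = ∑ a ∈ (Ioc a0 (a0 + H)).filter (fun a : ℕ => 1 ≤ (a : ℤ) + m),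
        hR R ((a : ℤ) + m).toNat ^ 2 := by
    rw [sum_filter]
    refine sum_congr rfl fun a _ => ?_
    unfold fz
    split_ifs
    · rfl
    · ring
  rw [h1]
  have h2 : ∑ a ∈ (Ioc a0 (a0 + H)).filter (fun a : ℕ => 1 ≤ (a : ℤ) + m),
        hR R ((a : ℤ) + m).toNat ^ 2
      = ∑ n ∈ ((Ioc a0 (a0 + H)).filter (fun a : ℕ => 1 ≤ (a : ℤ) + m)).image
          (fun a : ℕ => ((a : ℤ) + m).toNat), hR R n ^ 2 := by
    rw [sum_image]
    intro a ha b hb hab
    rw [mem_coe, mem_filter] at ha hb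
    have := ha.2
    have := hb.2
    simp only at hab
    omega
  rw [h2]
  apply sum_le_sum_of_subset_of_nonneg _ (fun _ _ _ => sq_nonneg _)
  intro n hn
  rw [mem_image] at hn
  obtain ⟨a, ha, rfl⟩ := hn
  rw [mem_filter, mem_Ioc] at ha
  rw [mem_Ioc]
  omega

/-- short intervals of `a` -/
theorem momA (hH : HuxProp) (e : ℝ) (he : 0 < e) (he2 : e ≤ 1 / 100) (s C2 B : ℕ)
    (hB : 1 ≤ B) : ∃ C x0 : ℕ, ∀ x : ℕ, x0 ≤ x → ∀ a0 H Q l : ℕ, ∀ j : ℤ,
      a0 + H ≤ x → (x : ℝ) ^ (3 / 4 : ℝ) ≤ Q → (Q : ℝ) * Real.log x ^ C ≤ x →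
      (x : ℝ) / Q * (x : ℝ) ^ (1 / 6 + 2 * e) ≤ H →
      (H : ℝ) ≤ 4 * ((x : ℝ) / Q * (x : ℝ) ^ (1 / 6 + 2 * e)) →
      (l : ℝ) ≤ Real.log x ^ B → Real.log x ^ (s + 6) ≤ l →
      (∀ k ∈ Ico j (j + l), (x : ℝ) ≤ Q * Real.log x ^ C2 * k.natAbs ∧
        2 * (Q : ℝ) * k.natAbs ≤ 3 * x) →
      ∑ q ∈ Ioc Q (2 * Q), ∑ a ∈ Ioc a0 (a0 + H),
        (∑ k ∈ Ico j (j + l), fz ⌊Real.log x ^ B⌋₊ ((a : ℤ) + q * k)) ^ 2
          ≤ Q * H * (l : ℝ) ^ 2 / Real.log x ^ (s + 1) := by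
  obtain ⟨x2, hx2⟩ := hsq B (by omega)
  obtain ⟨x3, hx3⟩ := pair hH e he B (by omega) (C2 + (s + 2))
  obtain ⟨x4, hx4⟩ := Pool.Agent.H91.EHA.log_ge 100
  obtain ⟨x5, hx5⟩ := momS_large e he 0 (3 / 2)
  obtain ⟨x6, hx6⟩ := momS_large (1 / 20) (by norm_num) (B + C2) 4
  obtain ⟨x7, hx7⟩ := momS_large (1 / 20) (by norm_num) (2 * B) 1
  refine ⟨C2 + B + 3,
    max (max x2 x3) (max (max x4 x5) (max x6 (max x7 2))),
    fun x hx a0 H Q l j haH hQ hQC hHl hHu hlB hls hk => ?_⟩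
  have i2 : x2 ≤ x := le_trans (le_trans (le_max_left _ _) (le_max_left _ _)) hx
  have i3 : x3 ≤ x := le_trans (le_trans (le_max_right _ _) (le_max_left _ _)) hx
  have i4 : x4 ≤ x := le_trans (le_trans (le_trans (le_max_left _ _) (le_max_left _ _))
    (le_max_right _ _)) hx
  have i5 : x5 ≤ x := le_trans (le_trans (le_trans (le_max_right _ _) (le_max_left _ _))
    (le_max_right _ _)) hx
  have i6 : x6 ≤ x := le_trans (le_trans (le_trans (le_max_left _ _) (le_max_right _ _))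
    (le_max_right _ _)) hx
  have i7 : x7 ≤ x := le_trans (le_trans (le_trans (le_trans (le_max_left _ _)
    (le_max_right _ _)) (le_max_right _ _)) (le_max_right _ _)) hx
  have i8 : 2 ≤ x := le_trans (le_trans (le_trans (le_trans (le_max_right _ _)
    (le_max_right _ _)) (le_max_right _ _)) (le_max_right _ _)) hx
  have k2 := hx2 x i2
  have k3 := hx3 x i3
  have k4 := hx4 x i4
  have k5 := hx5 x i5
  have k6 := hx6 x i6
  have k7 := hx7 x i7
  rw [pow_zero, mul_one] at k5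
  rw [one_mul] at k7
  set R : ℕ := ⌊Real.log x ^ B⌋₊ with hR'
  set L : ℝ := Real.log x with hL
  have hL0 : (0 : ℝ) < L := by linarith
  have hL1 : (1 : ℝ) ≤ L := by linarith
  have hx2' : (2 : ℝ) ≤ x := by exact_mod_cast i8
  have hx0 : (0 : ℝ) < x := by linarith
  have hx1' : (1 : ℝ) ≤ x := by linarith
  have hQ0 : (0 : ℝ) < Q := lt_of_lt_of_le (by positivity) hQ
  have hQ1 : 1 ≤ Q := by exact_mod_cast hQ0
  set V : ℝ := (x : ℝ) / Q with hV
  have hQV : (Q : ℝ) * V = x := by rw [hV]; field_simp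
  have hV0 : 0 < V := by positivity
  have hVL : L ^ (C2 + B + 3) ≤ V := by
    rw [hV, le_div_iff₀ hQ0]
    linarith
  have hV4 : V ≤ (x : ℝ) ^ (1 / 4 : ℝ) := by
    rw [hV, div_le_iff₀ hQ0]
    calc (x : ℝ) = (x : ℝ) ^ (1 / 4 : ℝ) * (x : ℝ) ^ (3 / 4 : ℝ) := by
          rw [← Real.rpow_add hx0]; norm_num
      _ ≤ _ := mul_le_mul_of_nonneg_left hQ (by positivity)
  have hV1 : 1 ≤ V := (one_le_pow₀ hL1).trans hVL
  have hLs : (1 : ℝ) ≤ L ^ (s + 6) := one_le_pow₀ hL1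
  have hlr1 : (1 : ℝ) ≤ l := hLs.trans hls
  have hlr0 : (0 : ℝ) < l := by linarith
  have hl1 : 1 ≤ l := by exact_mod_cast hlr1
  -- bounds for `H`
  have hH1r : V * (x : ℝ) ^ (1 / 6 : ℝ) ≤ H := by
    refine le_trans ?_ hHl
    apply mul_le_mul_of_nonneg_left _ hV0.le
    exact Real.rpow_le_rpow_of_exponent_le hx1' (by linarith)
  have hxs : (1 : ℝ) ≤ (x : ℝ) ^ (1 / 6 : ℝ) := Real.one_le_rpow hx1' (by norm_num)
  have hx6 : (x : ℝ) ^ (1 / 20 : ℝ) ≤ (x : ℝ) ^ (1 / 6 : ℝ) :=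
    Real.rpow_le_rpow_of_exponent_le hx1' (by norm_num)
  have hHx6 : (x : ℝ) ^ (1 / 6 : ℝ) ≤ H :=
    le_trans (le_mul_of_one_le_left (by positivity) hV1) hH1r
  have hH1 : (1 : ℝ) ≤ H := hxs.trans hHx6
  have hH0 : (0 : ℝ) < H := by linarith
  have hH2B : L ^ (2 * B) ≤ H := k7.trans (hx6.trans hHx6)
  have hHhalf : (H : ℝ) ≤ (x : ℝ) ^ (1 / 2 : ℝ) := by
    refine hHu.trans ?_
    have h4 : (4 : ℝ) ≤ (x : ℝ) ^ (1 / 20 : ℝ) := by
      refine le_trans ?_ k6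
      have : (1 : ℝ) ≤ L ^ (B + C2) := one_le_pow₀ hL1
      linarith
    calc 4 * (V * (x : ℝ) ^ (1 / 6 + 2 * e))
        ≤ (x : ℝ) ^ (1 / 20 : ℝ) * ((x : ℝ) ^ (1 / 4 : ℝ) * (x : ℝ) ^ (1 / 6 + 2 * e)) := by
          apply mul_le_mul h4 _ (by positivity) (by positivity)
          exact mul_le_mul_of_nonneg_right hV4 (by positivity)
      _ = (x : ℝ) ^ (1 / 20 + (1 / 4 + (1 / 6 + 2 * e))) := by
          rw [← Real.rpow_add hx0, ← Real.rpow_add hx0]
      _ ≤ (x : ℝ) ^ (1 / 2 : ℝ) := Real.rpow_le_rpow_of_exponent_le hx1' (by linarith)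
  -- `|k|`
  have hkk : ∀ k ∈ Ico j (j + l), V / L ^ C2 ≤ (k.natAbs : ℝ) ∧
      (k.natAbs : ℝ) ≤ 3 / 2 * V := by
    intro k hk'
    obtain ⟨h1, h2⟩ := hk k hk'
    constructor
    · rw [div_le_iff₀ (by positivity), hV, div_le_iff₀ hQ0]
      linarith
    · rw [← hQV] at h2
      have h3 : (Q : ℝ) * k.natAbs ≤ Q * (3 / 2 * V) := by linarith
      exact le_of_mul_le_mul_left h3 hQ0
  have hseg := seg R a0 H Q l j (Q * (2 * H * L ^ 4)) (Q * H / L ^ (s + 2)) (by positivity)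
    (by
      intro k hk'
      have h0 : ∀ q ∈ Ioc Q (2 * Q), ∑ a ∈ Ioc a0 (a0 + H), fz R ((a : ℤ) + q * k) ^ 2
          ≤ 2 * H * L ^ 4 := by
        intro q hq
        rw [mem_Ioc] at hq
        obtain ⟨u, H', h1, h2, h3⟩ := momS_win R a0 H (q * k)
        have h4 : ((u + H' : ℕ) : ℤ) ≤ 9 * x := by
          refine h2.trans (max_le (by positivity) ?_)
          have h5 : (q : ℤ) * k ≤ 3 * x := by
            have h6 : ((q : ℤ) * k : ℝ) ≤ 3 * x := by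
              have h7 : ((k : ℤ) : ℝ) ≤ k.natAbs := by
                rw [Nat.cast_natAbs]
                exact_mod_cast le_abs_self k
              have h8 : (q : ℝ) ≤ 2 * Q := by exact_mod_cast hq.2
              have h9 := (hk k hk').2
              calc ((q : ℤ) * k : ℝ) ≤ (q : ℤ) * k.natAbs :=
                    mul_le_mul_of_nonneg_left h7 (by positivity)
                _ ≤ (2 * Q) * k.natAbs := by
                    apply mul_le_mul_of_nonneg_right _ (by positivity)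
                    exact_mod_cast h8
                _ ≤ 3 * x := h9
            exact_mod_cast h6
          have h9 : ((a0 + H : ℕ) : ℤ) ≤ x := by exact_mod_cast haH
          push_cast at h9
          linarith
        refine h3.trans ((k2 u H' (by exact_mod_cast h4)).trans ?_)
        have h1' : (H' : ℝ) ≤ H := by exact_mod_cast h1
        calc ((H' : ℝ) + L ^ (2 * B)) * L ^ 4 ≤ (H + H) * L ^ 4 := by
              apply mul_le_mul_of_nonneg_right _ (by positivity)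
              linarith
          _ = 2 * H * L ^ 4 := by ring
      refine (sum_le_sum h0).trans (le_of_eq ?_)
      rw [sum_const, Nat.card_Ioc, nsmul_eq_mul]
      have : 2 * Q - Q = Q := by omega
      rw [this])
    (by
      intro k d hjk hd hkd
      have hkm : k ∈ Ico j (j + l) := by
        rw [mem_Ico]
        have : (1 : ℤ) ≤ d := by exact_mod_cast hd
        omega
      have hdl : d < l := by omega
      obtain ⟨hκV, hκu⟩ := hkk k hkm
      have hdr : (d : ℝ) ≤ l := by exact_mod_cast hdl.le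
      have hκ0 : (0 : ℝ) < k.natAbs := lt_of_lt_of_le (by positivity) hκV
      have habs : |k| = (k.natAbs : ℤ) := (Int.natCast_natAbs k).symm
      have hTT := k3 a0 H Q d k haH hd (hdr.trans hlB)
        (by
          have h1 : (2 * d : ℝ) ≤ k.natAbs := by
            have h2 : 2 * (l : ℝ) ≤ V / L ^ C2 := by
              rw [le_div_iff₀ (by positivity)]
              calc 2 * (l : ℝ) * L ^ C2 ≤ L ^ 3 * L ^ B * L ^ C2 := by
                    apply mul_le_mul_of_nonneg_right _ (by positivity)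
                    apply mul_le_mul _ hlB hlr0.le (by positivity)
                    calc (2 : ℝ) ≤ L ^ 1 := by rw [pow_one]; linarith
                      _ ≤ L ^ 3 := pow_le_pow_right₀ hL1 (by norm_num)
                _ = L ^ (C2 + B + 3) := by ring
                _ ≤ V := hVL
            linarith
          rw [habs]
          exact_mod_cast h1)
        (by
          have h1 := (hk k hkm).2
          rw [habs]
          exact_mod_cast h1)
        hHhalf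
        (by
          refine le_trans ?_ hHl
          calc (k.natAbs : ℝ) * (x : ℝ) ^ (1 / 6 + e)
              ≤ (3 / 2 * V) * (x : ℝ) ^ (1 / 6 + e) :=
                mul_le_mul_of_nonneg_right hκu (by positivity)
            _ = V * ((x : ℝ) ^ (1 / 6 + e) * (3 / 2)) := by ring
            _ ≤ V * ((x : ℝ) ^ (1 / 6 + e) * (x : ℝ) ^ e) := by
                apply mul_le_mul_of_nonneg_left _ hV0.le
                exact mul_le_mul_of_nonneg_left k5 (by positivity)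
            _ = V * (x : ℝ) ^ (1 / 6 + 2 * e) := by
                rw [← Real.rpow_add hx0]
                congr 2
                ring)
        (by
          calc (H : ℝ) * L ^ B ≤ 4 * (V * (x : ℝ) ^ (1 / 6 + 2 * e)) * L ^ B :=
                mul_le_mul_of_nonneg_right hHu (by positivity)
            _ = V / L ^ C2 * ((4 * L ^ (B + C2)) * (x : ℝ) ^ (1 / 6 + 2 * e)) := by
                rw [pow_add L B C2]
                field_simp
            _ ≤ V / L ^ C2 * ((x : ℝ) ^ (1 / 20 : ℝ) * (x : ℝ) ^ (1 / 6 + 2 * e)) := by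
                apply mul_le_mul_of_nonneg_left _ (by positivity)
                exact mul_le_mul_of_nonneg_right k6 (by positivity)
            _ ≤ V / L ^ C2 * (x : ℝ) ^ (1 / 4 : ℝ) := by
                apply mul_le_mul_of_nonneg_left _ (by positivity)
                rw [← Real.rpow_add hx0]
                exact Real.rpow_le_rpow_of_exponent_le hx1' (by linarith)
            _ ≤ k.natAbs * (x : ℝ) ^ (1 / 4 : ℝ) :=
                mul_le_mul_of_nonneg_right hκV (by positivity))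
      refine hTT.trans ?_
      have h1 : (x : ℝ) * ((H : ℝ) / k.natAbs) ≤ Q * H * L ^ C2 := by
        rw [← mul_div_assoc, div_le_iff₀ hκ0, ← hQV]
        have h2 := mul_le_mul_of_nonneg_left hκV
          (show (0 : ℝ) ≤ Q * H * L ^ C2 by positivity)
        refine le_trans (le_of_eq ?_) h2
        field_simp
      rw [pow_add L C2]
      calc (x : ℝ) * ((H : ℝ) / k.natAbs) / (L ^ C2 * L ^ (s + 2))
          ≤ Q * H * L ^ C2 / (L ^ C2 * L ^ (s + 2)) :=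
            div_le_div_of_nonneg_right h1 (by positivity)
        _ = Q * H / L ^ (s + 2) := by field_simp)
  refine hseg.trans ?_
  have h1 : (l : ℝ) * L ^ 4 ≤ (l : ℝ) ^ 2 / L ^ (s + 2) := by
    rw [le_div_iff₀ (by positivity)]
    calc (l : ℝ) * L ^ 4 * L ^ (s + 2) = l * L ^ (s + 6) := by ring
      _ ≤ l * l := mul_le_mul_of_nonneg_left hls hlr0.le
      _ = (l : ℝ) ^ 2 := by ring
  calc (l : ℝ) * (Q * (2 * H * L ^ 4)) + (l : ℝ) ^ 2 * (Q * H / L ^ (s + 2))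
      = Q * H * (2 * (l * L ^ 4) + (l : ℝ) ^ 2 / L ^ (s + 2)) := by ring
    _ ≤ Q * H * (2 * ((l : ℝ) ^ 2 / L ^ (s + 2)) + (l : ℝ) ^ 2 / L ^ (s + 2)) := by
        apply mul_le_mul_of_nonneg_left _ (by positivity)
        linarith
    _ = Q * H * (l : ℝ) ^ 2 / L ^ (s + 1) * (3 / L) := by
        rw [show s + 2 = (s + 1) + 1 by ring, pow_succ L (s + 1)]
        field_simp
        ring
    _ ≤ Q * H * (l : ℝ) ^ 2 / L ^ (s + 1) * 1 := by
        apply mul_le_mul_of_nonneg_left _ (by positivity)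
        rw [div_le_one hL0]
        linarith
    _ = Q * H * (l : ℝ) ^ 2 / L ^ (s + 1) := mul_one _

private lemma momS_blocks (F : ℕ → ℝ) (a0 H1 : ℕ) (n : ℕ) :
    ∑ a ∈ Ioc a0 (a0 + n * H1), F a
      = ∑ i ∈ range n, ∑ a ∈ Ioc (a0 + i * H1) (a0 + i * H1 + H1), F a := by
  induction n with
  | zero => simp
  | succ n ih =>
    rw [sum_range_succ, ← ih]
    have h1 : a0 + (n + 1) * H1 = a0 + n * H1 + H1 := by ring
    rw [h1]
    exact (sum_Ioc_consecutive F (by omega) (by omega)).symm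

private lemma momS_cover (F : ℕ → ℝ) (hF : ∀ a, 0 ≤ F a) (a0 H H1 : ℕ) (h1 : 1 ≤ H1)
    (h2 : H1 ≤ H) :
    ∑ a ∈ Ioc a0 (a0 + H), F a
      ≤ ∑ i ∈ range (H / H1), ∑ a ∈ Ioc (a0 + i * H1) (a0 + i * H1 + H1), F a
        + ∑ a ∈ Ioc (a0 + (H - H1)) (a0 + (H - H1) + H1), F a := by
  have hle : H / H1 * H1 ≤ H := Nat.div_mul_le_self H H1
  have hlt : H < H / H1 * H1 + H1 := Nat.lt_div_mul_add (by omega)
  rw [← momS_blocks F a0 H1 (H / H1),
    ← sum_Ioc_consecutive F (show a0 ≤ a0 + H / H1 * H1 by omega)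
      (show a0 + H / H1 * H1 ≤ a0 + H by omega)]
  refine add_le_add le_rfl (sum_le_sum_of_subset_of_nonneg ?_ fun i _ _ => hF i)
  intro a ha
  rw [mem_Ioc] at ha ⊢
  omega

/-- all intervals of `a` -/
theorem momS (hH : HuxProp) (e : ℝ) (he : 0 < e) (he2 : e ≤ 1 / 100) (s C2 B : ℕ)
    (hB : 1 ≤ B) : ∃ C x0 : ℕ, ∀ x : ℕ, x0 ≤ x → ∀ a0 H Q l : ℕ, ∀ j : ℤ,
      a0 + H ≤ x → (x : ℝ) ^ (3 / 4 : ℝ) ≤ Q → (Q : ℝ) * Real.log x ^ C ≤ x →
      (x : ℝ) ^ (7 / 6 + 3 * e) ≤ Q * H →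
      (l : ℝ) ≤ Real.log x ^ B → Real.log x ^ (s + 6) ≤ l →
      (∀ k ∈ Ico j (j + l), (x : ℝ) ≤ Q * Real.log x ^ C2 * k.natAbs ∧
        2 * (Q : ℝ) * k.natAbs ≤ 3 * x) →
      ∑ q ∈ Ioc Q (2 * Q), ∑ a ∈ Ioc a0 (a0 + H),
        (∑ k ∈ Ico j (j + l), fz ⌊Real.log x ^ B⌋₊ ((a : ℤ) + q * k)) ^ 2
          ≤ Q * H * (l : ℝ) ^ 2 / Real.log x ^ s := by
  obtain ⟨C, x0, h⟩ := momA hH e he he2 s C2 B hB
  obtain ⟨x1, hx1⟩ := momS_large e he 0 2
  obtain ⟨x2, hx2⟩ := Pool.Agent.H91.EHA.log_ge 2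
  refine ⟨C, max (max x0 x1) (max x2 1), fun x hx a0 H Q l j haH hQ hQC hQH hlB hls hk => ?_⟩
  have hxx0 : x0 ≤ x := le_trans (le_trans (le_max_left _ _) (le_max_left _ _)) hx
  have hxx1 : x1 ≤ x := le_trans (le_trans (le_max_right _ _) (le_max_left _ _)) hx
  have hxx2 : x2 ≤ x := le_trans (le_trans (le_max_left _ _) (le_max_right _ _)) hx
  have hx1' : 1 ≤ x := le_trans (le_trans (le_max_right _ _) (le_max_right _ _)) hx
  have hxe := hx1 x hxx1
  rw [pow_zero, mul_one] at hxe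
  have hL := hx2 x hxx2
  have hx0R : (0 : ℝ) < x := by exact_mod_cast hx1'
  have hx1R : (1 : ℝ) ≤ x := by exact_mod_cast hx1'
  have hLpos : 0 < Real.log x := by linarith
  have hQpos : (0 : ℝ) < Q := lt_of_lt_of_le (Real.rpow_pos_of_pos hx0R _) hQ
  have hLC : (1 : ℝ) ≤ Real.log x ^ C := one_le_pow₀ (by linarith)
  have hQx : (Q : ℝ) ≤ x := by
    refine le_trans ?_ hQC
    exact le_mul_of_one_le_right hQpos.le hLC
  set W : ℝ := (x : ℝ) / Q * (x : ℝ) ^ (1 / 6 + 2 * e) with hW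
  have hW1 : 1 ≤ W := by
    have a1 : 1 ≤ (x : ℝ) / Q := by rwa [one_le_div hQpos]
    have a2 : 1 ≤ (x : ℝ) ^ (1 / 6 + 2 * e) := Real.one_le_rpow hx1R (by linarith)
    calc (1 : ℝ) = 1 * 1 := by ring
      _ ≤ W := mul_le_mul a1 a2 zero_le_one (by positivity)
  have hWQ : (x : ℝ) ^ (7 / 6 + 3 * e) = Q * ((x : ℝ) ^ e * W) := by
    have b1 : (x : ℝ) ^ (7 / 6 + 3 * e) = (x : ℝ) ^ e * ((x : ℝ) ^ (1 : ℝ) *
        (x : ℝ) ^ (1 / 6 + 2 * e)) := by
      rw [← Real.rpow_add hx0R, ← Real.rpow_add hx0R]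
      congr 1
      ring
    rw [b1, Real.rpow_one, hW]
    field_simp
  have hHW : 2 * W ≤ H := by
    rw [hWQ] at hQH
    have c1 : (x : ℝ) ^ e * W ≤ H := le_of_mul_le_mul_left hQH hQpos
    have c2 : 2 * W ≤ (x : ℝ) ^ e * W := mul_le_mul_of_nonneg_right hxe (by linarith)
    linarith
  set H1 : ℕ := ⌈W⌉₊ with hH1
  have hH1a : W ≤ (H1 : ℝ) := Nat.le_ceil W
  have hH1b : (H1 : ℝ) < W + 1 := Nat.ceil_lt_add_one (by linarith)
  have hH1c : 1 ≤ H1 := by
    have : (1 : ℝ) ≤ H1 := le_trans hW1 hH1a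
    exact_mod_cast this
  have hH1d : H1 ≤ H := by
    have : (H1 : ℝ) ≤ H := by linarith
    exact_mod_cast this
  have key : ∀ a1 : ℕ, a1 + H1 ≤ x →
      ∑ q ∈ Ioc Q (2 * Q), ∑ a ∈ Ioc a1 (a1 + H1),
        (∑ k ∈ Ico j (j + l), fz ⌊Real.log x ^ B⌋₊ ((a : ℤ) + q * k)) ^ 2
          ≤ Q * H1 * (l : ℝ) ^ 2 / Real.log x ^ (s + 1) := by
    intro a1 ha1
    exact h x hxx0 a1 H1 Q l j ha1 hQ hQC hH1a (by linarith) hlB hls hk
  have hN : H / H1 * H1 ≤ H := Nat.div_mul_le_self H H1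
  have step : ∑ q ∈ Ioc Q (2 * Q), ∑ a ∈ Ioc a0 (a0 + H),
        (∑ k ∈ Ico j (j + l), fz ⌊Real.log x ^ B⌋₊ ((a : ℤ) + q * k)) ^ 2
      ≤ ∑ i ∈ range (H / H1), ∑ q ∈ Ioc Q (2 * Q), ∑ a ∈ Ioc (a0 + i * H1) (a0 + i * H1 + H1),
        (∑ k ∈ Ico j (j + l), fz ⌊Real.log x ^ B⌋₊ ((a : ℤ) + q * k)) ^ 2
        + ∑ q ∈ Ioc Q (2 * Q), ∑ a ∈ Ioc (a0 + (H - H1)) (a0 + (H - H1) + H1),
        (∑ k ∈ Ico j (j + l), fz ⌊Real.log x ^ B⌋₊ ((a : ℤ) + q * k)) ^ 2 := by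
    rw [sum_comm (s := range (H / H1)) (t := Ioc Q (2 * Q)), ← sum_add_distrib]
    exact sum_le_sum fun q _ => momS_cover
      (fun a : ℕ => (∑ k ∈ Ico j (j + l), fz ⌊Real.log x ^ B⌋₊ ((a : ℤ) + q * k)) ^ 2)
      (fun a => sq_nonneg _) a0 H H1 hH1c hH1d
  refine step.trans ?_
  have s1 : ∑ i ∈ range (H / H1), ∑ q ∈ Ioc Q (2 * Q),
      ∑ a ∈ Ioc (a0 + i * H1) (a0 + i * H1 + H1),
        (∑ k ∈ Ico j (j + l), fz ⌊Real.log x ^ B⌋₊ ((a : ℤ) + q * k)) ^ 2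
      ≤ (H / H1 : ℕ) * (Q * H1 * (l : ℝ) ^ 2 / Real.log x ^ (s + 1)) := by
    calc _ ≤ ∑ i ∈ range (H / H1), (Q : ℝ) * H1 * (l : ℝ) ^ 2 / Real.log x ^ (s + 1) := by
          refine sum_le_sum fun i hi => key _ ?_
          rw [mem_range] at hi
          have : (i + 1) * H1 ≤ H / H1 * H1 := Nat.mul_le_mul_right _ hi
          have e1 : (i + 1) * H1 = i * H1 + H1 := by ring
          omega
      _ = _ := by rw [sum_const, card_range, nsmul_eq_mul]
  have s2 := key (a0 + (H - H1)) (by omega)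
  have hNr : ((H / H1 : ℕ) : ℝ) * H1 ≤ H := by exact_mod_cast hN
  have hH1H : (H1 : ℝ) ≤ H := by exact_mod_cast hH1d
  have hpow : 0 < Real.log x ^ s := by positivity
  calc _ ≤ ((H / H1 : ℕ) : ℝ) * (Q * H1 * (l : ℝ) ^ 2 / Real.log x ^ (s + 1))
          + Q * H1 * (l : ℝ) ^ 2 / Real.log x ^ (s + 1) := add_le_add s1 s2
    _ = (((H / H1 : ℕ) : ℝ) * H1 + H1) * (Q * (l : ℝ) ^ 2 / Real.log x ^ (s + 1)) := by ring
    _ ≤ (2 * H) * (Q * (l : ℝ) ^ 2 / Real.log x ^ (s + 1)) :=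
        mul_le_mul_of_nonneg_right (by linarith) (by positivity)
    _ = (Q * H * (l : ℝ) ^ 2 / Real.log x ^ s) * (2 / Real.log x) := by
        rw [pow_succ (Real.log x) s]
        field_simp
    _ ≤ (Q * H * (l : ℝ) ^ 2 / Real.log x ^ s) * 1 := by
        refine mul_le_mul_of_nonneg_left ?_ (by positivity)
        rw [div_le_one hLpos]
        exact hL
    _ = Q * H * (l : ℝ) ^ 2 / Real.log x ^ s := by ring

end Pool.Agent.H91.L1
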