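import Mathlib
import Pool.Agent.H91.L1.MomS

/-!
# L1 SumS: selections of residues, moduli close to `x`
-/

set_option autoImplicit false

namespace Pool.Agent.H91.L1

open Finset
open Pool.Agent.H91.EHA (Lam lamR hR psiA err)

/-- the deterministic part, selections -/
private theorem sumS_abs (R a0 H Q x l J j0 nb : ℕ) (M S2 : ℝ) (y : ℕ → ℕ → ℕ)
    (S : ℕ → Finset ℕ) (hS : ∀ q, S q ⊆ Ioc a0 (a0 + H)) (hSc : ∀ q, (S q).card ≤ nb)
    (hy : ∀ q a, y q a ≤ x) (hM0 : 0 ≤ M) (hM : ∀ n : ℕ, n ≤ 9 * x → |hR R n| ≤ M)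
    (hl : 1 ≤ l) (hJ1 : 1 ≤ J) (hJ : x ≤ Q * (J * l)) (hj : j0 ≤ J) (haH : a0 + H ≤ x)
    (hJu : 2 * (Q * (J * l)) ≤ 3 * x)
    (hseg : ∀ j : ℤ, -(J : ℤ) ≤ j → j < J → (j < -(j0 : ℤ) ∨ (j0 : ℤ) ≤ j) →
      ∑ q ∈ Ioc Q (2 * Q), ∑ a ∈ Ioc a0 (a0 + H),
        (∑ k ∈ Ico (j * l) (j * l + l), fz R ((a : ℤ) + q * k)) ^ 2 ≤ S2) :
    ∑ q ∈ Ioc Q (2 * Q), ∑ a ∈ S q,
        |∑ n ∈ (Icc 1 (y q a)).filter (fun n => n ≡ a [MOD q]), hR R n|
      ≤ Q * nb * (l * M) + Q * nb * ((2 * j0 * l) * M)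
        + 2 * J * Real.sqrt (Q * nb * S2) := by
  have hcQ : ((Ioc Q (2 * Q)).card : ℝ) = Q := by
    rw [Nat.card_Ioc]
    have : 2 * Q - Q = Q := by omega
    rw [this]
  have hl0 : (0 : ℤ) < l := by exact_mod_cast hl
  have hjl : ((j0 : ℤ) * l) ≤ (J : ℤ) * l := by
    have : (j0 : ℤ) ≤ J := by exact_mod_cast hj
    exact mul_le_mul_of_nonneg_right this (by positivity)
  -- pointwise bound
  have hfz : ∀ q ∈ Ioc Q (2 * Q), ∀ a ∈ Ioc a0 (a0 + H), ∀ k ∈ Ico (-(j0 * l : ℤ)) (j0 * l),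
      |fz R ((a : ℤ) + q * k)| ≤ M := by
    intro q hq a ha k hk
    rw [mem_Ioc] at hq ha
    rw [mem_Ico] at hk
    unfold fz
    split_ifs with h
    · apply hM
      have h1 : (q : ℤ) * k ≤ 3 * x := by
        rcases le_or_gt k 0 with h0 | h0
        · have : (q : ℤ) * k ≤ 0 := mul_nonpos_of_nonneg_of_nonpos (by positivity) h0
          have : (0 : ℤ) ≤ x := by positivity
          linarith
        · have h2 : k ≤ (J : ℤ) * l := by linarith
          have h3 : (q : ℤ) ≤ 2 * Q := by exact_mod_cast hq.2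
          calc (q : ℤ) * k ≤ (2 * Q) * (J * l) := by
                apply mul_le_mul h3 h2 h0.le (by positivity)
            _ = 2 * (Q * (J * l)) := by ring
            _ ≤ 3 * x := by exact_mod_cast hJu
      have h4 : ((a : ℕ) : ℤ) ≤ x := by
        have : a ≤ x := by omega
        exact_mod_cast this
      omega
    · rw [abs_zero]
      exact hM0
  -- cut
  have h1 : ∀ q ∈ Ioc Q (2 * Q), ∀ a ∈ S q,
      |∑ n ∈ (Icc 1 (y q a)).filter (fun n => n ≡ a [MOD q]), hR R n|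
      ≤ l * M + (2 * j0 * l) * M
        + ∑ j ∈ (Ico (-(J : ℤ)) J).filter (fun j => j < -(j0 : ℤ) ∨ (j0 : ℤ) ≤ j),
            |∑ k ∈ Ico (j * l) (j * l + l), fz R ((a : ℤ) + q * k)| := by
    intro q hq a ha'
    have ha := hS q ha'
    have hq' := hq
    have hafz := hfz q hq a ha
    rw [mem_Ioc] at hq ha
    have hJl : 1 ≤ J * l := Nat.one_le_iff_ne_zero.2 (by positivity)
    have hc := cut R q a x (y q a) l J j0 M hM0 (fun n hn => hM n (by omega)) (by omega) hl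
      (by omega) (hy q a)
      (by
        calc x ≤ Q * (J * l) := hJ
          _ < q * (J * l) := Nat.mul_lt_mul_of_pos_right hq.1 (by omega)) hj
    have h2 : ∑ k ∈ Ico (-(j0 * l : ℤ)) (j0 * l), |fz R ((a : ℤ) + q * k)|
        ≤ (2 * j0 * l) * M := by
      refine (sum_le_sum hafz).trans (le_of_eq ?_)
      rw [sum_const, nsmul_eq_mul, Int.card_Ico]
      congr 1
      have : ((j0 : ℤ) * l - -((j0 : ℤ) * l)).toNat = 2 * j0 * l := by
        have : ((j0 : ℤ) * l - -((j0 : ℤ) * l)) = ((2 * j0 * l : ℕ) : ℤ) := by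
          push_cast
          ring
        rw [this, Int.toNat_natCast]
      rw [this]
      push_cast
      ring
    linarith
  have h2 : ∑ q ∈ Ioc Q (2 * Q), ∑ a ∈ S q,
        |∑ n ∈ (Icc 1 (y q a)).filter (fun n => n ≡ a [MOD q]), hR R n|
      ≤ ∑ q ∈ Ioc Q (2 * Q), ∑ a ∈ S q,
        (l * M + (2 * j0 * l) * M
        + ∑ j ∈ (Ico (-(J : ℤ)) J).filter (fun j => j < -(j0 : ℤ) ∨ (j0 : ℤ) ≤ j),
            |∑ k ∈ Ico (j * l) (j * l + l), fz R ((a : ℤ) + q * k)|) :=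
    sum_le_sum fun q hq => sum_le_sum fun a ha => h1 q hq a ha
  refine h2.trans ?_
  have e1 : ∑ q ∈ Ioc Q (2 * Q), ∑ a ∈ S q,
        (l * M + (2 * j0 * l) * M
        + ∑ j ∈ (Ico (-(J : ℤ)) J).filter (fun j => j < -(j0 : ℤ) ∨ (j0 : ℤ) ≤ j),
            |∑ k ∈ Ico (j * l) (j * l + l), fz R ((a : ℤ) + q * k)|)
      = (∑ q ∈ Ioc Q (2 * Q), ∑ _a ∈ S q, (l * M + (2 * j0 * l) * M : ℝ))
        + ∑ j ∈ (Ico (-(J : ℤ)) J).filter (fun j => j < -(j0 : ℤ) ∨ (j0 : ℤ) ≤ j),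
            ∑ q ∈ Ioc Q (2 * Q), ∑ a ∈ S q,
            |∑ k ∈ Ico (j * l) (j * l + l), fz R ((a : ℤ) + q * k)| := by
    have f3 : ∑ j ∈ (Ico (-(J : ℤ)) J).filter (fun j => j < -(j0 : ℤ) ∨ (j0 : ℤ) ≤ j),
            ∑ q ∈ Ioc Q (2 * Q), ∑ a ∈ S q,
            |∑ k ∈ Ico (j * l) (j * l + l), fz R ((a : ℤ) + q * k)|
        = ∑ q ∈ Ioc Q (2 * Q), ∑ a ∈ S q,
          ∑ j ∈ (Ico (-(J : ℤ)) J).filter (fun j => j < -(j0 : ℤ) ∨ (j0 : ℤ) ≤ j),
            |∑ k ∈ Ico (j * l) (j * l + l), fz R ((a : ℤ) + q * k)| := by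
      rw [sum_comm]
      exact sum_congr rfl fun q _ => sum_comm
    rw [f3, ← sum_add_distrib]
    refine sum_congr rfl fun q _ => ?_
    rw [← sum_add_distrib]
  rw [e1]
  have h3 : ∑ q ∈ Ioc Q (2 * Q), ∑ _a ∈ S q, (l * M + (2 * j0 * l) * M : ℝ)
      ≤ Q * nb * (l * M) + Q * nb * ((2 * j0 * l) * M) := by
    have g1 : ∀ q ∈ Ioc Q (2 * Q), ∑ _a ∈ S q, (l * M + (2 * j0 * l) * M : ℝ)
        ≤ nb * (l * M + (2 * j0 * l) * M) := by
      intro q _
      rw [sum_const, nsmul_eq_mul]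
      apply mul_le_mul_of_nonneg_right _ (by positivity)
      exact_mod_cast hSc q
    refine (sum_le_sum g1).trans (le_of_eq ?_)
    rw [sum_const, nsmul_eq_mul, hcQ]
    ring
  -- outer segments
  have h4 : ∑ j ∈ (Ico (-(J : ℤ)) J).filter (fun j => j < -(j0 : ℤ) ∨ (j0 : ℤ) ≤ j),
            ∑ q ∈ Ioc Q (2 * Q), ∑ a ∈ S q,
            |∑ k ∈ Ico (j * l) (j * l + l), fz R ((a : ℤ) + q * k)|
      ≤ 2 * J * Real.sqrt (Q * nb * S2) := by
    have g1 : ∀ j ∈ (Ico (-(J : ℤ)) J).filter (fun j => j < -(j0 : ℤ) ∨ (j0 : ℤ) ≤ j),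
        ∑ q ∈ Ioc Q (2 * Q), ∑ a ∈ S q,
            |∑ k ∈ Ico (j * l) (j * l + l), fz R ((a : ℤ) + q * k)|
        ≤ Real.sqrt (Q * nb * S2) := by
      intro j hj'
      rw [mem_filter, mem_Ico] at hj'
      have g2 := hseg j hj'.1.1 hj'.1.2 hj'.2
      set G : ℕ → ℕ → ℝ := fun q a => ∑ k ∈ Ico (j * l) (j * l + l), fz R ((a : ℤ) + q * k)
        with hG
      have g3 : (∑ q ∈ Ioc Q (2 * Q), ∑ a ∈ S q, |G q a|) ^ 2 ≤ Q * nb * S2 := by
        rw [sum_sigma']
        have c1 := sq_sum_le_card_mul_sum_sq (s := (Ioc Q (2 * Q)).sigma S)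
          (f := fun p : (_ : ℕ) × ℕ => |G p.1 p.2|)
        refine c1.trans ?_
        have c2 : ((((Ioc Q (2 * Q)).sigma S).card : ℕ) : ℝ) ≤ Q * nb := by
          rw [card_sigma]
          push_cast
          calc ∑ q ∈ Ioc Q (2 * Q), ((S q).card : ℝ) ≤ ∑ q ∈ Ioc Q (2 * Q), (nb : ℝ) :=
                sum_le_sum fun q _ => by exact_mod_cast hSc q
            _ = Q * nb := by rw [sum_const, nsmul_eq_mul, hcQ]
        have c3 : ∑ p ∈ (Ioc Q (2 * Q)).sigma S, |G p.1 p.2| ^ 2 ≤ S2 := by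
          rw [sum_sigma]
          refine le_trans ?_ g2
          refine sum_le_sum fun q _ => ?_
          calc ∑ a ∈ S q, |G q a| ^ 2 ≤ ∑ a ∈ Ioc a0 (a0 + H), |G q a| ^ 2 :=
                sum_le_sum_of_subset_of_nonneg (hS q) fun _ _ _ => sq_nonneg _
            _ = ∑ a ∈ Ioc a0 (a0 + H), G q a ^ 2 := sum_congr rfl fun a _ => sq_abs _
        exact mul_le_mul c2 c3 (sum_nonneg fun _ _ => sq_nonneg _) (by positivity)
      have g4 : 0 ≤ ∑ q ∈ Ioc Q (2 * Q), ∑ a ∈ S q, |G q a| :=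
        sum_nonneg fun q _ => sum_nonneg fun a _ => abs_nonneg _
      rw [← Real.sqrt_sq g4]
      exact Real.sqrt_le_sqrt g3
    refine (sum_le_sum g1).trans ?_
    rw [sum_const, nsmul_eq_mul]
    apply mul_le_mul_of_nonneg_right _ (Real.sqrt_nonneg _)
    have g5 : ((Ico (-(J : ℤ)) J).filter (fun j => j < -(j0 : ℤ) ∨ (j0 : ℤ) ≤ j)).card ≤ 2 * J := by
      refine (card_filter_le _ _).trans ?_
      rw [Int.card_Ico]
      omega
    exact_mod_cast g5
  linarith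

theorem sumS (hH : HuxProp) (e : ℝ) (he : 0 < e) (he2 : e ≤ 1 / 100) (c c' : ℕ) : ∃ B0 : ℕ,
    ∀ B : ℕ, B0 ≤ B → ∃ C x0 : ℕ, ∀ x : ℕ, x0 ≤ x → ∀ a0 H Q nb : ℕ, ∀ y : ℕ → ℕ → ℕ,
      ∀ S : ℕ → Finset ℕ, (∀ q a, y q a ≤ x) →
      a0 + H ≤ x → (x : ℝ) ^ (3 / 4 : ℝ) ≤ Q → (Q : ℝ) * Real.log x ^ C ≤ x →
      (x : ℝ) ^ (7 / 6 + 3 * e) ≤ Q * H →
      (∀ q, S q ⊆ Ioc a0 (a0 + H)) → (∀ q, (S q).card ≤ nb) →
      (H : ℝ) ≤ nb * Real.log x ^ c' →
      ∑ q ∈ Ioc Q (2 * Q), ∑ a ∈ S q,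
        |∑ n ∈ (Icc 1 (y q a)).filter (fun n => n ≡ a [MOD q]), hR ⌊Real.log x ^ B⌋₊ n|
          ≤ nb * x / Real.log x ^ c := by
  refine ⟨2 * c + c' + 12, fun B hB => ?_⟩
  set s : ℕ := 2 * c + c' + 4 with hs
  set C2 : ℕ := B + c + 4 with hC2
  obtain ⟨C0, x0, hmom⟩ := momS hH e he he2 s C2 B (by omega)
  obtain ⟨x1, hx1⟩ := hR_bd B (by omega)
  obtain ⟨x4, hx4⟩ := Pool.Agent.H91.EHA.log_ge 100
  refine ⟨max C0 ((s + 7) + B + C2 + c + 20), max (max x0 x1) (max x4 2),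
    fun x hx a0 H Q nb y S hy haH hQ hQC hQH hS hSc hnb => ?_⟩
  have i0 : x0 ≤ x := le_trans (le_trans (le_max_left _ _) (le_max_left _ _)) hx
  have i1 : x1 ≤ x := le_trans (le_trans (le_max_right _ _) (le_max_left _ _)) hx
  have i4 : x4 ≤ x := le_trans (le_trans (le_max_left _ _) (le_max_right _ _)) hx
  have i8 : 2 ≤ x := le_trans (le_trans (le_max_right _ _) (le_max_right _ _)) hx
  have k0 := hmom x i0
  have k1 := hx1 x i1
  have k4 := hx4 x i4
  set R : ℕ := ⌊Real.log x ^ B⌋₊ with hR'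
  set L : ℝ := Real.log x with hL
  have hL0 : (0 : ℝ) < L := by linarith
  have hL1 : (1 : ℝ) ≤ L := by linarith
  have hx2' : (2 : ℝ) ≤ x := by exact_mod_cast i8
  have hx0 : (0 : ℝ) < x := by linarith
  have hx1' : (1 : ℝ) ≤ x := by linarith
  have hQ0 : (0 : ℝ) < Q := lt_of_lt_of_le (by positivity) hQ
  set V : ℝ := (x : ℝ) / Q with hV
  have hQV : (Q : ℝ) * V = x := by rw [hV]; field_simp
  have hV0 : 0 < V := by positivity
  have hQC0 : (Q : ℝ) * L ^ C0 ≤ x := by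
    refine le_trans ?_ hQC
    exact mul_le_mul_of_nonneg_left (pow_le_pow_right₀ hL1 (le_max_left _ _)) hQ0.le
  have hVL : L ^ ((s + 7) + B + C2 + c + 20) ≤ V := by
    rw [hV, le_div_iff₀ hQ0, mul_comm]
    refine le_trans ?_ hQC
    exact mul_le_mul_of_nonneg_left (pow_le_pow_right₀ hL1 (le_max_right _ _)) hQ0.le
  -- the segment length
  set l : ℕ := ⌊L ^ (s + 7)⌋₊ with hl
  have hLC : (1 : ℝ) ≤ L ^ (s + 7) := one_le_pow₀ hL1
  have hl1 : 1 ≤ l := Nat.le_floor (by simpa using hLC)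
  have hlr1 : (1 : ℝ) ≤ l := by exact_mod_cast hl1
  have hlr0 : (0 : ℝ) < l := by linarith
  have hlu : (l : ℝ) ≤ L ^ (s + 7) := Nat.floor_le (by positivity)
  have hlB : (l : ℝ) ≤ L ^ B := hlu.trans (pow_le_pow_right₀ hL1 (by omega))
  have hll : L ^ (s + 7) ≤ 2 * l := by
    have h1 : L ^ (s + 7) < l + 1 := Nat.lt_floor_add_one _
    linarith
  have hls : L ^ (s + 6) ≤ l := by
    have h1 : 2 * L ^ (s + 6) ≤ L ^ (s + 7) := by
      rw [pow_succ L (s + 6), mul_comm (2 : ℝ)]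
      exact mul_le_mul_of_nonneg_left (by linarith) (by positivity)
    linarith
  -- comparison of powers
  have hpow : ∀ m : ℕ, m ≤ (s + 7) + B + C2 + c + 18 → 100 * L ^ m ≤ V := by
    intro m hm
    refine le_trans ?_ hVL
    calc 100 * L ^ m ≤ L * L ^ m := mul_le_mul_of_nonneg_right k4 (by positivity)
      _ = L ^ (m + 1) := by ring
      _ ≤ _ := pow_le_pow_right₀ hL1 (by omega)
  -- `j0`
  set j0 : ℕ := ⌈V / (L ^ C2 * l)⌉₊ + 2 with hj0
  have hj0l : V / L ^ C2 + 2 * l ≤ j0 * l := by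
    have h1 : V / (L ^ C2 * l) ≤ ⌈V / (L ^ C2 * l)⌉₊ := Nat.le_ceil _
    have h2 : V / L ^ C2 = V / (L ^ C2 * l) * l := by field_simp
    rw [h2, hj0]
    push_cast
    have := mul_le_mul_of_nonneg_right h1 hlr0.le
    linarith
  have hj0u : (j0 * l : ℝ) ≤ V / L ^ C2 + 3 * l := by
    have h1 : (⌈V / (L ^ C2 * l)⌉₊ : ℝ) < V / (L ^ C2 * l) + 1 :=
      Nat.ceil_lt_add_one (by positivity)
    have h2 : V / L ^ C2 = V / (L ^ C2 * l) * l := by field_simp
    rw [h2, hj0]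
    push_cast
    have := mul_le_mul_of_nonneg_right h1.le hlr0.le
    linarith
  have h3l : 3 * (l : ℝ) ≤ V / L ^ C2 := by
    rw [le_div_iff₀ (by positivity)]
    have h1 := hpow ((s + 7) + C2) (by omega)
    calc 3 * (l : ℝ) * L ^ C2 ≤ 3 * L ^ (s + 7) * L ^ C2 := by
          apply mul_le_mul_of_nonneg_right _ (by positivity)
          linarith
      _ = 3 * L ^ ((s + 7) + C2) := by rw [pow_add L (s + 7) C2]; ring
      _ ≤ 100 * L ^ ((s + 7) + C2) := by
          apply mul_le_mul_of_nonneg_right (by norm_num) (by positivity)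
      _ ≤ V := h1
  have hVL7 : V / L ^ C2 ≤ V / 100 := by
    apply div_le_div_of_nonneg_left hV0.le (by norm_num)
    calc (100 : ℝ) ≤ L := k4
      _ = L ^ 1 := (pow_one _).symm
      _ ≤ L ^ C2 := pow_le_pow_right₀ hL1 (by omega)
  -- `J`
  set J : ℕ := ⌊V / l⌋₊ + 1 with hJ
  have hJl : V ≤ J * l := by
    have h1 : V / l < ⌊V / l⌋₊ + 1 := Nat.lt_floor_add_one _
    have h2 := (div_lt_iff₀ hlr0).1 h1
    rw [hJ]
    push_cast
    exact h2.le
  have hJu : (J : ℝ) ≤ V / l + 1 := by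
    have h1 : (⌊V / l⌋₊ : ℝ) ≤ V / l := Nat.floor_le (by positivity)
    rw [hJ]
    push_cast
    linarith
  have hlV : (l : ℝ) ≤ V / 100 := by linarith
  have hJlu : (J * l : ℝ) ≤ 3 / 2 * V := by
    have h1 := mul_le_mul_of_nonneg_right hJu hlr0.le
    have h2 : (V / l + 1) * l = V + l := by field_simp
    rw [h2] at h1
    linarith
  have hjJ : j0 ≤ J := by
    have h1 : (j0 * l : ℝ) ≤ J * l := by linarith
    have h2 : (j0 : ℝ) ≤ J := le_of_mul_le_mul_right h1 hlr0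
    exact_mod_cast h2
  have hxJ : x ≤ Q * (J * l) := by
    have h1 : (x : ℝ) ≤ Q * (J * l) := by
      rw [← hQV]
      exact mul_le_mul_of_nonneg_left hJl hQ0.le
    exact_mod_cast h1
  have hxJu : 2 * (Q * (J * l)) ≤ 3 * x := by
    have h1 : 2 * ((Q : ℝ) * (J * l)) ≤ 3 * x := by
      have h2 := mul_le_mul_of_nonneg_left hJlu hQ0.le
      rw [← hQV]
      linarith
    exact_mod_cast h1
  have hl0 : (0 : ℤ) < l := by exact_mod_cast hl1
  -- the deterministic bound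
  have hdet := sumS_abs R a0 H Q x l J j0 nb (L ^ (B + 1)) (Q * H * (l : ℝ) ^ 2 / L ^ s) y S hS
    hSc hy (by positivity) k1 hl1 (by omega) hxJ hjJ haH hxJu
    (by
      intro j hj1 hj2 hj3
      refine k0 a0 H Q l (j * l) haH hQ hQC0 hQH hlB hls ?_
      intro k hk
      rw [mem_Ico] at hk
      have b1 : -((J : ℤ) * l) ≤ j * l := by
        have := mul_le_mul_of_nonneg_right hj1 hl0.le
        linarith
      have b2 : j * l + l ≤ (J : ℤ) * l := by
        have h : j + 1 ≤ (J : ℤ) := by omega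
        have := mul_le_mul_of_nonneg_right h hl0.le
        linarith
      have hκl : (j0 * l : ℝ) ≤ k.natAbs := by
        have hh : (((j0 * l : ℕ) : ℤ)) ≤ |k| := by
          push_cast
          rcases hj3 with h | h
          · have h' : j + 1 ≤ -(j0 : ℤ) := by omega
            have h2 := mul_le_mul_of_nonneg_right h' hl0.le
            have h3 := neg_abs_le k
            linarith
          · have h2 := mul_le_mul_of_nonneg_right h hl0.le
            have h3 := le_abs_self k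
            linarith
        rw [← Int.natCast_natAbs] at hh
        exact_mod_cast hh
      have hκu : (k.natAbs : ℝ) ≤ 3 / 2 * V := by
        refine le_trans ?_ hJlu
        have hh : |k| ≤ ((J * l : ℕ) : ℤ) := by
          push_cast
          rw [abs_le]
          constructor <;> linarith
        rw [← Int.natCast_natAbs] at hh
        exact_mod_cast hh
      constructor
      · have h1 : V / L ^ C2 ≤ k.natAbs := by linarith
        rw [div_le_iff₀ (by positivity)] at h1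
        rw [← hQV]
        calc (Q : ℝ) * V ≤ Q * (k.natAbs * L ^ C2) := mul_le_mul_of_nonneg_left h1 hQ0.le
          _ = Q * L ^ C2 * k.natAbs := by ring
      · rw [← hQV]
        have h1 := mul_le_mul_of_nonneg_left hκu hQ0.le
        linarith)
  refine hdet.trans ?_
  -- the three terms
  have hxnV : (nb : ℝ) * x / L ^ c = Q * nb * (V / L ^ c) := by
    rw [← hQV]
    ring
  rw [hxnV]
  have t1 : (Q : ℝ) * nb * (l * L ^ (B + 1)) ≤ Q * nb * (V / L ^ c) / 4 := by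
    rw [mul_div_assoc]
    apply mul_le_mul_of_nonneg_left _ (by positivity)
    rw [div_div, le_div_iff₀ (by positivity)]
    have h1 := hpow ((s + 7) + (B + 1) + c) (by omega)
    calc (l : ℝ) * L ^ (B + 1) * (L ^ c * 4) ≤ L ^ (s + 7) * L ^ (B + 1) * (L ^ c * 4) := by
          apply mul_le_mul_of_nonneg_right _ (by positivity)
          exact mul_le_mul_of_nonneg_right hlu (by positivity)
      _ = 4 * L ^ ((s + 7) + (B + 1) + c) := by
          rw [pow_add L ((s + 7) + (B + 1)) c, pow_add L (s + 7) (B + 1)]; ring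
      _ ≤ 100 * L ^ ((s + 7) + (B + 1) + c) :=
          mul_le_mul_of_nonneg_right (by norm_num) (by positivity)
      _ ≤ V := h1
  have hL5 : (100 : ℝ) * L ^ c ≤ L ^ (c + 1) := by
    rw [pow_succ, mul_comm (100 : ℝ)]
    exact mul_le_mul_of_nonneg_left k4 (by positivity)
  have t2 : (Q : ℝ) * nb * ((2 * j0 * l) * L ^ (B + 1)) ≤ Q * nb * (V / L ^ c) / 4 := by
    rw [mul_div_assoc]
    apply mul_le_mul_of_nonneg_left _ (by positivity)
    have s2 : (2 * j0 * l : ℝ) ≤ 4 * (V / L ^ C2) := by linarith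
    calc (2 * j0 * l : ℝ) * L ^ (B + 1) ≤ 4 * (V / L ^ C2) * L ^ (B + 1) :=
          mul_le_mul_of_nonneg_right s2 (by positivity)
      _ = V * (4 / L ^ (c + 3)) := by
          rw [hC2, show B + c + 4 = (c + 3) + (B + 1) by ring, pow_add L (c + 3) (B + 1)]
          field_simp
      _ ≤ V * (1 / (4 * L ^ c)) := by
          apply mul_le_mul_of_nonneg_left _ (by positivity)
          rw [div_le_div_iff₀ (by positivity) (by positivity)]
          have h2 : L ^ (c + 1) ≤ L ^ (c + 3) := pow_le_pow_right₀ hL1 (by omega)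
          have h3 : (0 : ℝ) < L ^ c := by positivity
          linarith
      _ = V / L ^ c / 4 := by
          field_simp
  have t3 : 2 * (J : ℝ) * Real.sqrt (Q * nb * (Q * H * (l : ℝ) ^ 2 / L ^ s))
      ≤ Q * nb * (V / L ^ c) / 4 := by
    have s1 : Real.sqrt (Q * nb * (Q * H * (l : ℝ) ^ 2 / L ^ s)) ≤ Q * nb * l / L ^ (c + 2) := by
      rw [Real.sqrt_le_left (by positivity)]
      calc (Q : ℝ) * nb * (Q * H * (l : ℝ) ^ 2 / L ^ s)
          ≤ Q * nb * (Q * (nb * L ^ c') * (l : ℝ) ^ 2 / L ^ s) := by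
            apply mul_le_mul_of_nonneg_left _ (by positivity)
            apply div_le_div_of_nonneg_right _ (by positivity)
            apply mul_le_mul_of_nonneg_right _ (by positivity)
            exact mul_le_mul_of_nonneg_left hnb hQ0.le
        _ = (Q * nb * l / L ^ (c + 2)) ^ 2 := by
            rw [div_pow, ← pow_mul, hs, show 2 * c + c' + 4 = (c + 2) * 2 + c' by ring,
              pow_add L ((c + 2) * 2) c']
            field_simp
    have s3 : 2 * (J : ℝ) ≤ 4 * (V / l) := by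
      have : 1 ≤ V / l := by
        rw [le_div_iff₀ hlr0]
        linarith
      linarith
    calc 2 * (J : ℝ) * Real.sqrt (Q * nb * (Q * H * (l : ℝ) ^ 2 / L ^ s))
        ≤ 4 * (V / l) * (Q * nb * l / L ^ (c + 2)) :=
          mul_le_mul s3 s1 (Real.sqrt_nonneg _) (by positivity)
      _ = Q * nb * V * (4 / L ^ (c + 2)) := by
          field_simp
      _ ≤ Q * nb * V * (1 / (4 * L ^ c)) := by
          apply mul_le_mul_of_nonneg_left _ (by positivity)
          rw [div_le_div_iff₀ (by positivity) (by positivity)]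
          have h2 : L ^ (c + 1) ≤ L ^ (c + 2) := pow_le_pow_right₀ hL1 (by omega)
          have h3 : (0 : ℝ) < L ^ c := by positivity
          linarith
      _ = Q * nb * (V / L ^ c) / 4 := by
          field_simp
  have t4 : 0 ≤ (Q : ℝ) * nb * (V / L ^ c) := by positivity
  linarith

end Pool.Agent.H91.L1
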