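import Mathlib
import Pool.Agent.H91.L1.SumS
import Pool.Agent.H91.L1.PsiS
import Pool.Agent.H91.L1.PiS
import Pool.Agent.H91.EHA.Main

/-!
# L1 SelN: one dyadic interval of moduli close to `x`, selections of residues, `y` depending on `(q,a)`
-/

set_option autoImplicit false

namespace Pool.Agent.H91.L1

open Finset
open Pool.Agent.H91.EHA (Lam lamR hR psiA err)

theorem selN (hH : HuxProp) (e : ℝ) (he : 0 < e) (he2 : e ≤ 1 / 100) (c c' : ℕ) : ∃ C x0 : ℕ,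
    ∀ x : ℕ, x0 ≤ x → ∀ a0 Q H nb : ℕ, ∀ y : ℕ → ℕ → ℕ, ∀ S : ℕ → Finset ℕ,
      (∀ q a, y q a ≤ x) →
      a0 + H ≤ x → (x : ℝ) ^ (3 / 4 : ℝ) ≤ Q → (Q : ℝ) * Real.log x ^ C ≤ x →
      (x : ℝ) ^ (7 / 6 + 3 * e) ≤ Q * H →
      (∀ q, S q ⊆ Ioc a0 (a0 + H)) → (∀ q, (S q).card ≤ nb) →
      (H : ℝ) ≤ nb * Real.log x ^ c' →
      ∑ q ∈ Ioc Q (2 * Q), ∑ a ∈ (S q).filter (fun a => Nat.Coprime a q),
        |err (y q a) q (a : ZMod q)| ≤ nb * x / Real.log x ^ c := by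
  obtain ⟨B0, hB0⟩ := sumS hH e he he2 (c + 4) c'
  set B : ℕ := max B0 (c + 6) with hB
  obtain ⟨C1, x1, hx1⟩ := hB0 B (le_max_left _ _)
  obtain ⟨x2, hx2⟩ := psiS_of_hR B (c + 2) (le_max_right _ _)
  obtain ⟨x3, hx3⟩ := piS c c'
  obtain ⟨x4, hx4⟩ := Pool.Agent.H91.EHA.pnt' (c + 5)
  obtain ⟨x5, hx5⟩ := Pool.Agent.H91.EHA.log_ge 1
  refine ⟨max C1 (max (3 * B + (c + 2) + 1) (c + c' + 5)),
    max (max (max x1 x2) (max x3 x4)) (max x5 2),
    fun x hx a0 Q H nb y S hy haH hQ hQC hQH hS hSc hnb => ?_⟩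
  have i1 : x1 ≤ x := le_trans (le_trans (le_trans (le_max_left _ _) (le_max_left _ _))
    (le_max_left _ _)) hx
  have i2 : x2 ≤ x := le_trans (le_trans (le_trans (le_max_right _ _) (le_max_left _ _))
    (le_max_left _ _)) hx
  have i3 : x3 ≤ x := le_trans (le_trans (le_trans (le_max_left _ _) (le_max_right _ _))
    (le_max_left _ _)) hx
  have i4 : x4 ≤ x := le_trans (le_trans (le_trans (le_max_right _ _) (le_max_right _ _))
    (le_max_left _ _)) hx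
  have i5 : x5 ≤ x := le_trans (le_trans (le_max_left _ _) (le_max_right _ _)) hx
  have i6 : 2 ≤ x := le_trans (le_trans (le_max_right _ _) (le_max_right _ _)) hx
  have hL1 := hx5 x i5
  have hx2' : (2 : ℝ) ≤ x := by exact_mod_cast i6
  have hx0 : (0 : ℝ) < x := by linarith
  have hQ0 : (0 : ℝ) < Q := lt_of_lt_of_le (by positivity) hQ
  have hQ1 : 1 ≤ Q := by exact_mod_cast hQ0
  have hQp : ∀ m : ℕ, m ≤ max C1 (max (3 * B + (c + 2) + 1) (c + c' + 5)) →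
      (Q : ℝ) * Real.log x ^ m ≤ x := by
    intro m hm
    refine le_trans ?_ hQC
    exact mul_le_mul_of_nonneg_left (pow_le_pow_right₀ hL1 hm) hQ0.le
  refine hx3 x i3 a0 Q H nb S hS hSc hnb (by omega) (by omega) hQ1
    (hQp (c + c' + 5) (le_trans (le_max_right _ _) (le_max_right _ _)))
    (fun t ht => hx4 x i4 t ht) ?_ y hy
  intro y' hy'
  refine hx2 x i2 Q nb y' S hSc hy' hQ1
    (hQp (3 * B + (c + 2) + 1) (le_trans (le_max_left _ _) (le_max_right _ _))) ?_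
  exact hx1 x i1 a0 H Q nb y' S hy' haH hQ (hQp C1 (le_max_left _ _)) hQH hS hSc hnb

end Pool.Agent.H91.L1
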