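import Mathlib
import Pool.Agent.H91.L1.Defs
import Pool.Agent.H91.EHA.TwoB
import Pool.Agent.H91.EHA.ChB

/-!
# L1 Grid: from one `y` for all `(q,a)` to `y` depending on `(q,a)`

`m = c + 3`, `t_j = ⌊j x/L^m⌋` for `0 ≤ j ≤ ⌈L^m⌉` (so that `t_j ≤ y ≤ t_(j+1)` for some `j`, replace values `> x` by `x`).  As `psiA` is nondecreasing in `y`,
`|psiA y q a - y/φ(q)| ≤ max over the two neighbours of |psiA t q a - t/φ(q)| + (x/L^m + 1)/φ(q)`, at most the SUM over all grid points plus the same.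
Number of grid points `≤ L^m + 3`; `∑_{q ∈ (Q,2Q]} 1/φ(q) ≤ C L²`-type bound (`twob_phi` or `chB_sum_inv_totient`; if `1/φ(q) ≤ C L/q` is
used the sum over the dyadic interval is `≤ C L`), number of `a`: `H`.  If the power of `L` lost is bigger than planned, take `m` larger
(the hypothesis has room: exponent `2c + 20`).
-/

set_option autoImplicit false

namespace Pool.Agent.H91.L1

open Finset
open Pool.Agent.H91.EHA (Lam lamR hR psiA err)

private lemma Grid_mono {y z q a : ℕ} (h : y ≤ z) : psiA y q a ≤ psiA z q a := by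
  unfold psiA
  refine sum_le_sum_of_subset_of_nonneg ?_ fun n _ _ => Pool.Agent.H91.EHA.twob_lam_nonneg n
  intro n hn
  rw [mem_filter, mem_Icc] at hn ⊢
  exact ⟨⟨hn.1.1, hn.1.2.trans h⟩, hn.2⟩

/-- the grid -/
private def GridT (x N j : ℕ) : ℕ := min (j * x / N) x

private lemma Grid_point {x N y : ℕ} (hx : 1 ≤ x) (hN : 1 ≤ N) (hy : y ≤ x) :
    ∃ j : ℕ, j + 1 < N + 2 ∧ GridT x N j ≤ y ∧ y ≤ GridT x N (j + 1) ∧
      (GridT x N (j + 1) : ℝ) ≤ GridT x N j + ((x : ℝ) / N + 1) := by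
  refine ⟨y * N / x, ?_, ?_, ?_, ?_⟩
  · have h1 : y * N / x ≤ N := by
      refine Nat.div_le_of_le_mul ?_
      exact Nat.mul_le_mul_right N hy
    omega
  · unfold GridT
    refine (min_le_left _ _).trans ?_
    refine Nat.div_le_of_le_mul ?_
    have h1 : y * N / x * x ≤ y * N := Nat.div_mul_le_self _ _
    rw [mul_comm N y]
    exact h1
  · unfold GridT
    refine le_min ?_ hy
    rw [Nat.le_div_iff_mul_le (by omega)]
    have h1 : y * N < y * N / x * x + x := Nat.lt_div_mul_add (by omega)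
    have h2 : (y * N / x + 1) * x = y * N / x * x + x := by ring
    rw [h2]
    exact h1.le
  · have hN0 : (0 : ℝ) < N := by exact_mod_cast hN
    have hxN : (0 : ℝ) ≤ (x : ℝ) / N := by positivity
    unfold GridT
    set j := y * N / x
    rcases le_total (j * x / N) x with h | h
    · rw [min_eq_left h]
      have h1 : ((min ((j + 1) * x / N) x : ℕ) : ℝ) ≤ (((j + 1) * x / N : ℕ) : ℝ) := by
        exact_mod_cast min_le_left _ _
      have h2 : (((j + 1) * x / N : ℕ) : ℝ) ≤ ((j : ℝ) + 1) * x / N := by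
        have := @Nat.cast_div_le ℝ _ _ _ ((j + 1) * x) N
        push_cast at this
        exact this
      have h3 : ((j : ℝ) * x) / N < ((j * x / N : ℕ) : ℝ) + 1 := by
        rw [div_lt_iff₀ hN0]
        have h4 : j * x < j * x / N * N + N := Nat.lt_div_mul_add (by omega)
        have h5 : ((j * x : ℕ) : ℝ) < ((j * x / N * N + N : ℕ) : ℝ) := by exact_mod_cast h4
        push_cast at h5
        linarith
      have h6 : ((j : ℝ) + 1) * x / N = ((j : ℝ) * x) / N + (x : ℝ) / N := by ring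
      linarith
    · rw [min_eq_right h]
      have h1 : ((min ((j + 1) * x / N) x : ℕ) : ℝ) ≤ (x : ℝ) := by
        exact_mod_cast min_le_right _ _
      linarith

private lemma Grid_one {x N y q a : ℕ} (hx : 1 ≤ x) (hN : 1 ≤ N) (hy : y ≤ x) :
    |psiA y q a - (y : ℝ) / (q.totient : ℝ)| ≤
      ∑ i ∈ range (N + 2), |psiA (GridT x N i) q a - (GridT x N i : ℝ) / (q.totient : ℝ)|
        + ((x : ℝ) / N + 1) * (1 / (q.totient : ℝ)) := by
  obtain ⟨j, hj, h1, h2, h3⟩ := Grid_point hx hN hy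
  have hS : ∀ i, i < N + 2 → |psiA (GridT x N i) q a - (GridT x N i : ℝ) / (q.totient : ℝ)| ≤
      ∑ i ∈ range (N + 2), |psiA (GridT x N i) q a - (GridT x N i : ℝ) / (q.totient : ℝ)| :=
    fun i hi => single_le_sum (f := fun i => |psiA (GridT x N i) q a -
      (GridT x N i : ℝ) / (q.totient : ℝ)|) (fun k _ => abs_nonneg _) (mem_range.2 hi)
  have e1 := hS j (by omega)
  have e2 := hS (j + 1) hj
  have m1 : psiA (GridT x N j) q a ≤ psiA y q a := Grid_mono h1
  have m2 : psiA y q a ≤ psiA (GridT x N (j + 1)) q a := Grid_mono h2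
  have hphi : (0 : ℝ) ≤ 1 / (q.totient : ℝ) := by positivity
  have r1 : (GridT x N j : ℝ) ≤ y := by exact_mod_cast h1
  have r2 : (y : ℝ) ≤ GridT x N (j + 1) := by exact_mod_cast h2
  have d1 : ((y : ℝ) - GridT x N j) * (1 / (q.totient : ℝ)) ≤
      ((x : ℝ) / N + 1) * (1 / (q.totient : ℝ)) :=
    mul_le_mul_of_nonneg_right (by linarith) hphi
  have d2 : ((GridT x N (j + 1) : ℝ) - y) * (1 / (q.totient : ℝ)) ≤
      ((x : ℝ) / N + 1) * (1 / (q.totient : ℝ)) :=
    mul_le_mul_of_nonneg_right (by linarith) hphi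
  have a1 := neg_abs_le (psiA (GridT x N j) q a - (GridT x N j : ℝ) / (q.totient : ℝ))
  have a2 := le_abs_self (psiA (GridT x N (j + 1)) q a -
    (GridT x N (j + 1) : ℝ) / (q.totient : ℝ))
  rw [abs_le]
  have q1 : ((y : ℝ) - GridT x N j) * (1 / (q.totient : ℝ)) =
    (y : ℝ) / (q.totient : ℝ) - (GridT x N j : ℝ) / (q.totient : ℝ) := by ring
  have q2 : ((GridT x N (j + 1) : ℝ) - y) * (1 / (q.totient : ℝ)) =
    (GridT x N (j + 1) : ℝ) / (q.totient : ℝ) - (y : ℝ) / (q.totient : ℝ) := by ring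
  rw [q1] at d1
  rw [q2] at d2
  constructor
  · linarith
  · linarith

private lemma Grid_ev (c : ℕ) : ∃ x0 : ℕ, ∀ x : ℕ, x0 ≤ x → 4 ≤ Real.log x ∧
    12 * Real.log x ^ (c + 1) ≤ x := by
  have h1 : ∀ᶠ x : ℕ in Filter.atTop, 4 ≤ Real.log x :=
    (Real.tendsto_log_atTop.comp tendsto_natCast_atTop_atTop).eventually_ge_atTop 4
  have h2 : ∀ᶠ x : ℝ in Filter.atTop, ‖Real.log x ^ (c + 1)‖ ≤ 1 / 12 * ‖id x‖ :=
    (Real.isLittleO_pow_log_id_atTop (n := c + 1)).bound (by norm_num)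
  have h3 := tendsto_natCast_atTop_atTop.eventually h2
  obtain ⟨x0, hx0⟩ := Filter.eventually_atTop.mp (h1.and h3)
  refine ⟨x0, fun x hx => ?_⟩
  obtain ⟨h4, h5⟩ := hx0 x hx
  refine ⟨h4, ?_⟩
  have h6 : Real.log x ^ (c + 1) ≤ 1 / 12 * x := by
    have h7 := (le_abs_self _).trans h5
    simpa using h7
  linarith

theorem grid (c : ℕ) : ∃ x0 : ℕ, ∀ x : ℕ, x0 ≤ x → ∀ a0 Q H : ℕ, ∀ y : ℕ → ℕ → ℕ,
    (∀ q a, y q a ≤ x) → 1 ≤ Q → Q ≤ x → 1 ≤ H →
      (∀ t : ℕ, t ≤ x → ∑ q ∈ Ioc Q (2 * Q),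
        ∑ a ∈ (Ioc a0 (a0 + H)).filter (fun a => Nat.Coprime a q),
          |psiA t q a - t / (q.totient : ℝ)| ≤ H * x / Real.log x ^ (2 * c + 20)) →
      ∑ q ∈ Ioc Q (2 * Q), ∑ a ∈ (Ioc a0 (a0 + H)).filter (fun a => Nat.Coprime a q),
        |psiA (y q a) q a - (y q a : ℝ) / (q.totient : ℝ)| ≤ H * x / Real.log x ^ c := by
  obtain ⟨x0, hx0⟩ := Grid_ev c
  refine ⟨x0, fun x hx a0 Q H y hy hQ hQx hH hyp => ?_⟩
  obtain ⟨hL, hLx⟩ := hx0 x hx
  have hx1 : 1 ≤ x := le_trans hQ hQx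
  have hx1R : (1 : ℝ) ≤ x := by exact_mod_cast hx1
  have hHR : (1 : ℝ) ≤ H := by exact_mod_cast hH
  have hQR : (0 : ℝ) < Q := by exact_mod_cast hQ
  set L : ℝ := Real.log x with hLdef
  have hL0 : 0 < L := by linarith
  set N : ℕ := ⌈L ^ (c + 3)⌉₊ with hN
  have hN1 : L ^ (c + 3) ≤ (N : ℝ) := Nat.le_ceil _
  have hN2 : (N : ℝ) < L ^ (c + 3) + 1 := Nat.ceil_lt_add_one (by positivity)
  have hp1 : (1 : ℝ) ≤ L ^ (c + 3) := one_le_pow₀ (by linarith)
  have hN3 : 1 ≤ N := by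
    have : (1 : ℝ) ≤ N := hp1.trans hN1
    exact_mod_cast this
  have hN0 : (0 : ℝ) < N := by exact_mod_cast hN3
  have step : ∑ q ∈ Ioc Q (2 * Q), ∑ a ∈ (Ioc a0 (a0 + H)).filter (fun a => Nat.Coprime a q),
        |psiA (y q a) q a - (y q a : ℝ) / (q.totient : ℝ)|
      ≤ ∑ i ∈ range (N + 2), ∑ q ∈ Ioc Q (2 * Q),
          ∑ a ∈ (Ioc a0 (a0 + H)).filter (fun a => Nat.Coprime a q),
            |psiA (GridT x N i) q a - (GridT x N i : ℝ) / (q.totient : ℝ)|
        + ∑ q ∈ Ioc Q (2 * Q), ∑ a ∈ (Ioc a0 (a0 + H)).filter (fun a => Nat.Coprime a q),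
            ((x : ℝ) / N + 1) * (1 / (q.totient : ℝ)) := by
    rw [sum_comm (s := range (N + 2)) (t := Ioc Q (2 * Q)), ← sum_add_distrib]
    refine sum_le_sum fun q _ => ?_
    rw [sum_comm (s := range (N + 2)), ← sum_add_distrib]
    exact sum_le_sum fun a _ => Grid_one hx1 hN3 (hy q a)
  refine step.trans ?_
  have s1 : ∑ i ∈ range (N + 2), ∑ q ∈ Ioc Q (2 * Q),
          ∑ a ∈ (Ioc a0 (a0 + H)).filter (fun a => Nat.Coprime a q),
            |psiA (GridT x N i) q a - (GridT x N i : ℝ) / (q.totient : ℝ)|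
      ≤ ((N : ℝ) + 2) * (H * x / L ^ (2 * c + 20)) := by
    calc _ ≤ ∑ i ∈ range (N + 2), (H : ℝ) * x / L ^ (2 * c + 20) :=
          sum_le_sum fun i _ => hyp _ (min_le_right _ _)
      _ = _ := by
          rw [sum_const, card_range, nsmul_eq_mul]
          push_cast
          ring
  have s2 : ∑ q ∈ Ioc Q (2 * Q), ∑ a ∈ (Ioc a0 (a0 + H)).filter (fun a => Nat.Coprime a q),
            ((x : ℝ) / N + 1) * (1 / (q.totient : ℝ))
      ≤ H * (Q * (((x : ℝ) / N + 1) * (3 * L / Q))) := by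
    refine Pool.Agent.H91.EHA.twob_sum_le Q a0 H
      (fun q _ => ((x : ℝ) / N + 1) * (1 / (q.totient : ℝ))) _ (by positivity) ?_
    intro q hq a _
    exact mul_le_mul_of_nonneg_left
      (Pool.Agent.H91.EHA.twob_phi hQ hQx (by linarith) hq).2 (by positivity)
  have s3 : (H : ℝ) * (Q * (((x : ℝ) / N + 1) * (3 * L / Q))) = 3 * L * H * ((x : ℝ) / N + 1) := by
    field_simp
  have s4 : (x : ℝ) / N ≤ x / L ^ (c + 3) :=
    div_le_div_of_nonneg_left (by linarith) (by positivity) hN1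
  have s5 : 3 * L * H * ((x : ℝ) / L ^ (c + 3)) = (H * x / L ^ c) * (3 / L ^ 2) := by
    have : L ^ (c + 3) = L ^ c * L ^ 3 := by ring
    rw [this]
    field_simp
  have s6 : (3 : ℝ) / L ^ 2 ≤ 3 / 16 := by
    apply div_le_div_of_nonneg_left (by norm_num) (by norm_num)
    nlinarith
  have s7 : 3 * L * H ≤ (H * x / L ^ c) * (1 / 4) := by
    have t1 : (H * x / L ^ c) * (1 / 4) = H * (x / (4 * L ^ c)) := by
      field_simp
    rw [t1]
    have t2 : 3 * L ≤ x / (4 * L ^ c) := by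
      rw [le_div_iff₀ (by positivity)]
      calc 3 * L * (4 * L ^ c) = 12 * L ^ (c + 1) := by ring
        _ ≤ x := hLx
    calc 3 * L * H = H * (3 * L) := by ring
      _ ≤ H * (x / (4 * L ^ c)) := mul_le_mul_of_nonneg_left t2 (by linarith)
  have s8 : ((N : ℝ) + 2) * (H * x / L ^ (2 * c + 20)) ≤ (H * x / L ^ c) * (1 / 4) := by
    have u1 : (N : ℝ) + 2 ≤ 4 * L ^ (c + 3) := by linarith
    have u2 : (4 * L ^ (c + 3)) * (H * x / L ^ (2 * c + 20)) = (H * x / L ^ c) * (4 / L ^ 17) := by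
      have : L ^ (2 * c + 20) = L ^ (c + 3) * (L ^ c * L ^ 17) := by ring
      rw [this]
      field_simp
    have u3 : (4 : ℝ) / L ^ 17 ≤ 1 / 4 := by
      rw [div_le_div_iff₀ (by positivity) (by norm_num)]
      have : (4 : ℝ) ^ 17 ≤ L ^ 17 := pow_le_pow_left₀ (by norm_num) hL 17
      norm_num at this
      linarith
    calc ((N : ℝ) + 2) * (H * x / L ^ (2 * c + 20))
        ≤ (4 * L ^ (c + 3)) * (H * x / L ^ (2 * c + 20)) :=
          mul_le_mul_of_nonneg_right u1 (by positivity)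
      _ = (H * x / L ^ c) * (4 / L ^ 17) := u2
      _ ≤ (H * x / L ^ c) * (1 / 4) := mul_le_mul_of_nonneg_left u3 (by positivity)
  have hP : 0 ≤ (H : ℝ) * x / L ^ c := by positivity
  have s9 : 3 * L * H * ((x : ℝ) / N + 1) ≤ (H * x / L ^ c) * (3 / 16) +
      (H * x / L ^ c) * (1 / 4) := by
    calc 3 * L * H * ((x : ℝ) / N + 1) = 3 * L * H * ((x : ℝ) / N) + 3 * L * H := by ring
      _ ≤ 3 * L * H * ((x : ℝ) / L ^ (c + 3)) + 3 * L * H :=
          add_le_add (mul_le_mul_of_nonneg_left s4 (by positivity)) le_rfl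
      _ ≤ (H * x / L ^ c) * (3 / 16) + (H * x / L ^ c) * (1 / 4) := by
          rw [s5]
          exact add_le_add (mul_le_mul_of_nonneg_left s6 hP) s7
  linarith

end Pool.Agent.H91.L1
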