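import Mathlib
import Pool.Agent.H91.EHA.Final
import Pool.Agent.H76.EHB.Second
import Pool.Agent.H76.EHB.JJfin
import Pool.Agent.H76.EHB.HRm
import Pool.Agent.H76.EHB.Link
import Pool.Agent.H91.EHA.SwK3

/-!
# L1 Old: the second moment of `hR` in the range `Q A ≥ x^(1+ε)`, `Q ≤ x^θ`, all intervals `(a0, a0+A]` below `x`

`Pool.Agent.H76.EHB.T1h_of_sw` (`Pool/Agent/H76/EHB/Fin.lean`) with `a0 + A ≤ x` instead of `a0 ≤ x^θ`.  Copy that proof: the hypothesis `a0 ≤ x^θ` is only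
used for `a0 + A ≤ 2 x^θ ≤ x` (and `a0 ≤ x`).  Then `sw_h` (`EHA/SwK3.lean`) as in `EHA/Final.lean`.
-/

set_option autoImplicit false

namespace Pool.Agent.H91.L1

open Finset Filter
open Pool.Agent.H91.EHA (Lam lamR hR psiA err)
open Pool.Agent.H91.PK (ee)
open Pool.Agent.H76.EHB (JJ_bound hR_sq hR_abs S2_nonneg link JJ second_moment S2 ks ft)

private theorem Old_ev (m : ℕ) (C s : ℝ) (hs : 0 < s) :
    ∀ᶠ x : ℕ in atTop, C * Real.log x ^ m ≤ (x : ℝ) ^ s := by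
  have h := (isLittleO_log_rpow_rpow_atTop (m : ℝ) hs)
  have h2 := h.bound (show (0 : ℝ) < 1 / (|C| + 1) by positivity)
  have h3 := (tendsto_natCast_atTop_atTop (R := ℝ)).eventually h2
  filter_upwards [h3, eventually_ge_atTop 1] with x hx hx1
  have hx1' : (1 : ℝ) ≤ x := by exact_mod_cast hx1
  rw [Real.rpow_natCast, Real.norm_eq_abs, Real.norm_eq_abs,
    abs_of_nonneg (Real.rpow_nonneg (by linarith) s)] at hx
  have hC : 0 < |C| + 1 := by positivity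
  calc C * Real.log x ^ m ≤ |C * Real.log x ^ m| := le_abs_self _
    _ = |C| * |Real.log x ^ m| := abs_mul _ _
    _ ≤ (|C| + 1) * |Real.log x ^ m| := mul_le_mul_of_nonneg_right (by linarith) (abs_nonneg _)
    _ ≤ (|C| + 1) * (1 / (|C| + 1) * (x : ℝ) ^ s) := mul_le_mul_of_nonneg_left hx hC.le
    _ = (x : ℝ) ^ s := by field_simp

private theorem Old_t1 {L x a k q p1 : ℝ} {B c : ℕ} (hL : 0 < L) (hx : 0 < x) (ha : 0 < a)
    (hk : 1 ≤ k) (hq : 0 < q) (h1 : 40 * L ^ (2 * B + 2 + c) ≤ p1) (h2 : q * p1 ≤ x) :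
    2 * q * a * (L ^ (B + 1)) ^ 2 ≤ a * k * x / (20 * L ^ c) := by
  rw [le_div_iff₀ (by positivity)]
  have e : 2 * q * a * (L ^ (B + 1)) ^ 2 * (20 * L ^ c) = a * (q * (40 * L ^ (2 * B + 2 + c))) := by
    ring
  rw [e]
  have h3 : q * (40 * L ^ (2 * B + 2 + c)) ≤ x := (mul_le_mul_of_nonneg_left h1 hq.le).trans h2
  have h4 : a * (q * (40 * L ^ (2 * B + 2 + c))) ≤ a * x := mul_le_mul_of_nonneg_left h3 ha.le
  have h5 : a * x ≤ a * k * x := by nlinarith [mul_pos ha hx]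
  linarith

private theorem Old_t2 {L x a k S lk : ℝ} {c : ℕ} (hL : 1 ≤ L) (hx : 0 < x) (ha : 0 < a)
    (hk : 0 < k) (hka : k ≤ a) (hlk : lk ≤ L) (hlk0 : 0 ≤ lk) (_hS0 : 0 ≤ S) (hS : S ≤ x * L ^ 3)
    (h1 : 11520 * L ^ (c + 4) ≤ k) :
    48 * (4 * S * (k + a * (1 + lk))) ≤ a * k * x / (20 * L ^ c) := by
  have hL0 : 0 < L := by linarith
  rw [le_div_iff₀ (by positivity)]
  have h2 : k + a * (1 + lk) ≤ 3 * a * L := by nlinarith [mul_le_mul_of_nonneg_left hlk ha.le]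
  have h3 : S * (k + a * (1 + lk)) ≤ (x * L ^ 3) * (3 * a * L) :=
    mul_le_mul hS h2 (by positivity) (by positivity)
  have h4 : 48 * (4 * S * (k + a * (1 + lk))) * (20 * L ^ c) =
      (3840 * L ^ c) * (S * (k + a * (1 + lk))) := by ring
  rw [h4]
  calc (3840 * L ^ c) * (S * (k + a * (1 + lk))) ≤ (3840 * L ^ c) * ((x * L ^ 3) * (3 * a * L)) :=
        mul_le_mul_of_nonneg_left h3 (by positivity)
    _ = (a * x) * (11520 * L ^ (c + 4)) := by ring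
    _ ≤ (a * x) * k := mul_le_mul_of_nonneg_left h1 (by positivity)
    _ = a * k * x := by ring

private theorem Old_t3 {L x a k r S l2 : ℝ} {B c : ℕ} (hL : 1000 ≤ L) (hx : 0 < x) (ha : 0 < a)
    (hk : 0 < k) (hr : 0 < r) (hrL : L ^ B ≤ 2 * r) (hB : c + 6 ≤ B) (hl : 1 + l2 ≤ 2 * L)
    (hl0 : 0 ≤ 1 + l2) (_hS0 : 0 ≤ S) (hS : S ≤ x * L ^ 3) :
    48 * (128 * S * (1 + l2) * (a * k / r)) ≤ a * k * x / (20 * L ^ c) := by
  have hL0 : 0 < L := by linarith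
  rw [le_div_iff₀ (by positivity)]
  have h1 : a * k / r ≤ 2 * (a * k) / L ^ B := by
    rw [div_le_div_iff₀ hr (by positivity)]
    nlinarith [mul_le_mul_of_nonneg_left hrL (mul_pos ha hk).le]
  have h2 : S * (1 + l2) ≤ (x * L ^ 3) * (2 * L) := mul_le_mul hS hl hl0 (by positivity)
  have h3 : S * (1 + l2) * (a * k / r) ≤ (x * L ^ 3) * (2 * L) * (2 * (a * k) / L ^ B) :=
    mul_le_mul h2 h1 (by positivity) (by positivity)
  have h4 : 491520 * L ^ (c + 4) ≤ L ^ B := by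
    have h5 : L ^ (c + 6) ≤ L ^ B := pow_le_pow_right₀ (by linarith) hB
    have h6 : L ^ (c + 6) = L ^ 2 * L ^ (c + 4) := by ring
    have h7 : (491520 : ℝ) ≤ L ^ 2 := by nlinarith
    have h8 : 491520 * L ^ (c + 4) ≤ L ^ 2 * L ^ (c + 4) :=
      mul_le_mul_of_nonneg_right h7 (by positivity)
    linarith
  calc 48 * (128 * S * (1 + l2) * (a * k / r)) * (20 * L ^ c)
      = (122880 * L ^ c) * (S * (1 + l2) * (a * k / r)) := by ring
    _ ≤ (122880 * L ^ c) * ((x * L ^ 3) * (2 * L) * (2 * (a * k) / L ^ B)) :=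
        mul_le_mul_of_nonneg_left h3 (by positivity)
    _ = (a * k * x) * ((491520 * L ^ (c + 4)) / L ^ B) := by ring
    _ ≤ (a * k * x) * 1 := by
        apply mul_le_mul_of_nonneg_left _ (by positivity)
        rw [div_le_one (by positivity)]
        exact h4
    _ = a * k * x := by ring

private theorem Old_t4 {L x a k S l2 p2 : ℝ} {c : ℕ} (hL : 0 < L) (hx : 0 < x)
    (hk : 0 < k) (h1 : 491520 * L ^ (c + 4) ≤ p2) (h2 : p2 * k ≤ 2 * a) (hl : 1 + l2 ≤ 2 * L)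
    (hl0 : 0 ≤ 1 + l2) (_hS0 : 0 ≤ S) (hS : S ≤ x * L ^ 3) :
    48 * (128 * S * (1 + l2) * k ^ 2) ≤ a * k * x / (20 * L ^ c) := by
  rw [le_div_iff₀ (by positivity)]
  have h3 : S * (1 + l2) ≤ (x * L ^ 3) * (2 * L) := mul_le_mul hS hl hl0 (by positivity)
  have h5 : 245760 * L ^ (c + 4) * k ≤ a := by
    have := mul_le_mul_of_nonneg_right h1 hk.le
    linarith
  calc 48 * (128 * S * (1 + l2) * k ^ 2) * (20 * L ^ c)
      = (122880 * L ^ c * k ^ 2) * (S * (1 + l2)) := by ring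
    _ ≤ (122880 * L ^ c * k ^ 2) * ((x * L ^ 3) * (2 * L)) :=
        mul_le_mul_of_nonneg_left h3 (by positivity)
    _ = (k * x) * (245760 * L ^ (c + 4) * k) := by ring
    _ ≤ (k * x) * a := mul_le_mul_of_nonneg_left h5 (by positivity)
    _ = a * k * x := by ring

private theorem Old_t5 {L x a k r r0 S lk : ℝ} {B c : ℕ} (hL : 1000 ≤ L) (hx : 0 < x) (ha : 0 < a)
    (hk : 0 < k) (hr : 0 < r) (hrL : r ≤ L ^ B) (hr0 : 0 ≤ r0)
    (hr0' : r0 ≤ 2 * k / L ^ (2 * B + c + 6)) (hlk : lk ≤ L) (hlk0 : 0 ≤ lk)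
    (hS0 : 0 ≤ S) (hS : S ≤ x * L ^ 3) :
    48 * (r ^ 2 * (34 * a * (1 + lk) * r0 * S)) ≤ a * k * x / (20 * L ^ c) := by
  have hL0 : 0 < L := by linarith
  rw [le_div_iff₀ (by positivity)]
  have h1 : r ^ 2 ≤ (L ^ B) ^ 2 := pow_le_pow_left₀ hr.le hrL 2
  have h2 : 1 + lk ≤ 2 * L := by linarith
  have h3 : (1 + lk) * r0 ≤ (2 * L) * (2 * k / L ^ (2 * B + c + 6)) :=
    mul_le_mul h2 hr0' hr0 (by positivity)
  have h4 : (1 + lk) * r0 * S ≤ (2 * L) * (2 * k / L ^ (2 * B + c + 6)) * (x * L ^ 3) :=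
    mul_le_mul h3 hS hS0 (by positivity)
  have h5 : r ^ 2 * ((1 + lk) * r0 * S) ≤
      (L ^ B) ^ 2 * ((2 * L) * (2 * k / L ^ (2 * B + c + 6)) * (x * L ^ 3)) :=
    mul_le_mul h1 h4 (by positivity) (by positivity)
  have h6 : (130560 : ℝ) / L ^ 2 ≤ 1 := by
    rw [div_le_one (by positivity)]
    nlinarith
  have hp : L ^ (2 * B + c + 6) = (L ^ B) ^ 2 * L ^ c * L ^ 6 := by ring
  calc 48 * (r ^ 2 * (34 * a * (1 + lk) * r0 * S)) * (20 * L ^ c)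
      = (32640 * a * L ^ c) * (r ^ 2 * ((1 + lk) * r0 * S)) := by ring
    _ ≤ (32640 * a * L ^ c) * ((L ^ B) ^ 2 * ((2 * L) * (2 * k / L ^ (2 * B + c + 6)) *
          (x * L ^ 3))) := mul_le_mul_of_nonneg_left h5 (by positivity)
    _ = (a * k * x) * (130560 / L ^ 2) := by
        rw [hp]
        field_simp
        ring
    _ ≤ (a * k * x) * 1 := mul_le_mul_of_nonneg_left h6 (by positivity)
    _ = a * k * x := by ring

private theorem Old_t6 {L x a k r n S ex : ℝ} {B c : ℕ} (hL : 0 < L) (hx : 0 < x)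
    (hk : 0 < k) (hka : k ≤ a) (hr : 0 < r) (hrL : r ≤ L ^ B) (hn : 0 ≤ n) (hnx : n ≤ x)
    (hS0 : 0 ≤ S) (hS : S ≤ x * L ^ 3) (hex : 0 ≤ ex)
    (h1 : 7680 * L ^ (2 * B + 3 + c) * x * ex ≤ 1) :
    48 * (r ^ 2 * (8 * k ^ 2 * n * S * ex)) ≤ a * k * x / (20 * L ^ c) := by
  rw [le_div_iff₀ (by positivity)]
  have h2 : r ^ 2 ≤ (L ^ B) ^ 2 := pow_le_pow_left₀ hr.le hrL 2
  have h3 : n * S ≤ x * (x * L ^ 3) := mul_le_mul hnx hS hS0 hx.le
  have h4 : r ^ 2 * (n * S) ≤ (L ^ B) ^ 2 * (x * (x * L ^ 3)) :=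
    mul_le_mul h2 h3 (by positivity) (by positivity)
  calc 48 * (r ^ 2 * (8 * k ^ 2 * n * S * ex)) * (20 * L ^ c)
      = (7680 * k ^ 2 * ex * L ^ c) * (r ^ 2 * (n * S)) := by ring
    _ ≤ (7680 * k ^ 2 * ex * L ^ c) * ((L ^ B) ^ 2 * (x * (x * L ^ 3))) :=
        mul_le_mul_of_nonneg_left h4 (by positivity)
    _ = (k * k * x) * (7680 * L ^ (2 * B + 3 + c) * x * ex) := by ring
    _ ≤ (k * k * x) * 1 := mul_le_mul_of_nonneg_left h1 (by positivity)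
    _ = k * k * x := by ring
    _ ≤ a * k * x := by
        apply mul_le_mul_of_nonneg_right _ hx.le
        exact mul_le_mul_of_nonneg_right hka hk.le

private theorem Old_t7 {L x a k r U : ℝ} {B c : ℕ} (hL : 1000 ≤ L) (hx : 0 < x) (ha : 0 < a)
    (hk : 0 < k) (hr : 0 < r) (hrL : r ≤ L ^ B) (hU : U = 4 * k * x / L ^ (3 * B + c + 4)) :
    48 * (r ^ 2 * (4 * a * r * U)) ≤ a * k * x / (20 * L ^ c) := by
  have hL0 : 0 < L := by linarith
  rw [le_div_iff₀ (by positivity)]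
  subst hU
  have h1 : r ^ 3 ≤ (L ^ B) ^ 3 := pow_le_pow_left₀ hr.le hrL 3
  have h6 : (15360 : ℝ) / L ^ 4 ≤ 1 := by
    rw [div_le_one (by positivity)]
    have : (1000 : ℝ) ^ 4 ≤ L ^ 4 := pow_le_pow_left₀ (by norm_num) hL 4
    linarith
  have hp : L ^ (3 * B + c + 4) = (L ^ B) ^ 3 * L ^ c * L ^ 4 := by ring
  calc 48 * (r ^ 2 * (4 * a * r * (4 * k * x / L ^ (3 * B + c + 4)))) * (20 * L ^ c)
      = (15360 * (a * k * x) * L ^ c / L ^ (3 * B + c + 4)) * r ^ 3 := by ring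
    _ ≤ (15360 * (a * k * x) * L ^ c / L ^ (3 * B + c + 4)) * (L ^ B) ^ 3 :=
        mul_le_mul_of_nonneg_left h1 (by positivity)
    _ = (a * k * x) * (15360 / L ^ 4) := by
        rw [hp]
        field_simp
    _ ≤ (a * k * x) * 1 := mul_le_mul_of_nonneg_left h6 (by positivity)
    _ = a * k * x := by ring

set_option maxHeartbeats 4000000 in
private theorem Old_T1h_of_sw
    (hsw : ∀ B C : ℕ, ∃ x0 : ℕ, ∀ x : ℕ, x0 ≤ x → ∀ y : ℕ, y ≤ x → ∀ c b : ℕ, 1 ≤ c →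
      (c : ℝ) ≤ Real.log x ^ B → Nat.Coprime b c →
      ‖∑ n ∈ Icc 1 y, ((hR ⌊Real.log x ^ B⌋₊ n : ℝ) : ℂ) * ee ((n : ℝ) * b / c)‖ ≤ x / Real.log x ^ C)
    (th eps : ℝ) (hth : th < 1) (heps : 0 < eps) (c : ℕ) :
    ∃ B0 : ℕ, ∀ B : ℕ, B0 ≤ B → ∃ x0 : ℕ, ∀ x : ℕ, x0 ≤ x → ∀ y a0 Q A : ℕ, y ≤ x → a0 + A ≤ x → 1 ≤ A → A ≤ Q →
      (Q : ℝ) ≤ (x : ℝ) ^ th → (x : ℝ) ^ (1 + eps) ≤ Q * A →
      ∑ q ∈ Ioc Q (2 * Q), ∑ a ∈ Ioc a0 (a0 + A),
          (∑ n ∈ (Icc 1 y).filter (fun n => n ≡ a [MOD q]), hR ⌊Real.log x ^ B⌋₊ n) ^ 2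
        ≤ A * (x : ℝ) ^ 2 / (Q * Real.log x ^ c) := by
  set kap : ℝ := (1 - th) / 2 with hkapdef
  have h1th : 0 < 1 - th := by linarith
  have hkap : 0 < kap := by rw [hkapdef]; linarith
  refine ⟨c + 6, fun B hB => ?_⟩
  obtain ⟨C7, xJ, hJJ⟩ := JJ_bound kap hkap B (3 * B + c + 4)
  obtain ⟨xS, hsw'⟩ := hsw B C7
  obtain ⟨xQ, hsq⟩ := hR_sq
  have hlogt : Tendsto (fun x : ℕ => Real.log (x : ℝ)) atTop atTop :=
    Real.tendsto_log_atTop.comp tendsto_natCast_atTop_atTop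
  have hev : ∀ᶠ x : ℕ in atTop, xJ ≤ x ∧ xS ≤ x ∧ xQ ≤ x ∧ 7680 ≤ x ∧ 1000 ≤ Real.log x ∧
      2 ≤ (x : ℝ) ^ (1 - th) ∧ 40 * Real.log x ^ (2 * B + 2 + c) ≤ (x : ℝ) ^ (1 - th) ∧
      1 * Real.log x ^ (2 * B + c + 6) ≤ (x : ℝ) ^ (1 - th) ∧
      11520 * Real.log x ^ (c + 4) ≤ (x : ℝ) ^ (1 - th) ∧
      491520 * Real.log x ^ (c + 4) ≤ (x : ℝ) ^ eps ∧
      4 * Real.log x ^ (2 * B + c + 6 + 1) ≤ (x : ℝ) ^ eps ∧ 2 ≤ (x : ℝ) ^ eps ∧
      1 * Real.log x ^ (2 * B) ≤ (x : ℝ) ^ (1 : ℝ) ∧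
      1 * Real.log x ^ (2 * B + 3 + c) ≤ (x : ℝ) ^ (1 : ℝ) := by
    refine (eventually_ge_atTop xJ).and <| (eventually_ge_atTop xS).and <|
      (eventually_ge_atTop xQ).and <| (eventually_ge_atTop 7680).and <|
      (hlogt.eventually_ge_atTop 1000).and <| ?_
    refine ((Old_ev 0 2 _ h1th).mono fun x hx => by simpa using hx).and <|
      (Old_ev _ _ _ h1th).and <| (Old_ev _ _ _ h1th).and <| (Old_ev _ _ _ h1th).and <|
      (Old_ev _ _ _ heps).and <| (Old_ev _ _ _ heps).and <|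
      ((Old_ev 0 2 _ heps).mono fun x hx => by simpa using hx).and <|
      (Old_ev _ _ _ one_pos).and <| Old_ev _ _ _ one_pos
  obtain ⟨x0, hx0⟩ := eventually_atTop.1 hev
  refine ⟨x0, fun x hx y a0 Q A hyx ha0 hA1 hAQ hQx hQA => ?_⟩
  obtain ⟨hxJ, hxS, hxQ, hx7680, hL1000, hp2, hp40, hpD, hp11, he49, he4, he2, hL2B, hL2B3⟩ := hx0 x hx
  have hx1 : (1 : ℝ) ≤ x := by exact_mod_cast (show 1 ≤ x by omega)
  have hxpos : (0 : ℝ) < x := by linarith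
  rw [Real.rpow_one] at hL2B hL2B3
  set L : ℝ := Real.log x with hLdef
  have hL0 : 0 < L := by linarith
  have hQ1 : 1 ≤ Q := hA1.trans hAQ
  have hQpos : (0 : ℝ) < Q := by exact_mod_cast hQ1
  have hApos : (0 : ℝ) < A := by exact_mod_cast hA1
  -- the case `y = 0`
  rcases Nat.eq_zero_or_pos y with hy0 | hy0
  · subst hy0
    have hz : ∑ q ∈ Ioc Q (2 * Q), ∑ a ∈ Ioc a0 (a0 + A),
        (∑ n ∈ (Icc 1 0).filter (fun n => n ≡ a [MOD q]), hR ⌊L ^ B⌋₊ n) ^ 2 = 0 := by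
      simp
    rw [hz]
    positivity
  -- `p1 = x^(1-th)`, `p2 = x^eps`
  set p1 : ℝ := (x : ℝ) ^ (1 - th) with hp1def
  set p2 : ℝ := (x : ℝ) ^ eps with hp2def
  have hxth : (x : ℝ) ^ th * p1 = x := by
    rw [hp1def, ← Real.rpow_add hxpos]
    norm_num
  have hxthpos : 0 < (x : ℝ) ^ th := Real.rpow_pos_of_pos hxpos _
  have hQp1 : (Q : ℝ) * p1 ≤ x := by
    rw [← hxth]
    exact mul_le_mul_of_nonneg_right hQx (by linarith)
  have hxeps : (x : ℝ) ^ (1 + eps) = x * p2 := by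
    rw [hp2def, Real.rpow_add hxpos, Real.rpow_one]
  rw [hxeps] at hQA
  -- `K`
  obtain ⟨K, hKdef⟩ : ∃ K, K = x / Q + 1 := ⟨_, rfl⟩
  have hK1 : 1 ≤ K := by rw [hKdef]; exact Nat.le_add_left 1 _
  have hKpos : (0 : ℝ) < K := by exact_mod_cast hK1
  have hKQ : x ≤ K * Q := by
    rw [hKdef, mul_comm]
    exact (Nat.lt_mul_div_succ x hQ1).le
  have hKQr : (x : ℝ) ≤ K * Q := by exact_mod_cast hKQ
  have hK2 : (K : ℝ) * Q ≤ 2 * x := by
    have h1 : x / Q * Q ≤ x := Nat.div_mul_le_self x Q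
    have h2 : (K : ℝ) * Q = ((x / Q * Q : ℕ) : ℝ) + Q := by
      rw [hKdef]; push_cast; ring
    have h3 : ((x / Q * Q : ℕ) : ℝ) ≤ x := by exact_mod_cast h1
    have h4 : (Q : ℝ) ≤ x := by nlinarith only [hQp1, hp2, hQpos]
    linarith
  have hKp1 : p1 ≤ K := by
    have h1 : (Q : ℝ) * p1 ≤ Q * K := by linarith
    exact le_of_mul_le_mul_left h1 hQpos
  have hQ2 : 2 ≤ Q := by
    by_contra hcon
    have hQ : Q = 1 := by omega
    have hA : A = 1 := by omega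
    rw [hQ, hA] at hQA
    norm_num at hQA
    nlinarith only [hQA, he2, hx1]
  have hKx : K ≤ x := by
    rw [hKdef]
    have h1 : x / Q ≤ x / 2 := Nat.div_le_div_left hQ2 (by norm_num)
    omega
  have hkapK : (x : ℝ) ^ kap ≤ K := by
    refine le_trans ?_ hKp1
    rw [hp1def]
    apply Real.rpow_le_rpow_of_exponent_le hx1
    rw [hkapdef]; linarith
  have hKA2 : p2 * K ≤ 2 * A := by
    have h1 : (p2 * K) * Q ≤ (2 * A) * Q := by
      have h2 : p2 * (K * Q) ≤ p2 * (2 * x) := mul_le_mul_of_nonneg_left hK2 (by linarith)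
      nlinarith only [h2, hQA]
    exact le_of_mul_le_mul_right h1 hQpos
  have hKAr : (K : ℝ) ≤ A := by nlinarith only [hKA2, he2, hKpos]
  have hKA : K ≤ A := by exact_mod_cast hKAr
  -- `R`
  set R : ℕ := ⌊L ^ B⌋₊ with hRdef
  have hLB1 : 1 ≤ L ^ B := one_le_pow₀ (by linarith)
  have hR1 : 1 ≤ R := Nat.le_floor (by simpa using hLB1)
  have hRpos : (0 : ℝ) < R := by exact_mod_cast hR1
  have hRL : (R : ℝ) ≤ L ^ B := Nat.floor_le (by linarith)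
  have hRL2 : L ^ B ≤ 2 * R := by
    have h1 : L ^ B < R + 1 := Nat.lt_floor_add_one _
    have h2 : (1 : ℝ) ≤ R := by exact_mod_cast hR1
    linarith
  have hR2x : R ^ 2 ≤ x := by
    have h1 : ((R ^ 2 : ℕ) : ℝ) ≤ x := by
      push_cast
      calc (R : ℝ) ^ 2 ≤ (L ^ B) ^ 2 := pow_le_pow_left₀ hRpos.le hRL 2
        _ = 1 * L ^ (2 * B) := by ring
        _ ≤ x := hL2B
    exact_mod_cast h1
  -- `r0`
  obtain ⟨r0, hr0def⟩ : ∃ r0, r0 = ⌈(K : ℝ) / L ^ (2 * B + c + 6)⌉₊ := ⟨_, rfl⟩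
  have hKD : 0 < (K : ℝ) / L ^ (2 * B + c + 6) := by positivity
  have hr0ge : (K : ℝ) / L ^ (2 * B + c + 6) ≤ r0 := by rw [hr0def]; exact Nat.le_ceil _
  have hr0pos : (0 : ℝ) < r0 := lt_of_lt_of_le hKD hr0ge
  have hr01 : 1 ≤ r0 := by exact_mod_cast hr0pos
  have hr0le : (r0 : ℝ) ≤ 2 * K / L ^ (2 * B + c + 6) := by
    have h1 : (r0 : ℝ) < (K : ℝ) / L ^ (2 * B + c + 6) + 1 := by
      rw [hr0def]; exact Nat.ceil_lt_add_one hKD.le
    have h2 : 1 ≤ (K : ℝ) / L ^ (2 * B + c + 6) := by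
      rw [one_le_div (by positivity)]; linarith
    have h3 : 2 * (K : ℝ) / L ^ (2 * B + c + 6) = (K : ℝ) / L ^ (2 * B + c + 6) +
      (K : ℝ) / L ^ (2 * B + c + 6) := by ring
    linarith
  have hKY : K * (L / (A * r0)) ≤ 1 / 2 := by
    rw [← mul_div_assoc, div_le_iff₀ (by positivity)]
    have h1 : (K : ℝ) ≤ r0 * L ^ (2 * B + c + 6) := by
      rw [div_le_iff₀ (by positivity)] at hr0ge; exact hr0ge
    have h2 : 2 * L ^ (2 * B + c + 6 + 1) ≤ A := by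
      have : p2 * 1 ≤ p2 * K := mul_le_mul_of_nonneg_left (by exact_mod_cast hK1) (by linarith)
      linarith
    calc (K : ℝ) * L ≤ (r0 * L ^ (2 * B + c + 6)) * L := mul_le_mul_of_nonneg_right h1 hL0.le
      _ = 1 / 2 * (2 * L ^ (2 * B + c + 6 + 1) * r0) := by ring
      _ ≤ 1 / 2 * (A * r0) := by
          apply mul_le_mul_of_nonneg_left _ (by norm_num)
          exact mul_le_mul_of_nonneg_right h2 hr0pos.le
  -- the function
  have hF : ∀ n ∈ Icc 1 y, |hR R n| ≤ L ^ (B + 1) := by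
    intro n hn
    rw [Finset.mem_Icc] at hn
    have h1 := hR_abs R n x hn.1 (hn.2.trans hyx)
    have h2 : L ≤ L ^ B := by
      have : L ^ 1 ≤ L ^ B := pow_le_pow_right₀ (by linarith) (by omega)
      simpa using this
    have h3 : L ^ (B + 1) = L ^ B * L := pow_succ L B
    have h4 : L ^ B * 2 ≤ L ^ B * L := mul_le_mul_of_nonneg_left (by linarith) (by positivity)
    rw [← hLdef] at h1
    linarith
  have hS := hsq x hxQ R y hR1 hR2x hyx
  rw [← hLdef] at hS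
  have hS0 := S2_nonneg (hR R) y
  -- sums over classes
  have ha0x : a0 + A ≤ K * Q := ha0.trans hKQ
  have hlink := link (hR R) y K A Q a0 (L ^ (B + 1)) hF (by positivity) hQ1 (hyx.trans hKQ) ha0x
  -- the function `JJ`
  have hJ : ∀ d ∈ Icc 1 R, ∀ b ∈ Pool.Agent.H92.EH.red d, ∀ l ∈ range d, ∀ v : ℝ,
      JJ (hR R) y K d l ((b : ℝ) / d) (((a0 : ℤ) : ℝ) + A * v) (L / (A * r0)) ≤
        4 * K * x / L ^ (3 * B + c + 4) * (1 + |v|) ^ 2 := by
    intro d hd b hb l _ v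
    rw [Finset.mem_Icc] at hd
    rw [Pool.Agent.H92.EH.mem_red] at hb
    have hdL : (d : ℝ) ≤ L ^ B := le_trans (by exact_mod_cast hd.2) hRL
    have h1 := hJJ x hxJ (hR R) y K d l ((b : ℝ) / d) (((a0 : ℤ) : ℝ) + A * v) (L / (A * r0))
      hy0 hyx hkapK hKx hd.1 hdL (by positivity) (by linarith) hF (by
        intro u hu
        have h2 := hsw' x hxS u (hu.trans hyx) d b hd.1 hdL hb.2
        simp only [mul_div_assoc] at h2
        exact h2) hS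
    refine h1.trans ?_
    have h3 : |((a0 : ℤ) : ℝ) + A * v| / x ≤ 1 + |v| := by
      rw [div_le_iff₀ hxpos]
      have h4 : |((a0 : ℤ) : ℝ) + A * v| ≤ a0 + A * |v| := by
        refine (abs_add_le _ _).trans ?_
        rw [abs_mul, abs_of_pos hApos]
        simp
      have h5 : (a0 : ℝ) ≤ x := by exact_mod_cast (Nat.le_add_right a0 A).trans ha0
      have h6 : (A : ℝ) ≤ x := by
        have h61 : (A : ℝ) ≤ Q := by exact_mod_cast hAQ
        nlinarith only [h61, hQx, hxth, hp2, hxthpos]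
      have h7 : (A : ℝ) * |v| ≤ x * |v| := mul_le_mul_of_nonneg_right h6 (abs_nonneg v)
      linarith
    have h8 : (1 + |((a0 : ℤ) : ℝ) + A * v| / x) ^ 2 ≤ (2 * (1 + |v|)) ^ 2 := by
      apply pow_le_pow_left₀ (by positivity)
      have := abs_nonneg v
      linarith
    calc (K : ℝ) * x / L ^ (3 * B + c + 4) * (1 + |((a0 : ℤ) : ℝ) + A * v| / x) ^ 2
        ≤ K * x / L ^ (3 * B + c + 4) * (2 * (1 + |v|)) ^ 2 :=
          mul_le_mul_of_nonneg_left h8 (by positivity)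
      _ = 4 * K * x / L ^ (3 * B + c + 4) * (1 + |v|) ^ 2 := by ring
  have hsm := second_moment (hR R) y K A Q R r0 L (a0 : ℤ) hK1 hKA hR1 hr01 (by linarith) hKY
    (4 * K * x / L ^ (3 * B + c + 4)) (by positivity) hJ
  -- numerical part
  obtain ⟨lk, hlkdef⟩ : ∃ lk, lk = Real.log (K : ℝ) := ⟨_, rfl⟩
  obtain ⟨l2, hl2def⟩ : ∃ l2, l2 = Real.log (2 * (K : ℝ)) := ⟨_, rfl⟩
  obtain ⟨ex, hexdef⟩ : ∃ ex, ex = Real.exp (-L ^ 2) := ⟨_, rfl⟩
  have hK1r : (1 : ℝ) ≤ K := by exact_mod_cast hK1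
  have hKxr : (K : ℝ) ≤ x := by exact_mod_cast hKx
  have hlk0 : 0 ≤ lk := by rw [hlkdef]; exact Real.log_nonneg hK1r
  have hlkL : lk ≤ L := by rw [hlkdef]; exact Real.log_le_log hKpos hKxr
  have hl2 : l2 = Real.log 2 + lk := by
    rw [hl2def, hlkdef, Real.log_mul (by norm_num) hKpos.ne']
  have hlog2 : Real.log 2 ≤ 1 := by
    have := Real.log_two_lt_d9
    linarith
  have hlog20 : 0 ≤ Real.log 2 := Real.log_nonneg (by norm_num)
  have hexpos : 0 ≤ ex := by rw [hexdef]; exact (Real.exp_pos _).le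
  have hex1 : 7680 * L ^ (2 * B + 3 + c) * x * ex ≤ 1 := by
    have h1 : ex ≤ Real.exp (-(3 * L)) := by
      rw [hexdef]
      apply Real.exp_le_exp.2
      nlinarith only [hL1000]
    have h2 : Real.exp (-(3 * L)) * (x : ℝ) ^ 3 = 1 := by
      have h3 : (x : ℝ) ^ 3 = Real.exp (3 * L) := by
        rw [hLdef, show (3 : ℝ) * Real.log x = ((3 : ℕ) : ℝ) * Real.log x by norm_num,
          Real.exp_nat_mul, Real.exp_log hxpos]
      rw [h3, ← Real.exp_add]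
      simp
    have h4 : (7680 : ℝ) ≤ x := by exact_mod_cast hx7680
    have h5 : 7680 * L ^ (2 * B + 3 + c) * x ≤ (x : ℝ) ^ 3 := by
      have h6 : 7680 * L ^ (2 * B + 3 + c) ≤ x * x :=
        mul_le_mul h4 (by linarith) (by positivity) hxpos.le
      calc 7680 * L ^ (2 * B + 3 + c) * x ≤ (x * x) * x := mul_le_mul_of_nonneg_right h6 hxpos.le
        _ = (x : ℝ) ^ 3 := by ring
    calc 7680 * L ^ (2 * B + 3 + c) * x * ex ≤ (x : ℝ) ^ 3 * Real.exp (-(3 * L)) :=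
          mul_le_mul h5 h1 hexpos (by positivity)
      _ = 1 := by rw [mul_comm]; exact h2
  have hepi : Real.exp Real.pi ≤ 24 := by
    have h1 : Real.pi < 3.1416 := Real.pi_lt_d4
    have h2 : Real.exp Real.pi ≤ Real.exp 3.1416 := Real.exp_le_exp.2 h1.le
    have h3 : Real.exp 1 < 2.7182818286 := Real.exp_one_lt_d9
    have h4 : Real.exp (3.1416 : ℝ) = Real.exp 1 ^ 3 * Real.exp 0.1416 := by
      rw [← Real.exp_nat_mul, ← Real.exp_add]
      norm_num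
    have h5 : Real.exp (0.1416 : ℝ) ≤ 1 / (1 - 0.1416) := by
      have h6 := Real.add_one_le_exp (-(0.1416 : ℝ))
      rw [Real.exp_neg] at h6
      have h7 : 0 < Real.exp (0.1416 : ℝ) := Real.exp_pos _
      rw [le_div_iff₀ (by norm_num)]
      have h8 := mul_le_mul_of_nonneg_left h6 h7.le
      rw [mul_inv_cancel₀ h7.ne'] at h8
      linarith
    have h9 : Real.exp 1 ^ 3 ≤ 2.7182818286 ^ 3 :=
      pow_le_pow_left₀ (Real.exp_pos _).le h3.le 3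
    rw [h4] at h2
    refine h2.trans ((mul_le_mul h9 h5 (Real.exp_pos _).le (by positivity)).trans ?_)
    norm_num
  rw [← hlkdef, ← hl2def, ← hexdef] at hsm
  have ht1 := Old_t1 (L := L) (x := x) (a := A) (k := K) (q := Q) (p1 := p1) (B := B) (c := c)
    hL0 hxpos hApos hK1r hQpos hp40 hQp1
  have ht2 := Old_t2 (L := L) (x := x) (a := A) (k := K) (S := S2 (hR R) y) (lk := lk) (c := c)
    (by linarith) hxpos hApos hKpos hKAr hlkL hlk0 hS0 hS (by linarith)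
  have ht3 := Old_t3 (L := L) (x := x) (a := A) (k := K) (r := R) (S := S2 (hR R) y) (l2 := l2)
    (B := B) (c := c) hL1000 hxpos hApos hKpos hRpos hRL2 hB (by linarith) (by linarith) hS0 hS
  have ht4 := Old_t4 (L := L) (x := x) (a := A) (k := K) (S := S2 (hR R) y) (l2 := l2)
    (p2 := p2) (c := c) hL0 hxpos hKpos he49 hKA2 (by linarith) (by linarith) hS0 hS
  have ht5 := Old_t5 (L := L) (x := x) (a := A) (k := K) (r := R) (r0 := r0) (S := S2 (hR R) y)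
    (lk := lk) (B := B) (c := c) hL1000 hxpos hApos hKpos hRpos hRL hr0pos.le hr0le hlkL hlk0 hS0 hS
  have ht6 := Old_t6 (L := L) (x := x) (a := A) (k := K) (r := R) (n := y) (S := S2 (hR R) y)
    (ex := ex) (B := B) (c := c) hL0 hxpos hKpos hKAr hRpos hRL (Nat.cast_nonneg _)
    (by exact_mod_cast hyx) hS0 hS hexpos hex1
  have ht7 := Old_t7 (L := L) (x := x) (a := A) (k := K) (r := R)
    (U := 4 * K * x / L ^ (3 * B + c + 4)) (B := B) (c := c) hL1000 hxpos hApos hKpos hRpos hRL rfl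
  -- conclusion
  have hT : 10 * ((A : ℝ) * K * x / (20 * L ^ c)) ≤ A * (x : ℝ) ^ 2 / (Q * L ^ c) := by
    rw [← mul_div_assoc, div_le_div_iff₀ (by positivity) (by positivity)]
    have h1 : (A : ℝ) * x * L ^ c * (K * Q) ≤ A * x * L ^ c * (2 * x) :=
      mul_le_mul_of_nonneg_left hK2 (by positivity)
    nlinarith only [h1]
  have hw : 0 ≤ (A : ℝ) * K * x / (20 * L ^ c) := by positivity
  refine hlink.trans (le_trans ?_ hT)
  have hbig : 2 * ∑ q ∈ Ioc Q (2 * Q), ∑ a ∈ Ioc (a0 : ℤ) (a0 + A),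
      (∑ k ∈ ks K, ft (hR R) y (a + k * q)) ^ 2 ≤
      48 * (4 * S2 (hR R) y * (K + A * (1 + lk))) +
      48 * (128 * S2 (hR R) y * (1 + l2) * (A * K / R)) +
      48 * (128 * S2 (hR R) y * (1 + l2) * K ^ 2) +
      48 * (R ^ 2 * (34 * A * (1 + lk) * r0 * S2 (hR R) y)) +
      48 * (R ^ 2 * (8 * K ^ 2 * y * S2 (hR R) y * ex)) +
      48 * (R ^ 2 * (4 * A * R * (4 * K * x / L ^ (3 * B + c + 4)))) := by
    have h2 : 0 ≤ 4 * S2 (hR R) y * (K + A * (1 + lk)) +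
        128 * S2 (hR R) y * (1 + l2) * (A * K / R + K ^ 2) +
        R ^ 2 * (34 * A * (1 + lk) * r0 * S2 (hR R) y + 8 * K ^ 2 * y * S2 (hR R) y * ex +
          4 * A * R * (4 * K * x / L ^ (3 * B + c + 4))) := by
      have : 0 ≤ 1 + l2 := by linarith
      positivity
    have h3 := mul_le_mul_of_nonneg_right hepi h2
    linarith only [hsm, h3]
  linarith only [hbig, ht1, ht2, ht3, ht4, ht5, ht6, ht7, hw]

theorem t1h2 (θ ε : ℝ) (hθ : θ < 1) (hε : 0 < ε) (c : ℕ) : ∃ B0 : ℕ, ∀ B : ℕ, B0 ≤ B → ∃ x0 : ℕ,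
    ∀ x : ℕ, x0 ≤ x → ∀ y a0 Q A : ℕ, y ≤ x → a0 + A ≤ x → 1 ≤ A → A ≤ Q →
      (Q : ℝ) ≤ (x : ℝ) ^ θ → (x : ℝ) ^ (1 + ε) ≤ Q * A →
      ∑ q ∈ Ioc Q (2 * Q), ∑ a ∈ Ioc a0 (a0 + A),
        (∑ n ∈ (Icc 1 y).filter (fun n => n ≡ a [MOD q]), hR ⌊Real.log x ^ B⌋₊ n) ^ 2
          ≤ A * (x : ℝ) ^ 2 / (Q * Real.log x ^ c) :=
  Old_T1h_of_sw (fun B C => Pool.Agent.H91.EHA.sw_h B C) θ ε hθ hε c

end Pool.Agent.H91.L1
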