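import Mathlib
import Pool.Agent.H91.L1.Defs
import Pool.Agent.H92.EH3.DivBound
import Pool.Agent.H92.EH.Totient

/-!
# L1 PiY: from `ψ` to `π`, `y` depending on `(q,a)`, all `Q ≤ x/L^(c+5)`

As in `Pool/Agent/H91/EHA/FinA.lean` (`err_of_psi`; make its private lemmas available by copying them).
`T(t;q,a) = ∑_{p ≤ t, p ≡ a (q)} log p - (1/φ(q)) ∑_{p ≤ t} log p`; Abel summation: for every `y ≤ x`
`err y q a = T(y)/log y + ∑_{t=2}^{y-1} T(t)(1/log t - 1/log(t+1))` (`y ≥ 2`; `err = 0` for `y ≤ 1`), hence `|err y q a| ≤ (2/log 2) |T(t*;q,a)|` where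
`t* = t*(q,a) ≤ x` maximizes `|T(t;q,a)|`, `t ≤ x` (the coefficients are `≥ 0` with sum `1/log 2`).
`|T(t;q,a)| ≤ |psiA t q a - t/φ(q)| + |ψ(t) - t|/φ(q) + PP(q,a) + PP/φ(q)`, `PP(q,a)` the sum of `Λ(n)` over the prime powers `n = p^j ≤ x`, `j ≥ 2`,
`n ≡ a (q)`, `PP` the same without congruence, `PP ≤ √x L²`; the hypothesis `h1` is applied with `y := t*`.
`∑_{q,a} PP(q,a)`: for each prime power `n` the number of `(q,a)` with `q | n - a`: for `a ≠ n` at most `τ(|n-a|) ≤ C x^(1/4)`, for `a = n` (one `a`) at most `Q`: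
total `≤ √x L² C x^(1/4) H + Q H L` (prime powers in `(a0, a0+H]`: at most `H`, weight `≤ L`).  `Q ≤ x/L^(c+5)`.
-/

set_option autoImplicit false

namespace Pool.Agent.H91.L1

open Finset
open Pool.Agent.H91.EHA (Lam lamR hR psiA err)

/-! ### Abel summation -/

private theorem piY_abel (g : ℕ → ℝ) (h1 : g 1 = 0) (x : ℕ) (hx : 2 ≤ x) :
    ∑ n ∈ Icc 1 x, g n = (∑ n ∈ Icc 1 x, g n * Real.log n) / Real.log x +
      ∑ t ∈ Ico 2 x, (∑ n ∈ Icc 1 t, g n * Real.log n) *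
        (1 / Real.log t - 1 / Real.log ((t + 1 : ℕ) : ℝ)) := by
  induction x, hx using Nat.le_induction with
  | base =>
    have hl : Real.log ((2 : ℕ) : ℝ) ≠ 0 := (Real.log_pos (by norm_num)).ne'
    have e1 : Icc 1 2 = ({1, 2} : Finset ℕ) := by decide
    rw [Ico_self, sum_empty, add_zero, e1, sum_pair (by norm_num), sum_pair (by norm_num), h1,
      zero_mul, zero_add, zero_add, mul_div_assoc, div_self hl, mul_one]
  | succ x hx ih =>
    have hl : Real.log (((x + 1 : ℕ)) : ℝ) ≠ 0 := by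
      apply (Real.log_pos _).ne'
      exact_mod_cast (by omega : 1 < x + 1)
    have hl' : Real.log (x : ℝ) ≠ 0 := by
      apply (Real.log_pos _).ne'
      exact_mod_cast (by omega : 1 < x)
    rw [sum_Icc_succ_top (by omega), sum_Icc_succ_top (by omega), sum_Ico_succ_top hx, ih]
    field_simp
    ring

private theorem piY_tele (x : ℕ) (hx : 2 ≤ x) :
    1 / Real.log x + ∑ t ∈ Ico 2 x, (1 / Real.log t - 1 / Real.log ((t + 1 : ℕ) : ℝ)) =
      1 / Real.log 2 := by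
  induction x, hx using Nat.le_induction with
  | base => simp
  | succ x hx ih =>
    rw [sum_Ico_succ_top hx]
    linarith

/-! ### The functions -/

/-- the weight -/
private noncomputable def piY_g (q a n : ℕ) : ℝ :=
  (if n.Prime ∧ n ≡ a [MOD q] then 1 else 0) - (if n.Prime then 1 else 0) / (q.totient : ℝ)

/-- `Lam` on the numbers which are not prime -/
private noncomputable def piY_L (n : ℕ) : ℝ := if n.Prime then 0 else Lam n

/-- prime powers in the class -/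
private noncomputable def piY_pa (t q a : ℕ) : ℝ :=
  ∑ n ∈ Icc 1 t, piY_L n * if n ≡ a [MOD q] then 1 else 0

/-- prime powers -/
private noncomputable def piY_pp (t : ℕ) : ℝ := ∑ n ∈ Icc 1 t, piY_L n

private theorem piY_Lam_nonneg (n : ℕ) : 0 ≤ Lam n := ArithmeticFunction.vonMangoldt_nonneg

private theorem piY_L_nonneg (n : ℕ) : 0 ≤ piY_L n := by
  unfold piY_L
  split_ifs
  · exact le_rfl
  · exact piY_Lam_nonneg n

private theorem piY_L_le (n : ℕ) (hn : 1 ≤ n) : piY_L n ≤ Real.log n := by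
  unfold piY_L
  split_ifs
  · exact Real.log_nonneg (by exact_mod_cast hn)
  · exact ArithmeticFunction.vonMangoldt_le_log

private theorem piY_err (x q a : ℕ) :
    err x q (a : ZMod q) = ∑ n ∈ Icc 1 x, piY_g q a n := by
  unfold err piY_g
  rw [sum_sub_distrib, ← sum_div]
  congr 1
  · rw [card_filter, Nat.cast_sum]
    refine sum_congr rfl fun n _ => ?_
    by_cases h : n.Prime ∧ n ≡ a [MOD q]
    · rw [if_pos h, if_pos ⟨h.1, (ZMod.natCast_eq_natCast_iff n a q).2 h.2⟩, Nat.cast_one]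
    · rw [if_neg h, if_neg, Nat.cast_zero]
      rintro ⟨h1, h2⟩
      exact h ⟨h1, (ZMod.natCast_eq_natCast_iff n a q).1 h2⟩
  · congr 1
    have h1 : Nat.primeCounting x = ((Icc 1 x).filter Nat.Prime).card := by
      rw [Nat.primeCounting, Nat.primeCounting', Nat.count_eq_card_filter_range]
      congr 1
      ext p
      simp only [mem_filter, mem_Icc, mem_range]
      constructor
      · rintro ⟨h, hp⟩
        exact ⟨⟨hp.one_lt.le, by omega⟩, hp⟩
      · rintro ⟨⟨_, h⟩, hp⟩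
        exact ⟨by omega, hp⟩
    rw [h1, card_filter, Nat.cast_sum]
    refine sum_congr rfl fun n _ => ?_
    split_ifs <;> simp

private theorem piY_T (t q a : ℕ) :
    ∑ n ∈ Icc 1 t, piY_g q a n * Real.log n =
      (psiA t q a - t / (q.totient : ℝ)) - piY_pa t q a +
        (t - ∑ n ∈ Icc 1 t, Lam n) / (q.totient : ℝ) + piY_pp t / (q.totient : ℝ) := by
  have h1 : ∑ n ∈ Icc 1 t, piY_g q a n * Real.log n =
      ∑ n ∈ Icc 1 t, ((if n ≡ a [MOD q] then Lam n else 0) -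
        (piY_L n * if n ≡ a [MOD q] then 1 else 0) - Lam n / (q.totient : ℝ) +
        piY_L n / (q.totient : ℝ)) := by
    refine sum_congr rfl fun n _ => ?_
    unfold piY_g piY_L
    by_cases hp : n.Prime
    · have hL : Lam n = Real.log n := ArithmeticFunction.vonMangoldt_apply_prime hp
      rw [hL]
      by_cases ha : n ≡ a [MOD q]
      · simp [hp, ha]
        ring
      · simp [hp, ha]
        ring
    · by_cases ha : n ≡ a [MOD q]
      · simp [hp, ha]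
      · simp [hp, ha]
  rw [h1, sum_add_distrib, sum_sub_distrib, sum_sub_distrib, ← sum_div, ← sum_div]
  unfold psiA piY_pa piY_pp
  rw [sum_filter]
  ring

private theorem piY_abs (t q a : ℕ) :
    |∑ n ∈ Icc 1 t, piY_g q a n * Real.log n| ≤
      |psiA t q a - t / (q.totient : ℝ)| + piY_pa t q a +
        (|(∑ n ∈ Icc 1 t, Lam n) - t| + piY_pp t) * (1 / (q.totient : ℝ)) := by
  have hpa : 0 ≤ piY_pa t q a := sum_nonneg fun n _ =>
    mul_nonneg (piY_L_nonneg n) (by split_ifs <;> norm_num)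
  have hpp : 0 ≤ piY_pp t := sum_nonneg fun n _ => piY_L_nonneg n
  have hq : 0 ≤ 1 / (q.totient : ℝ) := by positivity
  rw [piY_T]
  have h1 : (t - ∑ n ∈ Icc 1 t, Lam n) / (q.totient : ℝ) =
      (t - ∑ n ∈ Icc 1 t, Lam n) * (1 / (q.totient : ℝ)) := by ring
  have h2 : piY_pp t / (q.totient : ℝ) = piY_pp t * (1 / (q.totient : ℝ)) := by ring
  rw [h1, h2]
  have h3 : |(t - ∑ n ∈ Icc 1 t, Lam n) * (1 / (q.totient : ℝ))| =
      |(∑ n ∈ Icc 1 t, Lam n) - t| * (1 / (q.totient : ℝ)) := by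
    rw [abs_mul, abs_of_nonneg hq, abs_sub_comm]
  have h4 : 0 ≤ piY_pp t * (1 / (q.totient : ℝ)) := mul_nonneg hpp hq
  have h5 := neg_abs_le (psiA t q a - t / (q.totient : ℝ))
  have h6 := le_abs_self (psiA t q a - t / (q.totient : ℝ))
  have h7 := neg_abs_le ((t - ∑ n ∈ Icc 1 t, Lam n) * (1 / (q.totient : ℝ)))
  have h8 := le_abs_self ((t - ∑ n ∈ Icc 1 t, Lam n) * (1 / (q.totient : ℝ)))
  rw [h3] at h7 h8
  rw [abs_le]
  constructor <;> nlinarith

/-! ### The prime powers -/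

private theorem piY_pp_nonneg (t : ℕ) : 0 ≤ piY_pp t := sum_nonneg fun n _ => piY_L_nonneg n

private theorem piY_pp_le (t x : ℕ) (htx : t ≤ x) (hx : 1 ≤ x) :
    piY_pp t ≤ 2 * Real.sqrt x * Real.log x := by
  have h1 : piY_pp t ≤ piY_pp x :=
    sum_le_sum_of_subset_of_nonneg (Icc_subset_Icc_right htx) fun n _ _ => piY_L_nonneg n
  refine h1.trans ?_
  have h2 := Chebyshev.psi_sub_theta_le (x := (x : ℝ)) (by exact_mod_cast hx)
  rw [Chebyshev.psi_sub_theta_eq_sum_not_prime, Nat.floor_natCast] at h2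
  refine le_trans (le_of_eq ?_) h2
  unfold piY_pp piY_L Lam
  rw [sum_filter]
  simp only [ite_not]
  rfl

private theorem piY_count (C : ℝ) (hC : 1 ≤ C)
    (hdiv : ∀ n : ℕ, 1 ≤ n → (n.divisors.card : ℝ) ≤ C * (n : ℝ) ^ (1 / 4 : ℝ))
    (x a0 Q H n : ℕ) (ha0 : a0 ≤ x) (hH : H ≤ x) (hn : n ≤ x) :
    (∑ q ∈ Ioc Q (2 * Q), ∑ a ∈ (Ioc a0 (a0 + H)).filter (fun a => Nat.Coprime a q),
      if n ≡ a [MOD q] then (1 : ℝ) else 0) ≤
        H * (C * (2 * x : ℝ) ^ (1 / 4 : ℝ)) + (if n ∈ Ioc a0 (a0 + H) then (Q : ℝ) else 0) := by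
  have h1 : (∑ q ∈ Ioc Q (2 * Q), ∑ a ∈ (Ioc a0 (a0 + H)).filter (fun a => Nat.Coprime a q),
      if n ≡ a [MOD q] then (1 : ℝ) else 0) ≤
      ∑ q ∈ Ioc Q (2 * Q), ∑ a ∈ Ioc a0 (a0 + H), if n ≡ a [MOD q] then (1 : ℝ) else 0 := by
    refine sum_le_sum fun q _ => ?_
    refine sum_le_sum_of_subset_of_nonneg (filter_subset _ _) fun a _ _ => ?_
    split_ifs <;> norm_num
  refine h1.trans ?_
  rw [sum_comm]
  have h2 : ∀ a ∈ Ioc a0 (a0 + H), (∑ q ∈ Ioc Q (2 * Q), if n ≡ a [MOD q] then (1 : ℝ) else 0) ≤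
      C * (2 * x : ℝ) ^ (1 / 4 : ℝ) + if a = n then (Q : ℝ) else 0 := by
    intro a ha
    rw [mem_Ioc] at ha
    have hnn : 0 ≤ C * (2 * x : ℝ) ^ (1 / 4 : ℝ) := by positivity
    by_cases han : a = n
    · rw [if_pos han]
      have h3 : (∑ q ∈ Ioc Q (2 * Q), if n ≡ a [MOD q] then (1 : ℝ) else 0) ≤
          ∑ q ∈ Ioc Q (2 * Q), (1 : ℝ) := sum_le_sum fun q _ => by split_ifs <;> norm_num
      have h4 : ∑ q ∈ Ioc Q (2 * Q), (1 : ℝ) = Q := by
        rw [sum_const, Nat.card_Ioc, nsmul_eq_mul, mul_one]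
        congr 1
        omega
      linarith
    · rw [if_neg han, add_zero]
      have hz : ((a : ℤ) - n).natAbs ≠ 0 := by omega
      have h3 : (∑ q ∈ Ioc Q (2 * Q), if n ≡ a [MOD q] then (1 : ℝ) else 0) =
          (((Ioc Q (2 * Q)).filter fun q => n ≡ a [MOD q]).card : ℝ) := by
        rw [card_filter, Nat.cast_sum]
        refine sum_congr rfl fun q _ => ?_
        split_ifs <;> simp
      have h4 : ((Ioc Q (2 * Q)).filter fun q => n ≡ a [MOD q]).card ≤
          ((a : ℤ) - n).natAbs.divisors.card := by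
        refine card_le_card fun q hq => ?_
        rw [mem_filter] at hq
        rw [Nat.mem_divisors]
        refine ⟨?_, hz⟩
        have h5 := (Nat.modEq_iff_dvd).1 hq.2
        exact Int.natCast_dvd.1 h5
      have h5 := hdiv _ (Nat.one_le_iff_ne_zero.2 hz)
      have h6 : ((((a : ℤ) - n).natAbs : ℕ) : ℝ) ≤ 2 * x := by
        have : ((a : ℤ) - n).natAbs ≤ 2 * x := by omega
        exact_mod_cast this
      have h7 : ((((a : ℤ) - n).natAbs : ℕ) : ℝ) ^ (1 / 4 : ℝ) ≤ (2 * x : ℝ) ^ (1 / 4 : ℝ) :=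
        Real.rpow_le_rpow (Nat.cast_nonneg _) h6 (by norm_num)
      rw [h3]
      calc (((Ioc Q (2 * Q)).filter fun q => n ≡ a [MOD q]).card : ℝ)
          ≤ (((a : ℤ) - n).natAbs.divisors.card : ℝ) := by exact_mod_cast h4
        _ ≤ _ := h5
        _ ≤ _ := mul_le_mul_of_nonneg_left h7 (by linarith)
  refine (sum_le_sum h2).trans ?_
  rw [sum_add_distrib, sum_const, Nat.card_Ioc, sum_ite_eq', nsmul_eq_mul]
  have h8 : a0 + H - a0 = H := by omega
  rw [h8]

private theorem piY_pa_le (C : ℝ) (hC : 1 ≤ C)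
    (hdiv : ∀ n : ℕ, 1 ≤ n → (n.divisors.card : ℝ) ≤ C * (n : ℝ) ^ (1 / 4 : ℝ))
    (x a0 Q H t : ℕ) (hx : 1 ≤ x) (ha0 : a0 ≤ x) (hH : H ≤ x) (ht : t ≤ x) :
    (∑ q ∈ Ioc Q (2 * Q), ∑ a ∈ (Ioc a0 (a0 + H)).filter (fun a => Nat.Coprime a q),
      piY_pa t q a) ≤
        2 * Real.sqrt x * Real.log x * (H * (C * (2 * x : ℝ) ^ (1 / 4 : ℝ))) +
          Q * (H * Real.log x) := by
  have hK : 0 ≤ H * (C * (2 * x : ℝ) ^ (1 / 4 : ℝ)) := by positivity
  have hx' : (1 : ℝ) ≤ x := by exact_mod_cast hx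
  have hlog : 0 ≤ Real.log x := Real.log_nonneg hx'
  have h1 : (∑ q ∈ Ioc Q (2 * Q), ∑ a ∈ (Ioc a0 (a0 + H)).filter (fun a => Nat.Coprime a q),
      piY_pa t q a) =
      ∑ n ∈ Icc 1 t, piY_L n *
        ∑ q ∈ Ioc Q (2 * Q), ∑ a ∈ (Ioc a0 (a0 + H)).filter (fun a => Nat.Coprime a q),
          (if n ≡ a [MOD q] then (1 : ℝ) else 0) := by
    unfold piY_pa
    simp only [mul_sum]
    have e1 : ∀ q ∈ Ioc Q (2 * Q), (∑ a ∈ (Ioc a0 (a0 + H)).filter (fun a => Nat.Coprime a q),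
        ∑ n ∈ Icc 1 t, piY_L n * (if n ≡ a [MOD q] then (1 : ℝ) else 0)) =
        ∑ n ∈ Icc 1 t, ∑ a ∈ (Ioc a0 (a0 + H)).filter (fun a => Nat.Coprime a q),
          piY_L n * (if n ≡ a [MOD q] then (1 : ℝ) else 0) := fun q _ => sum_comm
    rw [sum_congr rfl e1, sum_comm]
  rw [h1]
  have h2 : ∀ n ∈ Icc 1 t, piY_L n *
        (∑ q ∈ Ioc Q (2 * Q), ∑ a ∈ (Ioc a0 (a0 + H)).filter (fun a => Nat.Coprime a q),
          (if n ≡ a [MOD q] then (1 : ℝ) else 0)) ≤
        piY_L n * (H * (C * (2 * x : ℝ) ^ (1 / 4 : ℝ))) +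
          (if n ∈ Ioc a0 (a0 + H) then Q * Real.log x else 0) := by
    intro n hn
    rw [mem_Icc] at hn
    have h3 := piY_count C hC hdiv x a0 Q H n ha0 hH (hn.2.trans ht)
    have h5 : piY_L n ≤ Real.log x := by
      refine (piY_L_le n hn.1).trans ?_
      exact Real.log_le_log (by exact_mod_cast hn.1) (by exact_mod_cast hn.2.trans ht)
    refine (mul_le_mul_of_nonneg_left h3 (piY_L_nonneg n)).trans ?_
    rw [mul_add]
    refine add_le_add le_rfl ?_
    split_ifs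
    · rw [mul_comm]
      exact mul_le_mul_of_nonneg_left h5 (Nat.cast_nonneg _)
    · simp
  refine (sum_le_sum h2).trans ?_
  rw [sum_add_distrib, ← sum_mul]
  refine add_le_add (mul_le_mul_of_nonneg_right (piY_pp_le t x ht hx) hK) ?_
  have h6 : (∑ n ∈ Icc 1 t, if n ∈ Ioc a0 (a0 + H) then (Q : ℝ) * Real.log x else 0) ≤
      ∑ n ∈ Ioc a0 (a0 + H), (Q : ℝ) * Real.log x := by
    rw [← sum_filter]
    refine sum_le_sum_of_subset_of_nonneg ?_ fun _ _ _ => by positivity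
    intro n hn
    exact (mem_filter.1 hn).2
  refine h6.trans (le_of_eq ?_)
  rw [sum_const, Nat.card_Ioc, nsmul_eq_mul]
  have h8 : a0 + H - a0 = H := by omega
  rw [h8]
  ring

private theorem piY_phi (x Q H a0 : ℕ) (hL : 1 ≤ Real.log x) (hQ : 1 ≤ Q) (hQx : Q ≤ x) :
    (∑ q ∈ Ioc Q (2 * Q), ∑ _a ∈ (Ioc a0 (a0 + H)).filter (fun a => Nat.Coprime a q),
      (1 / (q.totient : ℝ))) ≤ H * (4 * Real.log x) := by
  have hQ' : (0 : ℝ) < Q := by exact_mod_cast hQ
  have h1 : ∀ q ∈ Ioc Q (2 * Q), (∑ _a ∈ (Ioc a0 (a0 + H)).filter (fun a => Nat.Coprime a q),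
      (1 / (q.totient : ℝ))) ≤ H * (4 * Real.log x) / Q := by
    intro q hq
    rw [mem_Ioc] at hq
    have hq0 : 0 < q := by omega
    have hphi : (0 : ℝ) < q.totient := by exact_mod_cast Nat.totient_pos.2 hq0
    have hcard : (((Ioc a0 (a0 + H)).filter (fun a => Nat.Coprime a q)).card : ℝ) ≤ H := by
      have : ((Ioc a0 (a0 + H)).filter (fun a => Nat.Coprime a q)).card ≤ H := by
        refine (card_filter_le _ _).trans ?_
        rw [Nat.card_Ioc]
        omega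
      exact_mod_cast this
    have h2 : (q : ℝ) ≤ q.totient * (4 * Real.log x) := by
      refine (Pool.Agent.H92.EH.le_totient_mul q).trans ?_
      refine mul_le_mul_of_nonneg_left ?_ hphi.le
      have h3 : (q.primeFactors.card : ℝ) ≤ Nat.log 2 q := by
        exact_mod_cast Pool.Agent.H92.EH.card_primeFactors_le q
      have h4 : ((Nat.log 2 q : ℕ) : ℝ) ≤ Real.logb 2 q := by
        have := Real.natLog_le_logb q 2
        exact_mod_cast this
      have h5 : Real.log q ≤ Real.log 2 + Real.log x := by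
        rw [← Real.log_mul (by norm_num) (by
          have : 0 < x := by omega
          positivity)]
        refine Real.log_le_log (by exact_mod_cast hq0) ?_
        have : q ≤ 2 * x := by omega
        exact_mod_cast this
      have hl2 : 0.6931 < Real.log 2 := by
        have := Real.log_two_gt_d9
        linarith
      have h6 : Real.logb 2 q ≤ 1 + 1.5 * Real.log x := by
        rw [Real.logb, div_le_iff₀ (by linarith)]
        nlinarith
      linarith
    rw [sum_const, nsmul_eq_mul, mul_one_div, div_le_div_iff₀ hphi hQ']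
    have h7 : (Q : ℝ) ≤ q.totient * (4 * Real.log x) := by
      refine le_trans ?_ h2
      exact_mod_cast hq.1.le
    calc (((Ioc a0 (a0 + H)).filter (fun a => Nat.Coprime a q)).card : ℝ) * Q
        ≤ H * (q.totient * (4 * Real.log x)) :=
          mul_le_mul hcard h7 hQ'.le (Nat.cast_nonneg _)
      _ = H * (4 * Real.log x) * q.totient := by ring
  refine (sum_le_sum h1).trans (le_of_eq ?_)
  rw [sum_const, Nat.card_Ioc, nsmul_eq_mul]
  have h8 : 2 * Q - Q = Q := by omega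
  rw [h8]
  field_simp

private theorem piY_ev (K δ : ℝ) (hδ : 0 < δ) (k : ℕ) :
    ∀ᶠ x : ℕ in Filter.atTop, K * Real.log x ^ k ≤ (x : ℝ) ^ δ := by
  have hK : 0 < |K| + 1 := by positivity
  have h1 := (isLittleO_log_rpow_rpow_atTop (k : ℝ) hδ).def (c := 1 / (|K| + 1)) (by positivity)
  have h2 := tendsto_natCast_atTop_atTop (R := ℝ) |>.eventually h1
  filter_upwards [h2] with x hx
  rw [Real.rpow_natCast, Real.norm_eq_abs, Real.norm_eq_abs,
    abs_of_nonneg (Real.rpow_nonneg (Nat.cast_nonneg x) δ), one_div, ← div_eq_inv_mul,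
    le_div_iff₀ hK] at hx
  have h3 : K * Real.log x ^ k ≤ |K| * |Real.log x ^ k| := by
    rw [← abs_mul]
    exact le_abs_self _
  have h4 : 0 ≤ |Real.log (x : ℝ) ^ k| := abs_nonneg _
  linarith


private theorem piY_pa_mono (t x q a : ℕ) (h : t ≤ x) : piY_pa t q a ≤ piY_pa x q a := by
  unfold piY_pa
  refine sum_le_sum_of_subset_of_nonneg (Icc_subset_Icc_right h) fun n _ _ => ?_
  exact mul_nonneg (piY_L_nonneg n) (by split_ifs <;> norm_num)

private theorem piY_S (Q H a0 x : ℕ) (K : ℝ) (tt : ℕ → ℕ → ℕ) (htt : ∀ q a, tt q a ≤ x)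
    (hK : ∀ t : ℕ, t ≤ x → |(∑ n ∈ Icc 1 t, Lam n) - t| + piY_pp t ≤ K) :
    (∑ q ∈ Ioc Q (2 * Q), ∑ a ∈ (Ioc a0 (a0 + H)).filter (fun a => Nat.Coprime a q),
      |∑ n ∈ Icc 1 (tt q a), piY_g q a n * Real.log n|) ≤
    (∑ q ∈ Ioc Q (2 * Q), ∑ a ∈ (Ioc a0 (a0 + H)).filter (fun a => Nat.Coprime a q),
      |psiA (tt q a) q a - (tt q a : ℝ) / (q.totient : ℝ)|) +
    (∑ q ∈ Ioc Q (2 * Q), ∑ a ∈ (Ioc a0 (a0 + H)).filter (fun a => Nat.Coprime a q),
      piY_pa x q a) +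
    K *
      ∑ q ∈ Ioc Q (2 * Q), ∑ _a ∈ (Ioc a0 (a0 + H)).filter (fun a => Nat.Coprime a q),
        (1 / (q.totient : ℝ)) := by
  rw [mul_sum, ← sum_add_distrib, ← sum_add_distrib]
  refine sum_le_sum fun q _ => ?_
  rw [mul_sum, ← sum_add_distrib, ← sum_add_distrib]
  refine sum_le_sum fun a _ => ?_
  have h1 := piY_abs (tt q a) q a
  have h2 := piY_pa_mono (tt q a) x q a (htt q a)
  have h3 : (|(∑ n ∈ Icc 1 (tt q a), Lam n) - (tt q a : ℝ)| + piY_pp (tt q a)) *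
      (1 / (q.totient : ℝ)) ≤ K * (1 / (q.totient : ℝ)) :=
    mul_le_mul_of_nonneg_right (hK _ (htt q a)) (by positivity)
  linarith

private theorem piY_err_le (x y q a : ℕ) (hy : y ≤ x) (M : ℝ)
    (hM : ∀ t : ℕ, t ≤ x → |∑ n ∈ Icc 1 t, piY_g q a n * Real.log n| ≤ M) :
    |err y q (a : ZMod q)| ≤ M * (1 / Real.log 2) := by
  have hM0 : 0 ≤ M := (abs_nonneg _).trans (hM 0 (Nat.zero_le _))
  have hl2 : 0 < Real.log 2 := Real.log_pos (by norm_num)
  rcases Nat.lt_or_ge y 2 with h | h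
  · have h0 : err y q (a : ZMod q) = 0 := by
      rw [piY_err]
      interval_cases y
      · simp
      · simp [piY_g, Nat.not_prime_one]
    rw [h0, abs_zero]
    positivity
  · have hly : 0 < Real.log y := Real.log_pos (by exact_mod_cast (by omega : 1 < y))
    have hw : ∀ t ∈ Ico 2 y, 0 ≤ 1 / Real.log t - 1 / Real.log ((t + 1 : ℕ) : ℝ) := by
      intro t ht
      rw [mem_Ico] at ht
      have h1 : 0 < Real.log t := Real.log_pos (by exact_mod_cast (by omega : 1 < t))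
      have h2 : Real.log t ≤ Real.log ((t + 1 : ℕ) : ℝ) :=
        Real.log_le_log (by exact_mod_cast (by omega : 0 < t)) (by exact_mod_cast Nat.le_succ t)
      rw [sub_nonneg]
      exact one_div_le_one_div_of_le h1 h2
    rw [piY_err, piY_abel (piY_g q a) (by simp [piY_g, Nat.not_prime_one]) y h,
      ← piY_tele y h, mul_add, mul_sum]
    refine (abs_add_le _ _).trans (add_le_add ?_ ?_)
    · rw [abs_div, abs_of_pos hly, ← mul_one_div]
      exact mul_le_mul_of_nonneg_right (hM y hy) (by positivity)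
    · refine (abs_sum_le_sum_abs _ _).trans (sum_le_sum fun t ht => ?_)
      rw [abs_mul, abs_of_nonneg (hw t ht)]
      refine mul_le_mul_of_nonneg_right (hM t ?_) (hw t ht)
      rw [mem_Ico] at ht
      omega

theorem piY (c : ℕ) : ∃ x0 : ℕ, ∀ x : ℕ, x0 ≤ x → ∀ a0 Q H : ℕ, a0 ≤ x → 1 ≤ H → H ≤ x → 1 ≤ Q →
      (Q : ℝ) * Real.log x ^ (c + 5) ≤ x →
      (∀ t : ℕ, t ≤ x → |(∑ n ∈ Icc 1 t, Lam n) - t| ≤ x / Real.log x ^ (c + 5)) →
      (∀ y : ℕ → ℕ → ℕ, (∀ q a, y q a ≤ x) → ∑ q ∈ Ioc Q (2 * Q),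
        ∑ a ∈ (Ioc a0 (a0 + H)).filter (fun a => Nat.Coprime a q),
          |psiA (y q a) q a - (y q a : ℝ) / (q.totient : ℝ)| ≤ H * x / Real.log x ^ (c + 2)) →
      ∀ y : ℕ → ℕ → ℕ, (∀ q a, y q a ≤ x) →
      ∑ q ∈ Ioc Q (2 * Q), ∑ a ∈ (Ioc a0 (a0 + H)).filter (fun a => Nat.Coprime a q),
        |err (y q a) q (a : ZMod q)| ≤ H * x / Real.log x ^ c := by
  obtain ⟨C, hC, hdiv⟩ := Pool.Agent.H92.EH.div_bound (1 / 4) (by norm_num)
  have e1 := piY_ev (4 * C) (1 / 4) (by norm_num) (c + 2)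
  have e3 := piY_ev 8 (1 / 2) (by norm_num) (c + 3)
  have e4 : ∀ᶠ x : ℕ in Filter.atTop, 10 ≤ Real.log x :=
    (Real.tendsto_log_atTop.comp tendsto_natCast_atTop_atTop).eventually_ge_atTop 10
  obtain ⟨x0, hx0⟩ := Filter.eventually_atTop.1 (e1.and (e3.and e4))
  refine ⟨max x0 2, ?_⟩
  intro x hx a0 Q H ha0 hH1 hHx hQ1 hQx h0 h1 y hy
  obtain ⟨f1, f3, hL⟩ := hx0 x ((le_max_left _ _).trans hx)
  have hx2 : 2 ≤ x := (le_max_right _ _).trans hx
  have hxp : (0 : ℝ) < x := by exact_mod_cast (by omega : 0 < x)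
  have hx1 : (1 : ℝ) ≤ x := by exact_mod_cast (by omega : 1 ≤ x)
  set L := Real.log (x : ℝ) with hLdef
  have hLp : 0 < L := by linarith
  have hHp : (0 : ℝ) < H := by exact_mod_cast hH1
  have hL1 : (1 : ℝ) ≤ L := by linarith
  have hQx' : Q ≤ x := by
    have h2 : (Q : ℝ) * 1 ≤ Q * L ^ (c + 5) :=
      mul_le_mul_of_nonneg_left (one_le_pow₀ hL1) (Nat.cast_nonneg _)
    have h3 : (Q : ℝ) ≤ x := by linarith
    exact_mod_cast h3
  have hD : 0 < L ^ (c + 1) := by positivity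
  -- the four estimates
  have g1 : 2 * Real.sqrt x * L * (C * (2 * x : ℝ) ^ (1 / 4 : ℝ)) ≤ x / L ^ (c + 1) := by
    rw [le_div_iff₀ hD]
    have h2 : (2 * x : ℝ) ^ (1 / 4 : ℝ) ≤ 2 * (x : ℝ) ^ (1 / 4 : ℝ) := by
      rw [Real.mul_rpow (by norm_num) hxp.le]
      refine mul_le_mul_of_nonneg_right ?_ (by positivity)
      calc (2 : ℝ) ^ (1 / 4 : ℝ) ≤ (2 : ℝ) ^ (1 : ℝ) :=
            Real.rpow_le_rpow_of_exponent_le (by norm_num) (by norm_num)
        _ = 2 := Real.rpow_one 2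
    have h3 : Real.sqrt x * (x : ℝ) ^ (1 / 4 : ℝ) * (x : ℝ) ^ (1 / 4 : ℝ) = x := by
      rw [Real.sqrt_eq_rpow, ← Real.rpow_add hxp, ← Real.rpow_add hxp]
      norm_num
    calc 2 * Real.sqrt x * L * (C * (2 * x : ℝ) ^ (1 / 4 : ℝ)) * L ^ (c + 1)
        ≤ 2 * Real.sqrt x * L * (C * (2 * (x : ℝ) ^ (1 / 4 : ℝ))) * L ^ (c + 1) := by
          gcongr
      _ = Real.sqrt x * (x : ℝ) ^ (1 / 4 : ℝ) * (4 * C * L ^ (c + 2)) := by ring
      _ ≤ Real.sqrt x * (x : ℝ) ^ (1 / 4 : ℝ) * (x : ℝ) ^ (1 / 4 : ℝ) :=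
          mul_le_mul_of_nonneg_left f1 (by positivity)
      _ = x := h3
  have g2 : Q * L ≤ x / L ^ (c + 1) := by
    rw [le_div_iff₀ hD]
    calc (Q : ℝ) * L * L ^ (c + 1) = Q * L ^ (c + 2) := by ring
      _ ≤ Q * L ^ (c + 5) :=
          mul_le_mul_of_nonneg_left (pow_le_pow_right₀ hL1 (by omega)) (Nat.cast_nonneg _)
      _ ≤ x := hQx
  have g3 : x / L ^ (c + 5) * (4 * L) ≤ x / L ^ (c + 1) := by
    have h2 : (4 : ℝ) ≤ L ^ 3 := by
      calc (4 : ℝ) ≤ 10 ^ 3 := by norm_num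
        _ ≤ L ^ 3 := pow_le_pow_left₀ (by norm_num) hL 3
    rw [div_mul_eq_mul_div, div_le_div_iff₀ (by positivity) hD]
    calc x * (4 * L) * L ^ (c + 1) = x * L ^ (c + 2) * 4 := by ring
      _ ≤ x * L ^ (c + 2) * L ^ 3 := mul_le_mul_of_nonneg_left h2 (by positivity)
      _ = x * L ^ (c + 5) := by ring
  have g4 : 2 * Real.sqrt x * L * (4 * L) ≤ x / L ^ (c + 1) := by
    rw [le_div_iff₀ hD]
    have h3 : Real.sqrt x * (x : ℝ) ^ (1 / 2 : ℝ) = x := by
      rw [← Real.sqrt_eq_rpow]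
      exact Real.mul_self_sqrt hxp.le
    calc 2 * Real.sqrt x * L * (4 * L) * L ^ (c + 1) = Real.sqrt x * (8 * L ^ (c + 3)) := by ring
      _ ≤ Real.sqrt x * (x : ℝ) ^ (1 / 2 : ℝ) := mul_le_mul_of_nonneg_left f3 (by positivity)
      _ = x := h3
  -- the maximizing `t`
  have hmax : ∀ q a : ℕ, ∃ t : ℕ, t ≤ x ∧ ∀ t' : ℕ, t' ≤ x →
      |∑ n ∈ Icc 1 t', piY_g q a n * Real.log n| ≤ |∑ n ∈ Icc 1 t, piY_g q a n * Real.log n| := by
    intro q a
    obtain ⟨t, ht, hmx⟩ := exists_max_image (Finset.range (x + 1))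
      (fun t => |∑ n ∈ Icc 1 t, piY_g q a n * Real.log n|) ⟨0, by simp⟩
    refine ⟨t, ?_, fun t' ht' => hmx t' ?_⟩
    · rw [mem_range] at ht
      omega
    · rw [mem_range]
      omega
  choose tt htt hmx using hmax
  have hB : (∑ q ∈ Ioc Q (2 * Q), ∑ a ∈ (Ioc a0 (a0 + H)).filter (fun a => Nat.Coprime a q),
        |∑ n ∈ Icc 1 (tt q a), piY_g q a n * Real.log n|) ≤ 5 * (H * (x / L ^ (c + 1))) := by
    have k45 : ∀ t : ℕ, t ≤ x → |(∑ n ∈ Icc 1 t, Lam n) - t| + piY_pp t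
        ≤ x / L ^ (c + 5) + 2 * Real.sqrt x * L := fun t ht =>
      add_le_add (h0 t ht) (piY_pp_le t x ht (by omega))
    refine (piY_S Q H a0 x _ tt htt k45).trans ?_
    have k1 := h1 tt htt
    have k2 := piY_pa_le C hC hdiv x a0 Q H x (by omega) ha0 hHx le_rfl
    have k3 := piY_phi x Q H a0 (by linarith) hQ1 hQx'
    have k6 : (x / L ^ (c + 5) + 2 * Real.sqrt x * L) *
        (∑ q ∈ Ioc Q (2 * Q), ∑ _a ∈ (Ioc a0 (a0 + H)).filter (fun a => Nat.Coprime a q),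
          (1 / (q.totient : ℝ))) ≤
        (x / L ^ (c + 5) + 2 * Real.sqrt x * L) * (H * (4 * L)) :=
      mul_le_mul_of_nonneg_left k3 (by positivity)
    have k7 : (x / L ^ (c + 5) + 2 * Real.sqrt x * L) * (H * (4 * L)) =
        H * (x / L ^ (c + 5) * (4 * L)) + H * (2 * Real.sqrt x * L * (4 * L)) := by ring
    have k8 : H * (x / L ^ (c + 5) * (4 * L)) ≤ H * (x / L ^ (c + 1)) :=
      mul_le_mul_of_nonneg_left g3 hHp.le
    have k9 : H * (2 * Real.sqrt x * L * (4 * L)) ≤ H * (x / L ^ (c + 1)) :=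
      mul_le_mul_of_nonneg_left g4 hHp.le
    have k10 : 2 * Real.sqrt x * L * (H * (C * (2 * x : ℝ) ^ (1 / 4 : ℝ))) ≤
        H * (x / L ^ (c + 1)) := by
      calc 2 * Real.sqrt x * L * (H * (C * (2 * x : ℝ) ^ (1 / 4 : ℝ)))
          = H * (2 * Real.sqrt x * L * (C * (2 * x : ℝ) ^ (1 / 4 : ℝ))) := by ring
        _ ≤ _ := mul_le_mul_of_nonneg_left g1 hHp.le
    have k11 : Q * (H * L) ≤ H * (x / L ^ (c + 1)) := by
      calc (Q : ℝ) * (H * L) = H * (Q * L) := by ring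
        _ ≤ _ := mul_le_mul_of_nonneg_left g2 hHp.le
    have k12 : H * x / L ^ (c + 2) ≤ H * (x / L ^ (c + 1)) := by
      rw [mul_div_assoc]
      refine mul_le_mul_of_nonneg_left ?_ hHp.le
      exact div_le_div_of_nonneg_left hxp.le hD (pow_le_pow_right₀ hL1 (by omega))
    linarith
  have hl2 : 0.6931 < Real.log 2 := by
    have := Real.log_two_gt_d9
    linarith
  have hl2' : 0 < Real.log 2 := by linarith
  have hE : (∑ q ∈ Ioc Q (2 * Q), ∑ a ∈ (Ioc a0 (a0 + H)).filter (fun a => Nat.Coprime a q),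
        |err (y q a) q (a : ZMod q)|) ≤ 5 * (H * (x / L ^ (c + 1))) * (1 / Real.log 2) := by
    refine le_trans ?_ (mul_le_mul_of_nonneg_right hB (by positivity))
    rw [sum_mul]
    refine sum_le_sum fun q _ => ?_
    rw [sum_mul]
    exact sum_le_sum fun a _ => piY_err_le x (y q a) q a (hy q a) _ (hmx q a)
  refine hE.trans ?_
  rw [mul_one_div, div_le_div_iff₀ hl2' (by positivity)]
  have m1 : 5 * (H * (x / L ^ (c + 1))) * L ^ c = 5 * (H * x) / L := by
    rw [pow_succ]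
    field_simp
  rw [m1, div_le_iff₀ hLp]
  have m2 : (5 : ℝ) ≤ Real.log 2 * L := by nlinarith
  have m3 : 0 ≤ (H : ℝ) * x := by positivity
  nlinarith

end Pool.Agent.H91.L1
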