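import Mathlib
import Pool.Agent.H91.L1.Old
import Pool.Agent.H91.L1.Psi
import Pool.Agent.H91.L1.Grid
import Pool.Agent.H91.L1.PiY
import Pool.Agent.H91.EHA.TwoB
import Pool.Agent.H91.EHA.Main

/-!
# L1 BlkO: one dyadic interval of moduli, `Q ≤ x^θ`

As `block` in `EHA/Main.lean`: `two_range` (with `ε' = min ε (1-θ)`) if `Q² ≤ H x^(1-ε')`, otherwise `H ≤ Q` and `t1h2` (with `ε/2`) + `cauchy_dbl` + `psi_of_hR`
(constant `y`), then `grid` and `piY`, `pnt'`.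
-/

set_option autoImplicit false

namespace Pool.Agent.H91.L1

open Finset
open Pool.Agent.H91.EHA (Lam lamR hR psiA err)

theorem blkO (θ ε : ℝ) (hθ : θ < 1) (hε : 0 < ε) (c : ℕ) :
    ∃ x0 : ℕ, ∀ x : ℕ, x0 ≤ x → ∀ a0 Q H : ℕ, ∀ y : ℕ → ℕ → ℕ, (∀ q a, y q a ≤ x) →
      a0 + H ≤ x → (x : ℝ) ^ ε ≤ H → 1 ≤ Q → (Q : ℝ) ≤ (x : ℝ) ^ θ →
      ((Q : ℝ) ^ 2 ≤ H * (x : ℝ) ^ (1 - ε) ∨ (x : ℝ) ^ (1 + ε) ≤ 2 * Q * H) →
      ∑ q ∈ Ioc Q (2 * Q), ∑ a ∈ (Ioc a0 (a0 + H)).filter (fun a => Nat.Coprime a q),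
        |err (y q a) q (a : ZMod q)| ≤ H * x / Real.log x ^ c := by
  set c' : ℕ := 2 * (c + 2) + 20 with hc'
  set ε' : ℝ := min ε (1 - θ) with hε'
  have hε'0 : 0 < ε' := lt_min hε (by linarith)
  obtain ⟨x1, hx1⟩ := EHA.two_range θ ε' hθ hε'0 c'
  obtain ⟨B0, hB0⟩ := t1h2 θ (ε / 2) hθ (by linarith) (2 * (c' + 2))
  set B : ℕ := max B0 (c' + 4) with hB
  obtain ⟨x2, hx2⟩ := hB0 B (le_max_left _ _)
  obtain ⟨x3, hx3⟩ := psi_of_hR B c' (le_max_right _ _)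
  obtain ⟨x4, hx4⟩ := EHA.pnt' (c + 5)
  obtain ⟨x5, hx5⟩ := EHA.log_pow_le_rpow 1 (ε / 2) (by linarith)
  obtain ⟨x6, hx6⟩ := EHA.log_ge 2
  obtain ⟨x7, hx7⟩ := grid (c + 2)
  obtain ⟨x8, hx8⟩ := piY c
  obtain ⟨x9, hx9⟩ := EHA.log_pow_le_rpow (3 * B + c' + 1) (1 - θ) (by linarith)
  obtain ⟨x10, hx10⟩ := EHA.log_pow_le_rpow (c + 5) (1 - θ) (by linarith)
  refine ⟨x1 + x2 + x3 + x4 + x5 + x6 + x7 + x8 + x9 + x10 + 3, ?_⟩
  intro x hx a0 Q H y hy haH hH hQ1 hQ hor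
  have hx3' : (3 : ℝ) ≤ x := by
    have : 3 ≤ x := by omega
    exact_mod_cast this
  have hxpos : (0 : ℝ) < x := by linarith
  have hxone : (1 : ℝ) ≤ x := by linarith
  have ha0x : a0 ≤ x := by omega
  have hHx : H ≤ x := by omega
  have hH1r : (1 : ℝ) ≤ H := by
    refine le_trans ?_ hH
    exact Real.one_le_rpow hxone hε.le
  have hH1 : 1 ≤ H := by exact_mod_cast hH1r
  have hHpos : (0 : ℝ) < H := by linarith
  have hQpos : (0 : ℝ) < Q := by exact_mod_cast hQ1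
  have hH' : (x : ℝ) ^ ε' ≤ H :=
    (Real.rpow_le_rpow_of_exponent_le hxone (min_le_left _ _)).trans hH
  have hL2 : 2 ≤ Real.log x := hx6 x (by omega)
  have hLpos : 0 < Real.log x := by linarith
  have hQx : Q ≤ x := by
    have : (Q : ℝ) ≤ x := by
      refine hQ.trans ?_
      calc (x : ℝ) ^ θ ≤ (x : ℝ) ^ (1 : ℝ) := Real.rpow_le_rpow_of_exponent_le hxone hθ.le
        _ = x := Real.rpow_one _
    exact_mod_cast this
  have hQpow : ∀ m : ℕ, Real.log x ^ m ≤ (x : ℝ) ^ (1 - θ) → (Q : ℝ) * Real.log x ^ m ≤ x := by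
    intro m hm
    have h6 : (x : ℝ) ^ θ * (x : ℝ) ^ (1 - θ) = x := by
      rw [← Real.rpow_add hxpos]
      norm_num
    calc (Q : ℝ) * Real.log x ^ m ≤ (x : ℝ) ^ θ * (x : ℝ) ^ (1 - θ) :=
          mul_le_mul hQ hm (by positivity) (by positivity)
      _ = x := h6
  have hQ3B := hQpow _ (hx9 x (by omega))
  have hQc5 := hQpow _ (hx10 x (by omega))
  -- one value `t`
  have hone : ∀ t : ℕ, t ≤ x → ∑ q ∈ Ioc Q (2 * Q),
      ∑ a ∈ (Ioc a0 (a0 + H)).filter (fun a => Nat.Coprime a q),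
        |psiA t q a - t / (q.totient : ℝ)| ≤ H * x / Real.log x ^ c' := by
    intro t ht
    by_cases hc1 : (Q : ℝ) ^ 2 ≤ H * (x : ℝ) ^ (1 - ε')
    · exact hx1 x (by omega) t a0 Q H ht hQ1 hQ hH' hc1
    · have hHQ : H ≤ Q := by
        by_contra hlt
        have hlt' : Q ≤ H := by omega
        apply hc1
        have h1 : (Q : ℝ) ≤ (x : ℝ) ^ (1 - ε') := by
          refine hQ.trans (Real.rpow_le_rpow_of_exponent_le hxone ?_)
          have := min_le_right ε (1 - θ)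
          linarith
        have h2 : (Q : ℝ) ≤ H := by exact_mod_cast hlt'
        calc (Q : ℝ) ^ 2 = Q * Q := by ring
          _ ≤ H * (x : ℝ) ^ (1 - ε') := mul_le_mul h2 h1 hQpos.le hHpos.le
      have hc2 : (x : ℝ) ^ (1 + ε) ≤ 2 * Q * H := by
        rcases hor with h | h
        · exfalso
          apply hc1
          refine h.trans ?_
          apply mul_le_mul_of_nonneg_left _ hHpos.le
          apply Real.rpow_le_rpow_of_exponent_le hxone
          have := min_le_left ε (1 - θ)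
          linarith
        · exact h
      have hQH : (x : ℝ) ^ (1 + ε / 2) ≤ Q * H := by
        have h2 : (2 : ℝ) ≤ (x : ℝ) ^ (ε / 2) := by
          have := hx5 x (by omega)
          rw [pow_one] at this
          exact hL2.trans this
        have h3 : (x : ℝ) ^ (1 + ε) = (x : ℝ) ^ (1 + ε / 2) * (x : ℝ) ^ (ε / 2) := by
          rw [← Real.rpow_add hxpos]
          congr 1
          ring
        have h4 : (x : ℝ) ^ (1 + ε / 2) * 2 ≤ 2 * Q * H := by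
          refine le_trans ?_ hc2
          rw [h3]
          apply mul_le_mul_of_nonneg_left h2 (by positivity)
        linarith
      have hm := hx2 x (by omega) t a0 Q H ht haH hH1 hHQ hQ hQH
      have h1 : ∑ q ∈ Ioc Q (2 * Q), ∑ a ∈ Ioc a0 (a0 + H),
          |∑ n ∈ (Icc 1 t).filter (fun n => n ≡ a [MOD q]), hR ⌊Real.log x ^ B⌋₊ n|
            ≤ H * x / Real.log x ^ (c' + 2) := by
        have h := EHA.cauchy_dbl Q a0 H
          (fun q a => ∑ n ∈ (Icc 1 t).filter (fun n => n ≡ a [MOD q]),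
            hR ⌊Real.log x ^ B⌋₊ n) _ hm
        refine h.trans (le_of_eq ?_)
        have h2 : (Q : ℝ) * H * (H * (x : ℝ) ^ 2 / (Q * Real.log x ^ (2 * (c' + 2))))
            = (H * x / Real.log x ^ (c' + 2)) ^ 2 := by
          field_simp
          rw [← pow_mul, mul_comm (c' + 2) 2]
        rw [h2, Real.sqrt_sq (by positivity)]
      exact hx3 x (by omega) a0 Q H (fun _ _ => t) (fun _ _ => ht) hQ1 hQ3B h1
  apply hx8 x (by omega) a0 Q H ha0x hH1 hHx hQ1 hQc5 (fun t ht => hx4 x (by omega) t ht) _ y hy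
  intro y' hy'
  exact hx7 x (by omega) a0 Q H y' hy' hQ1 hQx hH1 hone

end Pool.Agent.H91.L1
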