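import Mathlib
import Pool.Agent.H91.L1.Pair
import Pool.Agent.H91.L1.Seg

/-!
# L1 SumA: moduli close to `x`, short intervals of `a`

`L = log x`, `V = x/Q ≥ L^C`.  `l = ⌊L^C1⌋`, `C1 = 2c + 12`; `j0 = ⌈V/(L^C2 l)⌉ + 2`, `C2 = c + 7`; `J = ⌊V/l⌋ + 1` (`x < q J l` for `q > Q`);
`B ≥ B0 = C1` given; `C = C1 + B + C2 + c + 20`.
`cut` with `M = L^(B+1)` (`hR_bd`), summed over `(q,a)` (`Q H` pairs):
(i) `Q H l M ≤ Q H V/(8 L^c)` since `V ≥ L^C`;
(ii) for each `(q,k)`: `∑_a |fz(a+qk)| ≤ (H ∑_a fz²)^(1/2)` and `∑_{a} fz(a + q k)² ≤ (H + L^(2B)) L^4 ≤ 2 H L^4` (`hsq`: the positive values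
`a + qk` form a window of length `≤ H`; `a + q k ≤ x + 2Q j0 l ≤ 9x`), so `≤ 2 H L²`; number of `k`: `2 j0 l ≤ 2(V/L^C2 + 3l) ≤ 4V/L^C2`:
total `Q * 8 H L² V/L^C2`;
(iii) for each `j`: Cauchy `∑_{q,a} |S_j| ≤ (Q H)^(1/2) (∑ S_j²)^(1/2)`, `seg` with `Dg = 2 Q H L^4` (as in (ii)) and `T` from `pair` with
`A = C2 + 2c + 12`: `|k| ≥ j0 l - l ≥ V/L^C2` (for negative `k` the smaller of the pair has the bigger absolute value, the bound uses `|k|` of the
smaller one; `|k| ≥ (j0 - 1) l`, `|k| ≤ J l ≤ 3V/2`), so `x H/|k|/L^A ≤ Q H L^(C2 - A)`; `∑ S_j² ≤ Q H (2 l L^4 + l² L^(C2-A))`;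
number of `j`: `2J ≤ 3 V/l`; total `≤ 3 (V/l) Q H (2 l L^4 + l² L^(C2-A))^(1/2)`, `l ≥ L^C1/2`.
Conditions of `pair`: `2d ≤ 2l ≤ (j0-1) l`; `2Q |k| ≤ 2Q · 3V/2 = 3x`; `H ≤ 4 V x^(1/6+2e) ≤ x^(1/2)` (`V ≤ x^(1/4)`, `e ≤ 1/100`);
`|k| x^(1/6+e) ≤ (3V/2) x^(1/6+e) ≤ H`; `H L^B ≤ 4 V x^(1/6+2e) L^B ≤ (V/L^C2) x^(1/4)`.
(`Q H V = H x`.)
-/

set_option autoImplicit false

namespace Pool.Agent.H91.L1

open Finset
open Pool.Agent.H91.EHA (Lam lamR hR psiA err)

private theorem sumA_cs {ι : Type*} (s : Finset ι) (f : ι → ℝ) (D : ℝ)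
    (h : ∑ i ∈ s, f i ^ 2 ≤ D) : ∑ i ∈ s, |f i| ≤ Real.sqrt (s.card * D) := by
  have h1 : (∑ i ∈ s, |f i|) ^ 2 ≤ s.card * D := by
    refine (sq_sum_le_card_mul_sum_sq (s := s) (f := fun i => |f i|)).trans ?_
    apply mul_le_mul_of_nonneg_left _ (by positivity)
    refine le_trans (le_of_eq ?_) h
    exact sum_congr rfl fun i _ => sq_abs _
  have h2 : 0 ≤ ∑ i ∈ s, |f i| := sum_nonneg fun i _ => abs_nonneg _
  rw [← Real.sqrt_sq h2]
  exact Real.sqrt_le_sqrt h1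

/-- the deterministic part -/
private theorem sumA_abs (R a0 H Q x l J j0 : ℕ) (M D1 T : ℝ) (y : ℕ → ℕ → ℕ)
    (hy : ∀ q a, y q a ≤ x) (hM0 : 0 ≤ M) (hM : ∀ n : ℕ, n ≤ x → |hR R n| ≤ M)
    (hl : 1 ≤ l) (hJ1 : 1 ≤ J) (hJ : x ≤ Q * (J * l)) (hj : j0 ≤ J) (haH : a0 + H ≤ x)
    (hT0 : 0 ≤ T)
    (hD : ∀ q ∈ Ioc Q (2 * Q), ∀ k : ℤ, -((J : ℤ) * l) ≤ k → k < J * l →
      ∑ a ∈ Ioc a0 (a0 + H), fz R ((a : ℤ) + q * k) ^ 2 ≤ D1)
    (hT : ∀ k : ℤ, ∀ d : ℕ, 1 ≤ d → d < l → -((J : ℤ) * l) ≤ k → k + d < J * l →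
      ((j0 : ℤ) * l ≤ k ∨ k + d < -((j0 : ℤ) * l)) → |TT R a0 H Q k (k + d)| ≤ T) :
    ∑ q ∈ Ioc Q (2 * Q), ∑ a ∈ Ioc a0 (a0 + H),
        |∑ n ∈ (Icc 1 (y q a)).filter (fun n => n ≡ a [MOD q]), hR R n|
      ≤ Q * H * (l * M) + Q * (2 * j0 * l) * Real.sqrt (H * D1)
        + 2 * J * Real.sqrt (Q * H * (l * (Q * D1) + (l : ℝ) ^ 2 * T)) := by
  have hcQ : ((Ioc Q (2 * Q)).card : ℝ) = Q := by
    rw [Nat.card_Ioc]
    have : 2 * Q - Q = Q := by omega
    rw [this]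
  have hcH : ((Ioc a0 (a0 + H)).card : ℝ) = H := by
    rw [Nat.card_Ioc]
    have : a0 + H - a0 = H := by omega
    rw [this]
  -- cut
  have h1 : ∀ q ∈ Ioc Q (2 * Q), ∀ a ∈ Ioc a0 (a0 + H),
      |∑ n ∈ (Icc 1 (y q a)).filter (fun n => n ≡ a [MOD q]), hR R n|
      ≤ l * M + (∑ k ∈ Ico (-(j0 * l : ℤ)) (j0 * l), |fz R ((a : ℤ) + q * k)|)
        + ∑ j ∈ (Ico (-(J : ℤ)) J).filter (fun j => j < -(j0 : ℤ) ∨ (j0 : ℤ) ≤ j),
            |∑ k ∈ Ico (j * l) (j * l + l), fz R ((a : ℤ) + q * k)| := by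
    intro q hq a ha
    rw [mem_Ioc] at hq ha
    have hJl : 1 ≤ J * l := Nat.one_le_iff_ne_zero.2 (by positivity)
    refine cut R q a x (y q a) l J j0 M hM0 hM (by omega) hl (by omega) (hy q a) ?_ hj
    calc x ≤ Q * (J * l) := hJ
      _ < q * (J * l) := Nat.mul_lt_mul_of_pos_right hq.1 (by omega)
  have h2 : ∑ q ∈ Ioc Q (2 * Q), ∑ a ∈ Ioc a0 (a0 + H),
        |∑ n ∈ (Icc 1 (y q a)).filter (fun n => n ≡ a [MOD q]), hR R n|
      ≤ ∑ q ∈ Ioc Q (2 * Q), ∑ a ∈ Ioc a0 (a0 + H),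
        (l * M + (∑ k ∈ Ico (-(j0 * l : ℤ)) (j0 * l), |fz R ((a : ℤ) + q * k)|)
        + ∑ j ∈ (Ico (-(J : ℤ)) J).filter (fun j => j < -(j0 : ℤ) ∨ (j0 : ℤ) ≤ j),
            |∑ k ∈ Ico (j * l) (j * l + l), fz R ((a : ℤ) + q * k)|) :=
    sum_le_sum fun q hq => sum_le_sum fun a ha => h1 q hq a ha
  refine h2.trans ?_
  have e1 : ∑ q ∈ Ioc Q (2 * Q), ∑ a ∈ Ioc a0 (a0 + H),
        (l * M + (∑ k ∈ Ico (-(j0 * l : ℤ)) (j0 * l), |fz R ((a : ℤ) + q * k)|)
        + ∑ j ∈ (Ico (-(J : ℤ)) J).filter (fun j => j < -(j0 : ℤ) ∨ (j0 : ℤ) ≤ j),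
            |∑ k ∈ Ico (j * l) (j * l + l), fz R ((a : ℤ) + q * k)|)
      = Q * H * (l * M)
        + (∑ q ∈ Ioc Q (2 * Q), ∑ k ∈ Ico (-(j0 * l : ℤ)) (j0 * l), ∑ a ∈ Ioc a0 (a0 + H),
            |fz R ((a : ℤ) + q * k)|)
        + ∑ j ∈ (Ico (-(J : ℤ)) J).filter (fun j => j < -(j0 : ℤ) ∨ (j0 : ℤ) ≤ j),
            ∑ q ∈ Ioc Q (2 * Q), ∑ a ∈ Ioc a0 (a0 + H),
            |∑ k ∈ Ico (j * l) (j * l + l), fz R ((a : ℤ) + q * k)| := by
    have f1 : ∑ q ∈ Ioc Q (2 * Q), ∑ a ∈ Ioc a0 (a0 + H), (l * M : ℝ) = Q * H * (l * M) := by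
      rw [sum_const, sum_const, nsmul_eq_mul, nsmul_eq_mul, hcQ, hcH]
      ring
    have f2 : ∀ q ∈ Ioc Q (2 * Q), ∑ k ∈ Ico (-(j0 * l : ℤ)) (j0 * l), ∑ a ∈ Ioc a0 (a0 + H),
            |fz R ((a : ℤ) + q * k)| = ∑ a ∈ Ioc a0 (a0 + H),
            ∑ k ∈ Ico (-(j0 * l : ℤ)) (j0 * l), |fz R ((a : ℤ) + q * k)| :=
      fun q _ => sum_comm
    rw [sum_congr rfl f2]
    have f3 : ∑ j ∈ (Ico (-(J : ℤ)) J).filter (fun j => j < -(j0 : ℤ) ∨ (j0 : ℤ) ≤ j),
            ∑ q ∈ Ioc Q (2 * Q), ∑ a ∈ Ioc a0 (a0 + H),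
            |∑ k ∈ Ico (j * l) (j * l + l), fz R ((a : ℤ) + q * k)|
        = ∑ q ∈ Ioc Q (2 * Q), ∑ a ∈ Ioc a0 (a0 + H),
          ∑ j ∈ (Ico (-(J : ℤ)) J).filter (fun j => j < -(j0 : ℤ) ∨ (j0 : ℤ) ≤ j),
            |∑ k ∈ Ico (j * l) (j * l + l), fz R ((a : ℤ) + q * k)| := by
      rw [sum_comm]
      exact sum_congr rfl fun q _ => sum_comm
    rw [f3, ← f1, ← sum_add_distrib, ← sum_add_distrib]
    refine sum_congr rfl fun q _ => ?_
    rw [← sum_add_distrib, ← sum_add_distrib]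
  rw [e1]
  have hjl : ((j0 : ℤ) * l) ≤ (J : ℤ) * l := by
    have : (j0 : ℤ) ≤ J := by exact_mod_cast hj
    exact mul_le_mul_of_nonneg_right this (by positivity)
  -- middle
  have h3 : ∑ q ∈ Ioc Q (2 * Q), ∑ k ∈ Ico (-(j0 * l : ℤ)) (j0 * l), ∑ a ∈ Ioc a0 (a0 + H),
      |fz R ((a : ℤ) + q * k)| ≤ Q * (2 * j0 * l) * Real.sqrt (H * D1) := by
    have g1 : ∀ q ∈ Ioc Q (2 * Q), ∑ k ∈ Ico (-(j0 * l : ℤ)) (j0 * l), ∑ a ∈ Ioc a0 (a0 + H),
        |fz R ((a : ℤ) + q * k)| ≤ (2 * j0 * l) * Real.sqrt (H * D1) := by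
      intro q hq
      have g2 : ∀ k ∈ Ico (-(j0 * l : ℤ)) (j0 * l), ∑ a ∈ Ioc a0 (a0 + H),
          |fz R ((a : ℤ) + q * k)| ≤ Real.sqrt (H * D1) := by
        intro k hk
        rw [mem_Ico] at hk
        have := sumA_cs (Ioc a0 (a0 + H)) (fun a : ℕ => fz R ((a : ℤ) + q * k)) D1
          (hD q hq k (by linarith) (by linarith))
        rwa [hcH] at this
      refine (sum_le_sum g2).trans (le_of_eq ?_)
      rw [sum_const, nsmul_eq_mul, Int.card_Ico]
      congr 1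
      have : ((j0 : ℤ) * l - -((j0 : ℤ) * l)).toNat = 2 * j0 * l := by
        have : ((j0 : ℤ) * l - -((j0 : ℤ) * l)) = ((2 * j0 * l : ℕ) : ℤ) := by
          push_cast
          ring
        rw [this, Int.toNat_natCast]
      rw [this]
      push_cast
      ring
    refine (sum_le_sum g1).trans (le_of_eq ?_)
    rw [sum_const, nsmul_eq_mul, hcQ]
    ring
  -- outer segments
  have h4 : ∑ j ∈ (Ico (-(J : ℤ)) J).filter (fun j => j < -(j0 : ℤ) ∨ (j0 : ℤ) ≤ j),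
            ∑ q ∈ Ioc Q (2 * Q), ∑ a ∈ Ioc a0 (a0 + H),
            |∑ k ∈ Ico (j * l) (j * l + l), fz R ((a : ℤ) + q * k)|
      ≤ 2 * J * Real.sqrt (Q * H * (l * (Q * D1) + (l : ℝ) ^ 2 * T)) := by
    have g1 : ∀ j ∈ (Ico (-(J : ℤ)) J).filter (fun j => j < -(j0 : ℤ) ∨ (j0 : ℤ) ≤ j),
        ∑ q ∈ Ioc Q (2 * Q), ∑ a ∈ Ioc a0 (a0 + H),
            |∑ k ∈ Ico (j * l) (j * l + l), fz R ((a : ℤ) + q * k)|
        ≤ Real.sqrt (Q * H * (l * (Q * D1) + (l : ℝ) ^ 2 * T)) := by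
      intro j hj'
      rw [mem_filter, mem_Ico] at hj'
      obtain ⟨⟨j1, j2⟩, j3⟩ := hj'
      have hl0 : (0 : ℤ) < l := by exact_mod_cast hl
      have b1 : -((J : ℤ) * l) ≤ j * l := by
        have := mul_le_mul_of_nonneg_right j1 hl0.le
        linarith
      have b2 : j * l + l ≤ (J : ℤ) * l := by
        have h : j + 1 ≤ (J : ℤ) := by omega
        have := mul_le_mul_of_nonneg_right h hl0.le
        linarith
      have g2 := seg R a0 H Q l (j * l) (Q * D1) T hT0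
        (by
          intro k hk
          rw [mem_Ico] at hk
          refine (sum_le_sum fun q hq => hD q hq k (by linarith) (by linarith)).trans
            (le_of_eq ?_)
          rw [sum_const, nsmul_eq_mul, hcQ])
        (by
          intro k d hk hd hkd
          refine hT k d hd (by omega) (by linarith) (by linarith) ?_
          rcases j3 with h | h
          · right
            have h' : j + 1 ≤ -(j0 : ℤ) := by omega
            have := mul_le_mul_of_nonneg_right h' hl0.le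
            linarith
          · left
            have := mul_le_mul_of_nonneg_right h hl0.le
            linarith)
      have g3 := sumA_cs (Ioc Q (2 * Q) ×ˢ Ioc a0 (a0 + H))
        (fun p : ℕ × ℕ => ∑ k ∈ Ico (j * l) (j * l + l), fz R ((p.2 : ℤ) + p.1 * k))
        (l * (Q * D1) + (l : ℝ) ^ 2 * T)
        (by rw [sum_product]; exact g2)
      rw [sum_product, card_product] at g3
      push_cast at g3
      have g4 : ((Ioc Q (2 * Q)).card : ℝ) * ((Ioc a0 (a0 + H)).card : ℝ) = Q * H := by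
        rw [hcQ, hcH]
      rw [g4] at g3
      exact g3
    refine (sum_le_sum g1).trans ?_
    rw [sum_const, nsmul_eq_mul]
    apply mul_le_mul_of_nonneg_right _ (Real.sqrt_nonneg _)
    have g5 : ((Ico (-(J : ℤ)) J).filter (fun j => j < -(j0 : ℤ) ∨ (j0 : ℤ) ≤ j)).card ≤ 2 * J := by
      refine (card_filter_le _ _).trans ?_
      rw [Int.card_Ico]
      omega
    exact_mod_cast g5
  linarith

/-- large powers beat logarithms -/
private theorem sumA_large (κ : ℝ) (hκ : 0 < κ) (m : ℕ) (K : ℝ) : ∃ x0 : ℕ, ∀ x : ℕ, x0 ≤ x →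
    K * Real.log x ^ m ≤ (x : ℝ) ^ κ := by
  obtain ⟨x1, hx1⟩ := Pool.Agent.H91.EHA.log_pow_le_rpow (m + 1) κ hκ
  obtain ⟨x2, hx2⟩ := Pool.Agent.H91.EHA.log_ge (max K 1)
  refine ⟨max x1 x2, fun x hx => ?_⟩
  have h1 := hx1 x (le_trans (le_max_left _ _) hx)
  have h2 := hx2 x (le_trans (le_max_right _ _) hx)
  have h3 : K ≤ Real.log x := (le_max_left _ _).trans h2
  have h4 : (1 : ℝ) ≤ Real.log x := (le_max_right _ _).trans h2
  calc K * Real.log x ^ m ≤ Real.log x * Real.log x ^ m :=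
        mul_le_mul_of_nonneg_right h3 (by positivity)
    _ = Real.log x ^ (m + 1) := by ring
    _ ≤ _ := h1

/-- the positive values of `a + m` form a window -/
private theorem sumA_win (R a0 H : ℕ) (m : ℤ) : ∃ u H' : ℕ, H' ≤ H ∧
    ((u + H' : ℕ) : ℤ) ≤ max 0 (a0 + H + m) ∧
    ∑ a ∈ Ioc a0 (a0 + H), fz R ((a : ℤ) + m) ^ 2 ≤ ∑ n ∈ Ioc u (u + H'), hR R n ^ 2 := by
  refine ⟨((a0 : ℤ) + m).toNat, ((a0 : ℤ) + H + m).toNat - ((a0 : ℤ) + m).toNat, by omega,
    by omega, ?_⟩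
  have h1 : ∑ a ∈ Ioc a0 (a0 + H), fz R ((a : ℤ) + m) ^ 2
      = ∑ a ∈ (Ioc a0 (a0 + H)).filter (fun a : ℕ => 1 ≤ (a : ℤ) + m),
        hR R ((a : ℤ) + m).toNat ^ 2 := by
    rw [sum_filter]
    refine sum_congr rfl fun a _ => ?_
    unfold fz
    split_ifs
    · rfl
    · ring
  rw [h1]
  have h2 : ∑ a ∈ (Ioc a0 (a0 + H)).filter (fun a : ℕ => 1 ≤ (a : ℤ) + m),
        hR R ((a : ℤ) + m).toNat ^ 2
      = ∑ n ∈ ((Ioc a0 (a0 + H)).filter (fun a : ℕ => 1 ≤ (a : ℤ) + m)).image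
          (fun a : ℕ => ((a : ℤ) + m).toNat), hR R n ^ 2 := by
    rw [sum_image]
    intro a ha b hb hab
    rw [mem_coe, mem_filter] at ha hb
    have := ha.2
    have := hb.2
    simp only at hab
    omega
  rw [h2]
  apply sum_le_sum_of_subset_of_nonneg _ (fun _ _ _ => sq_nonneg _)
  intro n hn
  rw [mem_image] at hn
  obtain ⟨a, ha, rfl⟩ := hn
  rw [mem_filter, mem_Ioc] at ha
  rw [mem_Ioc]
  omega

theorem sumA (hH : HuxProp) (e : ℝ) (he : 0 < e) (he2 : e ≤ 1 / 100) (c : ℕ) : ∃ B0 : ℕ, ∀ B : ℕ,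
    B0 ≤ B → ∃ C x0 : ℕ, ∀ x : ℕ, x0 ≤ x → ∀ a0 H Q : ℕ, ∀ y : ℕ → ℕ → ℕ, (∀ q a, y q a ≤ x) →
      a0 + H ≤ x → (x : ℝ) ^ (3 / 4 : ℝ) ≤ Q → (Q : ℝ) * Real.log x ^ C ≤ x →
      (x : ℝ) / Q * (x : ℝ) ^ (1 / 6 + 2 * e) ≤ H →
      (H : ℝ) ≤ 4 * ((x : ℝ) / Q * (x : ℝ) ^ (1 / 6 + 2 * e)) →
      ∑ q ∈ Ioc Q (2 * Q), ∑ a ∈ Ioc a0 (a0 + H),
        |∑ n ∈ (Icc 1 (y q a)).filter (fun n => n ≡ a [MOD q]), hR ⌊Real.log x ^ B⌋₊ n|
          ≤ H * x / Real.log x ^ c := by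
  refine ⟨2 * c + 12, fun B hB => ?_⟩
  obtain ⟨x1, hx1⟩ := hR_bd B (by omega)
  obtain ⟨x2, hx2⟩ := hsq B (by omega)
  obtain ⟨x3, hx3⟩ := pair hH e he B (by omega) (c + 7 + (2 * c + 12))
  obtain ⟨x4, hx4⟩ := Pool.Agent.H91.EHA.log_ge 100
  obtain ⟨x5, hx5⟩ := sumA_large e he 0 (3 / 2)
  obtain ⟨x6, hx6⟩ := sumA_large (1 / 20) (by norm_num) (B + (c + 7)) 4
  obtain ⟨x7, hx7⟩ := sumA_large (1 / 20) (by norm_num) (2 * B) 1
  refine ⟨(2 * c + 12) + B + (c + 7) + c + 20,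
    max (max (max x1 x2) (max x3 x4)) (max (max x5 x6) (max x7 2)),
    fun x hx a0 H Q y hy haH hQ hQC hHl hHu => ?_⟩
  have i1 : x1 ≤ x := le_trans (le_trans (le_trans (le_max_left _ _) (le_max_left _ _))
    (le_max_left _ _)) hx
  have i2 : x2 ≤ x := le_trans (le_trans (le_trans (le_max_right _ _) (le_max_left _ _))
    (le_max_left _ _)) hx
  have i3 : x3 ≤ x := le_trans (le_trans (le_trans (le_max_left _ _) (le_max_right _ _))
    (le_max_left _ _)) hx
  have i4 : x4 ≤ x := le_trans (le_trans (le_trans (le_max_right _ _) (le_max_right _ _))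
    (le_max_left _ _)) hx
  have i5 : x5 ≤ x := le_trans (le_trans (le_trans (le_max_left _ _) (le_max_left _ _))
    (le_max_right _ _)) hx
  have i6 : x6 ≤ x := le_trans (le_trans (le_trans (le_max_right _ _) (le_max_left _ _))
    (le_max_right _ _)) hx
  have i7 : x7 ≤ x := le_trans (le_trans (le_trans (le_max_left _ _) (le_max_right _ _))
    (le_max_right _ _)) hx
  have i8 : 2 ≤ x := le_trans (le_trans (le_trans (le_max_right _ _) (le_max_right _ _))
    (le_max_right _ _)) hx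
  have k1 := hx1 x i1
  have k2 := hx2 x i2
  have k3 := hx3 x i3
  have k4 := hx4 x i4
  have k5 := hx5 x i5
  have k6 := hx6 x i6
  have k7 := hx7 x i7
  rw [pow_zero, mul_one] at k5
  rw [one_mul] at k7
  set R : ℕ := ⌊Real.log x ^ B⌋₊ with hR'
  set L : ℝ := Real.log x with hL
  have hL0 : (0 : ℝ) < L := by linarith
  have hL1 : (1 : ℝ) ≤ L := by linarith
  have hx2' : (2 : ℝ) ≤ x := by exact_mod_cast i8
  have hx0 : (0 : ℝ) < x := by linarith
  have hx1' : (1 : ℝ) ≤ x := by linarith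
  have hQ0 : (0 : ℝ) < Q := lt_of_lt_of_le (by positivity) hQ
  have hQ1 : 1 ≤ Q := by exact_mod_cast hQ0
  set V : ℝ := (x : ℝ) / Q with hV
  have hQV : (Q : ℝ) * V = x := by rw [hV]; field_simp
  have hV0 : 0 < V := by positivity
  have hVL : L ^ ((2 * c + 12) + B + (c + 7) + c + 20) ≤ V := by
    rw [hV, le_div_iff₀ hQ0]
    linarith
  have hV4 : V ≤ (x : ℝ) ^ (1 / 4 : ℝ) := by
    rw [hV, div_le_iff₀ hQ0]
    calc (x : ℝ) = (x : ℝ) ^ (1 / 4 : ℝ) * (x : ℝ) ^ (3 / 4 : ℝ) := by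
          rw [← Real.rpow_add hx0]; norm_num
      _ ≤ _ := mul_le_mul_of_nonneg_left hQ (by positivity)
  -- the segment length
  set l : ℕ := ⌊L ^ (2 * c + 12)⌋₊ with hl
  have hLC : (1 : ℝ) ≤ L ^ (2 * c + 12) := one_le_pow₀ hL1
  have hl1 : 1 ≤ l := Nat.le_floor (by simpa using hLC)
  have hlr1 : (1 : ℝ) ≤ l := by exact_mod_cast hl1
  have hlr0 : (0 : ℝ) < l := by linarith
  have hlu : (l : ℝ) ≤ L ^ (2 * c + 12) := Nat.floor_le (by positivity)
  have hll : L ^ (2 * c + 12) ≤ 2 * l := by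
    have h1 : L ^ (2 * c + 12) < l + 1 := Nat.lt_floor_add_one _
    linarith
  -- comparison of powers
  have hpow : ∀ m : ℕ, m ≤ (2 * c + 12) + B + (c + 7) + c + 18 → 100 * L ^ m ≤ V := by
    intro m hm
    refine le_trans ?_ hVL
    calc 100 * L ^ m ≤ L * L ^ m := mul_le_mul_of_nonneg_right k4 (by positivity)
      _ = L ^ (m + 1) := by ring
      _ ≤ _ := pow_le_pow_right₀ hL1 (by omega)
  -- `j0`
  set j0 : ℕ := ⌈V / (L ^ (c + 7) * l)⌉₊ + 2 with hj0
  have hj0l : V / L ^ (c + 7) + 2 * l ≤ j0 * l := by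
    have h1 : V / (L ^ (c + 7) * l) ≤ ⌈V / (L ^ (c + 7) * l)⌉₊ := Nat.le_ceil _
    have h2 : V / L ^ (c + 7) = V / (L ^ (c + 7) * l) * l := by field_simp
    rw [h2, hj0]
    push_cast
    have := mul_le_mul_of_nonneg_right h1 hlr0.le
    linarith
  have hj0u : (j0 * l : ℝ) ≤ V / L ^ (c + 7) + 3 * l := by
    have h1 : (⌈V / (L ^ (c + 7) * l)⌉₊ : ℝ) < V / (L ^ (c + 7) * l) + 1 :=
      Nat.ceil_lt_add_one (by positivity)
    have h2 : V / L ^ (c + 7) = V / (L ^ (c + 7) * l) * l := by field_simp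
    rw [h2, hj0]
    push_cast
    have := mul_le_mul_of_nonneg_right h1.le hlr0.le
    linarith
  have h3l : 3 * (l : ℝ) ≤ V / L ^ (c + 7) := by
    rw [le_div_iff₀ (by positivity)]
    have h1 := hpow ((2 * c + 12) + (c + 7)) (by omega)
    calc 3 * (l : ℝ) * L ^ (c + 7) ≤ 3 * L ^ (2 * c + 12) * L ^ (c + 7) := by
          apply mul_le_mul_of_nonneg_right _ (by positivity)
          linarith
      _ = 3 * L ^ ((2 * c + 12) + (c + 7)) := by rw [pow_add]; ring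
      _ ≤ 100 * L ^ ((2 * c + 12) + (c + 7)) := by
          apply mul_le_mul_of_nonneg_right (by norm_num) (by positivity)
      _ ≤ V := h1
  have hVL7 : V / L ^ (c + 7) ≤ V / 100 := by
    apply div_le_div_of_nonneg_left hV0.le (by norm_num)
    calc (100 : ℝ) ≤ L := k4
      _ = L ^ 1 := (pow_one _).symm
      _ ≤ L ^ (c + 7) := pow_le_pow_right₀ hL1 (by omega)
  -- `J`
  set J : ℕ := ⌊V / l⌋₊ + 1 with hJ
  have hJl : V ≤ J * l := by
    have h1 : V / l < ⌊V / l⌋₊ + 1 := Nat.lt_floor_add_one _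
    have h2 := (div_lt_iff₀ hlr0).1 h1
    rw [hJ]
    push_cast
    exact h2.le
  have hJu : (J : ℝ) ≤ V / l + 1 := by
    have h1 : (⌊V / l⌋₊ : ℝ) ≤ V / l := Nat.floor_le (by positivity)
    rw [hJ]
    push_cast
    linarith
  have hlV : (l : ℝ) ≤ V / 100 := by linarith
  have hJlu : (J * l : ℝ) ≤ 3 / 2 * V := by
    have h1 := mul_le_mul_of_nonneg_right hJu hlr0.le
    have h2 : (V / l + 1) * l = V + l := by field_simp
    rw [h2] at h1
    linarith
  have hjJ : j0 ≤ J := by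
    have h1 : (j0 * l : ℝ) ≤ J * l := by linarith
    have h2 : (j0 : ℝ) ≤ J := le_of_mul_le_mul_right h1 hlr0
    exact_mod_cast h2
  have hxJ : x ≤ Q * (J * l) := by
    have h1 : (x : ℝ) ≤ Q * (J * l) := by
      rw [← hQV]
      exact mul_le_mul_of_nonneg_left hJl hQ0.le
    exact_mod_cast h1
  -- bounds for `H`
  have hH1r : V * (x : ℝ) ^ (1 / 6 : ℝ) ≤ H := by
    refine le_trans ?_ hHl
    apply mul_le_mul_of_nonneg_left _ hV0.le
    exact Real.rpow_le_rpow_of_exponent_le hx1' (by linarith)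
  have hV1 : 1 ≤ V := by
    have := hpow 0 (by omega)
    rw [pow_zero] at this
    linarith
  have hxs : (1 : ℝ) ≤ (x : ℝ) ^ (1 / 6 : ℝ) := Real.one_le_rpow hx1' (by norm_num)
  have hx6 : (x : ℝ) ^ (1 / 20 : ℝ) ≤ (x : ℝ) ^ (1 / 6 : ℝ) :=
    Real.rpow_le_rpow_of_exponent_le hx1' (by norm_num)
  have hHx6 : (x : ℝ) ^ (1 / 6 : ℝ) ≤ H :=
    le_trans (le_mul_of_one_le_left (by positivity) hV1) hH1r
  have hH1 : (1 : ℝ) ≤ H := hxs.trans hHx6
  have hH0 : (0 : ℝ) < H := by linarith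
  have hH2B : L ^ (2 * B) ≤ H := k7.trans (hx6.trans hHx6)
  have hHhalf : (H : ℝ) ≤ (x : ℝ) ^ (1 / 2 : ℝ) := by
    refine hHu.trans ?_
    have h4 : (4 : ℝ) ≤ (x : ℝ) ^ (1 / 20 : ℝ) := by
      refine le_trans ?_ k6
      have : (1 : ℝ) ≤ L ^ (B + (c + 7)) := one_le_pow₀ hL1
      linarith
    calc 4 * (V * (x : ℝ) ^ (1 / 6 + 2 * e))
        ≤ (x : ℝ) ^ (1 / 20 : ℝ) * ((x : ℝ) ^ (1 / 4 : ℝ) * (x : ℝ) ^ (1 / 6 + 2 * e)) := by
          apply mul_le_mul h4 _ (by positivity) (by positivity)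
          exact mul_le_mul_of_nonneg_right hV4 (by positivity)
      _ = (x : ℝ) ^ (1 / 20 + (1 / 4 + (1 / 6 + 2 * e))) := by
          rw [← Real.rpow_add hx0, ← Real.rpow_add hx0]
      _ ≤ (x : ℝ) ^ (1 / 2 : ℝ) := Real.rpow_le_rpow_of_exponent_le hx1' (by linarith)
  -- the deterministic bound
  have hdet := sumA_abs R a0 H Q x l J j0 (L ^ (B + 1)) (2 * H * L ^ 4)
    (Q * H / L ^ (2 * c + 12)) y hy (by positivity) (fun n hn => k1 n (by omega)) hl1 (by omega)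
    hxJ hjJ haH (by positivity)
    (by
      intro q hq k hk1 hk2
      rw [mem_Ioc] at hq
      obtain ⟨u, H', h1, h2, h3⟩ := sumA_win R a0 H (q * k)
      have h4 : ((u + H' : ℕ) : ℤ) ≤ 9 * x := by
        refine h2.trans (max_le (by positivity) ?_)
        have h5 : (q : ℤ) * k ≤ 3 * x := by
          have h6 : ((q : ℤ) * k : ℝ) ≤ 3 * x := by
            have h7 : ((k : ℤ) : ℝ) ≤ 3 / 2 * V := by
              refine le_trans ?_ hJlu
              have : (k : ℝ) ≤ ((J : ℤ) * l : ℤ) := by exact_mod_cast hk2.le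
              push_cast at this
              exact this
            have h8 : (q : ℝ) ≤ 2 * Q := by exact_mod_cast hq.2
            rw [← hQV]
            calc ((q : ℤ) * k : ℝ) ≤ (q : ℤ) * (3 / 2 * V) :=
                  mul_le_mul_of_nonneg_left h7 (by positivity)
              _ ≤ (2 * Q) * (3 / 2 * V) := by
                  apply mul_le_mul_of_nonneg_right _ (by positivity)
                  exact_mod_cast h8
              _ = 3 * (Q * V) := by ring
          exact_mod_cast h6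
        have h9 : ((a0 + H : ℕ) : ℤ) ≤ x := by exact_mod_cast haH
        push_cast at h9
        linarith
      refine h3.trans ((k2 u H' (by exact_mod_cast h4)).trans ?_)
      have h1' : (H' : ℝ) ≤ H := by exact_mod_cast h1
      calc ((H' : ℝ) + L ^ (2 * B)) * L ^ 4 ≤ (H + H) * L ^ 4 := by
            apply mul_le_mul_of_nonneg_right _ (by positivity)
            linarith
        _ = 2 * H * L ^ 4 := by ring)
    (by
      intro k d hd hdl hk1 hk2 hor
      have hdr : (d : ℝ) ≤ l := by exact_mod_cast hdl.le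
      -- `κ`
      have hκl : (j0 * l : ℝ) ≤ k.natAbs := by
        have : (j0 * l : ℕ) ≤ k.natAbs := by
          have hh : (((j0 * l : ℕ) : ℤ)) ≤ |k| := by
            push_cast
            rcases hor with h | h
            · exact h.trans (le_abs_self k)
            · have := neg_abs_le k
              have hd' : (1 : ℤ) ≤ d := by exact_mod_cast hd
              linarith
          omega
        exact_mod_cast this
      have hκu : (k.natAbs : ℝ) ≤ 3 / 2 * V := by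
        refine le_trans ?_ hJlu
        have : k.natAbs ≤ J * l := by
          have hh : |k| ≤ ((J * l : ℕ) : ℤ) := by
            push_cast
            rw [abs_le]
            exact ⟨hk1, by linarith [(Nat.cast_nonneg d : (0:ℤ) ≤ d)]⟩
          omega
        exact_mod_cast this
      have hκV : V / L ^ (c + 7) ≤ k.natAbs := by linarith
      have hκ0 : (0 : ℝ) < k.natAbs := lt_of_lt_of_le (by positivity) hκV
      have habs : |k| = (k.natAbs : ℤ) := (Int.natCast_natAbs k).symm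
      have hTT := k3 a0 H Q d k haH hd
        (by
          refine hdr.trans (hlu.trans ?_)
          exact pow_le_pow_right₀ hL1 (by omega))
        (by
          have h1 : (2 * d : ℝ) ≤ k.natAbs := by
            have : (0 : ℝ) < V / L ^ (c + 7) := by positivity
            linarith
          rw [habs]
          exact_mod_cast h1)
        (by
          have h1 : (2 * Q : ℝ) * k.natAbs ≤ 3 * x := by
            rw [← hQV]
            calc (2 * Q : ℝ) * k.natAbs ≤ 2 * Q * (3 / 2 * V) :=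
                  mul_le_mul_of_nonneg_left hκu (by positivity)
              _ = 3 * (Q * V) := by ring
          rw [habs]
          exact_mod_cast h1)
        hHhalf
        (by
          refine le_trans ?_ hHl
          calc (k.natAbs : ℝ) * (x : ℝ) ^ (1 / 6 + e)
              ≤ (3 / 2 * V) * (x : ℝ) ^ (1 / 6 + e) :=
                mul_le_mul_of_nonneg_right hκu (by positivity)
            _ = V * ((x : ℝ) ^ (1 / 6 + e) * (3 / 2)) := by ring
            _ ≤ V * ((x : ℝ) ^ (1 / 6 + e) * (x : ℝ) ^ e) := by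
                apply mul_le_mul_of_nonneg_left _ hV0.le
                exact mul_le_mul_of_nonneg_left k5 (by positivity)
            _ = V * (x : ℝ) ^ (1 / 6 + 2 * e) := by
                rw [← Real.rpow_add hx0]
                congr 2
                ring)
        (by
          calc (H : ℝ) * L ^ B ≤ 4 * (V * (x : ℝ) ^ (1 / 6 + 2 * e)) * L ^ B :=
                mul_le_mul_of_nonneg_right hHu (by positivity)
            _ = V / L ^ (c + 7) * ((4 * L ^ (B + (c + 7))) * (x : ℝ) ^ (1 / 6 + 2 * e)) := by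
                rw [pow_add L B (c + 7)]
                field_simp
            _ ≤ V / L ^ (c + 7) * ((x : ℝ) ^ (1 / 20 : ℝ) * (x : ℝ) ^ (1 / 6 + 2 * e)) := by
                apply mul_le_mul_of_nonneg_left _ (by positivity)
                exact mul_le_mul_of_nonneg_right k6 (by positivity)
            _ ≤ V / L ^ (c + 7) * (x : ℝ) ^ (1 / 4 : ℝ) := by
                apply mul_le_mul_of_nonneg_left _ (by positivity)
                rw [← Real.rpow_add hx0]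
                exact Real.rpow_le_rpow_of_exponent_le hx1' (by linarith)
            _ ≤ k.natAbs * (x : ℝ) ^ (1 / 4 : ℝ) :=
                mul_le_mul_of_nonneg_right hκV (by positivity))
      refine hTT.trans ?_
      have h1 : (x : ℝ) * ((H : ℝ) / k.natAbs) ≤ Q * H * L ^ (c + 7) := by
        rw [← mul_div_assoc, div_le_iff₀ hκ0, ← hQV]
        have h2 := mul_le_mul_of_nonneg_left hκV
          (show (0 : ℝ) ≤ Q * H * L ^ (c + 7) by positivity)
        refine le_trans (le_of_eq ?_) h2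
        field_simp
      rw [pow_add L (c + 7)]
      calc (x : ℝ) * ((H : ℝ) / k.natAbs) / (L ^ (c + 7) * L ^ (2 * c + 12))
          ≤ Q * H * L ^ (c + 7) / (L ^ (c + 7) * L ^ (2 * c + 12)) :=
            div_le_div_of_nonneg_right h1 (by positivity)
        _ = Q * H / L ^ (2 * c + 12) := by field_simp)
  refine hdet.trans ?_
  -- the three terms
  have hxHV : (H : ℝ) * x / L ^ c = Q * H * (V / L ^ c) := by
    rw [← hQV]
    ring
  rw [hxHV]
  have t1 : (Q : ℝ) * H * (l * L ^ (B + 1)) ≤ Q * H * (V / L ^ c) / 4 := by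
    rw [mul_div_assoc]
    apply mul_le_mul_of_nonneg_left _ (by positivity)
    rw [div_div, le_div_iff₀ (by positivity)]
    have h1 := hpow ((2 * c + 12) + (B + 1) + c) (by omega)
    calc (l : ℝ) * L ^ (B + 1) * (L ^ c * 4) ≤ L ^ (2 * c + 12) * L ^ (B + 1) * (L ^ c * 4) := by
          apply mul_le_mul_of_nonneg_right _ (by positivity)
          exact mul_le_mul_of_nonneg_right hlu (by positivity)
      _ = 4 * L ^ ((2 * c + 12) + (B + 1) + c) := by rw [pow_add, pow_add]; ring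
      _ ≤ 100 * L ^ ((2 * c + 12) + (B + 1) + c) :=
          mul_le_mul_of_nonneg_right (by norm_num) (by positivity)
      _ ≤ V := h1
  have hL5 : (100 : ℝ) * L ^ c ≤ L ^ (c + 1) := by
    rw [pow_succ, mul_comm (100 : ℝ)]
    exact mul_le_mul_of_nonneg_left k4 (by positivity)
  have t2 : (Q : ℝ) * (2 * j0 * l) * Real.sqrt (H * (2 * H * L ^ 4))
      ≤ Q * H * (V / L ^ c) / 4 := by
    have s1 : Real.sqrt (H * (2 * H * L ^ 4)) ≤ 2 * (H * L ^ 2) := by
      rw [Real.sqrt_le_left (by positivity)]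
      have : (0 : ℝ) ≤ (H * L ^ 2) ^ 2 := by positivity
      calc (H : ℝ) * (2 * H * L ^ 4) = 2 * (H * L ^ 2) ^ 2 := by ring
        _ ≤ (2 * (H * L ^ 2)) ^ 2 := by nlinarith
    have s2 : (2 * j0 * l : ℝ) ≤ 4 * (V / L ^ (c + 7)) := by linarith
    calc (Q : ℝ) * (2 * j0 * l) * Real.sqrt (H * (2 * H * L ^ 4))
        ≤ Q * (4 * (V / L ^ (c + 7))) * (2 * (H * L ^ 2)) := by
          apply mul_le_mul _ s1 (Real.sqrt_nonneg _) (by positivity)
          exact mul_le_mul_of_nonneg_left s2 hQ0.le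
      _ = Q * H * V * (8 / L ^ (c + 5)) := by
          rw [show c + 7 = (c + 5) + 2 by ring, pow_add L (c + 5) 2]
          field_simp
          ring
      _ ≤ Q * H * V * (1 / (4 * L ^ c)) := by
          apply mul_le_mul_of_nonneg_left _ (by positivity)
          rw [div_le_div_iff₀ (by positivity) (by positivity)]
          have h2 : L ^ (c + 1) ≤ L ^ (c + 5) := pow_le_pow_right₀ hL1 (by omega)
          have h3 : (0 : ℝ) < L ^ c := by positivity
          linarith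
      _ = Q * H * (V / L ^ c) / 4 := by
          field_simp
  have t3 : 2 * (J : ℝ) * Real.sqrt (Q * H * (l * (Q * (2 * H * L ^ 4))
      + (l : ℝ) ^ 2 * (Q * H / L ^ (2 * c + 12)))) ≤ Q * H * (V / L ^ c) / 4 := by
    have s1 : (Q * H * (l * (Q * (2 * H * L ^ 4))
      + (l : ℝ) ^ 2 * (Q * H / L ^ (2 * c + 12)))) ≤ (3 * (Q * H * l) / L ^ (c + 4)) ^ 2 := by
      have h1 : (l : ℝ) * L ^ 4 ≤ 2 * (l : ℝ) ^ 2 / L ^ (2 * c + 8) := by
        rw [le_div_iff₀ (by positivity)]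
        have h2 := mul_le_mul_of_nonneg_left hll hlr0.le
        calc (l : ℝ) * L ^ 4 * L ^ (2 * c + 8) = l * L ^ (2 * c + 12) := by
              rw [mul_assoc, ← pow_add]
              congr 2
              ring
          _ ≤ l * (2 * l) := h2
          _ = 2 * (l : ℝ) ^ 2 := by ring
      have h3 : (l : ℝ) ^ 2 / L ^ (2 * c + 12) ≤ (l : ℝ) ^ 2 / L ^ (2 * c + 8) := by
        apply div_le_div_of_nonneg_left (by positivity) (by positivity)
        exact pow_le_pow_right₀ hL1 (by omega)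
      calc (Q * H * (l * (Q * (2 * H * L ^ 4)) + (l : ℝ) ^ 2 * (Q * H / L ^ (2 * c + 12))))
          = (Q * H) ^ 2 * (2 * (l * L ^ 4) + (l : ℝ) ^ 2 / L ^ (2 * c + 12)) := by ring
        _ ≤ (Q * H) ^ 2 * (2 * (2 * (l : ℝ) ^ 2 / L ^ (2 * c + 8))
            + (l : ℝ) ^ 2 / L ^ (2 * c + 8)) := by
            apply mul_le_mul_of_nonneg_left _ (by positivity)
            linarith
        _ = 5 * ((Q * H * l) ^ 2 / L ^ (2 * c + 8)) := by ring
        _ ≤ 9 * ((Q * H * l) ^ 2 / L ^ (2 * c + 8)) := by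
            apply mul_le_mul_of_nonneg_right (by norm_num) (by positivity)
        _ = (3 * (Q * H * l) / L ^ (c + 4)) ^ 2 := by
            rw [div_pow, ← pow_mul]
            rw [show (c + 4) * 2 = 2 * c + 8 by ring]
            ring
    have s2 : Real.sqrt (Q * H * (l * (Q * (2 * H * L ^ 4))
      + (l : ℝ) ^ 2 * (Q * H / L ^ (2 * c + 12)))) ≤ 3 * (Q * H * l) / L ^ (c + 4) := by
      rw [Real.sqrt_le_left (by positivity)]
      exact s1
    have s3 : 2 * (J : ℝ) ≤ 4 * (V / l) := by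
      have : 1 ≤ V / l := by
        rw [le_div_iff₀ hlr0]
        linarith
      linarith
    calc 2 * (J : ℝ) * Real.sqrt (Q * H * (l * (Q * (2 * H * L ^ 4))
      + (l : ℝ) ^ 2 * (Q * H / L ^ (2 * c + 12))))
        ≤ 4 * (V / l) * (3 * (Q * H * l) / L ^ (c + 4)) :=
          mul_le_mul s3 s2 (Real.sqrt_nonneg _) (by positivity)
      _ = Q * H * V * (12 / L ^ (c + 4)) := by
          field_simp
          ring
      _ ≤ Q * H * V * (1 / (4 * L ^ c)) := by
          apply mul_le_mul_of_nonneg_left _ (by positivity)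
          rw [div_le_div_iff₀ (by positivity) (by positivity)]
          have h2 : L ^ (c + 1) ≤ L ^ (c + 4) := pow_le_pow_right₀ hL1 (by omega)
          have h3 : (0 : ℝ) < L ^ c := by positivity
          linarith
      _ = Q * H * (V / L ^ c) / 4 := by
          field_simp
  have t4 : 0 ≤ (Q : ℝ) * H * (V / L ^ c) := by positivity
  linarith

end Pool.Agent.H91.L1
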