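import Mathlib
import Pool.Agent.H91.L1.SumA

/-!
# L1 SumB: all `H` with `Q H ≥ x^(7/6+3e)`

`H1 = ⌈(x/Q) x^(1/6+2e)⌉ ≤ H` for large `x`.  Cover `(a0, a0+H]` by the `⌊H/H1⌋` intervals `(a0 + i H1, a0 + (i+1) H1]` and the last one
`(a0 + H - H1, a0 + H]`, all inside `[0, x]`; at most `2H/H1` intervals, `sumA` with `c + 1` for each.
-/

set_option autoImplicit false

namespace Pool.Agent.H91.L1

open Finset
open Pool.Agent.H91.EHA (Lam lamR hR psiA err)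

private lemma SumB_blocks (F : ℕ → ℝ) (a0 H1 : ℕ) (n : ℕ) :
    ∑ a ∈ Ioc a0 (a0 + n * H1), F a
      = ∑ i ∈ range n, ∑ a ∈ Ioc (a0 + i * H1) (a0 + i * H1 + H1), F a := by
  induction n with
  | zero => simp
  | succ n ih =>
    rw [sum_range_succ, ← ih]
    have h1 : a0 + (n + 1) * H1 = a0 + n * H1 + H1 := by ring
    rw [h1]
    exact (sum_Ioc_consecutive F (by omega) (by omega)).symm

private lemma SumB_cover (F : ℕ → ℝ) (hF : ∀ a, 0 ≤ F a) (a0 H H1 : ℕ) (h1 : 1 ≤ H1)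
    (h2 : H1 ≤ H) :
    ∑ a ∈ Ioc a0 (a0 + H), F a
      ≤ ∑ i ∈ range (H / H1), ∑ a ∈ Ioc (a0 + i * H1) (a0 + i * H1 + H1), F a
        + ∑ a ∈ Ioc (a0 + (H - H1)) (a0 + (H - H1) + H1), F a := by
  have hle : H / H1 * H1 ≤ H := Nat.div_mul_le_self H H1
  have hlt : H < H / H1 * H1 + H1 := Nat.lt_div_mul_add (by omega)
  rw [← SumB_blocks F a0 H1 (H / H1),
    ← sum_Ioc_consecutive F (show a0 ≤ a0 + H / H1 * H1 by omega)
      (show a0 + H / H1 * H1 ≤ a0 + H by omega)]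
  refine add_le_add le_rfl (sum_le_sum_of_subset_of_nonneg ?_ fun i _ _ => hF i)
  intro a ha
  rw [mem_Ioc] at ha ⊢
  omega

private lemma SumB_ev (e : ℝ) (he : 0 < e) :
    ∃ x1 : ℕ, ∀ x : ℕ, x1 ≤ x → 2 ≤ (x : ℝ) ^ e ∧ 2 ≤ Real.log x := by
  have h1 : ∀ᶠ x : ℕ in Filter.atTop, 2 ≤ (x : ℝ) ^ e :=
    ((tendsto_rpow_atTop he).comp tendsto_natCast_atTop_atTop).eventually_ge_atTop 2
  have h2 : ∀ᶠ x : ℕ in Filter.atTop, 2 ≤ Real.log x :=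
    (Real.tendsto_log_atTop.comp tendsto_natCast_atTop_atTop).eventually_ge_atTop 2
  exact Filter.eventually_atTop.mp (h1.and h2)

theorem sumB (hH : HuxProp) (e : ℝ) (he : 0 < e) (he2 : e ≤ 1 / 100) (c : ℕ) : ∃ B0 : ℕ, ∀ B : ℕ,
    B0 ≤ B → ∃ C x0 : ℕ, ∀ x : ℕ, x0 ≤ x → ∀ a0 H Q : ℕ, ∀ y : ℕ → ℕ → ℕ, (∀ q a, y q a ≤ x) →
      a0 + H ≤ x → (x : ℝ) ^ (3 / 4 : ℝ) ≤ Q → (Q : ℝ) * Real.log x ^ C ≤ x →
      (x : ℝ) ^ (7 / 6 + 3 * e) ≤ Q * H →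
      ∑ q ∈ Ioc Q (2 * Q), ∑ a ∈ Ioc a0 (a0 + H),
        |∑ n ∈ (Icc 1 (y q a)).filter (fun n => n ≡ a [MOD q]), hR ⌊Real.log x ^ B⌋₊ n|
          ≤ H * x / Real.log x ^ c := by
  obtain ⟨B0, hB0⟩ := sumA hH e he he2 (c + 1)
  refine ⟨B0, fun B hB => ?_⟩
  obtain ⟨C, x0, h⟩ := hB0 B hB
  obtain ⟨x1, hx1⟩ := SumB_ev e he
  refine ⟨C, max x0 (max x1 1), fun x hx a0 H Q y hy haH hQ hQC hQH => ?_⟩
  have hxx0 : x0 ≤ x := le_trans (le_max_left _ _) hx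
  have hxx1 : x1 ≤ x := le_trans (le_trans (le_max_left _ _) (le_max_right _ _)) hx
  have hx1' : 1 ≤ x := le_trans (le_trans (le_max_right _ _) (le_max_right _ _)) hx
  obtain ⟨hxe, hL⟩ := hx1 x hxx1
  have hx0R : (0 : ℝ) < x := by exact_mod_cast hx1'
  have hx1R : (1 : ℝ) ≤ x := by exact_mod_cast hx1'
  have hLpos : 0 < Real.log x := by linarith
  have hQpos : (0 : ℝ) < Q := lt_of_lt_of_le (Real.rpow_pos_of_pos hx0R _) hQ
  have hLC : (1 : ℝ) ≤ Real.log x ^ C := one_le_pow₀ (by linarith)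
  have hQx : (Q : ℝ) ≤ x := by
    refine le_trans ?_ hQC
    exact le_mul_of_one_le_right hQpos.le hLC
  set W : ℝ := (x : ℝ) / Q * (x : ℝ) ^ (1 / 6 + 2 * e) with hW
  have hW1 : 1 ≤ W := by
    have a1 : 1 ≤ (x : ℝ) / Q := by rwa [one_le_div hQpos]
    have a2 : 1 ≤ (x : ℝ) ^ (1 / 6 + 2 * e) := Real.one_le_rpow hx1R (by linarith)
    calc (1 : ℝ) = 1 * 1 := by ring
      _ ≤ W := mul_le_mul a1 a2 zero_le_one (by positivity)
  have hWQ : (x : ℝ) ^ (7 / 6 + 3 * e) = Q * ((x : ℝ) ^ e * W) := by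
    have b1 : (x : ℝ) ^ (7 / 6 + 3 * e) = (x : ℝ) ^ e * ((x : ℝ) ^ (1 : ℝ) *
        (x : ℝ) ^ (1 / 6 + 2 * e)) := by
      rw [← Real.rpow_add hx0R, ← Real.rpow_add hx0R]
      congr 1
      ring
    rw [b1, Real.rpow_one, hW]
    field_simp
  have hHW : 2 * W ≤ H := by
    rw [hWQ] at hQH
    have c1 : (x : ℝ) ^ e * W ≤ H := le_of_mul_le_mul_left hQH hQpos
    have c2 : 2 * W ≤ (x : ℝ) ^ e * W := mul_le_mul_of_nonneg_right hxe (by linarith)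
    linarith
  set H1 : ℕ := ⌈W⌉₊ with hH1
  have hH1a : W ≤ (H1 : ℝ) := Nat.le_ceil W
  have hH1b : (H1 : ℝ) < W + 1 := Nat.ceil_lt_add_one (by linarith)
  have hH1c : 1 ≤ H1 := by
    have : (1 : ℝ) ≤ H1 := le_trans hW1 hH1a
    exact_mod_cast this
  have hH1d : H1 ≤ H := by
    have : (H1 : ℝ) ≤ H := by linarith
    exact_mod_cast this
  have key : ∀ a1 : ℕ, a1 + H1 ≤ x →
      ∑ q ∈ Ioc Q (2 * Q), ∑ a ∈ Ioc a1 (a1 + H1),
        |∑ n ∈ (Icc 1 (y q a)).filter (fun n => n ≡ a [MOD q]), hR ⌊Real.log x ^ B⌋₊ n|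
          ≤ H1 * x / Real.log x ^ (c + 1) := by
    intro a1 ha1
    exact h x hxx0 a1 H1 Q y hy ha1 hQ hQC hH1a (by linarith)
  have hN : H / H1 * H1 ≤ H := Nat.div_mul_le_self H H1
  have step : ∑ q ∈ Ioc Q (2 * Q), ∑ a ∈ Ioc a0 (a0 + H),
        |∑ n ∈ (Icc 1 (y q a)).filter (fun n => n ≡ a [MOD q]), hR ⌊Real.log x ^ B⌋₊ n|
      ≤ ∑ i ∈ range (H / H1), ∑ q ∈ Ioc Q (2 * Q), ∑ a ∈ Ioc (a0 + i * H1) (a0 + i * H1 + H1),
        |∑ n ∈ (Icc 1 (y q a)).filter (fun n => n ≡ a [MOD q]), hR ⌊Real.log x ^ B⌋₊ n|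
        + ∑ q ∈ Ioc Q (2 * Q), ∑ a ∈ Ioc (a0 + (H - H1)) (a0 + (H - H1) + H1),
        |∑ n ∈ (Icc 1 (y q a)).filter (fun n => n ≡ a [MOD q]), hR ⌊Real.log x ^ B⌋₊ n| := by
    rw [sum_comm (s := range (H / H1)) (t := Ioc Q (2 * Q)), ← sum_add_distrib]
    exact sum_le_sum fun q _ => SumB_cover _ (fun a => abs_nonneg _) a0 H H1 hH1c hH1d
  refine step.trans ?_
  have s1 : ∑ i ∈ range (H / H1), ∑ q ∈ Ioc Q (2 * Q),
      ∑ a ∈ Ioc (a0 + i * H1) (a0 + i * H1 + H1),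
        |∑ n ∈ (Icc 1 (y q a)).filter (fun n => n ≡ a [MOD q]), hR ⌊Real.log x ^ B⌋₊ n|
      ≤ (H / H1 : ℕ) * (H1 * x / Real.log x ^ (c + 1)) := by
    calc _ ≤ ∑ i ∈ range (H / H1), (H1 : ℝ) * x / Real.log x ^ (c + 1) := by
          refine sum_le_sum fun i hi => key _ ?_
          rw [mem_range] at hi
          have : (i + 1) * H1 ≤ H / H1 * H1 := Nat.mul_le_mul_right _ hi
          have e1 : (i + 1) * H1 = i * H1 + H1 := by ring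
          omega
      _ = _ := by rw [sum_const, card_range, nsmul_eq_mul]
  have s2 := key (a0 + (H - H1)) (by omega)
  have hNr : ((H / H1 : ℕ) : ℝ) * H1 ≤ H := by exact_mod_cast hN
  have hH1H : (H1 : ℝ) ≤ H := by exact_mod_cast hH1d
  have hpow : 0 < Real.log x ^ c := by positivity
  calc _ ≤ ((H / H1 : ℕ) : ℝ) * (H1 * x / Real.log x ^ (c + 1))
          + H1 * x / Real.log x ^ (c + 1) := add_le_add s1 s2
    _ = (((H / H1 : ℕ) : ℝ) * H1 + H1) * (x / Real.log x ^ (c + 1)) := by ring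
    _ ≤ (2 * H) * (x / Real.log x ^ (c + 1)) :=
        mul_le_mul_of_nonneg_right (by linarith) (by positivity)
    _ = (H * x / Real.log x ^ c) * (2 / Real.log x) := by
        rw [pow_succ]
        field_simp
    _ ≤ (H * x / Real.log x ^ c) * 1 := by
        refine mul_le_mul_of_nonneg_left ?_ (by positivity)
        rw [div_le_one hLpos]
        exact hL
    _ = H * x / Real.log x ^ c := by ring

end Pool.Agent.H91.L1
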