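import Mathlib
import Pool.Agent.H91.L1.SumB
import Pool.Agent.H91.L1.BlkO

/-!
# L1 Fin: assembly

`blkN`: `sumB` (`c + 4`, with `B ≥ max B0 (c + 8)`), `psi_of_hR`, `piY`, `pnt'`.
`level_one`: `dyadic_cover` (`EHA/Main.lean`) over all `q ≤ x/L^C` with `2^j < q ≤ 2^(j+1)`: if `q ≤ x^(9/10)` or (`q ≤ x^(1-ε)`) `blkO` with
`θ = max(9/10, 1-ε)`, otherwise `blkN`.
-/

set_option autoImplicit false

namespace Pool.Agent.H91.L1

open Finset
open Pool.Agent.H91.EHA (Lam lamR hR psiA err)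

/-- constants are smaller than powers -/
private theorem fin_large (κ : ℝ) (hκ : 0 < κ) (K : ℝ) : ∃ x0 : ℕ, ∀ x : ℕ, x0 ≤ x →
    K ≤ (x : ℝ) ^ κ := by
  obtain ⟨x1, hx1⟩ := Pool.Agent.H91.EHA.log_pow_le_rpow 1 κ hκ
  obtain ⟨x2, hx2⟩ := Pool.Agent.H91.EHA.log_ge K
  refine ⟨max x1 x2, fun x hx => ?_⟩
  have h1 := hx1 x (le_trans (le_max_left _ _) hx)
  have h2 := hx2 x (le_trans (le_max_right _ _) hx)
  rw [pow_one] at h1
  exact h2.trans h1

theorem blkN (hH : HuxProp) (e : ℝ) (he : 0 < e) (he2 : e ≤ 1 / 100) (c : ℕ) : ∃ C x0 : ℕ,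
    ∀ x : ℕ, x0 ≤ x → ∀ a0 Q H : ℕ, ∀ y : ℕ → ℕ → ℕ, (∀ q a, y q a ≤ x) →
      a0 + H ≤ x → (x : ℝ) ^ (3 / 4 : ℝ) ≤ Q → (Q : ℝ) * Real.log x ^ C ≤ x →
      (x : ℝ) ^ (7 / 6 + 3 * e) ≤ Q * H →
      ∑ q ∈ Ioc Q (2 * Q), ∑ a ∈ (Ioc a0 (a0 + H)).filter (fun a => Nat.Coprime a q),
        |err (y q a) q (a : ZMod q)| ≤ H * x / Real.log x ^ c := by
  obtain ⟨B0, hB0⟩ := sumB hH e he he2 (c + 4)
  set B : ℕ := max B0 (c + 6) with hB
  obtain ⟨C1, x1, hx1⟩ := hB0 B (le_max_left _ _)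
  obtain ⟨x2, hx2⟩ := psi_of_hR B (c + 2) (le_max_right _ _)
  obtain ⟨x3, hx3⟩ := piY c
  obtain ⟨x4, hx4⟩ := Pool.Agent.H91.EHA.pnt' (c + 5)
  obtain ⟨x5, hx5⟩ := Pool.Agent.H91.EHA.log_ge 1
  refine ⟨max C1 (max (3 * B + (c + 2) + 1) (c + 5)),
    max (max (max x1 x2) (max x3 x4)) (max x5 2),
    fun x hx a0 Q H y hy haH hQ hQC hQH => ?_⟩
  have i1 : x1 ≤ x := le_trans (le_trans (le_trans (le_max_left _ _) (le_max_left _ _))
    (le_max_left _ _)) hx
  have i2 : x2 ≤ x := le_trans (le_trans (le_trans (le_max_right _ _) (le_max_left _ _))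
    (le_max_left _ _)) hx
  have i3 : x3 ≤ x := le_trans (le_trans (le_trans (le_max_left _ _) (le_max_right _ _))
    (le_max_left _ _)) hx
  have i4 : x4 ≤ x := le_trans (le_trans (le_trans (le_max_right _ _) (le_max_right _ _))
    (le_max_left _ _)) hx
  have i5 : x5 ≤ x := le_trans (le_trans (le_max_left _ _) (le_max_right _ _)) hx
  have i6 : 2 ≤ x := le_trans (le_trans (le_max_right _ _) (le_max_right _ _)) hx
  have hL1 := hx5 x i5
  have hx2' : (2 : ℝ) ≤ x := by exact_mod_cast i6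
  have hx0 : (0 : ℝ) < x := by linarith
  have hQ0 : (0 : ℝ) < Q := lt_of_lt_of_le (by positivity) hQ
  have hQ1 : 1 ≤ Q := by exact_mod_cast hQ0
  have hQp : ∀ m : ℕ, m ≤ max C1 (max (3 * B + (c + 2) + 1) (c + 5)) →
      (Q : ℝ) * Real.log x ^ m ≤ x := by
    intro m hm
    refine le_trans ?_ hQC
    exact mul_le_mul_of_nonneg_left (pow_le_pow_right₀ hL1 hm) hQ0.le
  have hH1 : 1 ≤ H := by
    by_contra h
    have h0 : H = 0 := by omega
    rw [h0, Nat.cast_zero, mul_zero] at hQH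
    have : (0 : ℝ) < (x : ℝ) ^ (7 / 6 + 3 * e) := by positivity
    linarith
  refine hx3 x i3 a0 Q H (by omega) hH1 (by omega) hQ1
    (hQp (c + 5) (le_trans (le_max_right _ _) (le_max_right _ _)))
    (fun t ht => hx4 x i4 t ht) ?_ y hy
  intro y' hy'
  refine hx2 x i2 a0 Q H y' hy' hQ1
    (hQp (3 * B + (c + 2) + 1) (le_trans (le_max_left _ _) (le_max_right _ _))) ?_
  exact hx1 x i1 a0 H Q y' hy' haH hQ (hQp C1 (le_max_left _ _)) hQH

theorem level_one (hH : HuxProp) (ε : ℝ) (hε : 0 < ε) (c : ℕ) : ∃ C x₀ : ℕ, ∀ x : ℕ, x₀ ≤ x →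
    ∀ a₀ H : ℕ, (x : ℝ) ^ ε ≤ H → a₀ + H ≤ x → ∀ y : ℕ → ℕ → ℕ, (∀ q a, y q a ≤ x) →
      ∑ q ∈ (Icc 1 ⌊(x : ℝ) / Real.log x ^ C⌋₊).filter (fun q : ℕ => (x : ℝ) ^ (1 / 3 + ε) ≤ H ∨
          (q : ℝ) ^ 2 ≤ H * (x : ℝ) ^ (1 - ε) ∨
          ((x : ℝ) ^ (1 + ε) ≤ q * H ∧ (q : ℝ) ≤ (x : ℝ) ^ (1 - ε)) ∨
          (x : ℝ) ^ (7 / 6 + ε) ≤ q * H),
        ∑ a ∈ (Ioc a₀ (a₀ + H)).filter (fun a => Nat.Coprime a q),
          |err (y q a) q (a : ZMod q)| ≤ H * x / Real.log x ^ c := by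
  classical
  set e : ℝ := min (ε / 6) (1 / 100) with he
  have he0 : 0 < e := lt_min (by linarith) (by norm_num)
  have he1 : e ≤ ε / 6 := min_le_left _ _
  have he2 : e ≤ 1 / 100 := min_le_right _ _
  set θ : ℝ := max (9 / 10) (1 - ε) with hθd
  have hθ : θ < 1 := max_lt (by norm_num) (by linarith)
  have hθ1 : (9 / 10 : ℝ) ≤ θ := le_max_left _ _
  have hθ2 : 1 - ε ≤ θ := le_max_right _ _
  obtain ⟨C, x1, hx1⟩ := blkN hH e he0 he2 (c + 2)
  obtain ⟨x2, hx2⟩ := blkO θ ε hθ hε (c + 2)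
  obtain ⟨x3, hx3⟩ := Pool.Agent.H91.EHA.log_ge 4
  obtain ⟨x4, hx4⟩ := fin_large (min (ε / 2) (1 / 100)) (lt_min (by linarith) (by norm_num)) 4
  refine ⟨C, max (max (max x1 x2) (max x3 x4)) 3, fun x hx a0 H hHε haH y hy => ?_⟩
  have i1 : x1 ≤ x := le_trans (le_trans (le_trans (le_max_left _ _) (le_max_left _ _))
    (le_max_left _ _)) hx
  have i2 : x2 ≤ x := le_trans (le_trans (le_trans (le_max_right _ _) (le_max_left _ _))
    (le_max_left _ _)) hx
  have i3 : x3 ≤ x := le_trans (le_trans (le_trans (le_max_left _ _) (le_max_right _ _))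
    (le_max_left _ _)) hx
  have i4 : x4 ≤ x := le_trans (le_trans (le_trans (le_max_right _ _) (le_max_right _ _))
    (le_max_left _ _)) hx
  have i5 : 3 ≤ x := le_trans (le_max_right _ _) hx
  have hx3' : (3 : ℝ) ≤ x := by exact_mod_cast i5
  have hxpos : (0 : ℝ) < x := by linarith
  have hxone : (1 : ℝ) ≤ x := by linarith
  have hL4 := hx3 x i3
  have h4x := hx4 x i4
  have h4e : (4 : ℝ) ≤ (x : ℝ) ^ (ε / 2) :=
    h4x.trans (Real.rpow_le_rpow_of_exponent_le hxone (min_le_left _ _))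
  have h4h : (4 : ℝ) ≤ (x : ℝ) ^ (1 / 100 : ℝ) :=
    h4x.trans (Real.rpow_le_rpow_of_exponent_le hxone (min_le_right _ _))
  set L : ℝ := Real.log x with hL
  have hLpos : 0 < L := by linarith
  have hL1 : 1 ≤ L := by linarith
  have hH1r : (1 : ℝ) ≤ H := le_trans (Real.one_le_rpow hxone hε.le) hHε
  have hHpos : (0 : ℝ) < H := by linarith
  set M : ℕ := ⌊(x : ℝ) / L ^ C⌋₊ with hM
  set J : ℕ := Nat.log 2 x + 1 with hJ
  have hMr : (M : ℝ) ≤ (x : ℝ) / L ^ C := Nat.floor_le (by positivity)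
  have hMx : M ≤ x := by
    have : (M : ℝ) ≤ x := by
      refine hMr.trans ?_
      exact div_le_self hxpos.le (one_le_pow₀ hL1)
    exact_mod_cast this
  have hMJ : M < 2 ^ J := lt_of_le_of_lt hMx (Nat.lt_pow_succ_log_self (by norm_num) x)
  have hdy := Pool.Agent.H91.EHA.dyadic_cover
    (fun q => ∑ a ∈ (Ioc a0 (a0 + H)).filter (fun a => Nat.Coprime a q),
      |err (y q a) q (a : ZMod q)|) (fun q => Finset.sum_nonneg fun a _ => abs_nonneg _) M J hMJ
    (fun q : ℕ => (x : ℝ) ^ (1 / 3 + ε) ≤ H ∨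
          (q : ℝ) ^ 2 ≤ H * (x : ℝ) ^ (1 - ε) ∨
          ((x : ℝ) ^ (1 + ε) ≤ q * H ∧ (q : ℝ) ≤ (x : ℝ) ^ (1 - ε)) ∨
          (x : ℝ) ^ (7 / 6 + ε) ≤ q * H)
    (by
      apply Finset.sum_eq_zero
      intro a _
      rw [Pool.Agent.H91.EHA.err_one, abs_zero]) (H * x / L ^ (c + 2)) (by positivity)
    (by
      intro j _ q hqM hqP hjq hqj
      set Q : ℕ := 2 ^ j with hQd
      have hQ1 : 1 ≤ Q := Nat.one_le_two_pow
      have hQ0 : (0 : ℝ) < Q := by exact_mod_cast hQ1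
      have hjq' : (Q : ℝ) < q := by exact_mod_cast hjq
      have hqj' : (q : ℝ) ≤ 2 * (Q : ℝ) := by
        have : q ≤ 2 * Q := by
          rw [pow_succ] at hqj
          omega
        exact_mod_cast this
      have hq0 : (0 : ℝ) < q := by linarith
      have hqM' : (q : ℝ) ≤ (x : ℝ) / L ^ C := by
        refine le_trans ?_ hMr
        exact_mod_cast hqM
      by_cases hqθ : (q : ℝ) ≤ (x : ℝ) ^ θ
      · -- the old range
        refine hx2 x i2 a0 Q H y hy haH hHε hQ1 (hjq'.le.trans hqθ) ?_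
        by_contra hcon
        push Not at hcon
        obtain ⟨n1, n2⟩ := hcon
        rcases hqP with h | h | h | h
        · have h5 : ((H : ℝ) * (x : ℝ) ^ (1 - ε)) * (H : ℝ) ^ 2 < ((x : ℝ) ^ (1 + ε)) ^ 2 := by
            calc ((H : ℝ) * (x : ℝ) ^ (1 - ε)) * (H : ℝ) ^ 2
                < (Q : ℝ) ^ 2 * (H : ℝ) ^ 2 := by
                  apply mul_lt_mul_of_pos_right n1 (by positivity)
              _ = ((Q : ℝ) * (H : ℝ)) ^ 2 := by ring
              _ ≤ ((x : ℝ) ^ (1 + ε)) ^ 2 := by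
                  apply pow_le_pow_left₀ (by positivity)
                  have : (0 : ℝ) < (Q : ℝ) * H := by positivity
                  linarith
          have h6 : ((x : ℝ) ^ (1 / 3 + ε)) ^ 3 ≤ (H : ℝ) ^ 3 :=
            pow_le_pow_left₀ (by positivity) h 3
          have h7 : ((x : ℝ) ^ (1 + ε)) ^ 2 = ((x : ℝ) ^ (1 / 3 + ε)) ^ 3 * (x : ℝ) ^ (1 - ε) := by
            rw [← Real.rpow_natCast, ← Real.rpow_natCast, ← Real.rpow_mul hxpos.le,
              ← Real.rpow_mul hxpos.le, ← Real.rpow_add hxpos]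
            congr 1
            push_cast
            ring
          rw [h7] at h5
          have h8 : ((x : ℝ) ^ (1 / 3 + ε)) ^ 3 * (x : ℝ) ^ (1 - ε)
              ≤ (H : ℝ) ^ 3 * (x : ℝ) ^ (1 - ε) :=
            mul_le_mul_of_nonneg_right h6 (by positivity)
          have h9 : ((H : ℝ) * (x : ℝ) ^ (1 - ε)) * (H : ℝ) ^ 2
              = (H : ℝ) ^ 3 * (x : ℝ) ^ (1 - ε) := by ring
          linarith
        · have h5 : (Q : ℝ) ^ 2 ≤ (q : ℝ) ^ 2 := pow_le_pow_left₀ hQ0.le hjq'.le 2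
          linarith
        · have h5 : (q : ℝ) * H ≤ 2 * Q * H := mul_le_mul_of_nonneg_right hqj' hHpos.le
          linarith [h.1]
        · have h5 : (q : ℝ) * H ≤ 2 * Q * H := mul_le_mul_of_nonneg_right hqj' hHpos.le
          have h6 : (x : ℝ) ^ (1 + ε) ≤ (x : ℝ) ^ (7 / 6 + ε) :=
            Real.rpow_le_rpow_of_exponent_le hxone (by linarith)
          linarith
      · -- the new range
        push Not at hqθ
        have hq9 : (x : ℝ) ^ (9 / 10 : ℝ) < q :=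
          lt_of_le_of_lt (Real.rpow_le_rpow_of_exponent_le hxone hθ1) hqθ
        have hqε : (x : ℝ) ^ (1 - ε) < q :=
          lt_of_le_of_lt (Real.rpow_le_rpow_of_exponent_le hxone hθ2) hqθ
        have hQ34 : (x : ℝ) ^ (3 / 4 : ℝ) ≤ Q := by
          have h5 : (x : ℝ) ^ (3 / 4 : ℝ) * 4 ≤ (x : ℝ) ^ (9 / 10 : ℝ) := by
            calc (x : ℝ) ^ (3 / 4 : ℝ) * 4 ≤ (x : ℝ) ^ (3 / 4 : ℝ) * (x : ℝ) ^ (1 / 100 : ℝ) :=
                  mul_le_mul_of_nonneg_left h4h (by positivity)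
              _ = (x : ℝ) ^ (3 / 4 + 1 / 100 : ℝ) := by rw [← Real.rpow_add hxpos]
              _ ≤ _ := Real.rpow_le_rpow_of_exponent_le hxone (by norm_num)
          have h6 : (0 : ℝ) < (x : ℝ) ^ (3 / 4 : ℝ) := by positivity
          linarith
        have hQC : (Q : ℝ) * L ^ C ≤ x := by
          have h5 := (le_div_iff₀ (by positivity)).1 hqM'
          refine le_trans ?_ h5
          exact mul_le_mul_of_nonneg_right hjq'.le (by positivity)
        refine hx1 x i1 a0 Q H y hy haH hQ34 hQC ?_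
        -- `x ^ (7/6 + 3e) ≤ Q H`
        have key : (x : ℝ) ^ (7 / 6 + ε) ≤ q * H → (x : ℝ) ^ (7 / 6 + 3 * e) ≤ Q * H := by
          intro h
          have h5 : (x : ℝ) ^ (7 / 6 + 3 * e) * 4 ≤ (x : ℝ) ^ (7 / 6 + ε) := by
            calc (x : ℝ) ^ (7 / 6 + 3 * e) * 4
                ≤ (x : ℝ) ^ (7 / 6 + 3 * e) * (x : ℝ) ^ (ε / 2) :=
                  mul_le_mul_of_nonneg_left h4e (by positivity)
              _ = (x : ℝ) ^ (7 / 6 + 3 * e + ε / 2) := by rw [← Real.rpow_add hxpos]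
              _ ≤ _ := Real.rpow_le_rpow_of_exponent_le hxone (by linarith)
          have h6 : (q : ℝ) * H ≤ 2 * Q * H := mul_le_mul_of_nonneg_right hqj' hHpos.le
          have h7 : (0 : ℝ) < (x : ℝ) ^ (7 / 6 + 3 * e) := by positivity
          linarith
        rcases hqP with h | h | h | h
        · apply key
          calc (x : ℝ) ^ (7 / 6 + ε) ≤ (x : ℝ) ^ (9 / 10 + (1 / 3 + ε) : ℝ) :=
                Real.rpow_le_rpow_of_exponent_le hxone (by linarith)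
            _ = (x : ℝ) ^ (9 / 10 : ℝ) * (x : ℝ) ^ (1 / 3 + ε) := by rw [Real.rpow_add hxpos]
            _ ≤ q * H := mul_le_mul hq9.le h (by positivity) hq0.le
        · -- `H ≥ q`
          have h5 : (q : ℝ) ≤ H := by
            have h6 : (q : ℝ) * (x : ℝ) ^ (1 - ε) ≤ H * (x : ℝ) ^ (1 - ε) := by
              refine le_trans ?_ h
              rw [sq]
              exact mul_le_mul_of_nonneg_left hqε.le hq0.le
            exact le_of_mul_le_mul_right h6 (by positivity)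
          have h7 : (x : ℝ) ^ (9 / 10 + 9 / 10 : ℝ) ≤ q * H := by
            rw [Real.rpow_add hxpos]
            exact mul_le_mul hq9.le (hq9.le.trans h5) (by positivity) hq0.le
          have h8 : (x : ℝ) ^ (7 / 6 + 3 * e) * 4 ≤ (x : ℝ) ^ (9 / 10 + 9 / 10 : ℝ) := by
            calc (x : ℝ) ^ (7 / 6 + 3 * e) * 4
                ≤ (x : ℝ) ^ (7 / 6 + 3 * e) * (x : ℝ) ^ (1 / 100 : ℝ) :=
                  mul_le_mul_of_nonneg_left h4h (by positivity)
              _ = (x : ℝ) ^ (7 / 6 + 3 * e + 1 / 100) := by rw [← Real.rpow_add hxpos]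
              _ ≤ _ := Real.rpow_le_rpow_of_exponent_le hxone (by linarith)
          have h6 : (q : ℝ) * H ≤ 2 * Q * H := mul_le_mul_of_nonneg_right hqj' hHpos.le
          have h9 : (0 : ℝ) < (x : ℝ) ^ (7 / 6 + 3 * e) := by positivity
          linarith
        · exact absurd h.2 (not_le.2 hqε)
        · exact key h)
  refine hdy.trans ?_
  -- `J ≤ L^2`
  have hJL : (J : ℝ) ≤ L ^ 2 := by
    have h1 : ((Nat.log 2 x : ℕ) : ℝ) * Real.log 2 ≤ L := by
      have h2 : (2 : ℝ) ^ (Nat.log 2 x) ≤ x := by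
        exact_mod_cast Nat.pow_log_le_self 2 (by omega : x ≠ 0)
      have h3 := Real.log_le_log (by positivity) h2
      rwa [Real.log_pow] at h3
    have h2 := Real.log_two_gt_d9
    have h3 : ((Nat.log 2 x : ℕ) : ℝ) ≤ 2 * L := by
      have h4 : (0 : ℝ) ≤ ((Nat.log 2 x : ℕ) : ℝ) := by positivity
      nlinarith
    rw [hJ]
    push_cast
    nlinarith
  calc (J : ℝ) * (H * x / L ^ (c + 2)) ≤ L ^ 2 * (H * x / L ^ (c + 2)) := by
        apply mul_le_mul_of_nonneg_right hJL (by positivity)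
    _ = H * x / L ^ c := by
        rw [pow_add]
        field_simp

end Pool.Agent.H91.L1
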