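import Mathlib
import Pool.Agent.H91.L1.Defs
import Pool.Agent.H88.PSI.HuxT

/-!
# L1 HuxI: `HuxProp` from project PSI (helper88)
-/

set_option autoImplicit false

namespace Pool.Agent.H91.L1

open Finset
open Pool.Agent.H91.EHA (Lam)

theorem huxProp : HuxProp := by
  intro e he A B
  obtain ⟨X0, h⟩ := Pool.Agent.H88.PSI.hux e he A B
  refine ⟨X0, fun X hX d u H hd hdB hu hH1 hH2 => ?_⟩
  refine le_trans (le_of_eq ?_) (h X hX d u H hd hdB hu hH1 hH2)
  refine sum_congr rfl fun w _ => ?_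
  have h1 : Pool.Agent.H88.PSI.W (Pool.Agent.H88.PSI.cl d u Pool.Agent.H88.PSI.La) H w
      = ((∑ n ∈ (Ioc w (w + H)).filter (fun n => n ≡ u [MOD d]), Lam n : ℝ) : ℂ) := by
    unfold Pool.Agent.H88.PSI.W Pool.Agent.H88.PSI.cl
    rw [Complex.ofReal_sum, sum_filter]
    rfl
  rw [h1]
  have h2 : ((∑ n ∈ (Ioc w (w + H)).filter (fun n => n ≡ u [MOD d]), Lam n : ℝ) : ℂ)
      - (H : ℂ) / (d.totient : ℂ)
      = (((∑ n ∈ (Ioc w (w + H)).filter (fun n => n ≡ u [MOD d]), Lam n)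
        - (H : ℝ) / (d.totient : ℝ) : ℝ) : ℂ) := by
    push_cast
    ring
  rw [h2, Complex.norm_real, Real.norm_eq_abs, sq_abs]

end Pool.Agent.H91.L1
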